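import Pool.Agent.Helper454.BiorthTod4

/-!
# The space of continuous functions is Asplund
-/

namespace Pool.Agent.Helper454.Biorth

open Set Filter Topology Cardinal

/-- Functionals on `C(K, 𝕜)`, `K` scattered, are close to combinations of point evaluations. -/
theorem exists_near_span {𝕜 : Type*} [RCLike 𝕜] {K : Type} [TopologicalSpace K] [CompactSpace K]
    [T2Space K] (hK : Pool.Agent.BP245.Scattered K) (h : C(K, 𝕜) →L[𝕜] 𝕜) (ε : ℝ) (hε : 0 < ε) :
    ∃ (Φ : Finset K) (c : Φ → 𝕜), ‖h - ∑ t : Φ, c t • ContinuousMap.evalCLM 𝕜 (t : K)‖ ≤ ε := by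
  classical
  obtain ⟨Φ, η, hη, hs⟩ := functional_small' hK h 1 ε one_pos hε
  let L : Φ → C(K, 𝕜) →ₗ[𝕜] 𝕜 := fun t => (ContinuousMap.evalCLM 𝕜 (t : K) : C(K, 𝕜) →L[𝕜] 𝕜)
  let N : Submodule 𝕜 C(K, 𝕜) := ⨅ t, LinearMap.ker (L t)
  have hN : ∀ x ∈ N, ∀ t ∈ Φ, x t = 0 := by
    intro x hx t ht
    have h1 := (Submodule.mem_iInf _).1 hx ⟨t, ht⟩
    exact h1
  have hbound : ∀ x : N, ‖(h.comp N.subtypeL) x‖ ≤ ε * ‖x‖ := by
    intro x
    by_cases hx : ‖x‖ = 0
    · have hx0 : x = 0 := norm_eq_zero.1 hx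
      rw [hx0]
      simp
    · have hpos : 0 < ‖x‖ := lt_of_le_of_ne (norm_nonneg _) (Ne.symm hx)
      have h1 : ‖h ((‖x‖ : 𝕜)⁻¹ • (x : C(K, 𝕜)))‖ ≤ ε := by
        apply hs
        · rw [norm_smul, norm_inv, RCLike.norm_ofReal, abs_norm]
          exact (inv_mul_cancel₀ hx).le
        · intro t ht
          rw [ContinuousMap.smul_apply, hN x x.2 t ht, smul_zero, norm_zero]
          exact hη.le
      rw [map_smul, smul_eq_mul, norm_mul, norm_inv, RCLike.norm_ofReal, abs_norm,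
        inv_mul_le_iff₀ hpos, mul_comm] at h1
      exact h1
  obtain ⟨h', hh', hn'⟩ := exists_extension_norm_eq N (h.comp N.subtypeL)
  have hn : ‖h'‖ ≤ ε := by
    rw [hn']
    exact ContinuousLinearMap.opNorm_le_bound _ hε.le hbound
  have hker : ⨅ t, LinearMap.ker (L t) ≤ LinearMap.ker ((h - h' : C(K, 𝕜) →L[𝕜] 𝕜) :
      C(K, 𝕜) →ₗ[𝕜] 𝕜) := by
    intro x hx
    rw [LinearMap.mem_ker]
    change h x - h' x = 0
    have h1 := hh' ⟨x, hx⟩
    have h2 : (h.comp N.subtypeL) ⟨x, hx⟩ = h x := rfl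
    rw [h2] at h1
    rw [← h1]
    exact sub_self _
  have h2 := mem_span_of_iInf_ker_le_ker hker
  obtain ⟨c, hc⟩ := (Submodule.mem_span_range_iff_exists_fun 𝕜).1 h2
  refine ⟨Φ, c, ?_⟩
  have h3 : h - ∑ t : Φ, c t • (ContinuousMap.evalCLM 𝕜 (t : K) : C(K, 𝕜) →L[𝕜] 𝕜) = h' := by
    ext x
    have h4 := LinearMap.congr_fun hc x
    simp only [LinearMap.sum_apply, LinearMap.smul_apply, ContinuousLinearMap.coe_coe,
      ContinuousLinearMap.toLinearMap_sub, LinearMap.sub_apply, L] at h4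
    simp only [sub_apply, sum_apply, smul_apply]
    rw [h4]
    ring
  rw [h3]
  exact hn

namespace TodData

variable (D : TodData)

theorem isAsplund (𝕜 : Type) [RCLike 𝕜] : IsAsplund 𝕜 C(D.Kc, 𝕜) := by
  classical
  intro Y hY
  by_cases hne : Nonempty Y
  swap
  · exact absurd ⟨0⟩ hne
  obtain ⟨y, hy⟩ := TopologicalSpace.exists_dense_seq Y
  obtain ⟨δ, hδ⟩ := D.exists_const 𝕜 (fun n => (y n : C(D.Kc, 𝕜)))
  have hall : ∀ z : Y, ∀ a ≥ δ, (z : C(D.Kc, 𝕜)) (D.ofW a : D.Kc) =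
      (z : C(D.Kc, 𝕜)) OnePoint.infty := by
    intro z a ha
    have hcl : IsClosed {z : Y | (z : C(D.Kc, 𝕜)) (D.ofW a : D.Kc) =
        (z : C(D.Kc, 𝕜)) OnePoint.infty} := by
      apply isClosed_eq
      · exact (continuous_eval_const _).comp continuous_subtype_val
      · exact (continuous_eval_const _).comp continuous_subtype_val
    have h1 : closure (range y) ⊆ {z : Y | (z : C(D.Kc, 𝕜)) (D.ofW a : D.Kc) =
        (z : C(D.Kc, 𝕜)) OnePoint.infty} := by
      apply closure_minimal _ hcl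
      rintro _ ⟨n, rfl⟩
      exact hδ a ha n
    exact h1 (by rw [hy.closure_eq]; exact mem_univ z)
  let ev : D.Kc → (Y →L[𝕜] 𝕜) := fun t => (ContinuousMap.evalCLM 𝕜 t).comp Y.subtypeL
  have hev : ∀ a ≥ δ, ev (D.ofW a : D.Kc) = ev OnePoint.infty := by
    intro a ha
    ext z
    exact hall z a ha
  have hcount : (range ev).Countable := by
    have h1 : range ev ⊆ insert (ev OnePoint.infty) ((fun a : W => ev (D.ofW a : D.Kc)) '' Iio δ) := by
      rintro _ ⟨t, rfl⟩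
      induction t using OnePoint.rec with
      | infty => exact mem_insert _ _
      | coe t =>
        by_cases ht : D.toW t < δ
        · exact Or.inr ⟨D.toW t, ht, rfl⟩
        · left
          exact hev (D.toW t) (not_lt.1 ht)
    exact (((countable_Iio_W δ).image _).insert _).mono h1
  have hsep : TopologicalSpace.IsSeparable ((Submodule.span 𝕜 (range ev) :
      Submodule 𝕜 (Y →L[𝕜] 𝕜)) : Set (Y →L[𝕜] 𝕜)) := hcount.isSeparable.span
  have hdense : closure ((Submodule.span 𝕜 (range ev) :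
      Submodule 𝕜 (Y →L[𝕜] 𝕜)) : Set (Y →L[𝕜] 𝕜)) = Set.univ := by
    apply eq_univ_of_forall
    intro φ
    refine (@Metric.mem_closure_iff (Y →L[𝕜] 𝕜)
      SeminormedAddCommGroup.toPseudoMetricSpace _ _).2 fun ε hε => ?_
    obtain ⟨h, hh, -⟩ := exists_extension_norm_eq Y φ
    obtain ⟨Φ, c, hc⟩ := exists_near_span D.scattered_Kc h (ε / 2) (by positivity)
    refine ⟨∑ t : Φ, c t • ev t, ?_, ?_⟩
    · exact Submodule.sum_mem _ fun t _ =>
        Submodule.smul_mem _ _ (Submodule.subset_span (mem_range_self _))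
    · rw [dist_eq_norm]
      have h1 : φ - ∑ t : Φ, c t • ev t =
          (h - ∑ t : Φ, c t • ContinuousMap.evalCLM 𝕜 (t : D.Kc)).comp Y.subtypeL := by
        ext z
        have h2 : h (z : C(D.Kc, 𝕜)) = φ z := hh z
        simp only [sub_apply, sum_apply, smul_apply, ContinuousLinearMap.comp_apply, ev]
        change φ z - _ = h z - _
        rw [h2]
      rw [h1]
      have h3 : ‖(h - ∑ t : Φ, c t • ContinuousMap.evalCLM 𝕜 (t : D.Kc)).comp Y.subtypeL‖ ≤
          ‖h - ∑ t : Φ, c t • ContinuousMap.evalCLM 𝕜 (t : D.Kc)‖ * ‖Y.subtypeL‖ :=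
        ContinuousLinearMap.opNorm_comp_le _ _
      have h4 : ‖Y.subtypeL‖ ≤ 1 := Submodule.norm_subtypeL_le Y
      have h5 : ‖h - ∑ t : Φ, c t • ContinuousMap.evalCLM 𝕜 (t : D.Kc)‖ * ‖Y.subtypeL‖ ≤
          ε / 2 * 1 := mul_le_mul hc h4 (norm_nonneg Y.subtypeL) (by positivity)
      linarith
  have h2 := hsep.closure
  rw [hdense] at h2
  exact TopologicalSpace.isSeparable_univ_iff.1 h2

end TodData

end Pool.Agent.Helper454.Biorth
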