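import Pool.Agent.Helper454.BiorthBall
import Pool.Agent.Helper454.BiorthTod5

/-!
# Spaces of continuous functions on sequentially compact compact spaces
-/

namespace Pool.Agent.Helper454.Biorth

open Set Filter Topology Cardinal

section

variable {𝕜 : Type*} [RCLike 𝕜] {K : Type*} [TopologicalSpace K] [CompactSpace K]

/-- Point evaluations. -/
noncomputable def pointMass (𝕜 : Type*) [RCLike 𝕜] {K : Type*} [TopologicalSpace K]
    [CompactSpace K] (t : K) : WeakDual 𝕜 C(K, 𝕜) :=
  StrongDual.toWeakDual (ContinuousMap.evalCLM 𝕜 t : C(K, 𝕜) →L[𝕜] 𝕜)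

theorem pointMass_apply (t : K) (x : C(K, 𝕜)) : pointMass 𝕜 t x = x t := rfl

theorem continuous_pointMass : Continuous (pointMass 𝕜 : K → WeakDual 𝕜 C(K, 𝕜)) := by
  refine WeakBilin.continuous_of_continuous_eval _ fun x => ?_
  exact x.continuous

theorem pointMass_mem_dualBall (t : K) : pointMass 𝕜 t ∈ dualBall 𝕜 C(K, 𝕜) := by
  change ‖(ContinuousMap.evalCLM 𝕜 t : C(K, 𝕜) →L[𝕜] 𝕜)‖ ≤ 1
  refine ContinuousLinearMap.opNorm_le_bound _ zero_le_one fun x => ?_
  rw [one_mul]
  exact x.norm_coe_le_norm t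

end

/-- For a nonmetrizable compact space no countable set of functions separates points. -/
theorem exists_ne_pointMass {𝕜 : Type*} [RCLike 𝕜] {K : Type*} [TopologicalSpace K]
    [CompactSpace K] [T2Space K] (hK : ¬ TopologicalSpace.MetrizableSpace K)
    (C : Set C(K, 𝕜)) (hC : C.Countable) :
    ∃ f ∈ range (pointMass 𝕜 : K → WeakDual 𝕜 C(K, 𝕜)),
      ∃ g ∈ range (pointMass 𝕜 : K → WeakDual 𝕜 C(K, 𝕜)), f ≠ g ∧ ∀ x ∈ C, f x = g x := by
  classical
  by_contra hcon
  push Not at hcon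
  apply hK
  obtain ⟨y, hy⟩ := (hC.insert 0).exists_eq_range (insert_nonempty _ _)
  refine Metric.PiNatEmbed.TopologicalSpace.MetrizableSpace.of_countable_separating (Y := fun _ : ℕ => 𝕜)
    (fun n t => y n t) (fun n => (y n).continuous) ?_
  intro s t hst
  have hne : pointMass 𝕜 s ≠ pointMass 𝕜 t := by
    obtain ⟨u, hu0, hu1, -⟩ := exists_continuous_zero_one_of_isClosed
      (isClosed_singleton (x := s)) (isClosed_singleton (x := t)) (by simpa using hst)
    let v : C(K, 𝕜) := ⟨fun t => ((u t : ℝ) : 𝕜), by fun_prop⟩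
    intro h
    have h1 : v s = v t := congrArg (fun f : WeakDual 𝕜 C(K, 𝕜) => f v) h
    have h3 : v s = 0 := by
      change ((u s : ℝ) : 𝕜) = 0
      rw [hu0 rfl]
      simp
    have h4 : v t = 1 := by
      change ((u t : ℝ) : 𝕜) = 1
      rw [hu1 rfl]
      simp
    rw [h3, h4] at h1
    exact zero_ne_one h1
  obtain ⟨x, hx, hx'⟩ := hcon _ ⟨s, rfl⟩ _ ⟨t, rfl⟩ hne
  have h1 : x ∈ range y := by
    rw [← hy]
    exact mem_insert_of_mem _ hx
  obtain ⟨n, rfl⟩ := h1
  exact ⟨n, hx'⟩

theorem hasUncountable_CK (hPID : PID) (hb : Cardinal.aleph 1 < bounding) {𝕜 : Type} [RCLike 𝕜]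
    {K : Type*} [TopologicalSpace K] [CompactSpace K] [T2Space K] [SeqCompactSpace K]
    (hK : ¬ TopologicalSpace.MetrizableSpace K) :
    HasUncountableBiorthogonalSystem 𝕜 C(K, 𝕜) :=
  theoremC hPID hb (range (pointMass 𝕜 : K → WeakDual 𝕜 C(K, 𝕜)))
    (IsSeqCompact.range continuous_pointMass.seqContinuous)
    fun C hC => exists_ne_pointMass hK C hC

/-- If the dual ball of `C(K)` is weak* sequentially compact then `K` is sequentially compact. -/
theorem seqCompactSpace_of_dualBall {𝕜 : Type*} [RCLike 𝕜] {K : Type*} [TopologicalSpace K]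
    [CompactSpace K] [T2Space K] (h : IsSeqCompact (dualBall 𝕜 C(K, 𝕜))) : SeqCompactSpace K := by
  refine ⟨fun t _ => ?_⟩
  obtain ⟨g, -, φ, hφ, hg⟩ := h (x := fun n => pointMass 𝕜 (t n)) fun n => pointMass_mem_dualBall _
  obtain ⟨s, -, hs⟩ := (isCompact_univ (X := K)).exists_mapClusterPt (f := atTop) (u := t ∘ φ)
    (by simp)
  refine ⟨s, mem_univ _, φ, hφ, ?_⟩
  have hcl : ∀ s' : K, MapClusterPt s' atTop (t ∘ φ) → s' = s := by
    have h1 : ∀ s' : K, MapClusterPt s' atTop (t ∘ φ) → ∀ x : C(K, 𝕜), x s' = g x := by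
      intro s' hs' x
      have h2 : MapClusterPt (x s') atTop (fun n => x (t (φ n))) :=
        hs'.continuousAt_comp (f := fun u => x u) x.continuous.continuousAt
      have h3 : Tendsto (fun n => x (t (φ n))) atTop (𝓝 (g x)) :=
        ((WeakDual.eval_continuous x).tendsto g).comp hg
      by_contra hne
      obtain ⟨U, V, hU, hV, hsU, hgV, hUV⟩ := t2_separation hne
      have h4 := (mapClusterPt_iff_frequently.1 h2) U (hU.mem_nhds hsU)
      have h5 := h3.eventually (hV.mem_nhds hgV)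
      obtain ⟨n, hn1, hn2⟩ := (h4.and_eventually h5).exists
      exact Set.disjoint_left.1 hUV hn1 hn2
    intro s' hs'
    by_contra hne
    obtain ⟨u, hu0, hu1, -⟩ := exists_continuous_zero_one_of_isClosed
      (isClosed_singleton (x := s')) (isClosed_singleton (x := s)) (by simpa using hne)
    let v : C(K, 𝕜) := ⟨fun t => ((u t : ℝ) : 𝕜), by fun_prop⟩
    have h1' : v s' = v s := (h1 s' hs' v).trans (h1 s hs v).symm
    have h3 : v s' = 0 := by
      change ((u s' : ℝ) : 𝕜) = 0
      rw [hu0 rfl]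
      simp
    have h4 : v s = 1 := by
      change ((u s : ℝ) : 𝕜) = 1
      rw [hu1 rfl]
      simp
    rw [h3, h4] at h1'
    exact zero_ne_one h1'
  exact (isCompact_univ (X := K)).tendsto_nhds_of_unique_mapClusterPt
    (Eventually.of_forall fun _ => mem_univ _) fun s' _ hs' => hcl s' hs'

theorem TodData.not_metrizable (D : TodData) : ¬ TopologicalSpace.MetrizableSpace D.Kc := by
  intro h
  apply D.nonseparable ℝ
  let _ := TopologicalSpace.metrizableSpaceMetric D.Kc
  infer_instance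

end Pool.Agent.Helper454.Biorth
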