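import Pool.Agent.Helper454.BiorthMain

/-!
# The P-ideal dichotomy implies `𝔟 ≤ ℵ₂`
-/

namespace Pool.Agent.Helper454.Biorth

open Set Filter Topology Cardinal

/-- A well-ordered set of type `ω₂`. -/
abbrev W2 : Type := (Cardinal.aleph 2).ord.ToType

theorem mk_W2 : #W2 = Cardinal.aleph 2 := by
  rw [Cardinal.mk_toType, Cardinal.card_ord]

theorem aleph_two_eq : Cardinal.aleph 2 = Order.succ (Cardinal.aleph 1) := by
  rw [Cardinal.succ_aleph]
  congr 1
  norm_num

theorem mk_Iio_W2 (a : W2) : #(Iio a) ≤ Cardinal.aleph 1 := by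
  have h : Cardinal.ord #W2 = Ordinal.type (α := W2) (· < ·) := by
    rw [mk_W2, Ordinal.type_toType]
  have h1 : #(Iio a) < Cardinal.aleph 2 := by simpa [mk_W2] using Cardinal.mk_Iio_lt a h
  exact Order.lt_succ_iff.1 (h1.trans_eq aleph_two_eq)

theorem exists_gt_W2 (T : Set W2) (hT : #T ≤ Cardinal.aleph 1) : ∃ a : W2, ∀ t ∈ T, t < a := by
  have h1 : #(⋃ t : T, Iic (t : W2) : Set W2) ≤ Cardinal.aleph 1 := by
    refine (Cardinal.mk_iUnion_le _).trans ?_
    have h2 : ∀ t : T, #(Iic (t : W2)) ≤ Cardinal.aleph 1 := by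
      intro t
      rw [← Iio_insert]
      refine (Cardinal.mk_insert_le).trans ?_
      refine (add_le_add (mk_Iio_W2 _) (Cardinal.one_le_aleph0.trans
        (Cardinal.aleph0_le_aleph 1))).trans ?_
      rw [Cardinal.add_eq_self (Cardinal.aleph0_le_aleph 1)]
    refine (mul_le_mul' hT (ciSup_le' h2)).trans ?_
    rw [Cardinal.mul_eq_self (Cardinal.aleph0_le_aleph 1)]
  have h2 : (⋃ t : T, Iic (t : W2) : Set W2) ≠ Set.univ := by
    intro h
    rw [h, Cardinal.mk_univ, mk_W2, aleph_two_eq] at h1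
    exact absurd h1 (not_le.2 (Order.lt_succ _))
  obtain ⟨a, ha⟩ := (ne_univ_iff_exists_notMem _).1 h2
  refine ⟨a, fun t ht => ?_⟩
  by_contra hta
  exact ha (mem_iUnion.2 ⟨⟨t, ht⟩, not_lt.1 hta⟩)

/-- eventual dominance -/
def LeStar (f g : ℕ → ℕ) : Prop := ∀ᶠ n in atTop, f n ≤ g n

theorem LeStar.trans {f g h : ℕ → ℕ} (h1 : LeStar f g) (h2 : LeStar g h) : LeStar f h := by
  filter_upwards [h1, h2] with n hn1 hn2
  exact hn1.trans hn2

theorem LeStar.refl (f : ℕ → ℕ) : LeStar f f := Eventually.of_forall fun _ => le_rfl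

/-- A strictly increasing `ω₂`-sequence modulo finite, if `ℵ₁ < 𝔟`. -/
theorem exists_increasing (hb : Cardinal.aleph 1 < bounding) :
    ∃ f : W2 → ℕ → ℕ, ∀ b a : W2, b < a → ∀ᶠ n in atTop, f b n + 1 ≤ f a n := by
  classical
  let F : (a : W2) → ((b : W2) → b < a → ℕ → ℕ) → ℕ → ℕ := fun a ih =>
    if h : ∃ g : ℕ → ℕ, ∀ b : Iio a, ∀ᶠ n in atTop, ih b.1 b.2 n ≤ g n
    then fun n => h.choose n + 1 else 0
  let f : W2 → ℕ → ℕ := IsWellFounded.fix (α := W2) (· < ·) F
  refine ⟨f, fun b a hba => ?_⟩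
  have h1 : f a = F a (fun b _ => f b) := IsWellFounded.fix_eq _ _ _
  have h2 : ∃ g : ℕ → ℕ, ∀ b : Iio a, ∀ᶠ n in atTop, f b.1 n ≤ g n :=
    exists_bound (ι := Iio a) hb (mk_Iio_W2 a) (fun b => f b.1)
  have h3 : f a = fun n => h2.choose n + 1 := by
    rw [h1]
    exact dif_pos h2
  filter_upwards [h2.choose_spec ⟨b, hba⟩] with n hn
  rw [h3]
  exact Nat.succ_le_succ hn

/-- minimum of the first `n + 1` functions -/
def minF (g : ℕ → ℕ → ℕ) : ℕ → ℕ → ℕ
  | 0 => g 0
  | n + 1 => fun k => min (minF g n k) (g (n + 1) k)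

theorem minF_le (g : ℕ → ℕ → ℕ) {i n : ℕ} (h : i ≤ n) (k : ℕ) : minF g n k ≤ g i k := by
  induction n with
  | zero =>
    rw [Nat.le_zero.1 h]
    exact le_rfl
  | succ n ih =>
    rcases Nat.le_succ_iff.1 h with h1 | h1
    · exact (min_le_left _ _).trans (ih h1)
    · rw [h1]
      exact min_le_right _ _

theorem leStar_minF {f : ℕ → ℕ} {g : ℕ → ℕ → ℕ} (h : ∀ n, LeStar f (g n)) (n : ℕ) :
    LeStar f (minF g n) := by
  induction n with
  | zero => exact h 0
  | succ n ih =>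
    filter_upwards [ih, h (n + 1)] with k h1 h2
    exact le_min h1 h2

/-- Interpolation below the bounding number. -/
theorem exists_interpolate {ι : Type} (hι : #ι < bounding) (f : ι → ℕ → ℕ) (g : ℕ → ℕ → ℕ)
    (h : ∀ a n, LeStar (f a) (g n)) : ∃ u : ℕ → ℕ, (∀ a, LeStar (f a) u) ∧ ∀ n, LeStar u (g n) := by
  classical
  have h1 : ∀ a n, ∃ k, ∀ m ≥ k, f a m ≤ minF g n m := fun a n =>
    eventually_atTop.1 (leStar_minF (h a) n)
  choose φ hφ using h1
  obtain ⟨ψ, hψ⟩ := exists_bound_of_lt φ (by simpa using hι)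
  let ψ' : ℕ → ℕ := fun n => (Finset.range (n + 1)).sup ψ + n
  have hψ1 : ∀ n, ψ n ≤ ψ' n := fun n =>
    (Finset.le_sup (f := ψ) (Finset.mem_range.2 (Nat.lt_succ_self n))).trans (Nat.le_add_right _ _)
  have hψ2 : ∀ n, n ≤ ψ' n := fun n => Nat.le_add_left _ _
  let N : ℕ → ℕ := fun k => Nat.findGreatest (fun n => ψ' n ≤ k) k
  have hN1 : ∀ n k, ψ' n ≤ k → n ≤ N k := fun n k hk =>
    Nat.le_findGreatest ((hψ2 n).trans hk) hk
  have hN2 : ∀ n k, ψ' n ≤ k → ψ' (N k) ≤ k := fun n k hk =>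
    Nat.findGreatest_spec (P := fun n => ψ' n ≤ k) ((hψ2 n).trans hk) hk
  refine ⟨fun k => minF g (N k) k, fun a => ?_, fun i => ?_⟩
  · obtain ⟨n₀, hn₀⟩ := eventually_atTop.1 (hψ a)
    refine eventually_atTop.2 ⟨ψ' n₀, fun k hk => ?_⟩
    have h2 := hN1 n₀ k hk
    have h3 := hN2 n₀ k hk
    exact hφ a (N k) k (((hn₀ _ h2).trans (hψ1 _)).trans h3)
  · exact eventually_atTop.2 ⟨ψ' i, fun k hk => minF_le g (hN1 i k hk) k⟩

/-- **PID implies `𝔟 ≤ ℵ₂`.** -/
theorem bounding_le_of_PID (hPID : PID) : bounding ≤ Cardinal.aleph 2 := by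
  classical
  by_contra hcon
  rw [not_le] at hcon
  have hb1 : Cardinal.aleph 1 < bounding :=
    lt_of_le_of_lt (Cardinal.aleph_le_aleph.2 (by norm_num)) hcon
  obtain ⟨f, hf⟩ := exists_increasing hb1
  have hf' : ∀ b a : W2, b ≤ a → LeStar (f b) (f a) := by
    intro b a hba
    rcases hba.eq_or_lt with rfl | h
    · exact LeStar.refl _
    · filter_upwards [hf b a h] with n hn
      exact (Nat.le_succ _).trans hn
  -- upper bounds
  let G : Type := {g : ℕ → ℕ // ∀ a, LeStar (f a) g}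
  let r : G → G → Prop := fun g h => LeStar g.1 h.1
  have hGne : Nonempty G := by
    obtain ⟨g, hg⟩ := exists_bound_of_lt f (by rw [mk_W2]; simpa using hcon)
    exact ⟨⟨g, hg⟩⟩
  let 𝒞 : Set G := maxChain r
  have hmax : IsMaxChain r 𝒞 := maxChain_spec
  have hins : ∀ h : G, (∀ g ∈ 𝒞, r h g) → h ∈ 𝒞 := by
    intro h hh
    have h1 : IsChain r (insert h 𝒞) := hmax.1.insert fun g hg _ => Or.inl (hh g hg)
    rw [hmax.2 h1 (subset_insert _ _)]
    exact mem_insert _ _
  have hnolower : ∀ h : G, ¬ ∀ g ∈ 𝒞, r h g := by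
    intro h hh
    have hpred : ∀ a, LeStar (f a) fun n => h.1 n - 1 := by
      intro a
      obtain ⟨a', ha'⟩ := exists_gt_W2 {a} (by
        rw [Cardinal.mk_singleton]
        exact Cardinal.one_le_aleph0.trans (Cardinal.aleph0_le_aleph 1))
      filter_upwards [hf a a' (ha' a rfl), h.2 a'] with n h1 h2
      omega
    have h1 : (⟨fun n => h.1 n - 1, hpred⟩ : G) ∈ 𝒞 := by
      apply hins
      intro g hg
      exact LeStar.trans (Eventually.of_forall fun n => Nat.sub_le _ _) (hh g hg)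
    have h2 := hh _ h1
    obtain ⟨a'⟩ : Nonempty W2 := by
      rw [← Cardinal.mk_ne_zero_iff, mk_W2]
      exact (Cardinal.aleph_pos 2).ne'
    obtain ⟨n, hn1, hn2⟩ := (h2.and (hpred a')).exists
    obtain ⟨a'', ha''⟩ := exists_gt_W2 {a'} (by
        rw [Cardinal.mk_singleton]
        exact Cardinal.one_le_aleph0.trans (Cardinal.aleph0_le_aleph 1))
    obtain ⟨m, hm1, hm2, hm3⟩ := (h2.and ((hf a' a'' (ha'' a' rfl)).and (h.2 a''))).exists
    have hm1' : h.1 m ≤ h.1 m - 1 := hm1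
    omega
  have hdir : ∀ g : ℕ → G, (∀ n, g n ∈ 𝒞) → ∃ h ∈ 𝒞, ∀ n, r h (g n) := by
    intro g hg
    by_contra hcon2
    push Not at hcon2
    obtain ⟨u, hu1, hu2⟩ := exists_interpolate (ι := W2) (by rw [mk_W2]; exact hcon) f
      (fun n => (g n).1) (fun a n => (g n).2 a)
    apply hnolower ⟨u, hu1⟩
    intro h hh
    obtain ⟨n, hn⟩ := hcon2 h hh
    have h1 : r (g n) h := by
      by_cases hne : g n = h
      · rw [hne]; exact LeStar.refl _
      · rcases hmax.1 (hg n) hh hne with h2 | h2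
        · exact h2
        · exact absurd h2 hn
    exact LeStar.trans (hu2 n) h1
  -- the levels
  let E : G → ℕ → Set W2 := fun g m => {a | ∀ k ≥ m, f a k ≤ g.1 k}
  have hEmono : ∀ g m m', m ≤ m' → E g m ⊆ E g m' := fun g m m' hm a ha k hk =>
    ha k (hm.trans hk)
  have hEu : ∀ g a, ∃ m, a ∈ E g m := fun g a => eventually_atTop.1 (g.2 a)
  have hEr : ∀ g g' : G, r g g' → ∃ k₀, ∀ m, E g m ⊆ E g' (max m k₀) := by
    intro g g' h
    obtain ⟨k₀, hk₀⟩ := eventually_atTop.1 h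
    refine ⟨k₀, fun m a ha k hk => ?_⟩
    exact (ha k ((le_max_left _ _).trans hk)).trans (hk₀ k ((le_max_right _ _).trans hk))
  let I : Set (Set W2) := {A | A.Countable ∧ ∃ g ∈ 𝒞, ∀ m, (A ∩ E g m).Finite}
  have hlower : ∀ (A : Set W2) (g g' : G), r g g' → (∀ m, (A ∩ E g' m).Finite) →
      ∀ m, (A ∩ E g m).Finite := by
    intro A g g' h hA m
    obtain ⟨k₀, hk₀⟩ := hEr g g' h
    exact (hA (max m k₀)).subset (inter_subset_inter_right _ (hk₀ m))
  have hI : IsPIdeal I := by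
    refine ⟨fun A hA => hA.1, ?_, ?_, ?_, ?_⟩
    · rintro A ⟨hAc, g, hg, hA⟩ B hB
      exact ⟨hAc.mono hB, g, hg, fun m => (hA m).subset (inter_subset_inter_left _ hB)⟩
    · rintro A ⟨hAc, g, hg, hA⟩ B ⟨hBc, g', hg', hB⟩
      obtain ⟨h, hh, hh'⟩ := hdir (fun n => if n = 0 then g else g') (by
        intro n
        split_ifs
        · exact hg
        · exact hg')
      have h1 : r h g := by simpa using hh' 0
      have h2 : r h g' := by simpa using hh' 1
      refine ⟨hAc.union hBc, h, hh, fun m => ?_⟩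
      rw [union_inter_distrib_right]
      exact (hlower A h g h1 hA m).union (hlower B h g' h2 hB m)
    · intro A hA
      have hCne : ∃ g, g ∈ 𝒞 := by
        by_contra hne
        push Not at hne
        obtain ⟨g⟩ := hGne
        exact hnolower g fun h hh => absurd hh (hne h)
      obtain ⟨g, hg⟩ := hCne
      exact ⟨hA.countable, g, hg, fun m => hA.subset inter_subset_left⟩
    · intro X hX
      have h1 : ∀ n, ∃ g ∈ 𝒞, ∀ m, (X n ∩ E g m).Finite := fun n => (hX n).2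
      choose g hg hgX using h1
      obtain ⟨h, hh, hh'⟩ := hdir g hg
      have h2 : ∀ n m, (X n ∩ E h m).Finite := fun n m => hlower (X n) h (g n) (hh' n) (hgX n) m
      refine ⟨⋃ n, (X n \ E h n), ⟨countable_iUnion fun n => (hX n).1.mono sdiff_subset,
        h, hh, fun m => ?_⟩, fun n => ?_⟩
      · refine (Set.Finite.biUnion (Finset.range m).finite_toSet fun n _ => h2 n m).subset ?_
        rintro a ⟨ha1, ha2⟩
        obtain ⟨n, hn1, hn2⟩ := mem_iUnion.1 ha1
        have hnm : n < m := by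
          by_contra hnm
          exact hn2 (hEmono h m n (not_lt.1 hnm) ha2)
        exact mem_biUnion (Finset.mem_coe.2 (Finset.mem_range.2 hnm)) ⟨hn1, ha2⟩
      · refine (h2 n n).subset ?_
        rintro a ⟨ha1, ha2⟩
        refine ⟨ha1, ?_⟩
        by_contra hcon2
        exact ha2 (mem_iUnion.2 ⟨n, ha1, hcon2⟩)
  rcases hPID W2 I hI with ⟨T, hTc, hT⟩ | ⟨P, hPu, hP⟩
  · -- first alternative
    have hT1 : Cardinal.aleph 1 ≤ #T := by
      rw [← not_lt, ← Cardinal.succ_aleph0, Order.lt_succ_iff, Cardinal.le_aleph0_iff_set_countable]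
      exact hTc
    obtain ⟨T₁, hT₁T, hT₁⟩ := Cardinal.le_mk_iff_exists_subset.1 hT1
    obtain ⟨a, ha⟩ := exists_gt_W2 T₁ hT₁.le
    have hT₁c : ¬ T₁.Countable := by
      rw [← Cardinal.le_aleph0_iff_set_countable, hT₁, not_le, ← Cardinal.succ_aleph0]
      exact Order.lt_succ _
    obtain ⟨k, hk⟩ : ∃ k, ¬ {t ∈ T₁ | ∀ n ≥ k, f t n ≤ f a n}.Countable := by
      by_contra hcon2
      push Not at hcon2
      apply hT₁c
      refine (countable_iUnion hcon2).mono fun t ht => ?_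
      rw [mem_iUnion]
      obtain ⟨k, hk⟩ := eventually_atTop.1 (hf' t a (ha t ht).le)
      exact ⟨k, ht, hk⟩
    have hinf : {t ∈ T₁ | ∀ n ≥ k, f t n ≤ f a n}.Infinite := fun h => hk h.countable
    obtain ⟨A, hAsub, hAinf, hAc⟩ : ∃ A ⊆ {t ∈ T₁ | ∀ n ≥ k, f t n ≤ f a n},
        A.Infinite ∧ A.Countable := by
      have := hinf.to_subtype
      refine ⟨range fun n => ((Infinite.natEmbedding {t ∈ T₁ | ∀ n ≥ k, f t n ≤ f a n}) n : W2),
        ?_, ?_, countable_range _⟩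
      · rintro _ ⟨n, rfl⟩
        exact Subtype.mem _
      · apply Set.infinite_range_of_injective
        exact Subtype.val_injective.comp (Infinite.natEmbedding _).injective
    obtain ⟨-, g, hg, hgA⟩ := hT A (fun t ht => hT₁T (hAsub ht).1) hAc
    obtain ⟨m₀, hm₀⟩ := hEu g a
    apply hAinf
    refine (hgA (max k m₀)).subset fun t ht => ⟨ht, fun n hn => ?_⟩
    exact ((hAsub ht).2 n ((le_max_left _ _).trans hn)).trans
      (hm₀ n ((le_max_right _ _).trans hn))
  · -- second alternative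
    obtain ⟨n, hn⟩ : ∃ n, ∀ a : W2, ∃ s ∈ P n, a ≤ s := by
      by_contra hcon2
      push Not at hcon2
      choose a ha using hcon2
      obtain ⟨b, hb⟩ := exists_gt_W2 (range a) (by
        have h1 : (range a).Countable := countable_range a
        exact (Cardinal.le_aleph0_iff_set_countable.2 h1).trans (Cardinal.aleph0_le_aleph 1))
      have h1 : b ∈ ⋃ n, P n := by rw [hPu]; exact mem_univ _
      obtain ⟨n, hn⟩ := mem_iUnion.1 h1
      exact lt_asymm (ha n b hn) (hb (a n) (mem_range_self n))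
    have hbdd : ∀ g ∈ 𝒞, ∃ m, P n ⊆ E g m := by
      intro g hg
      by_contra hcon2
      push Not at hcon2
      have h1 : ∀ m, ∃ s ∈ P n, s ∉ E g m := fun m => not_subset.1 (hcon2 m)
      choose s hs hs' using h1
      have h2 : ∀ m m', s m ∈ E g m' → m < m' := by
        intro m m' h
        by_contra hcon3
        exact hs' m (hEmono g m' m (not_lt.1 hcon3) h)
      refine hP n (range s) (range_subset_iff.2 hs) ?_ ⟨countable_range _, g, hg, fun m => ?_⟩
      · intro hfin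
        have h3 : ∃ M, ∀ a ∈ range s, a ∈ E g M := by
          have h4 : ∀ a : W2, ∃ m, a ∈ E g m := hEu g
          choose e he using h4
          obtain ⟨M, hM⟩ := hfin.image e |>.bddAbove
          exact ⟨M, fun a ha => hEmono g _ _ (hM (mem_image_of_mem e ha)) (he a)⟩
        obtain ⟨M, hM⟩ := h3
        exact hs' M (hM _ (mem_range_self M))
      · refine ((Finset.range m).finite_toSet.image s).subset ?_
        rintro _ ⟨⟨j, rfl⟩, hj⟩
        exact ⟨j, Finset.mem_coe.2 (Finset.mem_range.2 (h2 j m hj)), rfl⟩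
    obtain ⟨m, hm⟩ : ∃ m, ∀ g ∈ 𝒞, ∃ g' ∈ 𝒞, r g' g ∧ P n ⊆ E g' m := by
      by_contra hcon2
      push Not at hcon2
      choose g hg hg' using hcon2
      obtain ⟨h, hh, hh'⟩ := hdir g hg
      obtain ⟨m, hm⟩ := hbdd h hh
      exact hg' m h hh (hh' m) hm
    let u : ℕ → ℕ := fun k => sInf {v | ∃ g' ∈ 𝒞, P n ⊆ E g' m ∧ v = g'.1 k}
    have hu1 : ∀ g' ∈ 𝒞, P n ⊆ E g' m → ∀ k, u k ≤ g'.1 k := fun g' hg' hE k =>
      Nat.sInf_le ⟨g', hg', hE, rfl⟩
    have hCne : ∃ g, g ∈ 𝒞 := by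
      by_contra hne
      push Not at hne
      obtain ⟨g⟩ := hGne
      exact hnolower g fun h hh => absurd hh (hne h)
    obtain ⟨g₀, hg₀⟩ := hCne
    obtain ⟨g₁, hg₁, -, hg₁E⟩ := hm g₀ hg₀
    have hu2 : ∀ s ∈ P n, ∀ k ≥ m, f s k ≤ u k := by
      intro s hs k hk
      refine le_csInf ⟨_, g₁, hg₁, hg₁E, rfl⟩ ?_
      rintro v ⟨g', -, hE, rfl⟩
      exact hE hs k hk
    have hu3 : ∀ a, LeStar (f a) u := by
      intro a
      obtain ⟨s, hs, has⟩ := hn a
      exact LeStar.trans (hf' a s has) (eventually_atTop.2 ⟨m, hu2 s hs⟩)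
    apply hnolower ⟨u, hu3⟩
    intro g hg
    obtain ⟨g', hg', hg'g, hE⟩ := hm g hg
    exact LeStar.trans (Eventually.of_forall fun k => hu1 g' hg' hE k) hg'g

end Pool.Agent.Helper454.Biorth
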