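import Pool.Agent.Helper454.BiorthHilbert

/-!
# Reduction to density `ℵ₁`
-/

namespace Pool.Agent.Helper454.Biorth

open Set Filter Topology

/-- An uncountable biorthogonal system of a subspace extends to the whole space. -/
theorem hasUncountable_of_submodule {𝕜 : Type*} [RCLike 𝕜] {X : Type*} [NormedAddCommGroup X]
    [NormedSpace 𝕜 X] (Y : Submodule 𝕜 X) (h : HasUncountableBiorthogonalSystem 𝕜 Y) :
    HasUncountableBiorthogonalSystem 𝕜 X := by
  obtain ⟨B, hB, h1, h2⟩ := h
  have hext : ∀ f : Y →L[𝕜] 𝕜, ∃ g : X →L[𝕜] 𝕜, ∀ y : Y, g y = f y := by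
    intro f
    obtain ⟨g, hg, -⟩ := exists_extension_norm_eq Y f
    exact ⟨g, hg⟩
  choose ext hext using hext
  let Φ : Y × (Y →L[𝕜] 𝕜) → X × (X →L[𝕜] 𝕜) := fun p => (p.1, ext p.2)
  refine ⟨Φ '' B, ?_, ?_, ?_⟩
  · intro hc
    apply hB
    refine countable_of_injective_of_countable_image (f := Φ) ?_ hc
    intro p hp r hr hpr
    by_contra hne
    have h3 : p.1 = r.1 := Subtype.ext (congrArg Prod.fst hpr)
    have h4 := h2 p hp r hr hne
    rw [← h3, h1 p hp] at h4
    exact one_ne_zero h4
  · rintro _ ⟨p, hp, rfl⟩
    simp only [Φ]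
    rw [hext, h1 p hp]
  · rintro _ ⟨p, hp, rfl⟩ _ ⟨r, hr, rfl⟩ hne
    simp only [Φ]
    rw [hext]
    exact h2 p hp r hr fun h => hne (by rw [h])

/-- A nonseparable space contains a separated family of size `ℵ₁`. -/
theorem exists_separated {X : Type*} [PseudoMetricSpace X]
    (hX : ¬ TopologicalSpace.SeparableSpace X) :
    ∃ ε : ℝ, 0 < ε ∧ ∃ x : W → X, ∀ a b, a ≠ b → ε ≤ dist (x a) (x b) := by
  classical
  have h1 : ∃ ε : ℝ, 0 < ε ∧ ∀ s : Set X, s.Countable → ∃ x, ∀ y ∈ s, ε < dist x y := by
    by_contra hcon
    push Not at hcon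
    apply hX
    have : SecondCountableTopology X := Metric.secondCountable_of_almost_dense_set hcon
    infer_instance
  obtain ⟨ε, hε, h⟩ := h1
  have h0 : ∀ C : Set X, ∃ x : X, C.Countable → ∀ y ∈ C, ε < dist x y := by
    intro C
    by_cases hC : C.Countable
    · obtain ⟨x, hx⟩ := h C hC
      exact ⟨x, fun _ => hx⟩
    · obtain ⟨x, -⟩ := h ∅ countable_empty
      exact ⟨x, fun h => absurd h hC⟩
  choose sep hsep using h0
  let x : W → X := IsWellFounded.fix (α := W) (· < ·)
    (fun a ih => sep (range fun b : Iio a => ih b.1 b.2))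
  have hx : ∀ a b : W, b < a → ε < dist (x a) (x b) := by
    intro a b hb
    have h1 : x a = sep (range fun b : Iio a => x b.1) := IsWellFounded.fix_eq _ _ _
    have h2 : (range fun b : Iio a => x b.1).Countable := by
      have := (countable_Iio_W a).to_subtype
      exact countable_range _
    rw [h1]
    exact hsep _ h2 _ ⟨⟨b, hb⟩, rfl⟩
  refine ⟨ε, hε, x, fun a b hab => ?_⟩
  rcases lt_or_gt_of_ne hab with h | h
  · rw [dist_comm]
    exact (hx b a h).le
  · exact (hx a b h).le

/-- The closed span of `ℵ₁` vectors has density at most `ℵ₁`. -/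
theorem exists_denseRange {𝕜 : Type} [RCLike 𝕜] {X : Type*} [NormedAddCommGroup X]
    [NormedSpace 𝕜 X] (x : W → X) :
    ∃ d : W → (Submodule.span 𝕜 (range x)).topologicalClosure, DenseRange d := by
  classical
  set Y : Submodule 𝕜 X := (Submodule.span 𝕜 (range x)).topologicalClosure with hY
  have hxY : ∀ a, x a ∈ Y := fun a =>
    Submodule.le_topologicalClosure _ (Submodule.subset_span (mem_range_self a))
  let x' : W → Y := fun a => ⟨x a, hxY a⟩
  obtain ⟨q, hq⟩ := TopologicalSpace.exists_dense_seq 𝕜
  let val : List (W × ℕ) → Y := fun l => (l.map fun p => q p.2 • x' p.1).sum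
  have hval : DenseRange val := by
    -- the closure is closed under addition
    have hadd : ∀ y ∈ closure (range val), ∀ z ∈ closure (range val),
        y + z ∈ closure (range val) := by
      intro y hy z hz
      refine map_mem_closure₂ continuous_add hy hz ?_
      rintro _ ⟨l, rfl⟩ _ ⟨l', rfl⟩
      exact ⟨l ++ l', by simp [val]⟩
    have hsm : ∀ (c : 𝕜) (a : W), c • x' a ∈ closure (range val) := by
      intro c a
      have h1 : c ∈ closure (range q) := hq c
      have h2 : Continuous fun c : 𝕜 => c • x' a := continuous_id.smul continuous_const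
      refine map_mem_closure (f := fun c : 𝕜 => c • x' a) h2 h1 ?_
      rintro _ ⟨k, rfl⟩
      exact ⟨[(a, k)], by simp [val]⟩
    have hspan : ∀ y ∈ Submodule.span 𝕜 (range x'), ∀ c : 𝕜, c • y ∈ closure (range val) := by
      intro y hy
      induction hy using Submodule.span_induction with
      | mem y hy =>
        obtain ⟨a, rfl⟩ := hy
        intro c
        exact hsm c a
      | zero =>
        intro c
        rw [smul_zero]
        exact subset_closure ⟨[], by simp [val]⟩
      | add y z _ _ h1 h2 =>
        intro c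
        rw [smul_add]
        exact hadd _ (h1 c) _ (h2 c)
      | smul b y _ h1 =>
        intro c
        rw [smul_smul]
        exact h1 _
    have hspan' : ((Submodule.span 𝕜 (range x') : Submodule 𝕜 Y) : Set Y) ⊆
        closure (range val) := by
      intro y hy
      have := hspan y hy 1
      rwa [one_smul] at this
    have hdense : ∀ y : Y, y ∈ closure ((Submodule.span 𝕜 (range x') : Submodule 𝕜 Y) : Set Y) := by
      intro y
      rw [closure_subtype]
      have h1 : Subtype.val '' ((Submodule.span 𝕜 (range x') : Submodule 𝕜 Y) : Set Y) =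
          (Submodule.span 𝕜 (range x) : Set X) := by
        have h2 : Submodule.map Y.subtype (Submodule.span 𝕜 (range x')) =
            Submodule.span 𝕜 (range x) := by
          rw [Submodule.map_span, ← range_comp]
          rfl
        rw [← h2]
        rfl
      rw [h1]
      exact y.2
    intro y
    exact closure_minimal hspan' isClosed_closure (hdense y)
  have hcard : Cardinal.mk (List (W × ℕ)) ≤ Cardinal.mk W := by
    have hinf : Infinite W := by
      rw [Cardinal.infinite_iff, mk_W]
      exact Cardinal.aleph0_le_aleph 1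
    rw [Cardinal.mk_list_eq_mk, Cardinal.mk_prod]
    simp only [Cardinal.lift_id, Cardinal.mk_nat]
    rw [mk_W, Cardinal.mul_aleph0_eq (Cardinal.aleph0_le_aleph 1)]
  obtain ⟨i⟩ := hcard
  have hne : Nonempty (List (W × ℕ)) := ⟨[]⟩
  refine ⟨val ∘ Function.invFun i, ?_⟩
  have h1 : range (val ∘ Function.invFun i) = range val :=
    (Function.invFun_surjective i.injective).range_comp val
  rw [DenseRange, h1]
  exact hval

/-- Reduction to closed subspaces of density `ℵ₁`. -/
theorem hasUncountable_of_forall_denseRange {𝕜 : Type} [RCLike 𝕜] {X : Type*}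
    [NormedAddCommGroup X] [NormedSpace 𝕜 X] [CompleteSpace X]
    (hX : ¬ TopologicalSpace.SeparableSpace X)
    (h : ∀ Y : Submodule 𝕜 X, IsClosed (Y : Set X) → ¬ TopologicalSpace.SeparableSpace Y →
      (∃ d : W → Y, DenseRange d) → HasUncountableBiorthogonalSystem 𝕜 Y) :
    HasUncountableBiorthogonalSystem 𝕜 X := by
  obtain ⟨ε, hε, x, hx⟩ := exists_separated hX
  apply hasUncountable_of_submodule (Submodule.span 𝕜 (range x)).topologicalClosure
  apply h _ (Submodule.isClosed_topologicalClosure _) _ (exists_denseRange x)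
  intro hsep
  have hW : Uncountable W := by
    rw [← not_countable_iff]
    intro hcon
    exact not_countable_univ_W Set.countable_univ
  have hxY : ∀ a, x a ∈ (Submodule.span 𝕜 (range x)).topologicalClosure := fun a =>
    Submodule.le_topologicalClosure _ (Submodule.subset_span (mem_range_self a))
  apply not_isSeparable_of_separated
    (fun a : W => (⟨x a, hxY a⟩ : (Submodule.span 𝕜 (range x)).topologicalClosure)) hε
    (fun a b hab => hx a b hab) (A := Set.univ) (fun _ => mem_univ _)
  exact TopologicalSpace.isSeparable_univ_iff.2 hsep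

end Pool.Agent.Helper454.Biorth
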