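import Pool.Agent.Helper454.BiorthDens
import Pool.Agent.Helper454.BiorthRed
import Pool.Agent.Helper454.BiorthCK
import Pool.Agent.Helper454.BiorthPIDb

/-!
# All nonseparable Banach spaces
-/

namespace Pool.Agent.Helper454.Biorth

theorem hasUncountable_all (hPID : PID) (hb : Cardinal.aleph 1 < bounding)
    (hc : Cardinal.aleph 1 < splittingNumber ∨ Cardinal.aleph 1 < covClosedNull)
    {𝕜 : Type} [RCLike 𝕜] {X : Type*} [NormedAddCommGroup X] [NormedSpace 𝕜 X] [CompleteSpace X]
    (hX : ¬ TopologicalSpace.SeparableSpace X) : HasUncountableBiorthogonalSystem 𝕜 X := by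
  apply hasUncountable_of_forall_denseRange hX
  rintro Y hYc hY ⟨d, hd⟩
  have : CompleteSpace Y := hYc.completeSpace_coe
  exact hasUncountable_of_denseRange hPID hb hc hY d hd

theorem equivalence (hPID : PID)
    (hc : Cardinal.aleph 1 < splittingNumber ∨ Cardinal.aleph 1 < covClosedNull)
    (𝕜 : Type) [RCLike 𝕜] :
    (∀ (X : Type) [NormedAddCommGroup X] [NormedSpace 𝕜 X] [CompleteSpace X],
      ¬ TopologicalSpace.SeparableSpace X → HasUncountableBiorthogonalSystem 𝕜 X) ↔
    bounding = Cardinal.aleph 2 := by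
  constructor
  · intro h
    by_contra hcon
    have h1 := lt_of_le_of_ne (bounding_le_of_PID hPID) hcon
    obtain ⟨D⟩ : Nonempty TodData := exists_todData (Order.lt_succ_iff.1 (h1.trans_eq aleph_two_eq))
    exact D.no_biorthogonal 𝕜 (h C(D.Kc, 𝕜) (D.nonseparable 𝕜))
  · intro h X _ _ _ hX
    apply hasUncountable_all hPID _ hc hX
    rw [h, aleph_two_eq]
    exact Order.lt_succ _

end Pool.Agent.Helper454.Biorth
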