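import Pool.Agent.Helper454.BiorthBasic

/-!
# Two classes of Banach spaces
-/

namespace Pool.Agent.Helper454.Biorth

/-- Every separable subspace of `X` has a separable dual (`X` is an Asplund space). -/
def IsAsplund (𝕜 : Type*) (X : Type*) [RCLike 𝕜] [NormedAddCommGroup X] [NormedSpace 𝕜 X] :
    Prop :=
  ∀ Y : Submodule 𝕜 X, TopologicalSpace.SeparableSpace Y →
    TopologicalSpace.SeparableSpace (Y →L[𝕜] 𝕜)

/-- The closed unit ball of the dual, with the weak* topology. -/
def dualBall (𝕜 : Type*) (X : Type*) [RCLike 𝕜] [NormedAddCommGroup X] [NormedSpace 𝕜 X] :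
    Set (WeakDual 𝕜 X) :=
  {f | ‖WeakDual.toStrongDual f‖ ≤ 1}

end Pool.Agent.Helper454.Biorth
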