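import Pool.Agent.Helper454.BiorthMain
import Pool.Agent.Helper454.BiorthClasses

/-!
# The dual ball of an Asplund space is weak* sequentially compact
-/

namespace Pool.Agent.Helper454.Biorth

open Set Filter Topology

variable {𝕜 : Type*} {X : Type*} [RCLike 𝕜] [NormedAddCommGroup X] [NormedSpace 𝕜 X]

theorem isCompact_dualBall : IsCompact (dualBall 𝕜 X) := by
  have h := WeakDual.isCompact_closedBall (𝕜 := 𝕜) (E := X) 0 1
  convert h using 1
  ext f
  simp [dualBall]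

theorem norm_apply_le_of_mem_dualBall {f : WeakDual 𝕜 X} (hf : f ∈ dualBall 𝕜 X) (x : X) :
    ‖f x‖ ≤ ‖x‖ := by
  have h1 := (WeakDual.toStrongDual f).le_opNorm x
  have h2 : ‖WeakDual.toStrongDual f‖ * ‖x‖ ≤ 1 * ‖x‖ :=
    mul_le_mul_of_nonneg_right hf (norm_nonneg _)
  rw [one_mul] at h2
  exact h1.trans h2

theorem not_countable_nat_bool : ¬ Countable (ℕ → Bool) := by
  intro h
  obtain ⟨g, hg⟩ := exists_surjective_nat (ℕ → Bool)
  obtain ⟨n, hn⟩ := hg fun n => !(g n n)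
  have := congrFun hn n
  cases h1 : g n n <;> simp [h1] at this

theorem exists_strictMono_mem (N : ℕ → Set ℕ) (hN : ∀ n, (N n).Infinite) :
    ∃ φ : ℕ → ℕ, StrictMono φ ∧ ∀ n, φ n ∈ N n := by
  have h1 : ∀ n, ∀ k, ∃ m > k, m ∈ N n := by
    intro n k
    obtain ⟨m, hm1, hm2⟩ := (hN n).exists_gt k
    exact ⟨m, hm2, hm1⟩
  choose pick hpick1 hpick2 using h1
  let φ : ℕ → ℕ := fun n => Nat.rec (pick 0 0) (fun n m => pick (n + 1) m) n
  have hφs : ∀ n, φ (n + 1) = pick (n + 1) (φ n) := fun n => rfl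
  refine ⟨φ, strictMono_nat_of_lt_succ fun n => ?_, fun n => ?_⟩
  · rw [hφs]; exact hpick1 _ _
  · cases n with
    | zero => exact hpick2 0 0
    | succ n => rw [hφs]; exact hpick2 (n + 1) (φ n)

/-- two infinite sets of indices on which `x` takes values at distance at least `δ` -/
def Splits (f : ℕ → WeakDual 𝕜 X) (δ : ℝ) (x : X) (M A B : Set ℕ) : Prop :=
  A ⊆ M ∧ B ⊆ M ∧ A.Infinite ∧ B.Infinite ∧ ∀ i ∈ A, ∀ j ∈ B, δ ≤ ‖f i x - f j x‖

/-- Either a subsequence converges, or there are `M` and `δ > 0` such that every infinite subset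
of `M` is split with gap `δ` by some `x` in the unit ball. -/
theorem exists_subseq_or_splits (f : ℕ → WeakDual 𝕜 X) (hf : ∀ n, f n ∈ dualBall 𝕜 X) :
    (∃ g ∈ dualBall 𝕜 X, ∃ φ : ℕ → ℕ, StrictMono φ ∧ Tendsto (f ∘ φ) atTop (𝓝 g)) ∨
    ∃ M : Set ℕ, M.Infinite ∧ ∃ δ : ℝ, 0 < δ ∧ ∀ M' ⊆ M, M'.Infinite →
      ∃ x : X, ‖x‖ ≤ 1 ∧ ∃ A B : Set ℕ, Splits f δ x M' A B := by
  classical
  by_cases hcon : ∃ M : Set ℕ, M.Infinite ∧ ∃ δ : ℝ, 0 < δ ∧ ∀ M' ⊆ M, M'.Infinite →
      ∃ x : X, ‖x‖ ≤ 1 ∧ ∃ A B : Set ℕ, Splits f δ x M' A B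
  · exact Or.inr hcon
  left
  push Not at hcon
  -- nested sets
  have hstep : ∀ (n : ℕ) (M : {M : Set ℕ // M.Infinite}), ∃ M' : {M : Set ℕ // M.Infinite},
      M'.1 ⊆ M.1 ∧ ∀ x : X, ‖x‖ ≤ 1 → ∀ A B : Set ℕ, ¬ Splits f (1 / ((n : ℝ) + 1)) x M'.1 A B := by
    intro n M
    obtain ⟨M', h1, h2, h3⟩ := hcon M.1 M.2 (1 / ((n : ℝ) + 1)) (by positivity)
    exact ⟨⟨M', h2⟩, h1, h3⟩
  choose nxt hnxt1 hnxt2 using hstep
  let N : ℕ → {M : Set ℕ // M.Infinite} := fun n =>
    Nat.rec ⟨Set.univ, Set.infinite_univ⟩ (fun n M => nxt n M) n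
  have hN : ∀ n, N (n + 1) = nxt n (N n) := fun n => rfl
  have hanti : ∀ m n, m ≤ n → (N n).1 ⊆ (N m).1 := by
    intro m n hmn
    induction n, hmn using Nat.le_induction with
    | base => exact Subset.rfl
    | succ n _ ih => rw [hN]; exact (hnxt1 n (N n)).trans ih
  obtain ⟨φ, hφ, hφN⟩ := exists_strictMono_mem (fun n => (N n).1) (fun n => (N n).2)
  obtain ⟨g, hgB, hg⟩ := isCompact_dualBall.exists_mapClusterPt (f := atTop) (u := f ∘ φ)
    (by
      rw [le_principal_iff, mem_map]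
      exact Filter.univ_mem' fun n => hf _)
  refine ⟨g, hgB, φ, hφ, ?_⟩
  -- pointwise convergence
  have hball : ∀ x : X, ‖x‖ ≤ 1 → Tendsto (fun n => f (φ n) x) atTop (𝓝 (g x)) := by
    intro x hx
    by_contra hnt
    rw [Metric.tendsto_atTop] at hnt
    push Not at hnt
    obtain ⟨ε, hε, hfar⟩ := hnt
    have hclose : ∀ k, ∃ n ≥ k, ‖f (φ n) x - g x‖ < ε / 2 := by
      intro k
      have h1 : MapClusterPt (g x) atTop (fun n => f (φ n) x) :=
        hg.continuousAt_comp (f := fun h : WeakDual 𝕜 X => h x)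
          (WeakDual.eval_continuous x).continuousAt
      have h2 := (mapClusterPt_iff_frequently.1 h1) (Metric.ball (g x) (ε / 2))
        (Metric.ball_mem_nhds _ (by positivity))
      obtain ⟨n, hn, hn'⟩ := (frequently_atTop.1 h2) k
      exact ⟨n, hn, by simpa [dist_eq_norm] using hn'⟩
    obtain ⟨m, hm⟩ := exists_nat_gt (2 / ε)
    have hm' : 1 / ((m : ℝ) + 1) ≤ ε / 2 := by
      rw [div_le_iff₀ (by positivity)]
      rw [div_lt_iff₀ hε] at hm
      nlinarith
    refine hnxt2 m (N m) x hx (φ '' {n | m + 1 ≤ n ∧ ε ≤ dist (f (φ n) x) (g x)})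
      (φ '' {n | m + 1 ≤ n ∧ ‖f (φ n) x - g x‖ < ε / 2}) ⟨?_, ?_, ?_, ?_, ?_⟩
    · rintro _ ⟨n, hn, rfl⟩
      have := hanti (m + 1) n hn.1 (hφN n)
      rwa [hN] at this
    · rintro _ ⟨n, hn, rfl⟩
      have := hanti (m + 1) n hn.1 (hφN n)
      rwa [hN] at this
    · apply Set.Infinite.image hφ.injective.injOn
      rw [Set.infinite_iff_exists_gt]
      intro k
      obtain ⟨n, hn1, hn2⟩ := hfar (max (m + 1) (k + 1))
      exact ⟨n, ⟨(le_max_left _ _).trans hn1, hn2⟩,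
        lt_of_lt_of_le (Nat.lt_succ_self k) ((le_max_right _ _).trans hn1)⟩
    · apply Set.Infinite.image hφ.injective.injOn
      rw [Set.infinite_iff_exists_gt]
      intro k
      obtain ⟨n, hn1, hn2⟩ := hclose (max (m + 1) (k + 1))
      exact ⟨n, ⟨(le_max_left _ _).trans hn1, hn2⟩,
        lt_of_lt_of_le (Nat.lt_succ_self k) ((le_max_right _ _).trans hn1)⟩
    · rintro _ ⟨i, hi, rfl⟩ _ ⟨j, hj, rfl⟩
      have h1 : ε ≤ ‖f (φ i) x - g x‖ := by simpa [dist_eq_norm] using hi.2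
      have h2 := hj.2
      have h3 : ‖f (φ i) x - g x‖ ≤ ‖f (φ i) x - f (φ j) x‖ + ‖f (φ j) x - g x‖ :=
        norm_sub_le_norm_sub_add_norm_sub _ _ _
      linarith
  have hall : ∀ x : X, Tendsto (fun n => f (φ n) x) atTop (𝓝 (g x)) := by
    intro x
    by_cases hx : x = 0
    · subst hx
      simp
    · have hx' : (‖x‖ : 𝕜) ≠ 0 := by
        simpa using hx
      have h1 := (hball ((‖x‖ : 𝕜)⁻¹ • x) (by
        rw [norm_smul, norm_inv]
        simp only [RCLike.norm_ofReal, abs_norm]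
        rw [inv_mul_cancel₀ (by simpa using hx)])).const_mul (‖x‖ : 𝕜)
      have h2 : ∀ h : WeakDual 𝕜 X, (‖x‖ : 𝕜) * h ((‖x‖ : 𝕜)⁻¹ • x) = h x := by
        intro h
        rw [map_smul, smul_eq_mul, ← mul_assoc, mul_inv_cancel₀ hx', one_mul]
      simpa only [h2] using h1
  exact tendsto_iff_forall_eval_tendsto_topDualPairing.2 hall

/-- the initial segments of a sequence of bits, as lists (last bit first) -/
def pre (σ : ℕ → Bool) : ℕ → List Bool
  | 0 => []
  | n + 1 => σ n :: pre σ n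

theorem pre_congr {σ τ : ℕ → Bool} {n : ℕ} (h : ∀ k < n, σ k = τ k) : pre σ n = pre τ n := by
  induction n with
  | zero => rfl
  | succ n ih =>
    simp only [pre]
    rw [h n (Nat.lt_succ_self n), ih fun k hk => h k (hk.trans (Nat.lt_succ_self n))]

/-- **The dual ball of an Asplund space is weak* sequentially compact.** -/
theorem isSeqCompact_dualBall_of_isAsplund (hX : IsAsplund 𝕜 X) :
    IsSeqCompact (dualBall 𝕜 X) := by
  classical
  intro f hf
  rcases exists_subseq_or_splits f hf with ⟨g, hg, φ, hφ, h⟩ | ⟨M, hM, δ, hδ, hs⟩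
  · exact ⟨g, hg, φ, hφ, h⟩
  exfalso
  have hs' : ∀ N : {N : Set ℕ // N ⊆ M ∧ N.Infinite}, ∃ x : X, ‖x‖ ≤ 1 ∧
      ∃ c : Bool → {N : Set ℕ // N ⊆ M ∧ N.Infinite}, (∀ b, (c b).1 ⊆ N.1) ∧
        ∀ i ∈ (c false).1, ∀ j ∈ (c true).1, δ ≤ ‖f i x - f j x‖ := by
    intro N
    obtain ⟨x, hx, A, B, hA, hB, hAi, hBi, h⟩ := hs N.1 N.2.1 N.2.2
    refine ⟨x, hx, fun b => if b then ⟨B, hB.trans N.2.1, hBi⟩ else ⟨A, hA.trans N.2.1, hAi⟩, ?_, ?_⟩
    · intro b
      cases b
      · exact hA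
      · exact hB
    · exact h
  choose vec hvec stp hstp1 hstp2 using hs'
  let nd : List Bool → {N : Set ℕ // N ⊆ M ∧ N.Infinite} := fun s =>
    List.rec ⟨M, Subset.rfl, hM⟩ (fun b _ N => stp N b) s
  have hnd : ∀ b s, nd (b :: s) = stp (nd s) b := fun b s => rfl
  have hmono : ∀ (σ : ℕ → Bool) m n, m ≤ n → (nd (pre σ n)).1 ⊆ (nd (pre σ m)).1 := by
    intro σ m n hmn
    induction n, hmn using Nat.le_induction with
    | base => exact Subset.rfl
    | succ n _ ih =>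
      simp only [pre]
      rw [hnd]
      exact (hstp1 _ _).trans ih
  have hψ : ∀ σ : ℕ → Bool, ∃ ψ : ℕ → ℕ, StrictMono ψ ∧ ∀ n, ψ n ∈ (nd (pre σ n)).1 :=
    fun σ => exists_strictMono_mem _ fun n => (nd (pre σ n)).2.2
  choose ψ hψ1 hψ2 using hψ
  have hg : ∀ σ : ℕ → Bool, ∃ g ∈ dualBall 𝕜 X, MapClusterPt g atTop (fun n => f (ψ σ n)) := by
    intro σ
    exact isCompact_dualBall.exists_mapClusterPt (f := atTop) (u := fun n => f (ψ σ n))
      (by
        rw [le_principal_iff, mem_map]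
        exact Filter.univ_mem' fun n => hf _)
  choose g hgB hg using hg
  -- values of the cluster points
  have hval : ∀ (σ : ℕ → Bool) (x : X) (C : Set 𝕜), IsClosed C →
      (∃ m, ∀ n ≥ m, f (ψ σ n) x ∈ C) → g σ x ∈ C := by
    rintro σ x C hC ⟨m, hm⟩
    have h1 : MapClusterPt (g σ x) atTop (fun n => f (ψ σ n) x) :=
      (hg σ).continuousAt_comp (f := fun h : WeakDual 𝕜 X => h x)
        (WeakDual.eval_continuous x).continuousAt
    by_contra hcon
    have h2 := (mapClusterPt_iff_frequently.1 h1) Cᶜ (hC.isOpen_compl.mem_nhds hcon)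
    obtain ⟨n, hn, hn'⟩ := (frequently_atTop.1 h2) m
    exact hn' (hm n hn)
  -- separation
  have hsep0 : ∀ σ τ : ℕ → Bool, ∀ n, (∀ k < n, σ k = τ k) → σ n = false → τ n = true →
      δ ≤ ‖g σ (vec (nd (pre σ n))) - g τ (vec (nd (pre σ n)))‖ := by
    intro σ τ n hστ hσ hτ
    have hpre : pre σ n = pre τ n := pre_congr hστ
    set s := pre σ n with hsdef
    have hA : ∀ k ≥ n + 1, ψ σ k ∈ (stp (nd s) false).1 := by
      intro k hk
      have h1 := hmono σ (n + 1) k hk (hψ2 σ k)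
      simp only [pre] at h1
      rwa [hσ, hnd, ← hsdef] at h1
    have hB : ∀ k ≥ n + 1, ψ τ k ∈ (stp (nd s) true).1 := by
      intro k hk
      have h1 := hmono τ (n + 1) k hk (hψ2 τ k)
      simp only [pre] at h1
      rwa [hτ, hnd, ← hpre] at h1
    have h1 : ∀ i ∈ (stp (nd s) false).1, δ ≤ ‖f i (vec (nd s)) - g τ (vec (nd s))‖ := by
      intro i hi
      have hcl : IsClosed {z : 𝕜 | δ ≤ ‖f i (vec (nd s)) - z‖} :=
        isClosed_le continuous_const (continuous_const.sub continuous_id).norm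
      exact hval τ (vec (nd s)) _ hcl ⟨n + 1, fun k hk => hstp2 _ i hi _ (hB k hk)⟩
    have hcl : IsClosed {z : 𝕜 | δ ≤ ‖z - g τ (vec (nd s))‖} :=
      isClosed_le continuous_const (continuous_id.sub continuous_const).norm
    exact hval σ (vec (nd s)) _ hcl ⟨n + 1, fun k hk => h1 _ (hA k hk)⟩
  let Y : Submodule 𝕜 X := Submodule.span 𝕜 (range fun s : List Bool => vec (nd s))
  have hYsep : TopologicalSpace.SeparableSpace Y := by
    have h1 : TopologicalSpace.IsSeparable (Y : Set X) :=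
      (countable_range _).isSeparable.span
    exact h1.separableSpace
  have hdual := hX Y hYsep
  have hvY : ∀ s, vec (nd s) ∈ Y := fun s => Submodule.subset_span (mem_range_self s)
  let r : (ℕ → Bool) → (Y →L[𝕜] 𝕜) := fun σ =>
    (WeakDual.toStrongDual (g σ)).comp Y.subtypeL
  have hr : ∀ σ τ : ℕ → Bool, σ ≠ τ → δ ≤ ‖r σ - r τ‖ := by
    have key : ∀ σ τ : ℕ → Bool, ∀ n, (∀ k < n, σ k = τ k) → σ n = false → τ n = true →
        δ ≤ ‖r σ - r τ‖ := by
      intro σ τ n h1 h2 h3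
      have h4 := hsep0 σ τ n h1 h2 h3
      have h5 := (r σ - r τ).le_opNorm ⟨vec (nd (pre σ n)), hvY _⟩
      have h6 : (r σ - r τ) ⟨vec (nd (pre σ n)), hvY _⟩ =
          g σ (vec (nd (pre σ n))) - g τ (vec (nd (pre σ n))) := rfl
      rw [h6] at h5
      have h7 : ‖(⟨vec (nd (pre σ n)), hvY _⟩ : Y)‖ ≤ 1 := hvec _
      calc δ ≤ _ := h4
        _ ≤ _ := h5
        _ ≤ ‖r σ - r τ‖ * 1 := mul_le_mul_of_nonneg_left h7 (norm_nonneg _)
        _ = _ := mul_one _
    intro σ τ hne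
    have hex : ∃ n, σ n ≠ τ n := Function.ne_iff.1 hne
    have h1 : ∀ k < Nat.find hex, σ k = τ k := fun k hk => by
      by_contra hcon
      exact Nat.find_min hex hk hcon
    have h2 := Nat.find_spec hex
    cases hσ : σ (Nat.find hex)
    · have hτ : τ (Nat.find hex) = true := by
        rw [hσ] at h2
        cases hτ : τ (Nat.find hex)
        · exact absurd hτ.symm h2
        · rfl
      exact key σ τ _ h1 hσ hτ
    · have hτ : τ (Nat.find hex) = false := by
        rw [hσ] at h2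
        cases hτ : τ (Nat.find hex)
        · rfl
        · exact absurd hτ.symm h2
      rw [norm_sub_rev]
      exact key τ σ _ (fun k hk => (h1 k hk).symm) hτ hσ
  obtain ⟨C, hCc, hCd⟩ := TopologicalSpace.exists_countable_dense (Y →L[𝕜] 𝕜)
  have hnear : ∀ σ, ∃ c ∈ C, dist (r σ) c < δ / 2 := fun σ =>
    hCd.exists_dist_lt (r σ) (by positivity)
  choose c hcC hcd using hnear
  have hinj : Function.Injective fun σ => (⟨c σ, hcC σ⟩ : C) := by
    intro σ τ h
    by_contra hne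
    have h1 : c σ = c τ := congrArg Subtype.val h
    have h2 := hr σ τ hne
    rw [← dist_eq_norm] at h2
    have h3 := dist_triangle_right (r σ) (r τ) (c σ)
    have h4 := hcd σ
    have h5 := hcd τ
    rw [← h1] at h5
    linarith
  have := hCc.to_subtype
  exact not_countable_nat_bool hinj.countable

end Pool.Agent.Helper454.Biorth
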