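import Pool.Agent.Helper454.BiorthAsplund

/-!
# Nonseparable spaces with weak* sequentially compact dual ball
-/

namespace Pool.Agent.Helper454.Biorth

open Set Filter Topology

variable {𝕜 : Type*} {X : Type*} [RCLike 𝕜] [NormedAddCommGroup X] [NormedSpace 𝕜 X]

/-- A proper closed subspace is annihilated by a nonzero functional. -/
theorem exists_functional_of_ne_top (Y : Submodule 𝕜 X) (hY : IsClosed (Y : Set X)) (x₀ : X)
    (hx₀ : x₀ ∉ Y) : ∃ f : X →L[𝕜] 𝕜, f x₀ ≠ 0 ∧ ∀ y ∈ Y, f y = 0 := by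
  have hne : ‖(Submodule.Quotient.mk x₀ : X ⧸ Y)‖ ≠ 0 := by
    intro h
    have h1 : x₀ ∈ closure (Y.toAddSubgroup : Set X) :=
      (QuotientAddGroup.norm_mk_eq_zero_iff_mem_closure (S := Y.toAddSubgroup)).1 h
    have h2 : (Y.toAddSubgroup : Set X) = (Y : Set X) := rfl
    rw [h2, hY.closure_eq] at h1
    exact hx₀ h1
  obtain ⟨g, -, hg⟩ := exists_dual_vector 𝕜 (Submodule.Quotient.mk x₀ : X ⧸ Y) hne
  refine ⟨g.comp Y.mkQL, ?_, ?_⟩
  · have h1 : (g.comp Y.mkQL) x₀ = g (Submodule.Quotient.mk x₀) := rfl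
    rw [h1, hg]
    simpa using hne
  · intro y hy
    have h1 : (g.comp Y.mkQL) y = g (Submodule.Quotient.mk y) := rfl
    rw [h1, (Submodule.Quotient.mk_eq_zero Y).2 hy, map_zero]

/-- No countable subset of a nonseparable space separates the points of the dual ball. -/
theorem exists_ne_of_nonseparable (hX : ¬ TopologicalSpace.SeparableSpace X) (C : Set X)
    (hC : C.Countable) :
    ∃ f ∈ dualBall 𝕜 X, ∃ g ∈ dualBall 𝕜 X, f ≠ g ∧ ∀ x ∈ C, f x = g x := by
  let Y : Submodule 𝕜 X := (Submodule.span 𝕜 C).topologicalClosure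
  have hYc : IsClosed (Y : Set X) := Submodule.isClosed_topologicalClosure _
  have hYne : ∃ x₀, x₀ ∉ Y := by
    by_contra hcon
    push Not at hcon
    apply hX
    have h1 : TopologicalSpace.IsSeparable (Y : Set X) := by
      have h2 : TopologicalSpace.IsSeparable ((Submodule.span 𝕜 C : Submodule 𝕜 X) : Set X) :=
        hC.isSeparable.span
      exact h2.closure
    have h3 : (Y : Set X) = univ := eq_univ_of_forall hcon
    rw [h3] at h1
    exact TopologicalSpace.isSeparable_univ_iff.1 h1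
  obtain ⟨x₀, hx₀⟩ := hYne
  obtain ⟨f, hf1, hf2⟩ := exists_functional_of_ne_top Y hYc x₀ hx₀
  have hfn : ‖f‖ ≠ 0 := by
    intro h
    rw [norm_eq_zero] at h
    rw [h] at hf1
    exact hf1 rfl
  have hfn' : (‖f‖ : 𝕜) ≠ 0 := by simpa using hfn
  refine ⟨StrongDual.toWeakDual ((‖f‖ : 𝕜)⁻¹ • f), ?_, 0, ?_, ?_, ?_⟩
  · change ‖(‖f‖ : 𝕜)⁻¹ • f‖ ≤ 1
    rw [norm_smul, norm_inv, RCLike.norm_ofReal, abs_norm, inv_mul_cancel₀ hfn]
  · simp [dualBall]
  · intro h
    have h1 := congrArg (fun h : WeakDual 𝕜 X => h x₀) h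
    have h2 : (‖f‖ : 𝕜)⁻¹ * f x₀ = 0 := h1
    rcases mul_eq_zero.1 h2 with h3 | h3
    · exact hfn' (inv_eq_zero.1 h3)
    · exact hf1 h3
  · intro x hx
    have h1 : f x = 0 := hf2 x (Submodule.le_topologicalClosure _ (Submodule.subset_span hx))
    change (‖f‖ : 𝕜)⁻¹ * f x = 0
    rw [h1, mul_zero]

/-- Under PID and `ℵ₁ < 𝔟`, every nonseparable Banach space with weak* sequentially compact dual
ball has an uncountable biorthogonal system. -/
theorem hasUncountable_of_isSeqCompact_dualBall (hPID : PID) (hb : Cardinal.aleph 1 < bounding)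
    {𝕜 : Type} [RCLike 𝕜] {X : Type*} [NormedAddCommGroup X] [NormedSpace 𝕜 X] [CompleteSpace X]
    (hX : ¬ TopologicalSpace.SeparableSpace X) (hs : IsSeqCompact (dualBall 𝕜 X)) :
    HasUncountableBiorthogonalSystem 𝕜 X :=
  theoremC hPID hb (dualBall 𝕜 X) hs fun C hC => exists_ne_of_nonseparable hX C hC

end Pool.Agent.Helper454.Biorth
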