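import Mathlib

/-!
# Basic notions: the P-ideal dichotomy, the bounding number, biorthogonal systems
-/

namespace Pool.Agent.Helper454.Biorth

open Set Filter Cardinal

/-- `I` is a P-ideal of countable subsets of `S`. -/
structure IsPIdeal {S : Type} (I : Set (Set S)) : Prop where
  countable : ∀ A ∈ I, A.Countable
  subset : ∀ A ∈ I, ∀ B : Set S, B ⊆ A → B ∈ I
  union : ∀ A ∈ I, ∀ B ∈ I, A ∪ B ∈ I
  finite : ∀ A : Set S, A.Finite → A ∈ I
  pseudo : ∀ X : ℕ → Set S, (∀ n, X n ∈ I) → ∃ Y ∈ I, ∀ n, (X n \ Y).Finite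

/-- The P-ideal dichotomy, for all sets `S` of the lowest universe: for every P-ideal `I` of
countable subsets of `S`, either some uncountable `T` has all of its countable subsets in `I`, or
`S` is a countable union of sets `P n` none of which has an infinite subset in `I`. -/
def PID : Prop :=
  ∀ (S : Type) (I : Set (Set S)), IsPIdeal I →
    (∃ T : Set S, ¬ T.Countable ∧ ∀ A : Set S, A ⊆ T → A.Countable → A ∈ I) ∨
    (∃ P : ℕ → Set S, (⋃ n, P n) = Set.univ ∧ ∀ n, ∀ A : Set S, A ⊆ P n → A.Infinite → A ∉ I)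

/-- The bounding number: the least cardinality of a set of functions `ℕ → ℕ` which is unbounded
under eventual dominance. -/
noncomputable def bounding : Cardinal.{0} :=
  sInf {κ | ∃ F : Set (ℕ → ℕ), (¬ ∃ g : ℕ → ℕ, ∀ f ∈ F, ∀ᶠ n in atTop, f n ≤ g n) ∧ #F = κ}

/-- `X` has an uncountable biorthogonal system: an uncountable set of pairs `(x, f)` with
`f x = 1` for each of its pairs and `f y = 0` for any two different pairs `(x, f)`, `(y, g)`. -/
def HasUncountableBiorthogonalSystem (𝕜 : Type*) (X : Type*) [RCLike 𝕜] [NormedAddCommGroup X]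
    [NormedSpace 𝕜 X] : Prop :=
  ∃ B : Set (X × (X →L[𝕜] 𝕜)), ¬ B.Countable ∧
    (∀ p ∈ B, p.2 p.1 = 1) ∧ ∀ p ∈ B, ∀ q ∈ B, p ≠ q → p.2 q.1 = 0

/-- Below the bounding number every family of functions is bounded. -/
theorem exists_bound_of_lt {ι : Type*} (φ : ι → ℕ → ℕ)
    (h : Cardinal.lift.{0} #ι < Cardinal.lift bounding) :
    ∃ g : ℕ → ℕ, ∀ i, ∀ᶠ n in atTop, φ i n ≤ g n := by
  by_contra hcon
  have h1 : bounding ≤ #(range φ) := by
    apply csInf_le'
    refine ⟨range φ, ?_, rfl⟩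
    rintro ⟨g, hg⟩
    exact hcon ⟨g, fun i => hg _ (mem_range_self i)⟩
  have h2 : Cardinal.lift #(range φ) ≤ Cardinal.lift.{0} #ι := mk_range_le_lift
  have h3 : Cardinal.lift bounding ≤ Cardinal.lift #(range φ) := Cardinal.lift_le.2 h1
  exact absurd (h3.trans h2) (not_le.2 h)

/-- If `ℵ₁ < 𝔟` then every family of at most `ℵ₁` functions is bounded. -/
theorem exists_bound {ι : Type} (hb : aleph 1 < bounding) (hι : #ι ≤ aleph 1)
    (φ : ι → ℕ → ℕ) : ∃ g : ℕ → ℕ, ∀ i, ∀ᶠ n in atTop, φ i n ≤ g n := by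
  apply exists_bound_of_lt
  simpa using lt_of_le_of_lt hι hb

end Pool.Agent.Helper454.Biorth
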