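import Pool.Agent.Helper454.BiorthCard

/-!
# Using the two cardinal invariants
-/

namespace Pool.Agent.Helper454.Biorth

open Set Filter Cardinal

theorem exists_unsplit {ι : Type} (hs : aleph 1 < splittingNumber) (hι : #ι ≤ aleph 1)
    (A : ι → Set ℕ) : ∃ M : Set ℕ, M.Infinite ∧ ∀ i, (M ∩ A i).Finite ∨ (M \ A i).Finite := by
  by_contra hcon
  push Not at hcon
  have h1 : splittingNumber ≤ #(range A) := by
    apply csInf_le'
    refine ⟨range A, ?_, rfl⟩
    intro M hM
    obtain ⟨i, hi⟩ := hcon M hM
    exact ⟨A i, mem_range_self i, hi.1, hi.2⟩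
  have h2 : #(range A) ≤ #ι := mk_range_le
  exact absurd (h1.trans (h2.trans hι)) (not_le.2 hs)

theorem exists_notMem_closedNull {ι : Type} (hs : aleph 1 < covClosedNull) (hι : #ι ≤ aleph 1)
    (N : ι → Set ℝ) (hc : ∀ i, IsClosed (N i)) (h0 : ∀ i, MeasureTheory.volume (N i) = 0) :
    ∃ x : ℝ, ∀ i, x ∉ N i := by
  by_contra hcon
  push Not at hcon
  have h1 : covClosedNull ≤ #(range N) := by
    apply csInf_le'
    refine ⟨range N, ?_, ?_, rfl⟩
    · rintro _ ⟨i, rfl⟩
      exact ⟨hc i, h0 i⟩
    · rw [sUnion_range]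
      exact eq_univ_of_forall fun x => mem_iUnion.2 (hcon x)
  have h2 : #(range N) ≤ #ι := mk_range_le
  exact absurd (h1.trans (h2.trans hι)) (not_le.2 hs)

/-- The version for the unit interval. -/
theorem exists_notMem_closedNull_Ioo {ι : Type} (hs : aleph 1 < covClosedNull)
    (hι : #ι ≤ aleph 1) (N : ι → Set ℝ) (hc : ∀ i, IsClosed (N i))
    (h0 : ∀ i, MeasureTheory.volume (N i) = 0) :
    ∃ x ∈ Ioo (0 : ℝ) 1, ∀ i, x ∉ N i := by
  -- translates of the sets, and the integers
  obtain ⟨x, hx⟩ := exists_notMem_closedNull hs (ι := Option (ι × ℤ)) (by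
      rw [mk_option, mk_prod]
      simp only [lift_id]
      have h1 : #ι * #ℤ ≤ aleph 1 := by
        refine (mul_le_mul' hι (show #ℤ ≤ aleph 1 from ?_)).trans ?_
        · rw [mk_int]; exact aleph0_le_aleph 1
        · rw [mul_eq_self (aleph0_le_aleph 1)]
      refine (add_le_add h1 (one_le_aleph0.trans (aleph0_le_aleph 1))).trans ?_
      rw [add_eq_self (aleph0_le_aleph 1)])
    (fun o => match o with
      | none => range (fun k : ℤ => (k : ℝ))
      | some p => (fun y => y + (p.2 : ℝ)) ⁻¹' (N p.1)) (by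
      rintro (_ | p)
      · exact Int.isClosedEmbedding_coe_real.isClosed_range
      · exact (hc p.1).preimage (continuous_id.add continuous_const)) (by
      rintro (_ | p)
      · exact (countable_range _).measure_zero _
      · simpa [MeasureTheory.measure_preimage_add_right] using h0 p.1)
  refine ⟨Int.fract x, ⟨?_, Int.fract_lt_one x⟩, fun i hi => ?_⟩
  · rcases (Int.fract_nonneg x).lt_or_eq with h | h
    · exact h
    · exfalso
      apply hx none
      refine ⟨⌊x⌋, ?_⟩
      have := Int.floor_add_fract x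
      rw [← h] at this
      simpa using this
  · apply hx (some (i, -⌊x⌋))
    simp only [mem_preimage]
    have : x + ((-⌊x⌋ : ℤ) : ℝ) = Int.fract x := by
      push_cast
      rw [← sub_eq_add_neg]
      rfl
    rw [this]
    exact hi

end Pool.Agent.Helper454.Biorth
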