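import Pool.Agent.Helper454.BiorthExt
import Pool.Agent.Helper454.BiorthCardLemmas
import Pool.Agent.Helper454.BiorthAsplund

/-!
# A branch avoiding `ℵ₁` closed null sets
-/

namespace Pool.Agent.Helper454.Biorth

open Set Filter Topology MeasureTheory

/-- the cells of the first `s.length` sets, indexed by lists of bits (last bit first) -/
def nd (g : ℕ → Set ℕ) : List Bool → Set ℕ
  | [] => Set.univ
  | true :: s => nd g s ∩ g s.length
  | false :: s => nd g s \ g s.length

/-- left end points of the intervals -/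
def lft (g : ℕ → Set ℕ) (m : Set ℕ → ℝ) : List Bool → ℝ
  | [] => 0
  | true :: s => lft g m s + m (nd g (false :: s))
  | false :: s => lft g m s

/-- the lists of length `j` -/
def lev : ℕ → Finset (List Bool)
  | 0 => {[]}
  | j + 1 => (lev j).image (List.cons true) ∪ (lev j).image (List.cons false)

theorem mem_lev {j : ℕ} {s : List Bool} : s ∈ lev j ↔ s.length = j := by
  induction j generalizing s with
  | zero => simp [lev]
  | succ j ih =>
    simp only [lev, Finset.mem_union, Finset.mem_image]
    constructor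
    · rintro (⟨a, ha, rfl⟩ | ⟨a, ha, rfl⟩)
      · simpa using ih.1 ha
      · simpa using ih.1 ha
    · intro h
      cases s with
      | nil => simp at h
      | cons b s =>
        have h1 : s ∈ lev j := ih.2 (by simpa using h)
        cases b
        · exact Or.inr ⟨s, h1, rfl⟩
        · exact Or.inl ⟨s, h1, rfl⟩

variable {g : ℕ → Set ℕ} {m : Set ℕ → ℝ}

theorem nd_cons_subset (b : Bool) (s : List Bool) : nd g (b :: s) ⊆ nd g s := by
  cases b
  · exact sdiff_subset
  · exact inter_subset_left

theorem measure_nd (hm : IsFAP m) (s : List Bool) :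
    m (nd g (false :: s)) + m (nd g (true :: s)) = m (nd g s) := by
  rw [add_comm]
  exact hm.inter_add_diff _ _

theorem nd_disjoint : ∀ {j : ℕ} {s s' : List Bool}, s.length = j → s'.length = j → s ≠ s' →
    Disjoint (nd g s) (nd g s') := by
  intro j
  induction j with
  | zero =>
    intro s s' hs hs' hne
    rw [List.length_eq_zero_iff] at hs hs'
    exact absurd (hs.trans hs'.symm) hne
  | succ j ih =>
    intro s s' hs hs' hne
    cases s with
    | nil => simp at hs
    | cons b s =>
      cases s' with
      | nil => simp at hs'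
      | cons b' s' =>
        simp only [List.length_cons, Nat.add_right_cancel_iff] at hs hs'
        by_cases h : s = s'
        · subst h
          have hb : b ≠ b' := fun h => hne (by rw [h])
          cases b <;> cases b'
          · exact absurd rfl hb
          · exact (disjoint_sdiff_inter)
          · exact (disjoint_sdiff_inter).symm
          · exact absurd rfl hb
        · exact (ih hs hs' h).mono (nd_cons_subset b s) (nd_cons_subset b' s')

theorem mem_iff_of_mem_nd : ∀ {s : List Bool} {n k i : ℕ}, n ∈ nd g s → k ∈ nd g s → i < s.length →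
    (n ∈ g i ↔ k ∈ g i) := by
  intro s
  induction s with
  | nil => intro n k i _ _ hi; simp at hi
  | cons b s ih =>
    intro n k i hn hk hi
    rw [List.length_cons] at hi
    rcases Nat.lt_succ_iff_lt_or_eq.1 hi with h | h
    · exact ih (nd_cons_subset b s hn) (nd_cons_subset b s hk) h
    · subst h
      cases b
      · exact iff_of_false hn.2 hk.2
      · exact iff_of_true hn.2 hk.2

theorem exists_unsplit_of_null {J : Type*} (S : J → Set ℕ) (hm : IsFAP m)
    (I : Set J) (hI : I.Countable) {ι : Type} (hι : Cardinal.mk ι ≤ Cardinal.aleph 1)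
    (hc : Cardinal.aleph 1 < covClosedNull) (A B : ι → Set ℕ)
    (h : ∀ e, ∀ ε : ℝ, 0 < ε → ∃ t : Finset J, (t : Set J) ⊆ I ∧
      m (undSet S (A e) (B e) t) < ε) :
    ∃ M : Set ℕ, M.Infinite ∧ ∀ e, (M ∩ A e).Finite ∨ (M ∩ B e).Finite := by
  classical
  obtain ⟨g, hg⟩ : ∃ g : ℕ → Set ℕ, ∀ j ∈ I, ∃ i, g i = S j := by
    have h1 : ((S '' I) ∪ {Set.univ}).Countable := (hI.image S).union (countable_singleton _)
    obtain ⟨g, hg⟩ := h1.exists_eq_range ⟨_, Or.inr rfl⟩
    refine ⟨g, fun j hj => ?_⟩
    have : S j ∈ range g := by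
      rw [← hg]
      exact Or.inl ⟨j, hj, rfl⟩
    exact this
  -- the closed null sets
  let C : List Bool → Set ℝ := fun s => Icc (lft g m s) (lft g m s + m (nd g s))
  let N : ι → ℕ → Set ℝ := fun e j => ⋃ s ∈ (lev j).filter (fun s => Und (A e) (B e) (nd g s)), C s
  have hNc : ∀ e j, IsClosed (N e j) := fun e j =>
    isClosed_biUnion_finset fun s _ => isClosed_Icc
  have hNv : ∀ e, ∀ ε : ℝ, 0 < ε → ∃ j, volume (N e j) ≤ ENNReal.ofReal ε := by
    intro e ε hε
    obtain ⟨t, htI, ht⟩ := h e ε hε
    -- a level refining `t`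
    obtain ⟨j, hj⟩ : ∃ j, ∀ i ∈ t, ∃ k < j, g k = S i := by
      have h1 : ∀ i : J, ∃ k, i ∈ t → g k = S i := by
        intro i
        by_cases hi : i ∈ t
        · obtain ⟨k, hk⟩ := hg i (htI hi)
          exact ⟨k, fun _ => hk⟩
        · exact ⟨0, fun h => absurd h hi⟩
      choose k hk using h1
      refine ⟨t.sup k + 1, fun i hi => ⟨k i, Nat.lt_succ_of_le (Finset.le_sup hi), hk i hi⟩⟩
    refine ⟨j, ?_⟩
    have h2 : ∀ s ∈ (lev j).filter (fun s => Und (A e) (B e) (nd g s)),
        nd g s ⊆ undSet S (A e) (B e) t := by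
      intro s hs n hn
      rw [Finset.mem_filter, mem_lev] at hs
      have h3 : nd g s ⊆ cell S t n := by
        intro k hk i hi
        obtain ⟨l, hl, hl'⟩ := hj i hi
        rw [← hl']
        exact mem_iff_of_mem_nd hk hn (by rw [hs.1]; exact hl)
      exact ⟨hs.2.1.mono (inter_subset_inter_left _ h3), hs.2.2.mono (inter_subset_inter_left _ h3)⟩
    calc volume (N e j) ≤ ∑ s ∈ (lev j).filter (fun s => Und (A e) (B e) (nd g s)), volume (C s) :=
          measure_biUnion_finset_le _ _
      _ = ∑ s ∈ (lev j).filter (fun s => Und (A e) (B e) (nd g s)), ENNReal.ofReal (m (nd g s)) := by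
          apply Finset.sum_congr rfl
          intro s _
          rw [Real.volume_Icc]
          congr 1
          ring
      _ = ENNReal.ofReal (∑ s ∈ (lev j).filter (fun s => Und (A e) (B e) (nd g s)),
            m (nd g s)) := (ENNReal.ofReal_sum_of_nonneg fun s _ => hm.nonneg _).symm
      _ = ENNReal.ofReal (m (⋃ s ∈ (lev j).filter (fun s => Und (A e) (B e) (nd g s)),
            nd g s)) := by
          rw [hm.biUnion]
          intro a ha b hb hab
          rw [Finset.mem_filter, mem_lev] at ha hb
          exact nd_disjoint ha.1 hb.1 hab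
      _ ≤ ENNReal.ofReal (m (undSet S (A e) (B e) t)) :=
          ENNReal.ofReal_le_ofReal (hm.mono (iUnion₂_subset h2))
      _ ≤ ENNReal.ofReal ε := ENNReal.ofReal_le_ofReal ht.le
  obtain ⟨x, hx01, hx⟩ := exists_notMem_closedNull_Ioo hc (ι := ι ⊕ List Bool) (by
      rw [Cardinal.mk_sum]
      simp only [Cardinal.lift_id]
      refine (add_le_add hι (show Cardinal.mk (List Bool) ≤ Cardinal.aleph 1 from ?_)).trans ?_
      · exact (Cardinal.mk_le_aleph0).trans (Cardinal.aleph0_le_aleph 1)
      · rw [Cardinal.add_eq_self (Cardinal.aleph0_le_aleph 1)])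
    (fun i => Sum.elim (fun e => ⋂ j, N e j) (fun s => {lft g m (true :: s)}) i) (by
      rintro (e | s)
      · exact isClosed_iInter fun j => hNc e j
      · exact isClosed_singleton) (by
      rintro (e | s)
      · apply le_antisymm _ zero_le
        apply ENNReal.le_of_forall_pos_le_add
        intro ε hε _
        obtain ⟨j, hj⟩ := hNv e ε (by exact_mod_cast hε)
        rw [zero_add]
        refine (measure_mono (iInter_subset _ j)).trans (hj.trans ?_)
        simp
      · simp)
  -- the branch
  have hstep : ∀ s : List Bool, x ∈ Ioo (lft g m s) (lft g m s + m (nd g s)) →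
      ∃ b : Bool, x ∈ Ioo (lft g m (b :: s)) (lft g m (b :: s) + m (nd g (b :: s))) := by
    intro s hs
    have h1 := measure_nd (g := g) hm s
    have h2 : x ≠ lft g m (true :: s) := fun h => hx (Sum.inr s) h
    have h3 : lft g m (true :: s) = lft g m s + m (nd g (false :: s)) := rfl
    have h4 : lft g m (false :: s) = lft g m s := rfl
    rcases lt_or_gt_of_ne h2 with h | h
    · refine ⟨false, ?_, ?_⟩
      · rw [h4]; exact hs.1
      · rw [h4, ← h3]; exact h
    · refine ⟨true, h, ?_⟩
      rw [h3]
      linarith [hs.2]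
  let br : ℕ → {s : List Bool // x ∈ Ioo (lft g m s) (lft g m s + m (nd g s))} := fun n =>
    Nat.rec ⟨[], by
      change x ∈ Ioo (0 : ℝ) (0 + m Set.univ)
      rw [hm.univ, zero_add]
      exact hx01⟩ (fun _ s => ⟨(hstep s.1 s.2).choose :: s.1, (hstep s.1 s.2).choose_spec⟩) n
  have hbr : ∀ n, (br (n + 1)).1 = (hstep (br n).1 (br n).2).choose :: (br n).1 := fun n => rfl
  have hlen : ∀ n, (br n).1.length = n := by
    intro n
    induction n with
    | zero => rfl
    | succ n ih => rw [hbr, List.length_cons, ih]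
  have hanti : ∀ j k, j ≤ k → nd g (br k).1 ⊆ nd g (br j).1 := by
    intro j k hjk
    induction k, hjk using Nat.le_induction with
    | base => exact Subset.rfl
    | succ k _ ih =>
      rw [hbr]
      exact (nd_cons_subset _ _).trans ih
  have hinf : ∀ j, (nd g (br j).1).Infinite := by
    intro j hfin
    have h1 := (br j).2
    rw [hm.finite _ hfin, add_zero] at h1
    exact absurd (h1.1.trans h1.2) (lt_irrefl _)
  obtain ⟨φ, hφ, hφm⟩ := exists_strictMono_mem _ hinf
  refine ⟨range φ, infinite_range_of_injective hφ.injective, fun e => ?_⟩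
  have h1 : ∃ j, x ∉ N e j := by
    have h2 := hx (Sum.inl e)
    simp only [Sum.elim_inl, mem_iInter, not_forall] at h2
    exact h2
  obtain ⟨j, hj⟩ := h1
  have h2 : ¬ Und (A e) (B e) (nd g (br j).1) := by
    intro hU
    apply hj
    refine mem_biUnion (x := (br j).1) ?_ ?_
    · exact Finset.mem_coe.2 (Finset.mem_filter.2 ⟨mem_lev.2 (hlen j), hU⟩)
    · exact ⟨(br j).2.1.le, (br j).2.2.le⟩
  have h3 : ∀ D : Set ℕ, (nd g (br j).1 ∩ D).Finite → (range φ ∩ D).Finite := by
    intro D hD
    apply ((Set.finite_lt_nat j).image φ |>.union hD).subset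
    rintro _ ⟨⟨k, rfl⟩, hk⟩
    by_cases hkj : k < j
    · exact Or.inl ⟨k, hkj, rfl⟩
    · exact Or.inr ⟨hanti j k (not_lt.1 hkj) (hφm k), hk⟩
  by_cases h4 : (nd g (br j).1 ∩ A e).Finite
  · exact Or.inl (h3 _ h4)
  · right
    apply h3
    by_contra h5
    exact h2 ⟨h4, h5⟩

end Pool.Agent.Helper454.Biorth
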