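import Pool.Agent.Helper454.BiorthChar
import Mathlib.Topology.ContinuousMap.ZeroAtInfty

/-!
# Operators into `c₀(Γ)`
-/

namespace Pool.Agent.Helper454.Biorth

open Set Filter Topology
open scoped ZeroAtInfty

variable {𝕜 : Type*} [RCLike 𝕜]

section C0

variable {Γ : Type*} [TopologicalSpace Γ] [DiscreteTopology Γ]

/-- a function which vanishes at infinity on a discrete space -/
def mkC0 (u : Γ → 𝕜) (hu : ∀ ε : ℝ, 0 < ε → {γ | ε ≤ ‖u γ‖}.Finite) : C₀(Γ, 𝕜) where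
  toFun := u
  continuous_toFun := continuous_of_discreteTopology
  zero_at_infty' := by
    rw [cocompact_eq_cofinite, Metric.tendsto_nhds]
    intro ε hε
    rw [eventually_cofinite]
    apply (hu ε hε).subset
    intro γ hγ
    simpa using hγ

@[simp]
theorem mkC0_apply (u : Γ → 𝕜) (hu : ∀ ε : ℝ, 0 < ε → {γ | ε ≤ ‖u γ‖}.Finite) (γ : Γ) :
    mkC0 u hu γ = u γ := rfl

theorem finite_of_C0 (u : C₀(Γ, 𝕜)) (ε : ℝ) (hε : 0 < ε) : {γ | ε ≤ ‖u γ‖}.Finite := by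
  have h1 := u.zero_at_infty'
  rw [cocompact_eq_cofinite, Metric.tendsto_nhds] at h1
  have h2 := h1 ε hε
  rw [eventually_cofinite] at h2
  apply h2.subset
  intro γ hγ
  simpa using hγ

omit [DiscreteTopology Γ] in
theorem norm_C0_le (u : C₀(Γ, 𝕜)) (c : ℝ) (hc : 0 ≤ c) (h : ∀ γ, ‖u γ‖ ≤ c) : ‖u‖ ≤ c := by
  rw [← ZeroAtInftyContinuousMap.norm_toBCF_eq_norm]
  exact (BoundedContinuousFunction.norm_le hc).2 h

omit [DiscreteTopology Γ] in
theorem norm_apply_le_C0 (u : C₀(Γ, 𝕜)) (γ : Γ) : ‖u γ‖ ≤ ‖u‖ := by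
  rw [← ZeroAtInftyContinuousMap.norm_toBCF_eq_norm]
  exact u.toBCF.norm_coe_le_norm γ

open Classical in
/-- the unit vectors -/
noncomputable def unitC0 (𝕜 : Type*) [RCLike 𝕜] (γ : Γ) : C₀(Γ, 𝕜) :=
  mkC0 (fun i => if i = γ then 1 else 0) (by
    intro ε hε
    apply (Set.finite_singleton γ).subset
    intro i hi
    by_contra hne
    have h1 : i ≠ γ := hne
    simp only [mem_ofPred_eq, if_neg h1, norm_zero] at hi
    exact absurd hi (not_le.2 hε))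

open Classical in
theorem sum_unitC0_apply (s : Finset Γ) (c : Γ → 𝕜) (γ : Γ) :
    (∑ i ∈ s, c i • unitC0 𝕜 i) γ = if γ ∈ s then c γ else 0 := by
  induction s using Finset.induction_on with
  | empty => simp
  | insert a s ha ih =>
    rw [Finset.sum_insert ha, ZeroAtInftyContinuousMap.add_apply, ih,
      ZeroAtInftyContinuousMap.smul_apply]
    by_cases h : γ = a
    · subst h
      simp [unitC0, ha]
    · simp [unitC0, h]

theorem sum_norm_le (φ : C₀(Γ, 𝕜) →L[𝕜] 𝕜) (hφ : ‖φ‖ ≤ 1) (s : Finset Γ) :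
    ∑ γ ∈ s, ‖φ (unitC0 𝕜 γ)‖ ≤ 1 := by
  classical
  let c : Γ → 𝕜 := fun γ =>
    if φ (unitC0 𝕜 γ) = 0 then 0 else (starRingEnd 𝕜) (φ (unitC0 𝕜 γ)) / ‖φ (unitC0 𝕜 γ)‖
  have hc1 : ∀ γ, ‖c γ‖ ≤ 1 := by
    intro γ
    by_cases h : φ (unitC0 𝕜 γ) = 0
    · simp [c, h]
    · have h' : ‖φ (unitC0 𝕜 γ)‖ ≠ 0 := by simpa using h
      simp only [c, if_neg h, norm_div, RCLike.norm_conj, RCLike.norm_ofReal, abs_norm]
      rw [div_self h']
  have hc2 : ∀ γ, c γ * φ (unitC0 𝕜 γ) = (‖φ (unitC0 𝕜 γ)‖ : 𝕜) := by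
    intro γ
    by_cases h : φ (unitC0 𝕜 γ) = 0
    · simp [c, h]
    · have h' : (‖φ (unitC0 𝕜 γ)‖ : 𝕜) ≠ 0 := by simpa using h
      simp only [c, if_neg h]
      rw [div_mul_eq_mul_div, RCLike.conj_mul, sq, mul_div_assoc, div_self h', mul_one]
  have h1 : φ (∑ γ ∈ s, c γ • unitC0 𝕜 γ) = ((∑ γ ∈ s, ‖φ (unitC0 𝕜 γ)‖ : ℝ) : 𝕜) := by
    rw [map_sum]
    push_cast
    apply Finset.sum_congr rfl
    intro γ _
    rw [map_smul, smul_eq_mul, hc2]
  have h2 : ‖∑ γ ∈ s, c γ • unitC0 𝕜 γ‖ ≤ 1 := by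
    apply norm_C0_le _ _ zero_le_one
    intro γ
    rw [sum_unitC0_apply]
    split_ifs
    · exact hc1 γ
    · simp
  have h3 := φ.le_opNorm (∑ γ ∈ s, c γ • unitC0 𝕜 γ)
  rw [h1, RCLike.norm_ofReal, abs_of_nonneg (Finset.sum_nonneg fun _ _ => norm_nonneg _)] at h3
  calc _ ≤ _ := h3
    _ ≤ 1 * 1 := mul_le_mul hφ h2 (norm_nonneg _) zero_le_one
    _ = 1 := one_mul 1

theorem countable_support_functional (φ : C₀(Γ, 𝕜) →L[𝕜] 𝕜) (hφ : ‖φ‖ ≤ 1) :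
    {γ | φ (unitC0 𝕜 γ) ≠ 0}.Countable := by
  have h1 : Summable fun γ => ‖φ (unitC0 𝕜 γ)‖ :=
    summable_of_sum_le (fun γ => norm_nonneg _) (sum_norm_le φ hφ)
  have h2 := h1.countable_support
  apply h2.mono
  intro γ hγ
  simpa using hγ

/-- The dual ball of `c₀(Γ)` is weak* sequentially compact. -/
theorem isSeqCompact_dualBall_c0 : IsSeqCompact (dualBall 𝕜 C₀(Γ, 𝕜)) := by
  classical
  intro φ hφ
  let Γ₀ : Set Γ := ⋃ n, {γ | φ n (unitC0 𝕜 γ) ≠ 0}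
  have hΓ₀ : Γ₀.Countable := countable_iUnion fun n =>
    countable_support_functional (WeakDual.toStrongDual (φ n)) (hφ n)
  have : Countable Γ₀ := hΓ₀.to_subtype
  have hle : ∀ n γ, ‖φ n (unitC0 𝕜 γ)‖ ≤ 1 := by
    intro n γ
    have h1 := sum_norm_le (WeakDual.toStrongDual (φ n)) (hφ n) {γ}
    rw [Finset.sum_singleton] at h1
    exact h1
  obtain ⟨a, -, ψ, hψ, ha⟩ := (isCompact_univ_pi fun _ : Γ₀ =>
    ProperSpace.isCompact_closedBall (0 : 𝕜) 1).isSeqCompact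
    (x := fun n (γ : Γ₀) => φ n (unitC0 𝕜 γ.1)) (by
      intro n γ _
      rw [mem_closedBall_zero_iff]
      exact hle n γ.1)
  -- convergence at all unit vectors
  have hunit : ∀ γ, ∃ b : 𝕜, Tendsto (fun n => φ (ψ n) (unitC0 𝕜 γ)) atTop (𝓝 b) := by
    intro γ
    by_cases h : γ ∈ Γ₀
    · exact ⟨a ⟨γ, h⟩, (tendsto_pi_nhds.1 ha) ⟨γ, h⟩⟩
    · refine ⟨0, tendsto_const_nhds.congr fun n => ?_⟩
      by_contra hne
      exact h (mem_iUnion.2 ⟨ψ n, fun h => hne h.symm⟩)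
  obtain ⟨g, hgB, hg⟩ := isCompact_dualBall.exists_mapClusterPt (f := atTop) (u := φ ∘ ψ)
    (by
      rw [le_principal_iff, mem_map]
      exact Filter.univ_mem' fun n => hφ _)
  have hgunit : ∀ γ, Tendsto (fun n => φ (ψ n) (unitC0 𝕜 γ)) atTop (𝓝 (g (unitC0 𝕜 γ))) := by
    intro γ
    obtain ⟨b, hb⟩ := hunit γ
    have h1 : MapClusterPt (g (unitC0 𝕜 γ)) atTop (fun n => φ (ψ n) (unitC0 𝕜 γ)) :=
      hg.continuousAt_comp (f := fun h : WeakDual 𝕜 C₀(Γ, 𝕜) => h (unitC0 𝕜 γ))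
        (WeakDual.eval_continuous _).continuousAt
    have h2 : g (unitC0 𝕜 γ) = b := by
      by_contra hne
      have h4 : (𝓝 (g (unitC0 𝕜 γ)) ⊓ 𝓝 b).NeBot := ClusterPt.mono h1 hb
      exact hne (eq_of_nhds_neBot h4)
    rw [h2]
    exact hb
  refine ⟨g, hgB, ψ, hψ, ?_⟩
  apply tendsto_iff_forall_eval_tendsto_topDualPairing.2
  intro u
  change Tendsto (fun n => φ (ψ n) u) atTop (𝓝 (g u))
  rw [Metric.tendsto_atTop]
  intro ε hε
  have hfin := finite_of_C0 u (ε / 4) (by positivity)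
  let s : Finset Γ := hfin.toFinset
  let v : C₀(Γ, 𝕜) := ∑ i ∈ s, u i • unitC0 𝕜 i
  have huv : ‖u - v‖ ≤ ε / 4 := by
    apply norm_C0_le _ _ (by positivity)
    intro γ
    rw [ZeroAtInftyContinuousMap.sub_apply, sum_unitC0_apply]
    split_ifs with h
    · rw [sub_self, norm_zero]
      positivity
    · rw [sub_zero]
      have h1 : γ ∉ {γ | ε / 4 ≤ ‖u γ‖} := fun h' => h (hfin.mem_toFinset.2 h')
      exact (not_le.1 h1).le
  have hv : Tendsto (fun n => φ (ψ n) v) atTop (𝓝 (g v)) := by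
    simp only [v, map_sum, map_smul]
    apply tendsto_finsetSum
    intro i _
    exact (hgunit i).const_smul _
  obtain ⟨N, hN⟩ := (Metric.tendsto_atTop.1 hv) (ε / 4) (by positivity)
  refine ⟨N, fun n hn => ?_⟩
  have h1 := hN n hn
  rw [dist_eq_norm] at h1 ⊢
  have h2 := norm_apply_le_of_mem_dualBall (hφ (ψ n)) (u - v)
  have h3 := norm_apply_le_of_mem_dualBall hgB (u - v)
  rw [map_sub] at h2 h3
  have h4 : φ (ψ n) u - g u = (φ (ψ n) u - φ (ψ n) v) + (φ (ψ n) v - g v) - (g u - g v) := by ring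
  rw [h4]
  have h5 := norm_sub_le ((φ (ψ n) u - φ (ψ n) v) + (φ (ψ n) v - g v)) (g u - g v)
  have h6 := norm_add_le (φ (ψ n) u - φ (ψ n) v) (φ (ψ n) v - g v)
  linarith

end C0

end Pool.Agent.Helper454.Biorth
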