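import Pool.Agent.Helper454.BiorthBasic

/-!
# Two cardinal invariants of the continuum
-/

namespace Pool.Agent.Helper454.Biorth

open Set Filter Cardinal

/-- The splitting number: the least cardinality of a family of subsets of `ℕ` which splits every
infinite subset of `ℕ`. -/
noncomputable def splittingNumber : Cardinal.{0} :=
  sInf {κ | ∃ F : Set (Set ℕ),
    (∀ A : Set ℕ, A.Infinite → ∃ S ∈ F, (A ∩ S).Infinite ∧ (A \ S).Infinite) ∧ #F = κ}

/-- The least cardinality of a family of closed subsets of Lebesgue measure zero of the real line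
whose union is the real line. -/
noncomputable def covClosedNull : Cardinal.{0} :=
  sInf {κ | ∃ F : Set (Set ℝ),
    (∀ A ∈ F, IsClosed A ∧ MeasureTheory.volume A = 0) ∧ ⋃₀ F = Set.univ ∧ #F = κ}

end Pool.Agent.Helper454.Biorth
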