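import Pool.Agent.Helper454.BiorthRel

/-!
# A characterisation of the spaces with an uncountable biorthogonal system
-/

namespace Pool.Agent.Helper454.Biorth

open Set Filter Topology

variable {𝕜 : Type} [RCLike 𝕜]

/-- A biorthogonal system gives an uncountable family of functionals which tends to zero
pointwise, on a closed subspace. -/
theorem exists_nullFamily_of_hasUncountable {X : Type*} [NormedAddCommGroup X] [NormedSpace 𝕜 X]
    (h : HasUncountableBiorthogonalSystem 𝕜 X) :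
    ∃ Y : Submodule 𝕜 X, IsClosed (Y : Set X) ∧ ∃ F : Set (Y →L[𝕜] 𝕜), ¬ F.Countable ∧
      (∀ f ∈ F, f ≠ 0 ∧ ‖f‖ ≤ 1) ∧ ∀ y : Y, ∀ ε : ℝ, 0 < ε → {f ∈ F | ε ≤ ‖f y‖}.Finite := by
  classical
  obtain ⟨B, hB, h1, h2⟩ := h
  let Y : Submodule 𝕜 X := (Submodule.span 𝕜 (Prod.fst '' B)).topologicalClosure
  have hYmem : ∀ p ∈ B, p.1 ∈ Y := fun p hp =>
    Submodule.le_topologicalClosure _ (Submodule.subset_span (mem_image_of_mem _ hp))
  have hne : ∀ p ∈ B, ‖p.2‖ ≠ 0 := by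
    intro p hp h0
    rw [norm_eq_zero] at h0
    have := h1 p hp
    rw [h0] at this
    exact zero_ne_one this
  let Φ : X × (X →L[𝕜] 𝕜) → (Y →L[𝕜] 𝕜) := fun p => ((‖p.2‖ : 𝕜)⁻¹ • p.2).comp Y.subtypeL
  have hΦ : ∀ p (y : Y), Φ p y = (‖p.2‖ : 𝕜)⁻¹ * p.2 y := fun p y => rfl
  have hΦn : ∀ p ∈ B, ∀ y : Y, ‖Φ p y‖ ≤ ‖y‖ := by
    intro p hp y
    rw [hΦ, norm_mul, norm_inv, RCLike.norm_ofReal, abs_norm]
    have h3 := p.2.le_opNorm (y : X)
    rw [inv_mul_le_iff₀ (lt_of_le_of_ne (norm_nonneg _) (hne p hp).symm)]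
    exact h3
  have hΦinj : Set.InjOn Φ B := by
    intro p hp q hq hpq
    by_contra hcon
    have h3 : Φ p ⟨p.1, hYmem p hp⟩ = Φ q ⟨p.1, hYmem p hp⟩ := by rw [hpq]
    rw [hΦ, hΦ, h1 p hp, h2 q hq p hp (Ne.symm hcon), mul_one, mul_zero] at h3
    have h4 : (‖p.2‖ : 𝕜) ≠ 0 := by simpa using hne p hp
    exact inv_ne_zero h4 h3
  refine ⟨Y, Submodule.isClosed_topologicalClosure _, Φ '' B, ?_, ?_, ?_⟩
  · intro hc
    exact hB (countable_of_injective_of_countable_image hΦinj hc)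
  · rintro _ ⟨p, hp, rfl⟩
    refine ⟨?_, ?_⟩
    · intro h0
      have h3 : Φ p ⟨p.1, hYmem p hp⟩ = 0 := by rw [h0]; rfl
      rw [hΦ, h1 p hp, mul_one] at h3
      have h4 : (‖p.2‖ : 𝕜) ≠ 0 := by simpa using hne p hp
      exact inv_ne_zero h4 h3
    · apply ContinuousLinearMap.opNorm_le_bound _ zero_le_one
      intro y
      rw [one_mul]
      exact hΦn p hp y
  · intro y ε hε
    have hspan : ∀ z ∈ Submodule.span 𝕜 (Prod.fst '' B), {p ∈ B | p.2 z ≠ 0}.Finite := by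
      intro z hz
      induction hz using Submodule.span_induction with
      | mem z hz =>
        obtain ⟨q, hq, rfl⟩ := hz
        apply (Set.finite_singleton q).subset
        rintro p ⟨hp, hp'⟩
        by_contra hcon
        exact hp' (h2 p hp q hq hcon)
      | zero =>
        apply Set.finite_empty.subset
        rintro p ⟨-, hp⟩
        exact hp (map_zero _)
      | add a b _ _ ha hb =>
        apply (ha.union hb).subset
        rintro p ⟨hp, hp'⟩
        by_contra hcon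
        rw [mem_union, not_or] at hcon
        apply hp'
        rw [map_add]
        have h3 : p.2 a = 0 := by
          by_contra h
          exact hcon.1 ⟨hp, h⟩
        have h4 : p.2 b = 0 := by
          by_contra h
          exact hcon.2 ⟨hp, h⟩
        rw [h3, h4, add_zero]
      | smul c a _ ha =>
        apply ha.subset
        rintro p ⟨hp, hp'⟩
        refine ⟨hp, fun h => hp' ?_⟩
        rw [map_smul, h, smul_zero]
    have hy : (y : X) ∈ closure ((Submodule.span 𝕜 (Prod.fst '' B) : Submodule 𝕜 X) : Set X) := y.2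
    obtain ⟨z, hz, hyz⟩ := Metric.mem_closure_iff.1 hy ε hε
    apply ((hspan z hz).image Φ).subset
    rintro _ ⟨⟨p, hp, rfl⟩, hp'⟩
    refine ⟨p, ⟨hp, fun h0 => ?_⟩, rfl⟩
    have hzY : z ∈ Y := Submodule.le_topologicalClosure _ hz
    have h3 := hΦn p hp (y - ⟨z, hzY⟩)
    have h4 : Φ p (y - ⟨z, hzY⟩) = Φ p y := by
      rw [map_sub]
      have : Φ p ⟨z, hzY⟩ = 0 := by
        rw [hΦ]
        simp only
        rw [h0, mul_zero]
      rw [this, sub_zero]
    rw [h4] at h3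
    have h5 : ‖(y - ⟨z, hzY⟩ : Y)‖ = dist (y : X) z := by
      rw [dist_eq_norm]
      rfl
    rw [h5] at h3
    have hp'' : ε ≤ ‖Φ p y‖ := hp'
    linarith

/-- A pointwise null uncountable family gives a relatively sequentially compact set which is not
separated by a countable set. -/
theorem relatively_of_nullFamily {Y : Type*} [NormedAddCommGroup Y] [NormedSpace 𝕜 Y]
    (F : Set (Y →L[𝕜] 𝕜)) (hF : ¬ F.Countable) (hF0 : ∀ f ∈ F, f ≠ 0)
    (hF1 : ∀ y : Y, ∀ ε : ℝ, 0 < ε → {f ∈ F | ε ≤ ‖f y‖}.Finite) :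
    (∀ f : ℕ → WeakDual 𝕜 Y, (∀ n, f n ∈ {g : WeakDual 𝕜 Y | WeakDual.toStrongDual g ∈ F ∨ g = 0}) →
      ∃ g : WeakDual 𝕜 Y, ∃ φ : ℕ → ℕ, StrictMono φ ∧ Tendsto (f ∘ φ) atTop (𝓝 g)) ∧
    ∀ C : Set Y, C.Countable → ∃ f ∈ {g : WeakDual 𝕜 Y | WeakDual.toStrongDual g ∈ F ∨ g = 0},
      ∃ g ∈ {g : WeakDual 𝕜 Y | WeakDual.toStrongDual g ∈ F ∨ g = 0}, f ≠ g ∧ ∀ x ∈ C, f x = g x := by
  classical
  constructor
  · intro f hf
    by_cases hrep : ∃ g, {n | f n = g}.Infinite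
    · obtain ⟨g, hg⟩ := hrep
      refine ⟨g, Nat.nth (fun n => f n = g), Nat.nth_strictMono hg, ?_⟩
      apply tendsto_const_nhds.congr
      intro n
      exact (Nat.nth_mem_of_infinite hg n).symm
    · push Not at hrep
      refine ⟨0, id, strictMono_id, ?_⟩
      apply tendsto_iff_forall_eval_tendsto_topDualPairing.2
      intro y
      change Tendsto (fun n => f n y) atTop (𝓝 (0 : 𝕜))
      rw [Metric.tendsto_atTop]
      intro ε hε
      have h1 : {n | ε ≤ ‖f n y‖}.Finite := by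
        have h2 : {n | ε ≤ ‖f n y‖} ⊆
            ⋃ g ∈ {g ∈ F | ε ≤ ‖g y‖}, {n | f n = StrongDual.toWeakDual g} := by
          intro n hn
          have hn' : ε ≤ ‖f n y‖ := hn
          rcases hf n with h | h
          · refine mem_biUnion (x := WeakDual.toStrongDual (f n)) ⟨h, hn⟩ ?_
            rfl
          · rw [h] at hn'
            have : ‖(0 : WeakDual 𝕜 Y) y‖ = 0 := by
              have : (0 : WeakDual 𝕜 Y) y = 0 := rfl
              rw [this, norm_zero]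
            rw [this] at hn'
            exact absurd hn' (not_le.2 hε)
        exact ((hF1 y ε hε).biUnion fun g _ => hrep _).subset h2
      obtain ⟨N, hN⟩ := h1.bddAbove
      refine ⟨N + 1, fun n hn => ?_⟩
      rw [dist_zero_right]
      by_contra hcon
      have := hN (not_lt.1 hcon)
      omega
  · intro C hC
    have h1 : (⋃ y ∈ C, {f ∈ F | f y ≠ 0}).Countable := by
      apply hC.biUnion
      intro y _
      have h2 : {f ∈ F | f y ≠ 0} ⊆ ⋃ N : ℕ, {f ∈ F | 1 / ((N : ℝ) + 1) ≤ ‖f y‖} := by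
        rintro f ⟨hf, hfy⟩
        obtain ⟨N, hN⟩ := exists_nat_one_div_lt (norm_pos_iff.2 hfy)
        exact mem_iUnion.2 ⟨N, hf, hN.le⟩
      exact (countable_iUnion fun N => (hF1 y _ (by positivity)).countable).mono h2
    obtain ⟨f, hf, hf'⟩ : ∃ f ∈ F, f ∉ (⋃ y ∈ C, {f ∈ F | f y ≠ 0}) := by
      by_contra hcon
      push Not at hcon
      exact hF (h1.mono hcon)
    refine ⟨StrongDual.toWeakDual f, Or.inl hf, 0, Or.inr rfl, ?_, ?_⟩
    · intro h
      apply hF0 f hf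
      have : f = WeakDual.toStrongDual (StrongDual.toWeakDual f) := rfl
      rw [this, h]
      rfl
    · intro x hx
      by_contra hne
      apply hf'
      refine mem_biUnion (x := x) hx ⟨hf, ?_⟩
      exact hne

theorem characterisation (hPID : PID) (hb : Cardinal.aleph 1 < bounding)
    {X : Type*} [NormedAddCommGroup X] [NormedSpace 𝕜 X] [CompleteSpace X] : List.TFAE
    [HasUncountableBiorthogonalSystem 𝕜 X,
      ∃ Y : Submodule 𝕜 X, IsClosed (Y : Set X) ∧ ∃ F : Set (Y →L[𝕜] 𝕜), ¬ F.Countable ∧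
        (∀ f ∈ F, f ≠ 0 ∧ ‖f‖ ≤ 1) ∧ ∀ y : Y, ∀ ε : ℝ, 0 < ε → {f ∈ F | ε ≤ ‖f y‖}.Finite,
      ∃ Y : Submodule 𝕜 X, IsClosed (Y : Set X) ∧ ∃ H : Set (WeakDual 𝕜 Y),
        (∀ f : ℕ → WeakDual 𝕜 Y, (∀ n, f n ∈ H) → ∃ g : WeakDual 𝕜 Y, ∃ φ : ℕ → ℕ,
          StrictMono φ ∧ Tendsto (f ∘ φ) atTop (𝓝 g)) ∧
        ∀ C : Set Y, C.Countable → ∃ f ∈ H, ∃ g ∈ H, f ≠ g ∧ ∀ y ∈ C, f y = g y] := by
  tfae_have 1 → 2 := exists_nullFamily_of_hasUncountable
  tfae_have 2 → 3 := by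
    rintro ⟨Y, hY, F, hF, hF0, hF1⟩
    exact ⟨Y, hY, _, relatively_of_nullFamily F hF (fun f hf => (hF0 f hf).1) hF1⟩
  tfae_have 3 → 1 := by
    rintro ⟨Y, hY, H, hH, hsep⟩
    have : CompleteSpace Y := hY.completeSpace_coe
    exact hasUncountable_of_submodule Y (theoremR hPID hb H hH hsep)
  tfae_finish

end Pool.Agent.Helper454.Biorth
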