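import Pool.Agent.Helper454.BiorthC0

/-!
# The characterisation by operators
-/

namespace Pool.Agent.Helper454.Biorth

open Set Filter Topology
open scoped ZeroAtInfty

universe u

/-- a copy of a type, used with the discrete topology -/
structure Disc (α : Type u) : Type u where
  val : α

instance (α : Type u) : TopologicalSpace (Disc α) := ⊥

instance (α : Type u) : DiscreteTopology (Disc α) := ⟨rfl⟩

variable {𝕜 : Type} [RCLike 𝕜]

/-- The operator into `c₀(F)` given by a pointwise null family. -/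
theorem exists_operator_c0 {Y : Type u} [NormedAddCommGroup Y] [NormedSpace 𝕜 Y]
    (F : Set (Y →L[𝕜] 𝕜)) (hF : ¬ F.Countable) (hF0 : ∀ f ∈ F, f ≠ 0 ∧ ‖f‖ ≤ 1)
    (hF1 : ∀ y : Y, ∀ ε : ℝ, 0 < ε → {f ∈ F | ε ≤ ‖f y‖}.Finite) :
    ∃ T : Y →L[𝕜] C₀(Disc F, 𝕜), ¬ TopologicalSpace.IsSeparable (range T) := by
  classical
  have hfin : ∀ y : Y, ∀ ε : ℝ, 0 < ε → {γ : Disc F | ε ≤ ‖γ.val.1 y‖}.Finite := by
    intro y ε hε
    have h1 := hF1 y ε hε
    have h2 : {γ : Disc F | ε ≤ ‖γ.val.1 y‖} = (fun γ : Disc F => γ.val.1) ⁻¹' {f ∈ F | ε ≤ ‖f y‖} := by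
      ext γ
      constructor
      · intro h
        exact ⟨γ.val.2, h⟩
      · intro h
        exact h.2
    rw [h2]
    apply h1.preimage
    rintro ⟨a⟩ _ ⟨b⟩ _ hab
    have : a = b := Subtype.ext hab
    rw [this]
  let T₀ : Y →ₗ[𝕜] C₀(Disc F, 𝕜) :=
    { toFun := fun y => mkC0 (fun γ : Disc F => γ.val.1 y) (hfin y)
      map_add' := by
        intro y z
        ext γ
        simp
      map_smul' := by
        intro c y
        ext γ
        simp }
  let T : Y →L[𝕜] C₀(Disc F, 𝕜) := T₀.mkContinuous 1 (by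
    intro y
    rw [one_mul]
    apply norm_C0_le _ _ (norm_nonneg y)
    intro γ
    have h1 := γ.val.1.le_opNorm y
    have h2 : ‖γ.val.1‖ * ‖y‖ ≤ 1 * ‖y‖ :=
      mul_le_mul_of_nonneg_right (hF0 _ γ.val.2).2 (norm_nonneg _)
    rw [one_mul] at h2
    exact h1.trans h2)
  have hT : ∀ y γ, T y γ = γ.val.1 y := fun y γ => rfl
  refine ⟨T, ?_⟩
  rintro ⟨C, hCc, hC⟩
  -- countable support
  have h1 : (⋃ u ∈ C, {γ : Disc F | u γ ≠ 0}).Countable := by
    apply hCc.biUnion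
    intro u _
    have h2 : {γ : Disc F | u γ ≠ 0} ⊆ ⋃ N : ℕ, {γ | 1 / ((N : ℝ) + 1) ≤ ‖u γ‖} := by
      intro γ hγ
      obtain ⟨N, hN⟩ := exists_nat_one_div_lt (norm_pos_iff.2 hγ)
      exact mem_iUnion.2 ⟨N, hN.le⟩
    exact (countable_iUnion fun N => (finite_of_C0 u _ (by positivity)).countable).mono h2
  obtain ⟨γ, hγ⟩ : ∃ γ : Disc F, γ ∉ (⋃ u ∈ C, {γ : Disc F | u γ ≠ 0}) := by
    by_contra hcon
    push Not at hcon
    apply hF
    have h2 : (Set.univ : Set (Disc F)).Countable := h1.mono fun γ _ => hcon γ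
    have h3 : F = (fun γ : Disc F => γ.val.1) '' Set.univ := by
      ext f
      constructor
      · intro hf
        exact ⟨⟨⟨f, hf⟩⟩, mem_univ _, rfl⟩
      · rintro ⟨γ, -, rfl⟩
        exact γ.val.2
    rw [h3]
    exact h2.image _
  have h2 : ∀ u ∈ C, u γ = 0 := by
    intro u hu
    by_contra hne
    exact hγ (mem_biUnion (x := u) hu hne)
  apply (hF0 _ γ.val.2).1
  ext y
  rw [← hT]
  have h3 : T y ∈ closure C := hC (mem_range_self y)
  by_contra hne
  have hpos : 0 < ‖T y γ‖ := norm_pos_iff.2 hne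
  obtain ⟨u, hu, hd⟩ := Metric.mem_closure_iff.1 h3 _ hpos
  rw [dist_eq_norm] at hd
  have h4 := norm_apply_le_C0 (T y - u) γ
  rw [ZeroAtInftyContinuousMap.sub_apply, h2 u hu, sub_zero] at h4
  exact absurd (h4.trans_lt hd) (lt_irrefl _)

theorem characterisation' (hPID : PID) (hb : Cardinal.aleph 1 < bounding)
    {X : Type u} [NormedAddCommGroup X] [NormedSpace 𝕜 X] [CompleteSpace X] : List.TFAE
    [HasUncountableBiorthogonalSystem 𝕜 X,
      ∃ Y : Submodule 𝕜 X, IsClosed (Y : Set X) ∧ ∃ (Γ : Type u) (_ : TopologicalSpace Γ)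
        (_ : DiscreteTopology Γ) (T : Y →L[𝕜] C₀(Γ, 𝕜)), ¬ TopologicalSpace.IsSeparable (range T),
      ∃ Y : Submodule 𝕜 X, IsClosed (Y : Set X) ∧ ∃ (E : Type u) (_ : NormedAddCommGroup E)
        (_ : NormedSpace 𝕜 E) (_ : CompleteSpace E) (T : Y →L[𝕜] E),
        IsSeqCompact (dualBall 𝕜 E) ∧ ¬ TopologicalSpace.IsSeparable (range T),
      ∃ Y : Submodule 𝕜 X, IsClosed (Y : Set X) ∧ ∃ H : Set (WeakDual 𝕜 Y),
        (∀ f : ℕ → WeakDual 𝕜 Y, (∀ n, f n ∈ H) → ∃ g : WeakDual 𝕜 Y, ∃ φ : ℕ → ℕ,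
          StrictMono φ ∧ Tendsto (f ∘ φ) atTop (𝓝 g)) ∧
        ∀ C : Set Y, C.Countable → ∃ f ∈ H, ∃ g ∈ H, f ≠ g ∧ ∀ y ∈ C, f y = g y] := by
  tfae_have 1 → 2 := by
    intro h
    obtain ⟨Y, hY, F, hF, hF0, hF1⟩ := exists_nullFamily_of_hasUncountable h
    obtain ⟨T, hT⟩ := exists_operator_c0 F hF hF0 hF1
    exact ⟨Y, hY, _, inferInstance, inferInstance, T, hT⟩
  tfae_have 2 → 3 := by
    rintro ⟨Y, hY, Γ, i1, i2, T, hT⟩
    exact ⟨Y, hY, C₀(Γ, 𝕜), inferInstance, inferInstance, inferInstance, T,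
      isSeqCompact_dualBall_c0, hT⟩
  tfae_have 3 → 1 := by
    rintro ⟨Y, hY, E, i1, i2, i3, T, hE, hT⟩
    have : CompleteSpace Y := hY.completeSpace_coe
    exact hasUncountable_of_submodule Y (hasUncountable_of_operator hPID hb T hT hE)
  tfae_have 1 → 4 := by
    intro h
    obtain ⟨Y, hY, F, hF, hF0, hF1⟩ := exists_nullFamily_of_hasUncountable h
    exact ⟨Y, hY, _, relatively_of_nullFamily F hF (fun f hf => (hF0 f hf).1) hF1⟩
  tfae_have 4 → 1 := by
    rintro ⟨Y, hY, H, hH, hsep⟩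
    have : CompleteSpace Y := hY.completeSpace_coe
    exact hasUncountable_of_submodule Y (theoremR hPID hb H hH hsep)
  tfae_finish

end Pool.Agent.Helper454.Biorth
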