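import Pool.Agent.Helper454.BiorthBasic

/-!
# The summability ideal is a P-ideal below the bounding number
-/

namespace Pool.Agent.Helper454.Biorth

open Set Filter Topology Cardinal
open scoped ENNReal

/-- The countable sets on which all of the given weights have a finite sum. -/
def sumIdeal {S ι : Type*} (w : ι → S → ℝ≥0∞) : Set (Set S) :=
  {A | A.Countable ∧ ∀ i, ∑' a : A, w i a ≠ ⊤}

/-- A sequence of finite numbers which is eventually dominated by `2⁻¹ ^ n` has a finite sum. -/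
theorem tsum_ne_top_of_eventually_le {a : ℕ → ℝ≥0∞} (h : ∀ n, a n ≠ ⊤)
    (h' : ∀ᶠ n in atTop, a n ≤ (2⁻¹ : ℝ≥0∞) ^ n) : ∑' n, a n ≠ ⊤ := by
  obtain ⟨N, hN⟩ := eventually_atTop.1 h'
  have h1 : ∀ n, a n ≤ (if n < N then a n else 0) + (2⁻¹ : ℝ≥0∞) ^ n := by
    intro n
    by_cases hn : n < N
    · rw [if_pos hn]; exact le_self_add
    · rw [if_neg hn, zero_add]; exact hN n (not_lt.1 hn)
  refine ne_top_of_le_ne_top ?_ (ENNReal.tsum_le_tsum h1)
  rw [ENNReal.tsum_add]
  apply ENNReal.add_ne_top.2 ⟨?_, ?_⟩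
  · rw [tsum_eq_sum (s := Finset.range N)]
    · refine (ENNReal.sum_lt_top.2 fun n _ => ?_).ne
      split_ifs
      · exact (h n).lt_top
      · simp
    · intro n hn
      rw [Finset.mem_range] at hn
      rw [if_neg hn]
  · rw [ENNReal.tsum_geometric]
    simp

theorem isPIdeal_sumIdeal {S : Type} {ι : Type*} (w : ι → S → ℝ≥0∞) (hw : ∀ i s, w i s ≠ ⊤)
    (hbd : ∀ φ : ι → ℕ → ℕ, ∃ g : ℕ → ℕ, ∀ i, ∀ᶠ n in atTop, φ i n ≤ g n) :
    IsPIdeal (sumIdeal w) := by
  classical
  refine ⟨fun A hA => hA.1, ?_, ?_, ?_, ?_⟩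
  · intro A hA B hB
    exact ⟨hA.1.mono hB, fun i => ne_top_of_le_ne_top (hA.2 i)
      (ENNReal.tsum_mono_subtype _ hB)⟩
  · intro A hA B hB
    exact ⟨hA.1.union hB.1, fun i => ne_top_of_le_ne_top
      (ENNReal.add_ne_top.2 ⟨hA.2 i, hB.2 i⟩) (ENNReal.tsum_union_le _ _ _)⟩
  · intro A hA
    refine ⟨hA.countable, fun i => ?_⟩
    have := hA.fintype
    rw [tsum_fintype]
    exact (ENNReal.sum_lt_top.2 fun (a : A) _ => (hw i a).lt_top).ne
  · intro X hX
    have hE : ∀ n, ∃ E : ℕ → Finset (X n), Tendsto E atTop atTop := by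
      intro n
      have := (hX n).1.to_subtype
      obtain ⟨E, -, hE⟩ := Filter.exists_seq_monotone_tendsto_atTop_atTop (Finset (X n))
      exact ⟨E, hE⟩
    choose E hE using hE
    have h1 : ∀ i n, ∃ k : ℕ, ∀ k' ≥ k,
        ∑' b : {x : X n // x ∉ E n k'}, w i b < (2⁻¹ : ℝ≥0∞) ^ n := by
      intro i n
      have h2 := (ENNReal.tendsto_tsum_compl_atTop_zero (f := fun x : X n => w i x)
        ((hX n).2 i)).comp (hE n)
      have h3 : ∀ᶠ k in atTop, ∑' b : {x : X n // x ∉ E n k}, w i b < (2⁻¹ : ℝ≥0∞) ^ n :=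
        h2.eventually_lt_const (ENNReal.pow_pos (by norm_num) n)
      exact eventually_atTop.1 h3
    choose φ hφ using h1
    obtain ⟨g, hg⟩ := hbd φ
    let Y : ℕ → Set S := fun n => Subtype.val '' {x : X n | x ∉ E n (g n)}
    have hYX : ∀ n, Y n ⊆ X n := by
      rintro n _ ⟨x, -, rfl⟩
      exact x.2
    have hYsum : ∀ i n, ∑' a : Y n, w i a = ∑' b : {x : X n // x ∉ E n (g n)}, w i b := by
      intro i n
      exact tsum_image (f := w i) (s := {x : X n | x ∉ E n (g n)}) (Subtype.val_injective.injOn)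
    refine ⟨⋃ n, Y n, ⟨?_, ?_⟩, ?_⟩
    · exact countable_iUnion fun n => (hX n).1.mono (hYX n)
    · intro i
      refine ne_top_of_le_ne_top ?_ (ENNReal.tsum_iUnion_le_tsum _ _)
      apply tsum_ne_top_of_eventually_le
      · intro n
        exact ne_top_of_le_ne_top ((hX n).2 i) (ENNReal.tsum_mono_subtype _ (hYX n))
      · filter_upwards [hg i] with n hn
        rw [hYsum]
        exact (hφ i n (g n) hn).le
    · intro n
      refine ((E n (g n)).finite_toSet.image Subtype.val).subset ?_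
      rintro s ⟨hs, hs'⟩
      refine ⟨⟨s, hs⟩, ?_, rfl⟩
      by_contra hcon
      exact hs' (mem_iUnion.2 ⟨n, ⟨s, hs⟩, hcon, rfl⟩)

/-- If all countable subsets of `T` have finite sums, then so does `T`. -/
theorem tsum_ne_top_of_countable {S : Type*} (w : S → ℝ≥0∞) (T : Set S)
    (h : ∀ A : Set S, A ⊆ T → A.Countable → ∑' a : A, w a ≠ ⊤) : ∑' a : T, w a ≠ ⊤ := by
  classical
  intro htop
  rw [ENNReal.tsum_eq_iSup_sum] at htop
  have h1 : ∀ n : ℕ, ∃ F : Finset T, (n : ℝ≥0∞) < ∑ a ∈ F, w a := by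
    intro n
    exact iSup_eq_top.1 htop n (ENNReal.natCast_lt_top n)
  choose F hF using h1
  let A : Set S := ⋃ n, Subtype.val '' (F n : Set T)
  have hAT : A ⊆ T := by
    apply iUnion_subset
    rintro n _ ⟨x, -, rfl⟩
    exact x.2
  have hAc : A.Countable := countable_iUnion fun n => (F n).countable_toSet.image _
  apply h A hAT hAc
  refine ENNReal.eq_top_of_forall_nnreal_le fun r => ?_
  obtain ⟨n, hn⟩ := exists_nat_ge r
  refine (ENNReal.coe_le_coe.2 hn).trans ?_
  rw [ENNReal.coe_natCast]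
  refine (hF n).le.trans ?_
  have h2 : ∑ a ∈ F n, w a = ∑' a : (Subtype.val '' (F n : Set T) : Set S), w a := by
    have h3 := tsum_image (f := w) (s := (F n : Set T)) (Subtype.val_injective.injOn)
    rw [h3]
    exact (Finset.tsum_subtype' (F n) (fun x : T => w x)).symm
  rw [h2]
  exact ENNReal.tsum_mono_subtype w (subset_iUnion (fun n => Subtype.val '' (F n : Set T)) n)

/-- If `w i (p k) → 0` for each `i`, and no point has all of its weights zero, then the values of
`p` include an infinite member of the summability ideal. -/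
theorem exists_infinite_mem_sumIdeal {S ι : Type*} (w : ι → S → ℝ≥0∞) (hw : ∀ i s, w i s ≠ ⊤)
    (hw0 : ∀ s, ∃ i, w i s ≠ 0)
    (hbd : ∀ φ : ι → ℕ → ℕ, ∃ g : ℕ → ℕ, ∀ i, ∀ᶠ n in atTop, φ i n ≤ g n)
    (p : ℕ → S) (hp : ∀ i, Tendsto (fun k => w i (p k)) atTop (𝓝 0)) :
    ∃ A : Set S, A ⊆ range p ∧ A.Infinite ∧ A ∈ sumIdeal w := by
  classical
  have h1 : ∀ i n, ∃ k : ℕ, ∀ k' ≥ k, w i (p k') < (2⁻¹ : ℝ≥0∞) ^ n := by
    intro i n
    exact eventually_atTop.1 ((hp i).eventually_lt_const (ENNReal.pow_pos (by norm_num) n))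
  choose φ hφ using h1
  obtain ⟨g, hg⟩ := hbd φ
  refine ⟨range fun n => p (g n), ?_, ?_, countable_range _, ?_⟩
  · rintro _ ⟨n, rfl⟩
    exact mem_range_self _
  · intro hfin
    obtain ⟨s, -, hs⟩ : ∃ s ∈ range (fun n => p (g n)), ((fun n => p (g n)) ⁻¹' {s}).Infinite := by
      by_contra hcon
      push Not at hcon
      have h2 : (Set.univ : Set ℕ).Finite := by
        have h3 : (Set.univ : Set ℕ) =
            ⋃ s ∈ range (fun n => p (g n)), ((fun n => p (g n)) ⁻¹' {s}) := by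
          ext n
          simp only [mem_univ, mem_iUnion, mem_preimage, mem_singleton_iff, true_iff]
          exact ⟨_, mem_range_self n, rfl⟩
        rw [h3]
        exact hfin.biUnion fun s hs => hcon s hs
      exact Set.infinite_univ h2
    obtain ⟨i, hi⟩ := hw0 s
    apply hi
    have h2 : Tendsto (fun n : ℕ => (2⁻¹ : ℝ≥0∞) ^ n) atTop (𝓝 0) :=
      ENNReal.tendsto_pow_atTop_nhds_zero_of_lt_one (by norm_num)
    by_contra hne
    have h3 : ∀ᶠ n in atTop, (2⁻¹ : ℝ≥0∞) ^ n < w i s :=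
      h2.eventually_lt_const (pos_iff_ne_zero.2 hne)
    obtain ⟨n, hn, hn1, hn2⟩ := ((Nat.frequently_atTop_iff_infinite.2 hs).and_eventually
      (h3.and (hg i))).exists
    have h4 := hφ i n (g n) hn2
    have h5 : p (g n) = s := hn
    rw [h5] at h4
    exact lt_asymm h4 hn1
  · intro i
    have h2 : range (fun n => p (g n)) = ⋃ n, {p (g n)} := by
      ext x
      simp [eq_comm]
    rw [h2]
    refine ne_top_of_le_ne_top ?_ (ENNReal.tsum_iUnion_le_tsum _ _)
    apply tsum_ne_top_of_eventually_le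
    · intro n
      rw [tsum_singleton (p (g n)) (w i)]
      exact hw i _
    · filter_upwards [hg i] with n hn
      rw [tsum_singleton (p (g n)) (w i)]
      exact (hφ i n (g n) hn).le

end Pool.Agent.Helper454.Biorth
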