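import Mathlib

/-!
# Free subsets and almost biorthogonal systems
-/

namespace Pool.Agent.Helper454.Biorth

open Set Filter Topology
open scoped ENNReal

theorem exists_free_subset_aux {T : Type*} (n : ℕ) : ∀ (F : T → Finset T) (A : Set T),
    ¬ A.Countable → (∀ t ∈ A, (F t).card ≤ n) →
    ∃ B : Set T, B ⊆ A ∧ ¬ B.Countable ∧ ∀ s ∈ B, ∀ t ∈ B, s ≠ t → s ∉ F t := by
  classical
  induction n with
  | zero =>
    intro F A hA hF
    refine ⟨A, Subset.rfl, hA, fun s _ t ht _ => ?_⟩
    have : F t = ∅ := Finset.card_eq_zero.1 (Nat.le_zero.1 (hF t ht))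
    rw [this]
    simp
  | succ n ih =>
    intro F A hA hF
    obtain ⟨M, hM⟩ : ∃ M, Maximal (· ∈ {M : Set T | M ⊆ A ∧
        ∀ s ∈ M, ∀ t ∈ M, s ≠ t → s ∉ F t}) M := by
      apply zorn_subset
      intro c hc hchain
      refine ⟨⋃₀ c, ⟨sUnion_subset fun M hM => (hc hM).1, ?_⟩, fun s hs => subset_sUnion_of_mem hs⟩
      rintro s ⟨M, hM, hs⟩ t ⟨N, hN, ht⟩ hst
      rcases hchain.total hM hN with h | h
      · exact (hc hN).2 s (h hs) t ht hst
      · exact (hc hM).2 s hs t (h ht) hst
    obtain ⟨⟨hMA, hMfree⟩, hmax⟩ := hM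
    by_cases hMc : M.Countable
    · let A' : Set T := A \ (M ∪ ⋃ m ∈ M, (F m : Set T))
      have hA' : ¬ A'.Countable := by
        intro h
        apply hA
        have h1 : (M ∪ ⋃ m ∈ M, (F m : Set T)).Countable :=
          hMc.union (hMc.biUnion fun m _ => (F m).countable_toSet)
        exact (h.union h1).mono (by rw [sdiff_union_self]; exact subset_union_left)
      have hmeet : ∀ t ∈ A', ∃ m ∈ M, m ∈ F t := by
        rintro t ⟨htA, ht⟩
        by_contra hcon
        push Not at hcon
        have htM : t ∉ M := fun h => ht (Or.inl h)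
        have h1 : insert t M ∈ {M : Set T | M ⊆ A ∧ ∀ s ∈ M, ∀ t ∈ M, s ≠ t → s ∉ F t} := by
          refine ⟨insert_subset htA hMA, ?_⟩
          rintro s (rfl | hs) u (rfl | hu) hsu
          · exact absurd rfl hsu
          · intro h
            exact ht (Or.inr (mem_biUnion hu h))
          · exact hcon s hs
          · exact hMfree s hs u hu hsu
        exact htM (hmax h1 (subset_insert t M) (mem_insert t M))
      obtain ⟨B, hBA, hBc, hB⟩ := ih (fun t => (F t).filter (· ∉ M)) A' hA' (by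
        intro t ht
        obtain ⟨m, hmM, hmF⟩ := hmeet t ht
        have h1 : ((F t).filter (· ∉ M)).card < (F t).card := by
          apply Finset.card_lt_card
          refine ⟨Finset.filter_subset _ _, fun h => ?_⟩
          have := h hmF
          rw [Finset.mem_filter] at this
          exact this.2 hmM
        have h2 := hF t ht.1
        omega)
      refine ⟨B, hBA.trans sdiff_subset, hBc, fun s hs t ht hst h => ?_⟩
      refine hB s hs t ht hst (Finset.mem_filter.2 ⟨h, fun hsM => ?_⟩)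
      exact (hBA hs).2 (Or.inl hsM)
    · exact ⟨M, hMA, hMc, hMfree⟩

/-- **Free set lemma.**  For every assignment of finite sets `F t` to the points of an uncountable
set `A` there is an uncountable `B ⊆ A` with `s ∉ F t` for all different `s, t ∈ B`. -/
theorem exists_free_subset {T : Type*} (F : T → Finset T) (A : Set T) (hA : ¬ A.Countable) :
    ∃ B : Set T, B ⊆ A ∧ ¬ B.Countable ∧ ∀ s ∈ B, ∀ t ∈ B, s ≠ t → s ∉ F t := by
  obtain ⟨n, hn⟩ : ∃ n : ℕ, ¬ {t ∈ A | (F t).card ≤ n}.Countable := by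
    by_contra hcon
    push Not at hcon
    apply hA
    refine (countable_iUnion hcon).mono fun t ht => ?_
    rw [mem_iUnion]
    exact ⟨(F t).card, ht, le_rfl⟩
  obtain ⟨B, hBA, hBc, hB⟩ := exists_free_subset_aux n F _ hn (fun t ht => ht.2)
  exact ⟨B, fun t ht => (hBA ht).1, hBc, hB⟩

/-- The synthesis operator of a bounded family on `ℓ₁`. -/
noncomputable def synth {𝕜 T V : Type*} [RCLike 𝕜] [NormedAddCommGroup V] [NormedSpace 𝕜 V]
    [CompleteSpace V] (v : T → V) (C : ℝ) (hv : ∀ t, ‖v t‖ ≤ C) :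
    lp (fun _ : T => 𝕜) 1 →L[𝕜] V :=
  LinearMap.mkContinuous
    { toFun := fun d => ∑' t, d t • v t
      map_add' := by
        intro d d'
        have hs : ∀ d : lp (fun _ : T => 𝕜) 1, Summable fun t => d t • v t := by
          intro d
          have h1 : Summable fun t => ‖d t‖ := by
            simpa using (lp.memℓp d).summable (by norm_num)
          refine Summable.of_norm_bounded (h1.mul_right C) fun t => ?_
          rw [norm_smul]
          exact mul_le_mul_of_nonneg_left (hv t) (norm_nonneg _)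
        rw [← (hs d).tsum_add (hs d')]
        congr 1
        ext t
        simp [add_smul]
      map_smul' := by
        intro c d
        simp only [lp.coeFn_smul, Pi.smul_apply, smul_eq_mul, RingHom.id_apply]
        rw [← tsum_const_smul'']
        congr 1
        ext t
        rw [smul_smul] }
    C (by
      intro d
      have h1 : HasSum (fun t => ‖d t‖) ‖d‖ := by
        have := lp.hasSum_norm (p := 1) (by norm_num) d
        simpa using this
      have h2 : Summable fun t => ‖d t • v t‖ := by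
        refine Summable.of_nonneg_of_le (fun t => norm_nonneg _) (fun t => ?_)
          (h1.summable.mul_right C)
        rw [norm_smul]
        exact mul_le_mul_of_nonneg_left (hv t) (norm_nonneg _)
      refine (norm_tsum_le_tsum_norm h2).trans ?_
      have h3 : ∑' t, ‖d t • v t‖ ≤ ∑' t, ‖d t‖ * C := by
        refine h2.tsum_le_tsum (fun t => ?_) (h1.summable.mul_right C)
        rw [norm_smul]
        exact mul_le_mul_of_nonneg_left (hv t) (norm_nonneg _)
      rw [tsum_mul_right, h1.tsum_eq, mul_comm] at h3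
      exact h3)

theorem synth_apply {𝕜 T V : Type*} [RCLike 𝕜] [NormedAddCommGroup V] [NormedSpace 𝕜 V]
    [CompleteSpace V] (v : T → V) (C : ℝ) (hv : ∀ t, ‖v t‖ ≤ C) (d : lp (fun _ : T => 𝕜) 1) :
    synth v C hv d = ∑' t, d t • v t := rfl

theorem summable_synth {𝕜 T V : Type*} [RCLike 𝕜] [NormedAddCommGroup V] [NormedSpace 𝕜 V]
    [CompleteSpace V] (v : T → V) (C : ℝ) (hv : ∀ t, ‖v t‖ ≤ C) (d : lp (fun _ : T => 𝕜) 1) :
    Summable fun t => d t • v t := by
  have h1 : Summable fun t => ‖d t‖ := by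
    simpa using (lp.memℓp d).summable (by norm_num)
  refine Summable.of_norm_bounded (h1.mul_right C) fun t => ?_
  rw [norm_smul]
  exact mul_le_mul_of_nonneg_left (hv t) (norm_nonneg _)

/-- **Perturbation lemma.**  A bounded family which is biorthogonal up to row sums `1 / 2` can be
corrected to a biorthogonal one. -/
theorem exists_biorthogonal_of_almost {𝕜 T X : Type*} [RCLike 𝕜] [NormedAddCommGroup X]
    [NormedSpace 𝕜 X] [CompleteSpace X] [DecidableEq T] (y : T → X) (C : ℝ) (hy : ∀ t, ‖y t‖ ≤ C)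
    (h : T → X →L[𝕜] 𝕜) (h1 : ∀ t, h t (y t) = 1)
    (hsum : ∀ t, ∑' s : T, (if s = t then 0 else ‖h s (y t)‖ₑ) ≤ 2⁻¹) :
    ∃ z : T → X, ∀ s t, h s (z t) = if s = t then 1 else 0 := by
  classical
  -- the columns of the perturbation
  let c : T → T → 𝕜 := fun t s => if s = t then 0 else h s (y t)
  have hc : ∀ t s, ‖c t s‖ₑ = if s = t then 0 else ‖h s (y t)‖ₑ := by
    intro t s
    by_cases hst : s = t
    · simp [c, hst]
    · simp [c, hst]
  have hcs : ∀ t, ∑' s, ‖c t s‖ₑ ≤ 2⁻¹ := by
    intro t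
    simpa only [hc] using hsum t
  have hcne : ∀ t, ∑' s, ‖c t s‖ₑ ≠ ⊤ := fun t => ne_top_of_le_ne_top (by simp) (hcs t)
  have hcsum : ∀ t, Summable fun s => ‖c t s‖ := by
    intro t
    have := ENNReal.summable_toReal (hcne t)
    simpa using this
  have hmem : ∀ t, Memℓp (E := fun _ : T => 𝕜) (c t) 1 := by
    intro t
    rw [memℓp_gen_iff (by norm_num)]
    simpa using hcsum t
  let col : T → lp (fun _ : T => 𝕜) 1 := fun t => ⟨c t, hmem t⟩
  have hcoln : ∀ t, ‖col t‖ ≤ 1 / 2 := by
    intro t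
    have h2 : HasSum (fun s => ‖c t s‖) ‖col t‖ := by
      have := lp.hasSum_norm (p := 1) (by norm_num) (col t)
      simpa [col] using this
    rw [← h2.tsum_eq]
    have h3 : ∑' s, ‖c t s‖ = (∑' s, ‖c t s‖ₑ).toReal := by
      rw [ENNReal.tsum_toReal_eq (fun s => by simp)]
      simp
    rw [h3]
    calc (∑' s, ‖c t s‖ₑ).toReal ≤ (2⁻¹ : ℝ≥0∞).toReal := ENNReal.toReal_mono (by simp) (hcs t)
      _ = 1 / 2 := by simp
  let E : lp (fun _ : T => 𝕜) 1 →L[𝕜] lp (fun _ : T => 𝕜) 1 := synth col (1 / 2) hcoln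
  have hEn : ‖-E‖ < 1 := by
    rw [norm_neg]
    refine lt_of_le_of_lt (LinearMap.mkContinuous_norm_le _ (by norm_num) _) (by norm_num)
  let U := Units.oneSub (-E) hEn
  have hU : ∀ d, (U : lp (fun _ : T => 𝕜) 1 →L[𝕜] lp (fun _ : T => 𝕜) 1) d = d + E d := by
    intro d
    simp [U, Units.val_oneSub]
  have hkey : ∀ d s, h s (synth y C hy d) =
      ((U : lp (fun _ : T => 𝕜) 1 →L[𝕜] lp (fun _ : T => 𝕜) 1) d) s := by
    intro d s
    rw [hU, lp.coeFn_add, Pi.add_apply, synth_apply, (h s).map_tsum (summable_synth y C hy d)]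
    have h2 : (E d) s = ∑' t, d t • c t s := by
      have h3 : (E d) s = lp.evalCLM 𝕜 (fun _ : T => 𝕜) 1 s (E d) := rfl
      rw [h3]
      change lp.evalCLM 𝕜 (fun _ : T => 𝕜) 1 s (∑' t, d t • col t) = _
      rw [ContinuousLinearMap.map_tsum _ (summable_synth col (1 / 2) hcoln d)]
      rfl
    have h4 : d s = ∑' t, (if t = s then d t else 0) := by
      rw [tsum_ite_eq]
    rw [h2]
    conv_rhs => rw [h4]
    rw [← Summable.tsum_add]
    · congr 1
      ext t
      by_cases hst : s = t
      · subst hst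
        simp [c, h1]
      · simp [c, hst, Ne.symm hst]
    · exact (hasSum_ite_eq s (d s)).summable.congr fun t => by
        by_cases hst : t = s
        · subst hst; simp
        · simp [hst]
    · have h5 := (summable_synth col (1 / 2) hcoln d).mapL (lp.evalCLM 𝕜 (fun _ : T => 𝕜) 1 s)
      exact h5
  refine ⟨fun t => synth y C hy ((↑U⁻¹ : lp (fun _ : T => 𝕜) 1 →L[𝕜] lp (fun _ : T => 𝕜) 1)
    (lp.single 1 t (1 : 𝕜))), fun s t => ?_⟩
  rw [hkey]
  have h2 : (U : lp (fun _ : T => 𝕜) 1 →L[𝕜] lp (fun _ : T => 𝕜) 1)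
      ((↑U⁻¹ : lp (fun _ : T => 𝕜) 1 →L[𝕜] lp (fun _ : T => 𝕜) 1) (lp.single 1 t (1 : 𝕜))) =
      lp.single 1 t (1 : 𝕜) := by
    rw [← mul_apply_eq_comp, Units.mul_inv]
    rfl
  rw [h2, lp.single_apply]
  by_cases hst : s = t
  · subst hst; simp
  · simp [hst]

end Pool.Agent.Helper454.Biorth
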