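import Pool.Agent.Helper454.BiorthBasic
import Pool.Agent.Helper454.BiorthFree

/-!
# Uncountable summable families of functionals give biorthogonal systems
-/

namespace Pool.Agent.Helper454.Biorth

open Set Filter Topology
open scoped ENNReal

/-- If uncountably many functionals are nonzero on `D`, and at each point of `D` they are
absolutely summable, then there is an uncountable biorthogonal system. -/
theorem hasUncountableBiorthogonalSystem_of_summable {𝕜 T X : Type*} [RCLike 𝕜]
    [NormedAddCommGroup X] [NormedSpace 𝕜 X] [CompleteSpace X] [Uncountable T]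
    (h : T → X →L[𝕜] 𝕜) (D : Set X) (hne : ∀ t, ∃ x ∈ D, h t x ≠ 0)
    (hs : ∀ x ∈ D, ∑' t, ‖h t x‖ₑ ≠ ⊤) : HasUncountableBiorthogonalSystem 𝕜 X := by
  classical
  choose x hxD hx using hne
  let y : T → X := fun t => (h t (x t))⁻¹ • x t
  have hy1 : ∀ t, h t (y t) = 1 := by
    intro t
    simp only [y, map_smul, smul_eq_mul]
    exact inv_mul_cancel₀ (hx t)
  have hys : ∀ t, ∑' s, ‖h s (y t)‖ₑ ≠ ⊤ := by
    intro t
    have h1 : ∀ s, ‖h s (y t)‖ₑ = ‖(h t (x t))⁻¹‖ₑ * ‖h s (x t)‖ₑ := by
      intro s
      simp only [y, map_smul, smul_eq_mul]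
      exact enorm_mul _ _
    simp only [h1]
    rw [ENNReal.tsum_mul_left]
    exact ENNReal.mul_ne_top (by simp) (hs _ (hxD t))
  -- bounded norms
  obtain ⟨n, hn⟩ : ∃ n : ℕ, ¬ {t | ‖y t‖ ≤ n}.Countable := by
    by_contra hcon
    push Not at hcon
    have h1 : (Set.univ : Set T).Countable := by
      refine (countable_iUnion hcon).mono fun t _ => ?_
      rw [mem_iUnion]
      exact exists_nat_ge ‖y t‖
    exact Set.not_countable_univ h1
  -- finite sets
  have hF : ∀ t, ∃ F : Finset T, ∑' s : {s // s ∉ F}, ‖h s (y t)‖ₑ < 2⁻¹ := by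
    intro t
    exact ((ENNReal.tendsto_tsum_compl_atTop_zero (hys t)).eventually_lt_const
      (by simp)).exists
  choose F hF using hF
  obtain ⟨B, hBA, hBc, hB⟩ := exists_free_subset F _ hn
  obtain ⟨z, hz⟩ := exists_biorthogonal_of_almost (T := B) (fun t : B => y t) n
    (fun t => hBA t.2) (fun t : B => h t) (fun t => hy1 t) (by
      intro t
      have h1 : ∀ s : B, (if s = t then 0 else ‖h s (y t)‖ₑ) ≤
          ({s | s ∉ F t} : Set T).indicator (fun s => ‖h s (y t)‖ₑ) s := by
        intro s
        split_ifs with hst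
        · exact bot_le
        · have h2 : (s : T) ∈ ({s | s ∉ F t} : Set T) :=
            hB s s.2 t t.2 (fun h => hst (Subtype.ext h))
          rw [indicator_of_mem h2]
      refine (ENNReal.tsum_le_tsum h1).trans ?_
      refine (ENNReal.tsum_comp_le_tsum_of_injective Subtype.val_injective _).trans ?_
      rw [← tsum_subtype]
      exact (hF t).le)
  refine ⟨range fun t : B => (z t, h t), ?_, ?_, ?_⟩
  · intro hc
    apply hBc
    have hinj : Function.Injective fun t : B => (z t, h t) := by
      intro s t hst
      by_contra hne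
      have h1 := hz s t
      rw [if_neg hne] at h1
      have h2 := hz s s
      rw [if_pos rfl] at h2
      have h3 : z s = z t := congrArg Prod.fst hst
      rw [h3, h1] at h2
      exact zero_ne_one h2
    have h1 : (Set.univ : Set B).Countable := by
      have h2 := hc.preimage_of_injOn (f := fun t : B => (z t, h t)) hinj.injOn
      rwa [preimage_range] at h2
    exact countable_coe_iff.1 (countable_univ_iff.1 h1)
  · rintro _ ⟨t, rfl⟩
    simpa using hz t t
  · rintro _ ⟨s, rfl⟩ _ ⟨t, rfl⟩ hst
    have hst' : s ≠ t := fun h => hst (by rw [h])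
    simpa [hst'] using hz s t

end Pool.Agent.Helper454.Biorth
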