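import Pool.Agent.Helper454.BiorthTop
import Pool.Agent.Helper454.BiorthIdeal
import Pool.Agent.Helper454.BiorthSum

/-!
# Biorthogonal systems from sequentially compact sets of functionals
-/

namespace Pool.Agent.Helper454.Biorth

open Set Filter Topology Cardinal
open scoped ENNReal

/-- A well-ordered set of type `ω₁`. -/
abbrev W : Type := (Cardinal.aleph 1).ord.ToType

theorem mk_W : #W = Cardinal.aleph 1 := by
  rw [Cardinal.mk_toType, Cardinal.card_ord]

theorem countable_Iio_W (a : W) : (Iio a).Countable := by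
  rw [Cardinal.countable_iff_lt_aleph_one]
  have h : Cardinal.ord #W = Ordinal.type (α := W) (· < ·) := by
    rw [mk_W, Ordinal.type_toType]
  simpa [mk_W] using Cardinal.mk_Iio_lt a h

theorem not_countable_univ_W : ¬ (Set.univ : Set W).Countable := by
  rw [Cardinal.countable_iff_lt_aleph_one, Cardinal.mk_univ, mk_W]
  exact lt_irrefl _

theorem exists_gt_W (C : Set W) (hC : C.Countable) : ∃ a : W, ∀ c ∈ C, c < a := by
  have h1 : (⋃ c ∈ C, Iic c).Countable := by
    refine hC.biUnion fun c _ => ?_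
    rw [← Iio_insert]
    exact (countable_Iio_W c).insert c
  have h2 : (⋃ c ∈ C, Iic c) ≠ Set.univ := by
    intro h
    rw [h] at h1
    exact not_countable_univ_W h1
  obtain ⟨a, ha⟩ := (ne_univ_iff_exists_notMem _).1 h2
  refine ⟨a, fun c hc => ?_⟩
  by_contra hca
  exact ha (mem_biUnion hc (not_lt.1 hca))

theorem theoremC (hPID : PID) (hb : Cardinal.aleph 1 < bounding) {𝕜 : Type} [RCLike 𝕜]
    {X : Type*} [NormedAddCommGroup X] [NormedSpace 𝕜 X] [CompleteSpace X]
    (H : Set (WeakDual 𝕜 X)) (hH : IsSeqCompact H)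
    (hsep : ∀ C : Set X, C.Countable → ∃ f ∈ H, ∃ g ∈ H, f ≠ g ∧ ∀ x ∈ C, f x = g x) :
    HasUncountableBiorthogonalSystem 𝕜 X := by
  classical
  have hbd : ∀ φ : W → ℕ → ℕ, ∃ g : ℕ → ℕ, ∀ i, ∀ᶠ n in atTop, φ i n ≤ g n :=
    fun φ => exists_bound hb mk_W.le φ
  -- the points `x α`
  have h0 : ∀ C : Set X, ∃ y : X, C.Countable →
      ∃ f ∈ H, ∃ g ∈ H, (∀ x ∈ C, f x = g x) ∧ f y ≠ g y := by
    intro C
    by_cases hC : C.Countable
    · obtain ⟨f, hf, g, hg, hne, hC'⟩ := hsep C hC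
      obtain ⟨y, hy⟩ := DFunLike.ne_iff.1 hne
      exact ⟨y, fun _ => ⟨f, hf, g, hg, hC', hy⟩⟩
    · exact ⟨0, fun h => absurd h hC⟩
  choose sep hsep' using h0
  let x : W → X := IsWellFounded.fix (α := W) (· < ·)
    (fun a ih => sep (range fun b : Iio a => ih b.1 b.2))
  have hx : ∀ a : W, ∃ f ∈ H, ∃ g ∈ H, (∀ b < a, f (x b) = g (x b)) ∧ f (x a) ≠ g (x a) := by
    intro a
    have h1 : x a = sep (range fun b : Iio a => x b.1) := IsWellFounded.fix_eq _ _ _
    have h2 : (range fun b : Iio a => x b.1).Countable := by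
      have := (countable_Iio_W a).to_subtype
      exact countable_range _
    obtain ⟨f, hf, g, hg, h3, h4⟩ := hsep' _ h2
    refine ⟨f, hf, g, hg, fun b hb => h3 _ ⟨⟨b, hb⟩, rfl⟩, ?_⟩
    rw [h1]
    exact h4
  -- the image in the product
  let ev : WeakDual 𝕜 X → (W → 𝕜) := fun f a => f (x a)
  have hev : Continuous ev := continuous_pi fun a => WeakDual.eval_continuous (x a)
  let K : Set (W → 𝕜) := ev '' H
  have hK : IsSeqCompact K := hH.image hev.seqContinuous
  let S : Type := {p : (W → 𝕜) × (W → 𝕜) // p.1 ∈ K ∧ p.2 ∈ K ∧ p.1 ≠ p.2}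
  let w : W → S → ℝ≥0∞ := fun i s => ‖s.1.1 i - s.1.2 i‖ₑ
  have hw : ∀ i s, w i s ≠ ⊤ := fun i s => enorm_ne_top
  have hw0 : ∀ s, ∃ i, w i s ≠ 0 := by
    intro s
    obtain ⟨i, hi⟩ := Function.ne_iff.1 s.2.2.2
    refine ⟨i, ?_⟩
    simpa [w, sub_eq_zero] using hi
  rcases hPID S (sumIdeal w) (isPIdeal_sumIdeal w hw hbd) with ⟨T, hTc, hT⟩ | ⟨P, hPu, hP⟩
  · -- first alternative
    have h1 : ∀ i, ∑' t : T, w i t ≠ ⊤ := fun i =>
      tsum_ne_top_of_countable (w i) T fun A hA hAc => (hT A hA hAc).2 i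
    have h2 : ∀ s : S, ∃ f : WeakDual 𝕜 X, ∃ g : WeakDual 𝕜 X, ev f = s.1.1 ∧ ev g = s.1.2 := by
      intro s
      obtain ⟨f, -, hf⟩ := s.2.1
      obtain ⟨g, -, hg⟩ := s.2.2.1
      exact ⟨f, g, hf, hg⟩
    choose f g hf hg using h2
    let h : T → X →L[𝕜] 𝕜 := fun t =>
      WeakDual.toStrongDual (f t) - WeakDual.toStrongDual (g t)
    have hh : ∀ (t : T) (i : W), h t (x i) = t.1.1.1 i - t.1.1.2 i := by
      intro t i
      rw [← hf, ← hg]
      rfl
    have : Uncountable T := by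
      rw [← not_countable_iff]
      intro hcon
      exact hTc (countable_coe_iff.1 hcon)
    apply hasUncountableBiorthogonalSystem_of_summable h (range x)
    · intro t
      obtain ⟨i, hi⟩ := hw0 t
      refine ⟨x i, mem_range_self i, ?_⟩
      rw [hh]
      simpa [w] using hi
    · rintro _ ⟨i, rfl⟩
      simp only [hh]
      exact h1 i
  · -- second alternative
    exfalso
    obtain ⟨J, hJc, hJ⟩ := exists_countable_separating hbd K hK
      (fun n => (Subtype.val : S → (W → 𝕜) × (W → 𝕜)) '' (P n)) (by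
        intro u hu v hv huv
        have h1 : (⟨(u, v), hu, hv, huv⟩ : S) ∈ ⋃ n, P n := by rw [hPu]; exact mem_univ _
        obtain ⟨n, hn⟩ := mem_iUnion.1 h1
        exact ⟨n, _, hn, rfl⟩) (by
        intro n p hp _ hcon
        choose s hs hsp using hp
        obtain ⟨A, hAr, hAi, hAI⟩ := exists_infinite_mem_sumIdeal w hw hw0 hbd s (by
          intro i
          have h1 := hcon i
          have h2 : ∀ k, w i (s k) = ENNReal.ofReal (dist ((p k).1 i) ((p k).2 i)) := by
            intro k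
            rw [← hsp k]
            simp only [w]
            rw [dist_eq_norm, ofReal_norm]
          simp only [h2]
          have h3 := ENNReal.tendsto_ofReal h1
          rwa [ENNReal.ofReal_zero] at h3)
        exact hP n A (hAr.trans (range_subset_iff.2 hs)) hAi hAI)
    obtain ⟨a, ha⟩ := exists_gt_W J hJc
    obtain ⟨f, hf, g, hg, hfg, hne⟩ := hx a
    apply hne
    have h1 : ev f = ev g := hJ _ ⟨f, hf, rfl⟩ _ ⟨g, hg, rfl⟩ fun i hi => hfg i (ha i hi)
    exact congrFun h1 a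

end Pool.Agent.Helper454.Biorth
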