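import Pool.Agent.Helper454.BiorthExt
import Pool.Agent.Helper454.BiorthMain

/-!
# A dichotomy for families of `ℵ₁` bounded sequences
-/

namespace Pool.Agent.Helper454.Biorth

open Set Filter Topology

variable {𝕜 : Type*} [RCLike 𝕜]

/-- the sets attached to a family of sequences -/
def famSet (F : W → ℕ → 𝕜) (q : ℕ → 𝕜) (ρ : ℝ) : (W × ℕ) ⊕ (W × W) → Set ℕ
  | Sum.inl p => {n | ‖F p.1 n - q p.2‖ < ρ / 2}
  | Sum.inr p => {n | ρ ≤ ‖F p.1 n - F p.2 n‖}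

/-- the indices of the sets which involve only members of `E` -/
def idx (E : Set W) : Set ((W × ℕ) ⊕ (W × W)) :=
  {j | Sum.elim (fun p => p.1 ∈ E) (fun p => p.1 ∈ E ∧ p.2 ∈ E) j}

theorem idx_mono {E E' : Set W} (h : E ⊆ E') : idx E ⊆ idx E' := by
  rintro (p | p) hp
  · exact h hp
  · exact ⟨h hp.1, h hp.2⟩

theorem countable_idx {E : Set W} (hE : E.Countable) : (idx E).Countable := by
  have h1 : idx E ⊆ Sum.inl '' (E ×ˢ (Set.univ : Set ℕ)) ∪ Sum.inr '' (E ×ˢ E) := by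
    rintro (p | p) hp
    · exact Or.inl ⟨p, ⟨hp, mem_univ _⟩, rfl⟩
    · exact Or.inr ⟨p, ⟨hp.1, hp.2⟩, rfl⟩
  exact (((hE.prod countable_univ).image _).union ((hE.prod hE).image _)).mono h1

/-- first of the two sets of a pair -/
def setA (F : W → ℕ → 𝕜) (q : ℕ → 𝕜) (ρ : ℝ) (e : W × ℕ × ℕ) : Set ℕ :=
  {n | 5 * ρ ≤ ‖q e.2.1 - q e.2.2‖ ∧ ‖F e.1 n - q e.2.1‖ < ρ}

/-- second of the two sets of a pair -/
def setB (F : W → ℕ → 𝕜) (q : ℕ → 𝕜) (ρ : ℝ) (e : W × ℕ × ℕ) : Set ℕ :=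
  {n | ‖F e.1 n - q e.2.2‖ < ρ}

theorem cell_subset (F : W → ℕ → 𝕜) (q : ℕ → 𝕜) (ρ : ℝ) (e : W × ℕ × ℕ) (v : W) (K : Finset ℕ)
    (hK : ∀ n, ∃ k ∈ K, ‖F v n - q k‖ < ρ / 2) (t : Finset ((W × ℕ) ⊕ (W × W)))
    (ht : ∀ k ∈ K, Sum.inl (v, k) ∈ t) (n : ℕ) :
    cell (famSet F q ρ) t n ∩ setA F q ρ e ⊆ famSet F q ρ (Sum.inr (e.1, v)) ∨
    cell (famSet F q ρ) t n ∩ setB F q ρ e ⊆ famSet F q ρ (Sum.inr (e.1, v)) := by
  obtain ⟨k, hkK, hk⟩ := hK n
  have hosc : ∀ l ∈ cell (famSet F q ρ) t n, ‖F v l - q k‖ < ρ / 2 := fun l hl =>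
    (hl _ (ht k hkK)).2 hk
  by_contra hcon
  rw [not_or] at hcon
  obtain ⟨h1, h2⟩ := hcon
  rw [not_subset] at h1 h2
  obtain ⟨a, ⟨ha, haA⟩, ha'⟩ := h1
  obtain ⟨b, ⟨hb, hbB⟩, hb'⟩ := h2
  have ha'' : ‖F e.1 a - F v a‖ < ρ := not_le.1 ha'
  have hb'' : ‖F e.1 b - F v b‖ < ρ := not_le.1 hb'
  have h3 := hosc a ha
  have h4 := hosc b hb
  have h5 : ‖F e.1 a - q e.2.1‖ < ρ := haA.2
  have h6 : ‖F e.1 b - q e.2.2‖ < ρ := hbB
  have h7 : 5 * ρ ≤ ‖q e.2.1 - q e.2.2‖ := haA.1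
  have h8 : q e.2.1 - q e.2.2 = -(F e.1 a - q e.2.1) + (F e.1 a - F v a) + (F v a - q k)
      - (F v b - q k) - (F e.1 b - F v b) + (F e.1 b - q e.2.2) := by ring
  have h9 : ‖q e.2.1 - q e.2.2‖ ≤ ‖F e.1 a - q e.2.1‖ + ‖F e.1 a - F v a‖ + ‖F v a - q k‖
      + ‖F v b - q k‖ + ‖F e.1 b - F v b‖ + ‖F e.1 b - q e.2.2‖ := by
    rw [h8]
    refine (norm_add_le _ _).trans (add_le_add_left ?_ _)
    refine (norm_sub_le _ _).trans (add_le_add_left ?_ _)
    refine (norm_sub_le _ _).trans (add_le_add_left ?_ _)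
    refine (norm_add_le _ _).trans (add_le_add_left ?_ _)
    refine (norm_add_le _ _).trans (add_le_add_left ?_ _)
    rw [norm_neg]
  linarith

/-- agreement of two set functions -/
def Agree {J : Type*} (S : J → Set ℕ) (I : Set J) (m m' : Set ℕ → ℝ) : Prop :=
  ∀ t : Finset J, (t : Set J) ⊆ I → ∀ A, Sat S t A → m A = m' A

/-- states of the recursion -/
structure St where
  m : Set ℕ → ℝ
  w : W
  ε : ℝ

/-- The next state is admissible. -/
structure Good (F : W → ℕ → 𝕜) (q : ℕ → 𝕜) (ρ : ℝ) (a : W) (σ : W → St) (s : St) : Prop where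
  fap : IsFAP s.m
  pos : 0 < s.ε
  agree : ∀ b < a, Agree (famSet F q ρ) (idx {v | ∃ c ≤ b, v = (σ c).w}) (σ b).m s.m
  far : ∀ b < a, s.ε ≤ s.m (famSet F q ρ (Sum.inr (s.w, (σ b).w)))

theorem Good.congr {F : W → ℕ → 𝕜} {q : ℕ → 𝕜} {ρ : ℝ} {a : W} {σ τ : W → St} {s : St}
    (h : Good F q ρ a σ s) (hστ : ∀ b < a, σ b = τ b) : Good F q ρ a τ s := by
  refine ⟨h.fap, h.pos, ?_, ?_⟩
  · intro b hb
    have h1 := h.agree b hb
    have h2 : {v | ∃ c ≤ b, v = (σ c).w} = {v | ∃ c ≤ b, v = (τ c).w} := by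
      ext v
      constructor
      · rintro ⟨c, hc, rfl⟩
        exact ⟨c, hc, by rw [hστ c (lt_of_le_of_lt hc hb)]⟩
      · rintro ⟨c, hc, rfl⟩
        exact ⟨c, hc, by rw [hστ c (lt_of_le_of_lt hc hb)]⟩
    rwa [h2, hστ b hb] at h1
  · intro b hb
    rw [← hστ b hb]
    exact h.far b hb

/-- The recursion. -/
theorem exists_rec (F : W → ℕ → 𝕜) (q : ℕ → 𝕜) (ρ : ℝ) :
    ∃ σ : W → St, ∀ a, (∃ s, Good F q ρ a σ s) → Good F q ρ a σ (σ a) := by
  classical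
  have hW : Nonempty W := by
    by_contra h
    rw [not_nonempty_iff] at h
    exact not_countable_univ_W (Set.countable_univ)
  let dflt : St := ⟨fun _ => 0, Classical.choice hW, 0⟩
  let ext : (a : W) → ((b : W) → b < a → St) → W → St := fun a f b =>
    if h : b < a then f b h else dflt
  let σ : W → St := IsWellFounded.fix (α := W) (· < ·) (fun a ih =>
    if h : ∃ s, Good F q ρ a (ext a ih) s then h.choose else dflt)
  refine ⟨σ, fun a h => ?_⟩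
  have h1 : σ a = if h : ∃ s, Good F q ρ a (ext a fun b _ => σ b) s then h.choose else dflt :=
    IsWellFounded.fix_eq _ _ _
  have h2 : ∀ b < a, σ b = ext a (fun b _ => σ b) b := by
    intro b hb
    simp [ext, hb]
  have h3 : ∃ s, Good F q ρ a (ext a fun b _ => σ b) s := by
    obtain ⟨s, hs⟩ := h
    exact ⟨s, hs.congr h2⟩
  rw [dif_pos h3] at h1
  have h4 := h3.choose_spec
  rw [← h1] at h4
  exact h4.congr fun b hb => (h2 b hb).symm

/-- **The dichotomy.** -/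
theorem dichotomy (F : W → ℕ → 𝕜) (q : ℕ → 𝕜) (ρ : ℝ) (hρ : 0 < ρ)
    (hF : ∀ v, ∃ K : Finset ℕ, ∀ n, ∃ k ∈ K, ‖F v n - q k‖ < ρ / 2) :
    (∃ T : Set W, ¬ T.Countable ∧ ∃ w : W → W, ∃ κ : ℝ, 0 < κ ∧ ∀ G : Finset T,
      ∃ s : Finset ℕ, ∃ c : ℕ → ℝ, (∀ n, 0 ≤ c n) ∧ ∑ n ∈ s, c n = 1 ∧
        ∀ a ∈ G, ∀ b ∈ G, a ≠ b → κ ≤ ∑ n ∈ s, c n * ‖F (w a) n - F (w b) n‖ ^ 2) ∨
    (∃ m : Set ℕ → ℝ, IsFAP m ∧ ∃ I : Set ((W × ℕ) ⊕ (W × W)), I.Countable ∧
      ∀ e : W × ℕ × ℕ, ∀ ε : ℝ, 0 < ε → ∃ t : Finset ((W × ℕ) ⊕ (W × W)), (t : Set _) ⊆ I ∧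
        m (undSet (famSet F q ρ) (setA F q ρ e) (setB F q ρ e) t) < ε) := by
  classical
  obtain ⟨σ, hσ⟩ := exists_rec F q ρ
  by_cases hall : ∀ a, Good F q ρ a σ (σ a)
  · left
    -- uncountably many with a lower bound
    obtain ⟨N, hN⟩ : ∃ N : ℕ, ¬ {a : W | 1 / ((N : ℝ) + 1) ≤ (σ a).ε}.Countable := by
      by_contra hcon
      push Not at hcon
      apply not_countable_univ_W
      refine (countable_iUnion hcon).mono ?_
      intro a _
      obtain ⟨N, hN⟩ := exists_nat_one_div_lt (hall a).pos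
      exact mem_iUnion.2 ⟨N, hN.le⟩
    refine ⟨_, hN, fun a => (σ a).w, ρ ^ 2 / ((N : ℝ) + 1), by positivity, fun G => ?_⟩
    have hb₀' : ∃ b₀ : W, ∀ a ∈ G, a.1 < b₀ := by
      have h1 := ((G : Set {a : W | 1 / ((N : ℝ) + 1) ≤ (σ a).ε}).toFinite.image
        Subtype.val).countable
      obtain ⟨b₀, hb₀⟩ := exists_gt_W _ h1
      exact ⟨b₀, fun a ha => hb₀ _ (mem_image_of_mem _ ha)⟩
    obtain ⟨b₀, hb₀⟩ := hb₀'
    let t : Finset ((W × ℕ) ⊕ (W × W)) :=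
      (G ×ˢ G).image fun p => Sum.inr ((σ p.1).w, (σ p.2).w)
    obtain ⟨s, c, hc0, hc1, hc⟩ := (hall b₀).fap.exists_finite_support (S := famSet F q ρ) t
    refine ⟨s, c, hc0, hc1, ?_⟩
    have key : ∀ a ∈ G, ∀ b ∈ G, b.1 < a.1 → ρ ^ 2 / ((N : ℝ) + 1) ≤
        ∑ n ∈ s, c n * ‖F (σ a).w n - F (σ b).w n‖ ^ 2 := by
      intro a ha b hb hba
      have h1 := (hall a.1).far b.1 hba
      have h2 : (σ a).m (famSet F q ρ (Sum.inr ((σ a).w, (σ b).w))) =
          (σ b₀).m (famSet F q ρ (Sum.inr ((σ a).w, (σ b).w))) := by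
        apply (hall b₀).agree a.1 (hb₀ a ha)
          {Sum.inr ((σ a).w, (σ b).w)} _ _ (sat_self _)
        rw [Finset.coe_singleton, singleton_subset_iff]
        exact ⟨⟨a.1, le_refl _, rfl⟩, ⟨b.1, hba.le, rfl⟩⟩
      rw [h2] at h1
      have h3 := hc (famSet F q ρ (Sum.inr ((σ a).w, (σ b).w)))
        ((sat_self _).mono (by
          rw [Finset.singleton_subset_iff]
          exact Finset.mem_image_of_mem _ (Finset.mem_product.2 ⟨ha, hb⟩ :
            ((a, b) : _ × _) ∈ G ×ˢ G)))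
        (fun n => ‖F (σ a).w n - F (σ b).w n‖ ^ 2) (fun n => sq_nonneg _) (ρ ^ 2) (by
          intro n hn
          exact pow_le_pow_left₀ hρ.le hn 2)
      refine le_trans ?_ h3
      have h4 : 1 / ((N : ℝ) + 1) ≤ (σ a).ε := a.2
      have h5 : ρ ^ 2 / ((N : ℝ) + 1) = 1 / ((N : ℝ) + 1) * ρ ^ 2 := by ring
      rw [h5]
      exact mul_le_mul_of_nonneg_right (h4.trans h1) (sq_nonneg ρ)
    intro a ha b hb hab
    rcases lt_trichotomy a.1 b.1 with h | h | h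
    · have h1 := key b hb a ha h
      refine h1.trans_eq ?_
      apply Finset.sum_congr rfl
      intro n _
      rw [norm_sub_rev]
    · exact absurd (Subtype.ext h) hab
    · exact key a ha b hb h
  · right
    push Not at hall
    obtain ⟨a, ha, hmin⟩ : ∃ a, ¬ Good F q ρ a σ (σ a) ∧ ∀ b < a, Good F q ρ b σ (σ b) := by
      obtain ⟨a, ha, hmin⟩ := WellFounded.has_min (wellFounded_lt (α := W))
        {a | ¬ Good F q ρ a σ (σ a)} hall
      refine ⟨a, ha, fun b hb => ?_⟩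
      by_contra hcon
      exact hmin b hcon hb
    have hno : ¬ ∃ s, Good F q ρ a σ s := fun h => ha (hσ a h)
    -- the measure
    obtain ⟨m, hm, hagree⟩ : ∃ m : Set ℕ → ℝ, IsFAP m ∧
        ∀ b < a, Agree (famSet F q ρ) (idx {v | ∃ c ≤ b, v = (σ c).w}) (σ b).m m := by
      by_cases hne : (Iio a).Nonempty
      · have : Nonempty (Iio a) := hne.to_subtype
        let 𝒰 : Ultrafilter (Iio a) := Ultrafilter.of atTop
        have h𝒰 : (𝒰 : Filter (Iio a)) ≤ atTop := Ultrafilter.of_le _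
        obtain ⟨m, hm, hlim⟩ := exists_limit_IsFAP 𝒰 (fun b => (σ b.1).m) fun b => (hmin b.1 b.2).fap
        refine ⟨m, hm, fun b hb t ht A hA => ?_⟩
        refine tendsto_nhds_unique (tendsto_const_nhds.congr' (h𝒰 ?_)) (hlim A)
        filter_upwards [eventually_ge_atTop (⟨b, hb⟩ : Iio a)] with c hc
        rcases (show b ≤ c.1 from hc).lt_or_eq with h | h
        · exact (hmin c.1 c.2).agree b h t ht A hA
        · rw [h]
      · obtain ⟨m, hm⟩ := exists_IsFAP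
        exact ⟨m, hm, fun b hb => absurd ⟨b, hb⟩ hne⟩
    refine ⟨m, hm, idx {v | ∃ c < a, v = (σ c).w}, ?_, ?_⟩
    · apply countable_idx
      have : {v | ∃ c < a, v = (σ c).w} = (fun c => (σ c).w) '' Iio a := by
        ext v
        constructor
        · rintro ⟨c, hc, rfl⟩
          exact ⟨c, hc, rfl⟩
        · rintro ⟨c, hc, rfl⟩
          exact ⟨c, hc, rfl⟩
      rw [this]
      exact (countable_Iio_W a).image _
    · intro e ε hε
      by_contra hcon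
      push Not at hcon
      obtain ⟨m', hm', hag', hfar'⟩ := exists_extension (S := famSet F q ρ) hm
        (setA F q ρ e) (setB F q ρ e) (idx {v | ∃ c < a, v = (σ c).w}) ε hcon
      apply hno
      refine ⟨⟨m', e.1, ε / 2⟩, hm', by positivity, ?_, ?_⟩
      · intro b hb t ht A hA
        rw [hagree b hb t ht A hA]
        refine (hag' t (ht.trans (idx_mono ?_)) A hA).symm
        rintro v ⟨c, hc, rfl⟩
        exact ⟨c, lt_of_le_of_lt hc hb, rfl⟩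
      · intro b hb
        apply hfar'
        obtain ⟨K, hK⟩ := hF (σ b).w
        refine ⟨K.image fun k => Sum.inl ((σ b).w, k), ?_, ?_⟩
        · rw [Finset.coe_image]
          rintro _ ⟨k, -, rfl⟩
          exact ⟨b, hb, rfl⟩
        · intro t ht n _
          exact cell_subset F q ρ e (σ b).w K hK t
            (fun k hk => ht (Finset.mem_image_of_mem _ hk)) n

end Pool.Agent.Helper454.Biorth
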