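import Pool.Agent.Helper454.BiorthHilbert
import Pool.Agent.Helper454.BiorthDich
import Pool.Agent.Helper454.BiorthBranch

/-!
# Banach spaces of density `ℵ₁`
-/

namespace Pool.Agent.Helper454.Biorth

open Set Filter Topology

/-- The closed unit ball of the dual is not weak* sequentially compact: a hereditarily split
sequence. -/
theorem exists_split_sequence {𝕜 : Type*} [RCLike 𝕜] {X : Type*} [NormedAddCommGroup X]
    [NormedSpace 𝕜 X] (hs : ¬ IsSeqCompact (dualBall 𝕜 X)) :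
    ∃ f : ℕ → WeakDual 𝕜 X, (∀ n, f n ∈ dualBall 𝕜 X) ∧ ∃ δ : ℝ, 0 < δ ∧
      ∀ M : Set ℕ, M.Infinite → ∃ x : X, ‖x‖ ≤ 1 ∧ ∃ A B : Set ℕ, Splits f δ x M A B := by
  classical
  unfold IsSeqCompact at hs
  push Not at hs
  obtain ⟨f, hf, hno⟩ := hs
  rcases exists_subseq_or_splits f hf with ⟨g, hg, φ, hφ, h⟩ | ⟨M, hM, δ, hδ, h⟩
  · exact absurd h (hno g hg φ hφ)
  · let ψ : ℕ → ℕ := Nat.nth (· ∈ M)
    have hψ : StrictMono ψ := Nat.nth_strictMono hM
    have hψM : ∀ n, ψ n ∈ M := fun n => Nat.nth_mem_of_infinite hM n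
    refine ⟨fun n => f (ψ n), fun n => hf _, δ, hδ, fun M' hM' => ?_⟩
    obtain ⟨x, hx, A, B, hA, hB, hAi, hBi, hAB⟩ := h (ψ '' M')
      (by rintro _ ⟨n, -, rfl⟩; exact hψM n) (hM'.image hψ.injective.injOn)
    have hpre : ∀ D : Set ℕ, D ⊆ ψ '' M' → D.Infinite → ψ ⁻¹' D ⊆ M' ∧ (ψ ⁻¹' D).Infinite := by
      intro D hD hDi
      refine ⟨fun n hn => ?_, ?_⟩
      · obtain ⟨k, hk, hkn⟩ := hD hn
        rwa [← hψ.injective hkn]
      · apply hDi.preimage
        exact hD.trans (image_subset_range _ _)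
    refine ⟨x, hx, ψ ⁻¹' A, ψ ⁻¹' B, (hpre A hA hAi).1, (hpre B hB hBi).1, (hpre A hA hAi).2,
      (hpre B hB hBi).2, fun i hi j hj => hAB _ hi _ hj⟩

/-- An infinite set is not covered by finitely many sets with finite traces. -/
theorem exists_infinite_trace {A : Set ℕ} (hA : A.Infinite) (K : Finset ℕ) (P : ℕ → Set ℕ)
    (h : ∀ n, ∃ k ∈ K, n ∈ P k) : ∃ k ∈ K, (A ∩ P k).Infinite := by
  by_contra hcon
  push Not at hcon
  apply hA
  have h1 : A ⊆ ⋃ k ∈ K, A ∩ P k := by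
    intro n hn
    obtain ⟨k, hk, hnk⟩ := h n
    exact mem_biUnion (x := k) hk ⟨hn, hnk⟩
  exact (K.finite_toSet.biUnion fun k hk => hcon k hk).subset h1

variable {𝕜 : Type} [RCLike 𝕜]

/-- The density `ℵ₁` case. -/
theorem hasUncountable_of_denseRange (hPID : PID) (hb : Cardinal.aleph 1 < bounding)
    (hc : Cardinal.aleph 1 < splittingNumber ∨ Cardinal.aleph 1 < covClosedNull)
    {X : Type*} [NormedAddCommGroup X] [NormedSpace 𝕜 X] [CompleteSpace X]
    (hX : ¬ TopologicalSpace.SeparableSpace X) (d : W → X) (hd : DenseRange d) :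
    HasUncountableBiorthogonalSystem 𝕜 X := by
  classical
  by_cases hs : IsSeqCompact (dualBall 𝕜 X)
  · exact hasUncountable_of_isSeqCompact_dualBall hPID hb hX hs
  obtain ⟨f, hf, δ, hδ, hsp⟩ := exists_split_sequence hs
  let F : W → ℕ → 𝕜 := fun w n => f n (d w)
  obtain ⟨q, hq⟩ := TopologicalSpace.exists_dense_seq 𝕜
  let ρ : ℝ := δ / 16
  have hρ : 0 < ρ := by positivity
  have hF : ∀ v, ∃ K : Finset ℕ, ∀ n, ∃ k ∈ K, ‖F v n - q k‖ < ρ / 2 := by
    intro v
    obtain ⟨K, hK⟩ := (ProperSpace.isCompact_closedBall (0 : 𝕜) ‖d v‖).elim_finite_subcover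
      (fun k : ℕ => Metric.ball (q k) (ρ / 2)) (fun k => Metric.isOpen_ball) (by
        intro z _
        obtain ⟨k, hk⟩ := hq.exists_dist_lt z (show 0 < ρ / 2 by positivity)
        exact mem_iUnion.2 ⟨k, hk⟩)
    refine ⟨K, fun n => ?_⟩
    have h1 : F v n ∈ Metric.closedBall (0 : 𝕜) ‖d v‖ := by
      rw [mem_closedBall_zero_iff]
      exact norm_apply_le_of_mem_dualBall (hf n) (d v)
    have h2 := hK h1
    simp only [mem_iUnion, Metric.mem_ball, exists_prop] at h2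
    obtain ⟨k, hk, hk'⟩ := h2
    exact ⟨k, hk, by rwa [← dist_eq_norm]⟩
  -- every infinite set is split by a pair
  have hpair : ∀ M : Set ℕ, M.Infinite → ∃ e : W × ℕ × ℕ,
      (M ∩ setA F q ρ e).Infinite ∧ (M ∩ setB F q ρ e).Infinite := by
    intro M hM
    obtain ⟨x, hx, A, B, hA, hB, hAi, hBi, hAB⟩ := hsp M hM
    obtain ⟨w, hw⟩ := hd.exists_dist_lt x (show 0 < δ / 4 by positivity)
    rw [dist_eq_norm] at hw
    have hgap : ∀ i ∈ A, ∀ j ∈ B, 8 * ρ ≤ ‖F w i - F w j‖ := by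
      intro i hi j hj
      have h1 := hAB i hi j hj
      have h2 := norm_apply_le_of_mem_dualBall (hf i) (x - d w)
      have h3 := norm_apply_le_of_mem_dualBall (hf j) (x - d w)
      rw [map_sub] at h2 h3
      have h4 : f i x - f j x = (f i x - f i (d w)) + (f i (d w) - f j (d w))
        - (f j x - f j (d w)) := by ring
      have h5 : ‖f i x - f j x‖ ≤ ‖f i x - f i (d w)‖ + ‖f i (d w) - f j (d w)‖
          + ‖f j x - f j (d w)‖ := by
        rw [h4]
        exact (norm_sub_le _ _).trans (add_le_add_left (norm_add_le _ _) _)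
      have h6 : F w i - F w j = f i (d w) - f j (d w) := rfl
      rw [h6]
      simp only [ρ]
      linarith
    obtain ⟨K, hK⟩ := hF w
    obtain ⟨i, -, hi⟩ := exists_infinite_trace hAi K (fun k => {n | ‖F w n - q k‖ < ρ / 2}) hK
    obtain ⟨j, -, hj⟩ := exists_infinite_trace hBi K (fun k => {n | ‖F w n - q k‖ < ρ / 2}) hK
    refine ⟨(w, i, j), ?_, ?_⟩
    · apply hi.mono
      rintro n ⟨hn, hn'⟩
      refine ⟨hA hn, ?_, ?_⟩
      · obtain ⟨n', hn1, hn2⟩ := hj.nonempty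
        have h1 := hgap n hn n' hn1
        have h2 : ‖F w n - q i‖ < ρ / 2 := hn'
        have h3 : ‖F w n' - q j‖ < ρ / 2 := hn2
        have h4 : F w n - F w n' = (F w n - q i) + (q i - q j) - (F w n' - q j) := by ring
        have h5 : ‖F w n - F w n'‖ ≤ ‖F w n - q i‖ + ‖q i - q j‖ + ‖F w n' - q j‖ := by
          rw [h4]
          exact (norm_sub_le _ _).trans (add_le_add_left (norm_add_le _ _) _)
        change 5 * ρ ≤ ‖q i - q j‖
        linarith
      · have h2 : ‖F w n - q i‖ < ρ / 2 := hn'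
        change ‖F w n - q i‖ < ρ
        linarith
    · apply hj.mono
      rintro n ⟨hn, hn'⟩
      refine ⟨hB hn, ?_⟩
      have h2 : ‖F w n - q j‖ < ρ / 2 := hn'
      change ‖F w n - q j‖ < ρ
      linarith
  have hιcard : Cardinal.mk (W × ℕ × ℕ) ≤ Cardinal.aleph 1 := by
    rw [Cardinal.mk_prod, Cardinal.mk_prod]
    simp only [Cardinal.lift_id, mk_W, Cardinal.mk_nat]
    rw [Cardinal.aleph0_mul_aleph0, Cardinal.mul_aleph0_eq (Cardinal.aleph0_le_aleph 1)]
  rcases hc with hc | hc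
  · -- the splitting number
    exfalso
    obtain ⟨M, hM, hM'⟩ := exists_unsplit hc (ι := W × ℕ × ℕ) hιcard
      (fun e => {n | ‖F e.1 n - q e.2.1‖ < ρ})
    obtain ⟨e, he1, he2⟩ := hpair M hM
    have h1 : (M \ {n | ‖F e.1 n - q e.2.1‖ < ρ}).Finite := by
      refine (hM' (e.1, e.2.1, 0)).resolve_left fun h => he1 (h.subset ?_)
      rintro n ⟨hn, hn'⟩
      exact ⟨hn, hn'.2⟩
    have h2 : (M \ {n | ‖F e.1 n - q e.2.2‖ < ρ}).Finite := by
      refine (hM' (e.1, e.2.2, 0)).resolve_left fun h => he2 (h.subset ?_)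
      rintro n ⟨hn, hn'⟩
      exact ⟨hn, hn'⟩
    have h3 : (M \ ((M \ {n | ‖F e.1 n - q e.2.1‖ < ρ}) ∪
        (M \ {n | ‖F e.1 n - q e.2.2‖ < ρ}))).Nonempty :=
      (hM.sdiff (h1.union h2)).nonempty
    obtain ⟨n, hnM, hn⟩ := h3
    have h4 : ‖F e.1 n - q e.2.1‖ < ρ := by
      by_contra h
      exact hn (Or.inl ⟨hnM, h⟩)
    have h5 : ‖F e.1 n - q e.2.2‖ < ρ := by
      by_contra h
      exact hn (Or.inr ⟨hnM, h⟩)
    obtain ⟨n', -, hn', -⟩ := he1.nonempty
    have h6 : q e.2.1 - q e.2.2 = -(F e.1 n - q e.2.1) + (F e.1 n - q e.2.2) := by ring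
    have h7 : ‖q e.2.1 - q e.2.2‖ ≤ ‖F e.1 n - q e.2.1‖ + ‖F e.1 n - q e.2.2‖ := by
      rw [h6]
      refine (norm_add_le _ _).trans ?_
      rw [norm_neg]
    linarith
  · rcases dichotomy F q ρ hρ hF with ⟨T, hT, w, κ, hκ, h⟩ | ⟨m, hm, I, hI, h⟩
    · have : Uncountable T := by
        rw [← not_countable_iff]
        intro hcon
        exact hT (countable_coe_iff.1 hcon)
      exact hasUncountable_of_variance hPID hb f hf (fun a : T => d (w a)) κ hκ h
    · exfalso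
      obtain ⟨M, hM, hM'⟩ := exists_unsplit_of_null (famSet F q ρ) hm I hI hιcard hc
        (setA F q ρ) (setB F q ρ) h
      obtain ⟨e, he1, he2⟩ := hpair M hM
      rcases hM' e with h1 | h1
      · exact he1 h1
      · exact he2 h1

end Pool.Agent.Helper454.Biorth
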