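import Pool.Agent.Helper454.BiorthFAP

/-!
# Extending finitely additive probabilities
-/

namespace Pool.Agent.Helper454.Biorth

open Set Filter Topology

theorem isFAP_ultra (𝒰 : Ultrafilter ℕ) (h𝒰 : ∀ B : Set ℕ, B.Finite → B ∉ 𝒰) :
    IsFAP (fun A => open Classical in if A ∈ 𝒰 then (1 : ℝ) else 0) := by
  classical
  refine ⟨?_, ?_, ?_, ?_⟩
  · intro A
    split_ifs <;> norm_num
  · exact if_pos Filter.univ_mem
  · intro A B hAB
    by_cases hA : A ∈ 𝒰
    · have hB : B ∉ 𝒰 := by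
        intro hB
        have := Filter.inter_mem hA hB
        rw [hAB.inter_eq] at this
        exact h𝒰 ∅ Set.finite_empty this
      have hAB' : A ∪ B ∈ 𝒰 := Filter.mem_of_superset hA subset_union_left
      simp [hA, hB, hAB']
    · by_cases hB : B ∈ 𝒰
      · have hAB' : A ∪ B ∈ 𝒰 := Filter.mem_of_superset hB subset_union_right
        simp [hA, hB, hAB']
      · have hAB' : A ∪ B ∉ 𝒰 := by
          rw [Ultrafilter.union_mem_iff]
          tauto
        simp [hA, hB, hAB']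
  · intro A hA
    simp [h𝒰 A hA]

/-- both parts of `B` are infinite -/
def Und (A0 A1 B : Set ℕ) : Prop := (B ∩ A0).Infinite ∧ (B ∩ A1).Infinite

section

variable {J : Type*} (S : J → Set ℕ)

/-- the union of the cells whose intersections with `A0` and `A1` are infinite -/
def undSet (A0 A1 : Set ℕ) (t : Finset J) : Set ℕ := {n | Und A0 A1 (cell S t n)}

variable {S}

theorem exists_extension_fin {m : Set ℕ → ℝ} (hm : IsFAP m) (A0 A1 : Set ℕ) (t : Finset J) :
    ∃ m' : Set ℕ → ℝ, IsFAP m' ∧ (∀ A, Sat S t A → m' A = m A) ∧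
      ∀ D : Set ℕ, (∀ n, Und A0 A1 (cell S t n) →
        cell S t n ∩ A0 ⊆ D ∨ cell S t n ∩ A1 ⊆ D) → m (undSet S A0 A1 t) / 2 ≤ m' D := by
  classical
  obtain ⟨s, hs1, hs2⟩ := exists_reps (S := S) t
  have hP : ∀ n, ∃ 𝒰 : Ultrafilter ℕ, (∀ B : Set ℕ, B.Finite → B ∉ 𝒰) ∧
      (Und A0 A1 (cell S t n) → cell S t n ∩ A0 ∈ 𝒰) := by
    intro n
    by_cases h : Und A0 A1 (cell S t n)
    · obtain ⟨𝒰, h1, h2⟩ := exists_ultrafilter _ h.1
      exact ⟨𝒰, h2, fun _ => h1⟩
    · obtain ⟨𝒰, h1, h2⟩ := exists_ultrafilter _ Set.infinite_univ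
      exact ⟨𝒰, h2, fun h' => absurd h' h⟩
  have hQ : ∀ n, ∃ 𝒰 : Ultrafilter ℕ, (∀ B : Set ℕ, B.Finite → B ∉ 𝒰) ∧
      (Und A0 A1 (cell S t n) → cell S t n ∩ A1 ∈ 𝒰) := by
    intro n
    by_cases h : Und A0 A1 (cell S t n)
    · obtain ⟨𝒰, h1, h2⟩ := exists_ultrafilter _ h.2
      exact ⟨𝒰, h2, fun _ => h1⟩
    · obtain ⟨𝒰, h1, h2⟩ := exists_ultrafilter _ Set.infinite_univ
      exact ⟨𝒰, h2, fun h' => absurd h' h⟩
  choose P hPf hP using hP
  choose Q hQf hQ using hQ
  let χ : Ultrafilter ℕ → Set ℕ → ℝ := fun 𝒰 A => if A ∈ 𝒰 then 1 else 0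
  have hχP : ∀ n, IsFAP (χ (P n)) := fun n => by
    convert isFAP_ultra (P n) (hPf n)
  have hχQ : ∀ n, IsFAP (χ (Q n)) := fun n => by
    convert isFAP_ultra (Q n) (hQf n)
  let s' : Finset ℕ := s.filter fun n => Und A0 A1 (cell S t n)
  let U : Set ℕ := undSet S A0 A1 t
  have hU : U = ⋃ n ∈ s', cell S t n := by
    ext k
    simp only [s', Finset.mem_filter, mem_iUnion, exists_prop]
    constructor
    · intro hk
      obtain ⟨n, hn, hkn⟩ := hs1 k
      refine ⟨n, ⟨hn, ?_⟩, hkn⟩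
      rw [← cell_eq_of_mem hkn]
      exact hk
    · rintro ⟨n, ⟨-, hn⟩, hk⟩
      change Und A0 A1 (cell S t k)
      rw [cell_eq_of_mem hk]
      exact hn
  have hdis : ∀ a ∈ s', ∀ b ∈ s', a ≠ b → Disjoint (cell S t a) (cell S t b) := by
    intro a ha b hb hab
    exact hs2 a (Finset.mem_filter.1 ha).1 b (Finset.mem_filter.1 hb).1 hab
  have hmU : m U = ∑ n ∈ s', m (cell S t n) := by
    rw [hU]
    exact hm.biUnion s' _ hdis
  let m' : Set ℕ → ℝ := fun Y =>
    ∑ n ∈ s', m (cell S t n) * ((χ (P n) Y + χ (Q n) Y) / 2) + m (Y \ U)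
  refine ⟨m', ⟨?_, ?_, ?_, ?_⟩, ?_, ?_⟩
  · intro A
    apply add_nonneg _ (hm.nonneg _)
    apply Finset.sum_nonneg
    intro n _
    have h1 := (hχP n).nonneg A
    have h2 := (hχQ n).nonneg A
    have h3 := hm.nonneg (cell S t n)
    positivity
  · simp only [m', (hχP _).univ, (hχQ _).univ]
    have h1 := hm.inter_add_diff Set.univ U
    rw [univ_inter, hm.univ, hmU] at h1
    norm_num
    exact h1
  · intro A B hAB
    have h1 : ∀ n, χ (P n) (A ∪ B) = χ (P n) A + χ (P n) B := fun n => (hχP n).add A B hAB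
    have h2 : ∀ n, χ (Q n) (A ∪ B) = χ (Q n) A + χ (Q n) B := fun n => (hχQ n).add A B hAB
    have h3 : m ((A ∪ B) \ U) = m (A \ U) + m (B \ U) := by
      rw [union_sdiff_distrib]
      exact hm.add _ _ (hAB.mono sdiff_subset sdiff_subset)
    simp only [m', h1, h2, h3]
    have h4 : ∀ n, m (cell S t n) * ((χ (P n) A + χ (P n) B + (χ (Q n) A + χ (Q n) B)) / 2) =
        m (cell S t n) * ((χ (P n) A + χ (Q n) A) / 2) +
        m (cell S t n) * ((χ (P n) B + χ (Q n) B) / 2) := by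
      intro n
      ring
    simp only [h4, Finset.sum_add_distrib]
    ring
  · intro A hA
    have h1 : ∀ n, χ (P n) A = 0 := fun n => (hχP n).finite A hA
    have h2 : ∀ n, χ (Q n) A = 0 := fun n => (hχQ n).finite A hA
    simp only [m', h1, h2, hm.finite _ (hA.subset sdiff_subset)]
    simp
  · intro A hA
    have h1 : ∀ n ∈ s', m (cell S t n) * ((χ (P n) A + χ (Q n) A) / 2) =
        m (cell S t n ∩ A) := by
      intro n hn
      have hund := (Finset.mem_filter.1 hn).2
      by_cases hnA : n ∈ A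
      · have hsub : cell S t n ⊆ A := fun k hk => hA n k hk hnA
        have h2 : A ∈ P n := Filter.mem_of_superset (hP n hund) (inter_subset_left.trans hsub)
        have h3 : A ∈ Q n := Filter.mem_of_superset (hQ n hund) (inter_subset_left.trans hsub)
        rw [inter_eq_left.2 hsub]
        simp [χ, h2, h3]
      · have hdisj : cell S t n ∩ A = ∅ := by
          rw [eq_empty_iff_forall_notMem]
          rintro k ⟨hk, hkA⟩
          apply hnA
          apply hA k n _ hkA
          rw [cell_eq_of_mem hk]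
          exact mem_cell_self t n
        have h2 : A ∉ P n := by
          intro h
          apply hPf n ∅ Set.finite_empty
          apply Filter.mem_of_superset (Filter.inter_mem (hP n hund) h)
          rintro k ⟨⟨hk, -⟩, hkA⟩
          exact (eq_empty_iff_forall_notMem.1 hdisj k) ⟨hk, hkA⟩
        have h3 : A ∉ Q n := by
          intro h
          apply hQf n ∅ Set.finite_empty
          apply Filter.mem_of_superset (Filter.inter_mem (hQ n hund) h)
          rintro k ⟨⟨hk, -⟩, hkA⟩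
          exact (eq_empty_iff_forall_notMem.1 hdisj k) ⟨hk, hkA⟩
        rw [hdisj, hm.empty]
        simp [χ, h2, h3]
    simp only [m']
    rw [Finset.sum_congr rfl h1, ← hm.biUnion s' (fun n => cell S t n ∩ A)
      (fun a ha b hb hab => (hdis a ha b hb hab).mono inter_subset_left inter_subset_left)]
    have h2 : (⋃ n ∈ s', cell S t n ∩ A) = A ∩ U := by
      rw [hU, inter_comm A, iUnion₂_inter]
    rw [h2]
    exact hm.inter_add_diff A U
  · intro D hD
    have h1 : ∀ n ∈ s', m (cell S t n) * (1 / 2) ≤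
        m (cell S t n) * ((χ (P n) D + χ (Q n) D) / 2) := by
      intro n hn
      have hund := (Finset.mem_filter.1 hn).2
      apply mul_le_mul_of_nonneg_left _ (hm.nonneg _)
      have h2 := (hχP n).nonneg D
      have h3 := (hχQ n).nonneg D
      rcases hD n hund with h | h
      · have h4 : χ (P n) D = 1 := if_pos (Filter.mem_of_superset (hP n hund) h)
        rw [h4]
        linarith
      · have h4 : χ (Q n) D = 1 := if_pos (Filter.mem_of_superset (hQ n hund) h)
        rw [h4]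
        linarith
    have h2 := Finset.sum_le_sum h1
    rw [← Finset.sum_mul, ← hmU] at h2
    have h3 := hm.nonneg (D \ U)
    simp only [m']
    change m U / 2 ≤ _
    linarith

theorem exists_extension {m : Set ℕ → ℝ} (hm : IsFAP m) (A0 A1 : Set ℕ) (I : Set J) (ε : ℝ)
    (hε : ∀ t : Finset J, (t : Set J) ⊆ I → ε ≤ m (undSet S A0 A1 t)) :
    ∃ m' : Set ℕ → ℝ, IsFAP m' ∧
      (∀ t : Finset J, (t : Set J) ⊆ I → ∀ A, Sat S t A → m' A = m A) ∧
      ∀ D : Set ℕ, (∃ t₀ : Finset J, (t₀ : Set J) ⊆ I ∧ ∀ t : Finset J, t₀ ⊆ t →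
        ∀ n, Und A0 A1 (cell S t n) → cell S t n ∩ A0 ⊆ D ∨ cell S t n ∩ A1 ⊆ D) →
          ε / 2 ≤ m' D := by
  classical
  choose μ hμ1 hμ2 hμ3 using fun t : Finset J => exists_extension_fin (S := S) hm A0 A1 t
  let emb : Finset I → Finset J := fun t => t.map (Function.Embedding.subtype _)
  have hemb : ∀ t : Finset I, (emb t : Set J) ⊆ I := by
    intro t j hj
    simp only [emb, Finset.coe_map, Function.Embedding.subtype_apply, mem_image] at hj
    obtain ⟨i, -, rfl⟩ := hj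
    exact i.2
  have hback : ∀ t₀ : Finset J, (t₀ : Set J) ⊆ I → ∃ t₁ : Finset I, ∀ t : Finset I, t₁ ⊆ t →
      t₀ ⊆ emb t := by
    intro t₀ ht₀
    refine ⟨t₀.subtype (· ∈ I), fun t ht j hj => ?_⟩
    rw [Finset.mem_map]
    exact ⟨⟨j, ht₀ hj⟩, ht (by simpa using hj), rfl⟩
  let 𝒰 : Ultrafilter (Finset I) := Ultrafilter.of atTop
  have h𝒰 : (𝒰 : Filter (Finset I)) ≤ atTop := Ultrafilter.of_le _
  obtain ⟨m', hm', hlim⟩ := exists_limit_IsFAP 𝒰 (fun t => μ (emb t)) fun t => hμ1 _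
  refine ⟨m', hm', ?_, ?_⟩
  · intro t₀ ht₀ A hA
    obtain ⟨t₁, ht₁⟩ := hback t₀ ht₀
    refine tendsto_nhds_unique (hlim A) (tendsto_const_nhds.congr' (h𝒰 ?_))
    filter_upwards [eventually_ge_atTop t₁] with t ht
    exact (hμ2 (emb t) A (hA.mono (ht₁ t ht))).symm
  · rintro D ⟨t₀, ht₀, hD⟩
    obtain ⟨t₁, ht₁⟩ := hback t₀ ht₀
    refine ge_of_tendsto (hlim D) (h𝒰 ?_)
    filter_upwards [eventually_ge_atTop t₁] with t ht
    have h1 := hμ3 (emb t) D (hD (emb t) (ht₁ t ht))
    have h2 := hε (emb t) (hemb t)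
    linarith

end

end Pool.Agent.Helper454.Biorth
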