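import Pool.Agent.Helper454.BiorthBasic

/-!
# Finitely additive probabilities on the subsets of `ℕ`
-/

namespace Pool.Agent.Helper454.Biorth

open Set Filter Topology

/-- finitely additive probabilities on the subsets of `ℕ` which vanish on finite sets -/
structure IsFAP (m : Set ℕ → ℝ) : Prop where
  nonneg : ∀ A, 0 ≤ m A
  univ : m Set.univ = 1
  add : ∀ A B, Disjoint A B → m (A ∪ B) = m A + m B
  finite : ∀ A : Set ℕ, A.Finite → m A = 0

namespace IsFAP

variable {m : Set ℕ → ℝ}

theorem empty (hm : IsFAP m) : m ∅ = 0 := hm.finite ∅ Set.finite_empty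

theorem mono (hm : IsFAP m) {A B : Set ℕ} (h : A ⊆ B) : m A ≤ m B := by
  have h1 := hm.add A (B \ A) disjoint_sdiff_right
  rw [union_sdiff_cancel h] at h1
  have h2 := hm.nonneg (B \ A)
  linarith

theorem le_one (hm : IsFAP m) (A : Set ℕ) : m A ≤ 1 := by
  rw [← hm.univ]
  exact hm.mono (subset_univ A)

theorem inter_add_diff (hm : IsFAP m) (A B : Set ℕ) : m (A ∩ B) + m (A \ B) = m A := by
  rw [← hm.add _ _ (disjoint_sdiff_inter.symm), inter_union_sdiff]

theorem biUnion (hm : IsFAP m) {α : Type*} (s : Finset α) (B : α → Set ℕ)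
    (hB : ∀ a ∈ s, ∀ b ∈ s, a ≠ b → Disjoint (B a) (B b)) :
    m (⋃ a ∈ s, B a) = ∑ a ∈ s, m (B a) := by
  classical
  induction s using Finset.induction_on with
  | empty => simpa using hm.empty
  | insert a s ha ih =>
    rw [Finset.sum_insert ha, Finset.set_biUnion_insert, hm.add, ih]
    · intro b hb c hc
      exact hB b (Finset.mem_insert_of_mem hb) c (Finset.mem_insert_of_mem hc)
    · rw [disjoint_iUnion₂_right]
      intro b hb
      exact hB a (Finset.mem_insert_self a s) b (Finset.mem_insert_of_mem hb) (by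
        rintro rfl
        exact ha hb)

end IsFAP

/-- Limits along ultrafilters. -/
theorem exists_limit_IsFAP {ι : Type*} (𝒰 : Ultrafilter ι) (m : ι → Set ℕ → ℝ)
    (hm : ∀ i, IsFAP (m i)) :
    ∃ m' : Set ℕ → ℝ, IsFAP m' ∧ ∀ A, Tendsto (fun i => m i A) 𝒰 (𝓝 (m' A)) := by
  have hlim : ∀ A, ∃ l : ℝ, Tendsto (fun i => m i A) 𝒰 (𝓝 l) := by
    intro A
    obtain ⟨l, -, hl⟩ := (isCompact_Icc (a := (0 : ℝ)) (b := 1)).ultrafilter_le_nhds
      (𝒰.map fun i => m i A) (by
        rw [le_principal_iff, Ultrafilter.mem_coe, Ultrafilter.mem_map]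
        exact Filter.univ_mem' fun i => ⟨(hm i).nonneg A, (hm i).le_one A⟩)
    exact ⟨l, hl⟩
  choose m' hm' using hlim
  refine ⟨m', ⟨?_, ?_, ?_, ?_⟩, hm'⟩
  · intro A
    exact ge_of_tendsto (hm' A) (Eventually.of_forall fun i => (hm i).nonneg A)
  · exact tendsto_nhds_unique ((hm' Set.univ).congr fun i => (hm i).univ) tendsto_const_nhds
  · intro A B hAB
    exact tendsto_nhds_unique ((hm' (A ∪ B)).congr fun i => (hm i).add A B hAB)
      ((hm' A).add (hm' B))
  · intro A hA
    exact tendsto_nhds_unique ((hm' A).congr fun i => (hm i).finite A hA) tendsto_const_nhds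

/-- an ultrafilter of infinite sets which contains a given infinite set -/
theorem exists_ultrafilter (A : Set ℕ) (hA : A.Infinite) :
    ∃ 𝒰 : Ultrafilter ℕ, A ∈ 𝒰 ∧ ∀ B : Set ℕ, B.Finite → B ∉ 𝒰 := by
  have h1 : (cofinite ⊓ 𝓟 A : Filter ℕ).NeBot := by
    rw [← Filter.frequently_mem_iff_neBot]
    exact Filter.frequently_cofinite_iff_infinite.2 hA
  refine ⟨Ultrafilter.of (cofinite ⊓ 𝓟 A), ?_, ?_⟩
  · exact Ultrafilter.of_le _ (mem_inf_of_right (mem_principal_self A))
  · intro B hB hB'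
    have h2 : Bᶜ ∈ Ultrafilter.of (cofinite ⊓ 𝓟 A) :=
      Ultrafilter.of_le _ (mem_inf_of_left hB.compl_mem_cofinite)
    exact (Ultrafilter.compl_mem_iff_notMem.1 h2) hB'

/-- There is a finitely additive probability. -/
theorem exists_IsFAP : ∃ m : Set ℕ → ℝ, IsFAP m := by
  classical
  obtain ⟨𝒰, -, h𝒰⟩ := exists_ultrafilter Set.univ Set.infinite_univ
  refine ⟨fun A => if A ∈ 𝒰 then 1 else 0, ⟨?_, ?_, ?_, ?_⟩⟩
  · intro A
    split_ifs <;> norm_num
  · exact if_pos Filter.univ_mem
  · intro A B hAB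
    by_cases hA : A ∈ 𝒰
    · have hB : B ∉ 𝒰 := by
        intro hB
        have := Filter.inter_mem hA hB
        rw [hAB.inter_eq] at this
        exact h𝒰 ∅ Set.finite_empty this
      have hAB' : A ∪ B ∈ 𝒰 := Filter.mem_of_superset hA subset_union_left
      simp [hA, hB, hAB']
    · by_cases hB : B ∈ 𝒰
      · have hAB' : A ∪ B ∈ 𝒰 := Filter.mem_of_superset hB subset_union_right
        simp [hA, hB, hAB']
      · have hAB' : A ∪ B ∉ 𝒰 := by
          rw [Ultrafilter.union_mem_iff]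
          tauto
        simp [hA, hB, hAB']
  · intro A hA
    simp [h𝒰 A hA]

section Cells

variable {J : Type*} (S : J → Set ℕ)

/-- the points which are not separated from `n` by the sets `S j`, `j ∈ t` -/
def cell (t : Finset J) (n : ℕ) : Set ℕ := {k | ∀ j ∈ t, k ∈ S j ↔ n ∈ S j}

variable {S}

theorem mem_cell_self (t : Finset J) (n : ℕ) : n ∈ cell S t n := fun _ _ => Iff.rfl

theorem cell_eq_of_mem {t : Finset J} {n k : ℕ} (h : k ∈ cell S t n) : cell S t k = cell S t n := by
  ext l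
  constructor
  · intro hl j hj
    exact (hl j hj).trans (h j hj)
  · intro hl j hj
    exact (hl j hj).trans (h j hj).symm

theorem cell_mono {t t' : Finset J} (h : t ⊆ t') (n : ℕ) : cell S t' n ⊆ cell S t n :=
  fun _ hk j hj => hk j (h hj)

variable (S)

/-- `A` is a union of cells -/
def Sat (t : Finset J) (A : Set ℕ) : Prop := ∀ n, ∀ k ∈ cell S t n, n ∈ A → k ∈ A

variable {S}

theorem Sat.mono {t t' : Finset J} (h : t ⊆ t') {A : Set ℕ} (hA : Sat S t A) : Sat S t' A :=
  fun n k hk hn => hA n k (cell_mono h n hk) hn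

theorem sat_self [DecidableEq J] (j : J) : Sat S {j} (S j) := fun _ _ hk hn =>
  (hk j (Finset.mem_singleton_self j)).2 hn

theorem exists_reps (t : Finset J) : ∃ s : Finset ℕ, (∀ k, ∃ n ∈ s, k ∈ cell S t n) ∧
    ∀ n ∈ s, ∀ n' ∈ s, n ≠ n' → Disjoint (cell S t n) (cell S t n') := by
  classical
  let φ : ℕ → Finset J := fun n => t.filter fun j => n ∈ S j
  have hφ : ∀ n k, φ k = φ n → k ∈ cell S t n := by
    intro n k h j hj
    have h1 := Finset.ext_iff.1 h j
    simp only [φ, Finset.mem_filter, hj, true_and] at h1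
    exact h1
  have hφ' : ∀ n k, k ∈ cell S t n → φ k = φ n := by
    intro n k h
    apply Finset.filter_congr
    intro j hj
    exact h j hj
  have hfin : (range φ).Finite := by
    apply Set.Finite.subset (t.powerset.finite_toSet)
    rintro _ ⟨n, rfl⟩
    simp only [Finset.coe_powerset, mem_preimage, mem_powerset_iff, Finset.coe_subset]
    exact Finset.filter_subset _ _
  have hr : ∀ u : Finset J, ∃ n, u ∈ range φ → φ n = u := by
    intro u
    by_cases h : u ∈ range φ
    · obtain ⟨n, hn⟩ := h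
      exact ⟨n, fun _ => hn⟩
    · exact ⟨0, fun h' => absurd h' h⟩
  choose r hr using hr
  refine ⟨hfin.toFinset.image r, ?_, ?_⟩
  · intro k
    refine ⟨r (φ k), Finset.mem_image_of_mem r (by simp), ?_⟩
    apply hφ
    exact (hr _ (mem_range_self k)).symm
  · intro n hn n' hn' hne
    rw [Finset.mem_image] at hn hn'
    obtain ⟨u, hu, rfl⟩ := hn
    obtain ⟨u', hu', rfl⟩ := hn'
    rw [Set.Finite.mem_toFinset] at hu hu'
    rw [Set.disjoint_left]
    intro k hk hk'
    have h1 := hφ' _ _ hk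
    have h2 := hφ' _ _ hk'
    rw [hr u hu] at h1
    rw [hr u' hu'] at h2
    exact hne (by rw [← h1, ← h2])

/-- Finitely supported approximation. -/
theorem IsFAP.exists_finite_support {m : Set ℕ → ℝ} (hm : IsFAP m) (t : Finset J) :
    ∃ s : Finset ℕ, ∃ c : ℕ → ℝ, (∀ n, 0 ≤ c n) ∧ ∑ n ∈ s, c n = 1 ∧
      ∀ A, Sat S t A → ∀ v : ℕ → ℝ, (∀ n, 0 ≤ v n) → ∀ r : ℝ, (∀ n ∈ A, r ≤ v n) →
        m A * r ≤ ∑ n ∈ s, c n * v n := by
  classical
  obtain ⟨s, hs1, hs2⟩ := exists_reps (S := S) t
  refine ⟨s, fun n => m (cell S t n), fun n => hm.nonneg _, ?_, ?_⟩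
  · rw [← hm.biUnion s _ hs2, ← hm.univ]
    congr 1
    apply eq_univ_of_forall
    intro k
    obtain ⟨n, hn, hk⟩ := hs1 k
    exact mem_biUnion hn hk
  · intro A hA v hv r hr
    have h1 : A = ⋃ n ∈ s.filter (fun n => n ∈ A), cell S t n := by
      ext k
      simp only [Finset.mem_filter, mem_iUnion, exists_prop]
      constructor
      · intro hk
        obtain ⟨n, hn, hkn⟩ := hs1 k
        refine ⟨n, ⟨hn, ?_⟩, hkn⟩
        apply hA k n _ hk
        rw [cell_eq_of_mem hkn]
        exact mem_cell_self t n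
      · rintro ⟨n, ⟨-, hn⟩, hk⟩
        exact hA n k hk hn
    have h2 : m A = ∑ n ∈ s.filter (fun n => n ∈ A), m (cell S t n) := by
      conv_lhs => rw [h1]
      apply hm.biUnion
      intro a ha b hb hab
      exact hs2 a (Finset.mem_filter.1 ha).1 b (Finset.mem_filter.1 hb).1 hab
    rw [h2, Finset.sum_mul]
    calc ∑ n ∈ s.filter (fun n => n ∈ A), m (cell S t n) * r
        ≤ ∑ n ∈ s.filter (fun n => n ∈ A), m (cell S t n) * v n := by
          apply Finset.sum_le_sum
          intro n hn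
          exact mul_le_mul_of_nonneg_left (hr n (Finset.mem_filter.1 hn).2) (hm.nonneg _)
      _ ≤ ∑ n ∈ s, m (cell S t n) * v n := by
          apply Finset.sum_le_sum_of_subset_of_nonneg (Finset.filter_subset _ _)
          intro n _ _
          exact mul_nonneg (hm.nonneg _) (hv n)

end Cells

end Pool.Agent.Helper454.Biorth
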