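import Pool.Agent.Helper454.BiorthBall

/-!
# Operators with nonseparable range into Hilbert spaces
-/

namespace Pool.Agent.Helper454.Biorth

open Set Filter Topology

universe v

section Asplund

variable {𝕜 : Type*} [RCLike 𝕜]

/-- A Hilbert space is an Asplund space. -/
theorem isAsplund_of_innerProductSpace {E : Type*} [NormedAddCommGroup E] [InnerProductSpace 𝕜 E]
    [CompleteSpace E] : IsAsplund 𝕜 E := by
  intro Y hY
  let Z : Submodule 𝕜 E := Y.topologicalClosure
  have hZc : IsClosed (Z : Set E) := Submodule.isClosed_topologicalClosure _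
  have hYZ : ∀ y : Y, (y : E) ∈ Z := fun y => Submodule.le_topologicalClosure _ y.2
  have hZs : TopologicalSpace.SeparableSpace Z := by
    have h1 : TopologicalSpace.IsSeparable (Y : Set E) := by
      have := TopologicalSpace.isSeparable_range (β := E) (f := (Subtype.val : Y → E))
        continuous_subtype_val
      rwa [Subtype.range_coe_subtype] at this
    have h2 : TopologicalSpace.IsSeparable (Z : Set E) := h1.closure
    exact h2.separableSpace
  have : CompleteSpace Z := hZc.completeSpace_coe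
  let Φ : Z → (Y →L[𝕜] 𝕜) := fun z => (innerSL 𝕜 (z : E)).comp Y.subtypeL
  have hΦc : Continuous Φ := by
    have h1 : Continuous fun z : Z => innerSL 𝕜 (z : E) :=
      (innerSL 𝕜).continuous.comp continuous_subtype_val
    exact h1.clm_comp continuous_const
  have hΦs : Function.Surjective Φ := by
    intro ψ
    obtain ⟨g, hg, -⟩ := exists_extension_norm_eq Y ψ
    let w : E := (InnerProductSpace.toDual 𝕜 E).symm g
    have hw : ∀ x, inner 𝕜 w x = g x := fun x => by
      simp [w]
    refine ⟨⟨Z.starProjection w, Z.starProjection_apply_mem w⟩, ?_⟩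
    ext y
    have h1 : Φ ⟨Z.starProjection w, Z.starProjection_apply_mem w⟩ y =
      inner 𝕜 (Z.starProjection w) (y : E) := rfl
    rw [h1, ← hg y, ← hw]
    have h2 := Submodule.inner_starProjection_left_eq_right Z w (y : E)
    have h3 : Z.starProjection (y : E) = y := Submodule.starProjection_eq_self_iff.2 (hYZ y)
    rw [h3] at h2
    exact h2
  exact hΦs.denseRange.separableSpace hΦc

/-- The Hilbert space of a positive semidefinite form. -/
theorem exists_hilbert {V : Type v} [AddCommGroup V] [Module 𝕜 V]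
    (c : PreInnerProductSpace.Core 𝕜 V) :
    ∃ (E : Type v) (_ : NormedAddCommGroup E) (_ : InnerProductSpace 𝕜 E) (_ : CompleteSpace E)
      (R : V →ₗ[𝕜] E), ∀ x y, inner 𝕜 (R x) (R y) = c.inner x y := by
  let _ : SeminormedAddCommGroup V := InnerProductSpace.Core.toSeminormedAddCommGroup (c := c)
  let _ : InnerProductSpace 𝕜 V := InnerProductSpace.ofCore c
  refine ⟨UniformSpace.Completion V, inferInstance, inferInstance, inferInstance,
    (UniformSpace.Completion.toComplₗᵢ (𝕜 := 𝕜) (E := V)).toLinearMap, ?_⟩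
  intro x y
  exact UniformSpace.Completion.inner_coe x y

end Asplund

variable {𝕜 : Type} [RCLike 𝕜]

/-- An operator with nonseparable range into a space with weak* sequentially compact dual ball. -/
theorem hasUncountable_of_operator (hPID : PID) (hb : Cardinal.aleph 1 < bounding)
    {X E : Type*} [NormedAddCommGroup X] [NormedSpace 𝕜 X] [CompleteSpace X]
    [NormedAddCommGroup E] [NormedSpace 𝕜 E] (T : X →L[𝕜] E)
    (hT : ¬ TopologicalSpace.IsSeparable (range T)) (hE : IsSeqCompact (dualBall 𝕜 E)) :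
    HasUncountableBiorthogonalSystem 𝕜 X := by
  let R : WeakDual 𝕜 E → WeakDual 𝕜 X := fun ψ =>
    StrongDual.toWeakDual ((WeakDual.toStrongDual ψ).comp T)
  have hR : ∀ ψ x, R ψ x = ψ (T x) := fun ψ x => rfl
  have hRc : Continuous R := by
    apply WeakDual.continuous_of_continuous_eval
    intro x
    exact WeakDual.eval_continuous (T x)
  apply theoremC hPID hb (R '' dualBall 𝕜 E) (hE.image hRc.seqContinuous)
  intro C hC
  let Y : Submodule 𝕜 E := (Submodule.span 𝕜 (T '' C)).topologicalClosure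
  have hYc : IsClosed (Y : Set E) := Submodule.isClosed_topologicalClosure _
  have hYs : TopologicalSpace.IsSeparable (Y : Set E) := by
    have h2 : TopologicalSpace.IsSeparable ((Submodule.span 𝕜 (T '' C) : Submodule 𝕜 E) : Set E) :=
      (hC.image T).isSeparable.span
    exact h2.closure
  have hYne : ∃ x₀, T x₀ ∉ Y := by
    by_contra hcon
    push Not at hcon
    exact hT (hYs.mono (range_subset_iff.2 hcon))
  obtain ⟨x₀, hx₀⟩ := hYne
  obtain ⟨f, hf1, hf2⟩ := exists_functional_of_ne_top Y hYc (T x₀) hx₀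
  have hfn : ‖f‖ ≠ 0 := by
    intro h
    rw [norm_eq_zero] at h
    rw [h] at hf1
    exact hf1 rfl
  have hfn' : (‖f‖ : 𝕜) ≠ 0 := by simpa using hfn
  refine ⟨_, ⟨StrongDual.toWeakDual ((‖f‖ : 𝕜)⁻¹ • f), ?_, rfl⟩, _, ⟨0, ?_, rfl⟩, ?_, ?_⟩
  · change ‖(‖f‖ : 𝕜)⁻¹ • f‖ ≤ 1
    rw [norm_smul, norm_inv, RCLike.norm_ofReal, abs_norm, inv_mul_cancel₀ hfn]
  · simp [dualBall]
  · intro h
    have h1 := congrArg (fun h : WeakDual 𝕜 X => h x₀) h
    have h2 : (‖f‖ : 𝕜)⁻¹ * f (T x₀) = 0 := h1
    rcases mul_eq_zero.1 h2 with h3 | h3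
    · exact hfn' (inv_eq_zero.1 h3)
    · exact hf1 h3
  · intro x hx
    have h1 : f (T x) = 0 :=
      hf2 (T x) (Submodule.le_topologicalClosure _ (Submodule.subset_span (mem_image_of_mem T hx)))
    change (‖f‖ : 𝕜)⁻¹ * f (T x) = 0
    rw [h1, mul_zero]

/-- A uniformly separated uncountable family prevents separability. -/
theorem not_isSeparable_of_separated {E T : Type*} [PseudoMetricSpace E] [Uncountable T] (u : T → E)
    {δ : ℝ} (hδ : 0 < δ) (hu : ∀ s t, s ≠ t → δ ≤ dist (u s) (u t)) {A : Set E}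
    (hA : ∀ t, u t ∈ A) : ¬ TopologicalSpace.IsSeparable A := by
  rintro ⟨C, hCc, hC⟩
  have hnear : ∀ t, ∃ c ∈ C, dist (u t) c < δ / 2 := fun t =>
    Metric.mem_closure_iff.1 (hC (hA t)) (δ / 2) (by positivity)
  choose c hcC hcd using hnear
  have hinj : Function.Injective fun t => (⟨c t, hcC t⟩ : C) := by
    intro s t h
    by_contra hne
    have h1 : c s = c t := congrArg Subtype.val h
    have h2 := hu s t hne
    have h3 := dist_triangle_right (u s) (u t) (c s)
    have h4 := hcd s
    have h5 := hcd t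
    rw [← h1] at h5
    linarith
  have := hCc.to_subtype
  exact not_countable (α := T) hinj.countable

/-- **The Hilbert space lemma.** -/
theorem hasUncountable_of_variance (hPID : PID) (hb : Cardinal.aleph 1 < bounding)
    {X T : Type*} [NormedAddCommGroup X] [NormedSpace 𝕜 X] [CompleteSpace X] [Uncountable T]
    (f : ℕ → WeakDual 𝕜 X) (hf : ∀ n, f n ∈ dualBall 𝕜 X) (x : T → X) (κ : ℝ) (hκ : 0 < κ)
    (h : ∀ G : Finset T, ∃ s : Finset ℕ, ∃ c : ℕ → ℝ, (∀ n, 0 ≤ c n) ∧ ∑ n ∈ s, c n = 1 ∧
      ∀ a ∈ G, ∀ b ∈ G, a ≠ b → κ ≤ ∑ n ∈ s, c n * ‖f n (x a) - f n (x b)‖ ^ 2) :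
    HasUncountableBiorthogonalSystem 𝕜 X := by
  classical
  choose s c hc0 hc1 hc using h
  let 𝒰 : Ultrafilter (Finset T) := Ultrafilter.of atTop
  have h𝒰 : (𝒰 : Filter (Finset T)) ≤ atTop := Ultrafilter.of_le _
  let b : Finset T → X → X → 𝕜 := fun G y z =>
    ∑ n ∈ s G, (c G n : 𝕜) * ((starRingEnd 𝕜) (f n y) * f n z)
  have hbn : ∀ G y z, ‖b G y z‖ ≤ ‖y‖ * ‖z‖ := by
    intro G y z
    calc ‖b G y z‖ ≤ ∑ n ∈ s G, ‖(c G n : 𝕜) * ((starRingEnd 𝕜) (f n y) * f n z)‖ :=
          norm_sum_le _ _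
      _ ≤ ∑ n ∈ s G, c G n * (‖y‖ * ‖z‖) := by
          apply Finset.sum_le_sum
          intro n _
          rw [norm_mul, norm_mul, RCLike.norm_conj, RCLike.norm_ofReal, abs_of_nonneg (hc0 G n)]
          exact mul_le_mul_of_nonneg_left (mul_le_mul (norm_apply_le_of_mem_dualBall (hf n) y)
            (norm_apply_le_of_mem_dualBall (hf n) z) (norm_nonneg _) (norm_nonneg _)) (hc0 G n)
      _ = ‖y‖ * ‖z‖ := by rw [← Finset.sum_mul, hc1, one_mul]
  have hlim : ∀ y z, ∃ l : 𝕜, Tendsto (fun G => b G y z) 𝒰 (𝓝 l) := by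
    intro y z
    have h1 := (ProperSpace.isCompact_closedBall (0 : 𝕜) (‖y‖ * ‖z‖)).ultrafilter_le_nhds
      (𝒰.map fun G => b G y z) (by
        rw [le_principal_iff, Ultrafilter.mem_coe, Ultrafilter.mem_map]
        exact Filter.univ_mem' fun G => by simpa using hbn G y z)
    obtain ⟨l, -, hl⟩ := h1
    exact ⟨l, hl⟩
  choose B hB using hlim
  have hBn : ∀ y, ‖B y y‖ ≤ ‖y‖ ^ 2 := by
    intro y
    refine le_of_tendsto (hB y y).norm (Eventually.of_forall fun G => ?_)
    rw [sq]
    exact hbn G y y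
  -- the form
  have hre : ∀ G y, (b G y y) = ((∑ n ∈ s G, c G n * ‖f n y‖ ^ 2 : ℝ) : 𝕜) := by
    intro G y
    simp only [b]
    push_cast
    apply Finset.sum_congr rfl
    intro n _
    rw [RCLike.conj_mul]
  let core : PreInnerProductSpace.Core 𝕜 X :=
    { inner := B
      conj_inner_symm := by
        intro y z
        have h1 : Tendsto (fun G => (starRingEnd 𝕜) (b G z y)) 𝒰 (𝓝 ((starRingEnd 𝕜) (B z y))) :=
          (RCLike.continuous_conj.tendsto _).comp (hB z y)
        refine tendsto_nhds_unique h1 ((hB y z).congr fun G => ?_)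
        simp only [b, map_sum, map_mul, RCLike.conj_ofReal, RCLike.conj_conj]
        apply Finset.sum_congr rfl
        intro n _
        ring
      re_inner_nonneg := by
        intro y
        have h1 : Tendsto (fun G => RCLike.re (b G y y)) 𝒰 (𝓝 (RCLike.re (B y y))) :=
          (RCLike.continuous_re.tendsto _).comp (hB y y)
        refine ge_of_tendsto h1 (Eventually.of_forall fun G => ?_)
        rw [hre, RCLike.ofReal_re]
        exact Finset.sum_nonneg fun n _ => mul_nonneg (hc0 G n) (sq_nonneg _)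
      add_left := by
        intro y z w
        refine tendsto_nhds_unique (hB (y + z) w) (((hB y w).add (hB z w)).congr fun G => ?_)
        simp only [b, map_add, ← Finset.sum_add_distrib]
        apply Finset.sum_congr rfl
        intro n _
        ring
      smul_left := by
        intro y z r
        refine tendsto_nhds_unique (hB (r • y) z) (((hB y z).const_mul _).congr fun G => ?_)
        simp only [b, map_smul, smul_eq_mul, map_mul, Finset.mul_sum]
        apply Finset.sum_congr rfl
        intro n _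
        ring }
  obtain ⟨E, i1, i2, i3, R, hR⟩ := exists_hilbert core
  have hRsq : ∀ y, ‖R y‖ ^ 2 = RCLike.re (B y y) := by
    intro y
    rw [← inner_self_eq_norm_sq (𝕜 := 𝕜), hR]
    rfl
  have hRn : ∀ y, ‖R y‖ ≤ 1 * ‖y‖ := by
    intro y
    rw [one_mul]
    apply le_of_sq_le_sq _ (norm_nonneg _)
    rw [hRsq]
    exact (RCLike.re_le_norm _).trans (hBn y)
  let R' : X →L[𝕜] E := R.mkContinuous 1 hRn
  apply hasUncountable_of_operator hPID hb R' _
    (isSeqCompact_dualBall_of_isAsplund isAsplund_of_innerProductSpace)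
  apply not_isSeparable_of_separated (fun t => R' (x t)) (Real.sqrt_pos.2 hκ) _
    (fun t => mem_range_self _)
  intro p q hpq
  rw [dist_eq_norm, ← map_sub]
  apply Real.sqrt_le_iff.2
  refine ⟨norm_nonneg _, ?_⟩
  have h1 : ‖R' (x p - x q)‖ = ‖R (x p - x q)‖ := rfl
  rw [h1, hRsq]
  have h2 : Tendsto (fun G => RCLike.re (b G (x p - x q) (x p - x q))) 𝒰
      (𝓝 (RCLike.re (B (x p - x q) (x p - x q)))) :=
    (RCLike.continuous_re.tendsto _).comp (hB _ _)
  refine ge_of_tendsto h2 (h𝒰 ?_)
  filter_upwards [eventually_ge_atTop ({p, q} : Finset T)] with G hG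
  rw [hre, RCLike.ofReal_re]
  have h3 := hc G p (hG (by simp)) q (hG (by simp)) hpq
  simpa [map_sub] using h3

end Pool.Agent.Helper454.Biorth
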