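import Pool.Agent.Helper454.BiorthRed

/-!
# The relative form, and a characterisation
-/

namespace Pool.Agent.Helper454.Biorth

open Set Filter Topology Cardinal
open scoped ENNReal

/-- The core of the proof, for a sequentially compact set of functions on `W`. -/
theorem theoremK (hPID : PID) (hb : Cardinal.aleph 1 < bounding) {𝕜 : Type} [RCLike 𝕜]
    {X : Type*} [NormedAddCommGroup X] [NormedSpace 𝕜 X] [CompleteSpace X]
    (x : W → X) (K : Set (W → 𝕜)) (hK : IsSeqCompact K)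
    (hrep : ∀ u ∈ K, ∃ f : X →L[𝕜] 𝕜, ∀ i, f (x i) = u i)
    (hsep : ∀ J : Set W, J.Countable → ∃ u ∈ K, ∃ v ∈ K, u ≠ v ∧ ∀ i ∈ J, u i = v i) :
    HasUncountableBiorthogonalSystem 𝕜 X := by
  classical
  have hbd : ∀ φ : W → ℕ → ℕ, ∃ g : ℕ → ℕ, ∀ i, ∀ᶠ n in atTop, φ i n ≤ g n :=
    fun φ => exists_bound hb mk_W.le φ
  let S : Type := {p : (W → 𝕜) × (W → 𝕜) // p.1 ∈ K ∧ p.2 ∈ K ∧ p.1 ≠ p.2}
  let w : W → S → ℝ≥0∞ := fun i s => ‖s.1.1 i - s.1.2 i‖ₑ
  have hw : ∀ i s, w i s ≠ ⊤ := fun i s => enorm_ne_top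
  have hw0 : ∀ s, ∃ i, w i s ≠ 0 := by
    intro s
    obtain ⟨i, hi⟩ := Function.ne_iff.1 s.2.2.2
    refine ⟨i, ?_⟩
    simpa [w, sub_eq_zero] using hi
  rcases hPID S (sumIdeal w) (isPIdeal_sumIdeal w hw hbd) with ⟨T, hTc, hT⟩ | ⟨P, hPu, hP⟩
  · have h1 : ∀ i, ∑' t : T, w i t ≠ ⊤ := fun i =>
      tsum_ne_top_of_countable (w i) T fun A hA hAc => (hT A hA hAc).2 i
    have h2 : ∀ s : S, ∃ f : X →L[𝕜] 𝕜, ∃ g : X →L[𝕜] 𝕜,
        (∀ i, f (x i) = s.1.1 i) ∧ (∀ i, g (x i) = s.1.2 i) := by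
      intro s
      obtain ⟨f, hf⟩ := hrep _ s.2.1
      obtain ⟨g, hg⟩ := hrep _ s.2.2.1
      exact ⟨f, g, hf, hg⟩
    choose f g hf hg using h2
    let h : T → X →L[𝕜] 𝕜 := fun t => f t - g t
    have hh : ∀ (t : T) (i : W), h t (x i) = t.1.1.1 i - t.1.1.2 i := by
      intro t i
      rw [← hf, ← hg]
      rfl
    have : Uncountable T := by
      rw [← not_countable_iff]
      intro hcon
      exact hTc (countable_coe_iff.1 hcon)
    apply hasUncountableBiorthogonalSystem_of_summable h (range x)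
    · intro t
      obtain ⟨i, hi⟩ := hw0 t
      refine ⟨x i, mem_range_self i, ?_⟩
      rw [hh]
      simpa [w] using hi
    · rintro _ ⟨i, rfl⟩
      simp only [hh]
      exact h1 i
  · exfalso
    obtain ⟨J, hJc, hJ⟩ := exists_countable_separating hbd K hK
      (fun n => (Subtype.val : S → (W → 𝕜) × (W → 𝕜)) '' (P n)) (by
        intro u hu v hv huv
        have h1 : (⟨(u, v), hu, hv, huv⟩ : S) ∈ ⋃ n, P n := by rw [hPu]; exact mem_univ _
        obtain ⟨n, hn⟩ := mem_iUnion.1 h1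
        exact ⟨n, _, hn, rfl⟩) (by
        intro n p hp _ hcon
        choose s hs hsp using hp
        obtain ⟨A, hAr, hAi, hAI⟩ := exists_infinite_mem_sumIdeal w hw hw0 hbd s (by
          intro i
          have h1 := hcon i
          have h2 : ∀ k, w i (s k) = ENNReal.ofReal (dist ((p k).1 i) ((p k).2 i)) := by
            intro k
            rw [← hsp k]
            simp only [w]
            rw [dist_eq_norm, ofReal_norm]
          simp only [h2]
          have h3 := ENNReal.tendsto_ofReal h1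
          rwa [ENNReal.ofReal_zero] at h3)
        exact hP n A (hAr.trans (range_subset_iff.2 hs)) hAi hAI)
    obtain ⟨u, hu, v, hv, huv, hJuv⟩ := hsep J hJc
    exact huv (hJ u hu v hv hJuv)

/-- Relatively sequentially compact sets of functionals. -/
theorem theoremR (hPID : PID) (hb : Cardinal.aleph 1 < bounding) {𝕜 : Type} [RCLike 𝕜]
    {X : Type*} [NormedAddCommGroup X] [NormedSpace 𝕜 X] [CompleteSpace X]
    (H : Set (WeakDual 𝕜 X))
    (hH : ∀ f : ℕ → WeakDual 𝕜 X, (∀ n, f n ∈ H) → ∃ g : WeakDual 𝕜 X, ∃ φ : ℕ → ℕ,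
      StrictMono φ ∧ Tendsto (f ∘ φ) atTop (𝓝 g))
    (hsep : ∀ C : Set X, C.Countable → ∃ f ∈ H, ∃ g ∈ H, f ≠ g ∧ ∀ x ∈ C, f x = g x) :
    HasUncountableBiorthogonalSystem 𝕜 X := by
  classical
  have hbd : ∀ φ : W → ℕ → ℕ, ∃ g : ℕ → ℕ, ∀ i, ∀ᶠ n in atTop, φ i n ≤ g n :=
    fun φ => exists_bound hb mk_W.le φ
  have h0 : ∀ C : Set X, ∃ y : X, C.Countable →
      ∃ f ∈ H, ∃ g ∈ H, (∀ x ∈ C, f x = g x) ∧ f y ≠ g y := by
    intro C
    by_cases hC : C.Countable
    · obtain ⟨f, hf, g, hg, hne, hC'⟩ := hsep C hC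
      obtain ⟨y, hy⟩ := DFunLike.ne_iff.1 hne
      exact ⟨y, fun _ => ⟨f, hf, g, hg, hC', hy⟩⟩
    · exact ⟨0, fun h => absurd h hC⟩
  choose sep hsep' using h0
  let x : W → X := IsWellFounded.fix (α := W) (· < ·)
    (fun a ih => sep (range fun b : Iio a => ih b.1 b.2))
  have hx : ∀ a : W, ∃ f ∈ H, ∃ g ∈ H, (∀ b < a, f (x b) = g (x b)) ∧ f (x a) ≠ g (x a) := by
    intro a
    have h1 : x a = sep (range fun b : Iio a => x b.1) := IsWellFounded.fix_eq _ _ _
    have h2 : (range fun b : Iio a => x b.1).Countable := by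
      have := (countable_Iio_W a).to_subtype
      exact countable_range _
    obtain ⟨f, hf, g, hg, h3, h4⟩ := hsep' _ h2
    refine ⟨f, hf, g, hg, fun b hb => h3 _ ⟨⟨b, hb⟩, rfl⟩, ?_⟩
    rw [h1]
    exact h4
  let ev : WeakDual 𝕜 X → (W → 𝕜) := fun f a => f (x a)
  have hev : Continuous ev := continuous_pi fun a => WeakDual.eval_continuous (x a)
  let K : Set (W → 𝕜) := seqClosure (ev '' H)
  -- representation of the members of `K`
  have hrep : ∀ u ∈ K, ∃ f : WeakDual 𝕜 X, ev f = u := by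
    rintro u ⟨v, hv, hvu⟩
    choose f hf hfv using hv
    obtain ⟨g, φ, hφ, hg⟩ := hH f hf
    refine ⟨g, ?_⟩
    have h1 : Tendsto (fun n => v (φ n)) atTop (𝓝 (ev g)) := by
      have h2 := (hev.tendsto g).comp hg
      refine h2.congr fun n => ?_
      exact hfv (φ n)
    exact tendsto_nhds_unique h1 (hvu.comp hφ.tendsto_atTop)
  have hK : IsSeqCompact K := by
    intro u hu
    choose v hv hvu using hu
    -- diagonal choice
    have h1 : ∀ i n, ∃ k : ℕ, ∀ k' ≥ k, dist (v n k' i) (u n i) < 1 / ((n : ℝ) + 1) := by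
      intro i n
      have h2 : Tendsto (fun k => v n k i) atTop (𝓝 (u n i)) :=
        (continuous_apply i).continuousAt.tendsto.comp (hvu n)
      exact (Metric.tendsto_atTop.1 h2) (1 / ((n : ℝ) + 1)) (by positivity)
    choose φ hφ using h1
    obtain ⟨g, hg⟩ := hbd φ
    have h2 : ∀ n, ∃ f ∈ H, ev f = v n (g n) := fun n => hv n (g n)
    choose f hf hfv using h2
    obtain ⟨a, ψ, hψ, ha⟩ := hH f hf
    refine ⟨ev a, ⟨fun n => ev (f (ψ n)), fun n => ⟨_, hf _, rfl⟩, (hev.tendsto a).comp ha⟩,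
      ψ, hψ, ?_⟩
    rw [tendsto_pi_nhds]
    intro i
    have h3 : Tendsto (fun n => dist (v n (g n) i) (u n i)) atTop (𝓝 0) := by
      apply squeeze_zero' (g := fun n : ℕ => 1 / ((n : ℝ) + 1))
        (Eventually.of_forall fun n => dist_nonneg)
      · filter_upwards [hg i] with n hn
        exact (hφ i n (g n) hn).le
      · exact tendsto_one_div_add_atTop_nhds_zero_nat
    have h4 : Tendsto (fun n => v (ψ n) (g (ψ n)) i) atTop (𝓝 (ev a i)) := by
      have h5 : Tendsto (fun n => ev (f (ψ n)) i) atTop (𝓝 (ev a i)) :=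
        ((continuous_apply i).comp hev).continuousAt.tendsto.comp ha
      refine h5.congr fun n => ?_
      rw [hfv]
    rw [tendsto_iff_dist_tendsto_zero] at h4 ⊢
    have h5 := (h3.comp hψ.tendsto_atTop).add h4
    rw [add_zero] at h5
    refine squeeze_zero (fun n => dist_nonneg) (fun n => ?_) h5
    simp only [Function.comp]
    rw [dist_comm (v (ψ n) (g (ψ n)) i) (u (ψ n) i)]
    exact dist_triangle _ _ _
  refine theoremK hPID hb x K hK (fun u hu => ?_) (fun J hJ => ?_)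
  · obtain ⟨f, hf⟩ := hrep u hu
    exact ⟨WeakDual.toStrongDual f, fun i => congrFun hf i⟩
  · obtain ⟨a, ha⟩ := exists_gt_W J hJ
    obtain ⟨f, hf, g, hg, hfg, hne⟩ := hx a
    exact ⟨ev f, subset_seqClosure ⟨f, hf, rfl⟩, ev g, subset_seqClosure ⟨g, hg, rfl⟩,
      fun h => hne (congrFun h a), fun i hi => hfg i (ha i hi)⟩

end Pool.Agent.Helper454.Biorth
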