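import Pool.Agent.Helper454.BiorthMain
import Pool.Agent.Helper539.AuerWalk

/-!
# Combinatorics of an unbounded `ω₁`-sequence of functions

Given an increasing unbounded sequence `f a` (`a < ω₁`) of functions and a coherent sequence of
injections `e a`, the sets `H a = {b < a : e a b ≤ f a (Δ b a)}` have a strong tuple property.
-/

namespace Pool.Agent.Helper454.Biorth

open Set Filter Topology Cardinal PiNat

/-- Countable families of functions are bounded. -/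
theorem exists_bound_countable {ι : Type*} [Countable ι] (φ : ι → ℕ → ℕ) :
    ∃ g : ℕ → ℕ, ∀ i, ∀ᶠ n in atTop, φ i n ≤ g n := by
  classical
  obtain ⟨c, hc⟩ := exists_injective_nat ι
  by_cases hι : Nonempty ι
  · let d : ℕ → ι := Function.invFun c
    have hd : ∀ i, d (c i) = i := Function.leftInverse_invFun hc
    refine ⟨fun n => (Finset.range (n + 1)).sup fun k => φ (d k) n, fun i => ?_⟩
    refine eventually_atTop.2 ⟨c i, fun n hn => ?_⟩
    have h1 : φ (d (c i)) n ≤ (Finset.range (n + 1)).sup fun k => φ (d k) n :=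
      Finset.le_sup (f := fun k => φ (d k) n) (Finset.mem_range.2 (Nat.lt_succ_of_le hn))
    rwa [hd] at h1
  · exact ⟨fun _ => 0, fun i => absurd ⟨i⟩ hι⟩

/-- If `𝔟 ≤ ℵ₁` there is an unbounded increasing `ω₁`-sequence. -/
theorem exists_unbounded_increasing (hb : bounding ≤ Cardinal.aleph 1) :
    ∃ f : W → ℕ → ℕ, (∀ b a : W, b < a → ∀ᶠ n in atTop, f b n < f a n) ∧
      ¬ ∃ g : ℕ → ℕ, ∀ a, ∀ᶠ n in atTop, f a n ≤ g n := by
  classical
  have hne : {κ | ∃ F : Set (ℕ → ℕ), (¬ ∃ g : ℕ → ℕ, ∀ f ∈ F, ∀ᶠ n in atTop, f n ≤ g n) ∧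
      #F = κ}.Nonempty := by
    refine ⟨_, Set.univ, ?_, rfl⟩
    rintro ⟨g, hg⟩
    obtain ⟨n, hn⟩ := (hg (fun n => g n + 1) (mem_univ _)).exists
    exact absurd hn (by simp)
  obtain ⟨F, hF, hFc⟩ := csInf_mem hne
  have hFc' : #F ≤ #W := by
    rw [mk_W, hFc]
    exact hb
  obtain ⟨ι⟩ := Cardinal.le_def _ _ |>.1 hFc'
  have hFne : Nonempty F := by
    by_contra hcon
    apply hF
    refine ⟨0, fun f hf => absurd ⟨⟨f, hf⟩⟩ hcon⟩
  let h : W → ℕ → ℕ := fun a => (Function.invFun ι a : F).1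
  have hh : ∀ u ∈ F, ∃ a, h a = u := by
    intro u hu
    refine ⟨ι ⟨u, hu⟩, ?_⟩
    simp only [h]
    rw [Function.leftInverse_invFun ι.injective]
  let G : (a : W) → ((b : W) → b < a → ℕ → ℕ) → ℕ → ℕ := fun a ih =>
    if h' : ∃ g : ℕ → ℕ, ∀ b : Iio a, ∀ᶠ n in atTop, ih b.1 b.2 n ≤ g n
    then fun n => max (h'.choose n) (h a n) + 1 else 0
  let f : W → ℕ → ℕ := IsWellFounded.fix (α := W) (· < ·) G
  have h1 : ∀ a, ∃ g : ℕ → ℕ, (∀ b < a, ∀ᶠ n in atTop, f b n ≤ g n) ∧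
      f a = fun n => max (g n) (h a n) + 1 := by
    intro a
    have h2 : f a = G a (fun b _ => f b) := IsWellFounded.fix_eq _ _ _
    have h3 : ∃ g : ℕ → ℕ, ∀ b : Iio a, ∀ᶠ n in atTop, f b.1 n ≤ g n := by
      have := (countable_Iio_W a).to_subtype
      exact exists_bound_countable (fun b : Iio a => f b.1)
    refine ⟨h3.choose, fun b hb => h3.choose_spec ⟨b, hb⟩, ?_⟩
    rw [h2]
    exact dif_pos h3
  refine ⟨f, ?_, ?_⟩
  · intro b a hba
    obtain ⟨g, hg, hfa⟩ := h1 a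
    filter_upwards [hg b hba] with n hn
    rw [hfa]
    exact Nat.lt_succ_of_le (hn.trans (le_max_left _ _))
  · rintro ⟨g, hg⟩
    apply hF
    refine ⟨g, fun u hu => ?_⟩
    obtain ⟨a, rfl⟩ := hh u hu
    obtain ⟨g', -, hfa⟩ := h1 a
    filter_upwards [hg a] with n hn
    rw [hfa] at hn
    exact ((le_max_right _ _).trans (Nat.le_succ _)).trans hn

/-- Pigeonhole for uncountable sets and countably many colours. -/
theorem exists_uncountable_fiber {Ξ κ : Type*} [Countable κ] (T : Set Ξ) (hT : ¬ T.Countable)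
    (c : Ξ → κ) : ∃ k, ¬ {t ∈ T | c t = k}.Countable := by
  by_contra hcon
  push Not at hcon
  apply hT
  refine (countable_iUnion hcon).mono fun t ht => ?_
  rw [mem_iUnion]
  exact ⟨c t, ht, rfl⟩

variable (f : W → ℕ → ℕ) (e : W → W → ℕ)

/-- The first difference of `f a` and `f b`. -/
noncomputable def Dl (a b : W) : ℕ := firstDiff (E := fun _ => ℕ) (f a) (f b)

/-- `c` can be reached from `a` in finitely many steps from a point to a member of its set `H`,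
with increasing first differences, beginning at `n`. -/
inductive Reach : ℕ → W → W → Prop
  | refl (n : ℕ) (a : W) : Reach n a a
  | step {n : ℕ} {a b c : W} : b < a → e a b ≤ f a (Dl f b a) → n ≤ Dl f b a →
      Reach (Dl f b a + 1) b c → Reach n a c

variable {f e}

theorem Dl_comm (a b : W) : Dl f a b = Dl f b a := firstDiff_comm _ _

theorem Dl_eq_of_lt (hne : ∀ a b : W, a ≠ b → f a ≠ f b) {a b c : W} (hba : b ≠ a)
    (h : Dl f b a < Dl f c b) : Dl f c a = Dl f b a := by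
  have h1 : f c (Dl f b a) = f b (Dl f b a) := apply_eq_of_lt_firstDiff h
  have h2 : f b (Dl f b a) ≠ f a (Dl f b a) := apply_firstDiff_ne (hne b a hba)
  have hca : f c ≠ f a := by
    intro hca
    rw [← hca] at h2
    exact h2 h1.symm
  apply le_antisymm
  · by_contra hcon
    have h3 : f c (Dl f b a) = f a (Dl f b a) := apply_eq_of_lt_firstDiff (not_le.1 hcon)
    exact h2 (h1.symm.trans h3)
  · have h3 := min_firstDiff_le (E := fun _ => ℕ) (f c) (f b) (f a) hca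
    exact (le_min h.le le_rfl).trans h3

theorem Reach.lt_or_eq (hne : ∀ a b : W, a ≠ b → f a ≠ f b) {n : ℕ} {a c : W}
    (h : Reach f e n a c) : c = a ∨ (c < a ∧ n ≤ Dl f c a) := by
  induction h with
  | refl n a => exact Or.inl rfl
  | step hba _ hn _ ih =>
    right
    rcases ih with rfl | ⟨h1, h2⟩
    · exact ⟨hba, hn⟩
    · refine ⟨h1.trans hba, ?_⟩
      rw [Dl_eq_of_lt hne hba.ne (Nat.lt_of_succ_le h2)]
      exact hn

theorem Reach.mono {m n : ℕ} {a c : W} (hmn : m ≤ n) (h : Reach f e n a c) :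
    Reach f e m a c := by
  cases h with
  | refl => exact Reach.refl m a
  | step h1 h2 h3 h4 => exact Reach.step h1 h2 (hmn.trans h3) h4

theorem Reach.exists_trans {n : ℕ} {a b : W} (h : Reach f e n a b) :
    ∃ m, ∀ c, Reach f e m b c → Reach f e n a c := by
  induction h with
  | refl n a => exact ⟨n, fun c hc => hc⟩
  | step h1 h2 h3 _ ih =>
    obtain ⟨m, hm⟩ := ih
    exact ⟨m, fun c hc => Reach.step h1 h2 h3 (hm c hc)⟩

/-- **The tuple property.** -/
theorem exists_tuple (hlt : ∀ b a : W, b < a → ∀ᶠ n in atTop, f b n < f a n)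
    (hunb : ¬ ∃ g : ℕ → ℕ, ∀ a, ∀ᶠ n in atTop, f a n ≤ g n)
    (hcoh : ∀ d : W, (Set.range fun a : {a : W // d ≤ a} =>
        (fun ξ : Iio d => e a.1 ξ.1)).Countable)
    {Ξ J : Type*} [Finite J] (T : Set Ξ) (hT : ¬ T.Countable) (a : Ξ → J → W)
    (hdisj : ∀ s ∈ T, ∀ t ∈ T, s ≠ t → ∀ i j, a s i ≠ a t j) (n₀ : ℕ) :
    ∃ s ∈ T, ∃ t ∈ T, s ≠ t ∧ ∀ j, a s j < a t j ∧ e (a t j) (a s j) ≤ f (a t j)
      (Dl f (a s j) (a t j)) ∧ n₀ ≤ Dl f (a s j) (a t j) := by
  classical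
  have hne : ∀ a b : W, a ≠ b → f a ≠ f b := by
    have key : ∀ a b : W, a < b → f a ≠ f b := by
      intro a b hab h
      obtain ⟨n, hn⟩ := (hlt a b hab).exists
      rw [h] at hn
      exact lt_irrefl _ hn
    intro a b hab
    rcases lt_or_gt_of_ne hab with h | h
    · exact key a b h
    · exact (key b a h).symm
  -- the case of an empty index set
  rcases isEmpty_or_nonempty J with hJ | hJ
  · obtain ⟨s, hs, t, ht, hst⟩ : ∃ s ∈ T, ∃ t ∈ T, s ≠ t := by
      by_contra hcon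
      push Not at hcon
      exact hT (Set.Subsingleton.countable fun s hs t ht => hcon s hs t ht)
    exact ⟨s, hs, t, ht, hst, fun j => (hJ.false j).elim⟩
  -- the least member
  have hmin : ∀ t, ∃ j₀, ∀ j, a t j₀ ≤ a t j := fun t => Finite.exists_min (a t)
  choose j₀ hj₀ using hmin
  obtain ⟨i₀, hT0⟩ := exists_uncountable_fiber T hT j₀
  have hm : ∀ t, ∃ m, ∀ l ≥ m, ∀ j, f (a t (j₀ t)) l ≤ f (a t j) l := by
    intro t
    have h1 : ∀ j, ∀ᶠ l in atTop, f (a t (j₀ t)) l ≤ f (a t j) l := by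
      intro j
      rcases (hj₀ t j).eq_or_lt with h | h
      · rw [h]
        exact Eventually.of_forall fun _ => le_rfl
      · filter_upwards [hlt _ _ h] with l hl
        exact hl.le
    have h2 := eventually_all.2 h1
    exact eventually_atTop.1 h2
  choose m hm using hm
  obtain ⟨m₁, hT1⟩ := exists_uncountable_fiber _ hT0 m
  -- constant stems below `m'`
  let m' : ℕ := max m₁ n₀
  obtain ⟨σ, hT2⟩ := exists_uncountable_fiber _ hT1
    (fun t => fun (q : J × Fin m') => f (a t q.1) q.2)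
  set T2 : Set Ξ := {t ∈ {t ∈ {t ∈ T | j₀ t = i₀} | m t = m₁} |
    (fun (q : J × Fin m') => f (a t q.1) q.2) = σ} with hT2def
  have hT2T : ∀ t ∈ T2, t ∈ T := fun t ht => ht.1.1.1
  have hT2m : ∀ t ∈ T2, ∀ l ≥ m', ∀ j, f (a t i₀) l ≤ f (a t j) l := by
    intro t ht l hl j
    have h1 : j₀ t = i₀ := ht.1.1.2
    have h2 : m t = m₁ := ht.1.2
    have h3 := hm t l (by rw [h2]; exact (le_max_left _ _).trans hl) j
    rwa [h1] at h3
  have hT2σ : ∀ t ∈ T2, ∀ j, ∀ l (hl : l < m'), f (a t j) l = σ (j, ⟨l, hl⟩) := by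
    intro t ht j l hl
    exact congrFun ht.2 (j, ⟨l, hl⟩)
  -- a countable dense subset
  obtain ⟨T₀, hT₀c, hT₀T, hT₀d⟩ : ∃ T₀ : Set Ξ, T₀.Countable ∧ T₀ ⊆ T2 ∧
      ∀ t ∈ T2, ∀ l, ∃ s ∈ T₀, ∀ j, ∀ i < l, f (a s j) i = f (a t j) i := by
    have h1 : ∀ q : (Σ l : ℕ, (J × Fin l → ℕ)), ∃ s : Ξ,
        (∃ t ∈ T2, (fun p : J × Fin q.1 => f (a t p.1) p.2) = q.2) →
        s ∈ T2 ∧ (fun p : J × Fin q.1 => f (a s p.1) p.2) = q.2 := by
      intro q
      by_cases h : ∃ t ∈ T2, (fun p : J × Fin q.1 => f (a t p.1) p.2) = q.2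
      · obtain ⟨t, ht, ht'⟩ := h
        exact ⟨t, fun _ => ⟨ht, ht'⟩⟩
      · obtain ⟨t, -⟩ : T.Nonempty := by
          rw [nonempty_iff_ne_empty]
          rintro rfl
          exact hT countable_empty
        exact ⟨t, fun h' => absurd h' h⟩
    choose S hS using h1
    refine ⟨range S ∩ T2, (countable_range S).mono inter_subset_left, inter_subset_right, ?_⟩
    intro t ht l
    have h2 := hS ⟨l, fun p : J × Fin l => f (a t p.1) p.2⟩ ⟨t, ht, rfl⟩
    refine ⟨_, ⟨mem_range_self _, h2.1⟩, fun j i hi => ?_⟩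
    exact congrFun h2.2 (j, ⟨i, hi⟩)
  -- a bound
  obtain ⟨δ, hδ⟩ := exists_gt_W (⋃ s ∈ T₀, range (a s))
    (hT₀c.biUnion fun s _ => countable_range _)
  have hδ' : ∀ s ∈ T₀, ∀ j, a s j < δ := fun s hs j => hδ _ (mem_biUnion hs (mem_range_self j))
  have hT2' : ¬ {t ∈ T2 | ∀ j, δ ≤ a t j}.Countable := by
    intro hcon
    apply hT2
    have h1 : T2 ⊆ {t ∈ T2 | ∀ j, δ ≤ a t j} ∪ ⋃ j, {t ∈ T2 | a t j < δ} := by
      intro t ht
      by_cases h : ∀ j, δ ≤ a t j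
      · exact Or.inl ⟨ht, h⟩
      · push Not at h
        obtain ⟨j, hj⟩ := h
        exact Or.inr (mem_iUnion.2 ⟨j, ht, hj⟩)
    refine (hcon.union (countable_iUnion fun j => ?_)).mono h1
    have h2 : InjOn (fun t => a t j) {t ∈ T2 | a t j < δ} := by
      intro s hs t ht hst
      by_contra hne'
      exact hdisj s (hT2T s hs.1) t (hT2T t ht.1) hne' j j hst
    refine Set.MapsTo.countable_of_injOn (t := Iio δ) ?_ h2 (countable_Iio_W δ)
    intro t ht
    exact ht.2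
  -- constant restrictions of the coherent functions
  let Rδ : Set (Iio δ → ℕ) := Set.range fun a : {a : W // δ ≤ a} => (fun ξ : Iio δ => e a.1 ξ.1)
  have hRδ : Countable Rδ := (hcoh δ).to_subtype
  let code : Ξ → J → Rδ := fun t j =>
    ⟨fun ξ : Iio δ => e (max δ (a t j)) ξ.1, ⟨⟨max δ (a t j), le_max_left _ _⟩, rfl⟩⟩
  obtain ⟨E, hT3⟩ := exists_uncountable_fiber _ hT2' code
  set T3 : Set Ξ := {t ∈ {t ∈ T2 | ∀ j, δ ≤ a t j} | code t = E} with hT3def
  have hT32 : ∀ t ∈ T3, t ∈ T2 := fun t ht => ht.1.1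
  have hT3δ : ∀ t ∈ T3, ∀ j, δ ≤ a t j := fun t ht => ht.1.2
  have hT3E : ∀ t ∈ T3, ∀ j, ∀ ξ (hξ : ξ < δ), e (a t j) ξ = (E j).1 ⟨ξ, hξ⟩ := by
    intro t ht j ξ hξ
    have h1 := congrFun ht.2 j
    have h2 := congrFun (congrArg Subtype.val h1) ⟨ξ, hξ⟩
    simp only [code] at h2
    rw [max_eq_right (hT3δ t ht j)] at h2
    exact h2
  -- an unbounded level
  obtain ⟨l', hl'⟩ : ∃ l', ∀ N, ∃ t ∈ T3, N ≤ f (a t i₀) l' := by
    by_contra hcon
    push Not at hcon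
    choose h hh using hcon
    apply hunb
    refine ⟨h, fun b => ?_⟩
    obtain ⟨t, ht, hbt⟩ : ∃ t ∈ T3, b ≤ a t i₀ := by
      by_contra hcon2
      push Not at hcon2
      apply hT3
      have h2 : InjOn (fun t => a t i₀) T3 := by
        intro s hs t ht hst
        by_contra hne'
        exact hdisj s (hT2T s (hT32 s hs)) t (hT2T t (hT32 t ht)) hne' i₀ i₀ hst
      exact Set.MapsTo.countable_of_injOn (t := Iio b) (fun t ht => hcon2 t ht) h2
        (countable_Iio_W b)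
    rcases hbt.eq_or_lt with h3 | h3
    · rw [h3]
      exact Eventually.of_forall fun n => (hh n t ht).le
    · filter_upwards [hlt _ _ h3] with n hn
      exact hn.le.trans (hh n t ht).le
  choose ts hts hts' using hl'
  have hl'm : m' ≤ l' := by
    by_contra hcon
    rw [not_le] at hcon
    have h1 := hts' (σ (i₀, ⟨l', hcon⟩) + 1)
    rw [hT2σ _ (hT32 _ (hts _)) i₀ l' hcon] at h1
    omega
  -- an ultrafilter
  let 𝒰 : Ultrafilter ℕ := hyperfilter ℕ
  have h𝒰 : ∀ N : ℕ, ∀ᶠ k in (𝒰 : Filter ℕ), N ≤ k := by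
    intro N
    have h1 : (𝒰 : Filter ℕ) ≤ atTop := Nat.hyperfilter_le_atTop
    exact h1 (eventually_ge_atTop N)
  have hex : ∀ j, ∃ l, ∀ N, ∀ᶠ k in (𝒰 : Filter ℕ), N ≤ f (a (ts k) j) l := by
    intro j
    refine ⟨l', fun N => ?_⟩
    filter_upwards [h𝒰 N] with k hk
    exact hk.trans ((hts' k).trans (hT2m _ (hT32 _ (hts k)) l' hl'm j))
  let L : J → ℕ := fun j => Nat.find (hex j)
  have hL1 : ∀ j, ∀ N, ∀ᶠ k in (𝒰 : Filter ℕ), N ≤ f (a (ts k) j) (L j) :=
    fun j => Nat.find_spec (hex j)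
  have hL2 : ∀ j, ∀ l < L j, ∃ v, ∀ᶠ k in (𝒰 : Filter ℕ), f (a (ts k) j) l = v := by
    intro j l hl
    have h1 := Nat.find_min (hex j) hl
    push Not at h1
    obtain ⟨N, hN⟩ := h1
    have h2 : ∀ᶠ k in (𝒰 : Filter ℕ), ∃ v : Fin N, f (a (ts k) j) l = v := by
      filter_upwards [hN] with k hk
      exact ⟨⟨_, hk⟩, rfl⟩
    rw [Ultrafilter.eventually_exists_iff] at h2
    obtain ⟨v, hv⟩ := h2
    exact ⟨v, hv⟩
  have hLm : ∀ j, m' ≤ L j := by
    intro j
    by_contra hcon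
    rw [not_le] at hcon
    obtain ⟨k, hk⟩ := (hL1 j (σ (j, ⟨L j, hcon⟩) + 1)).exists
    rw [hT2σ _ (hT32 _ (hts _)) j (L j) hcon] at hk
    omega
  have hL2' : ∀ j, ∃ v : Fin (L j) → ℕ, ∀ᶠ k in (𝒰 : Filter ℕ),
      ∀ l : Fin (L j), f (a (ts k) j) l = v l := by
    intro j
    have h1 : ∀ l : Fin (L j), ∃ v, ∀ᶠ k in (𝒰 : Filter ℕ), f (a (ts k) j) l = v :=
      fun l => hL2 j l l.2
    choose v hv using h1
    exact ⟨v, eventually_all.2 hv⟩
  choose v hv using hL2'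
  have hv' : ∀ᶠ k in (𝒰 : Filter ℕ), ∀ j, ∀ l : Fin (L j), f (a (ts k) j) l = v j l :=
    eventually_all.2 hv
  obtain ⟨k₁, hk₁⟩ := hv'.exists
  obtain ⟨B, hB⟩ : ∃ B, ∀ j, L j < B := by
    obtain ⟨B, hB⟩ := (Set.finite_range L).bddAbove
    exact ⟨B + 1, fun j => Nat.lt_succ_of_le (hB (mem_range_self j))⟩
  obtain ⟨s, hsT₀, hs⟩ := hT₀d (ts k₁) (hT32 _ (hts k₁)) B
  have hfin : ∀ᶠ k in (𝒰 : Filter ℕ), ∀ j,
      f (a s j) (L j) + (E j).1 ⟨a s j, hδ' s hsT₀ j⟩ + 1 ≤ f (a (ts k) j) (L j) :=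
    eventually_all.2 fun j => hL1 j _
  obtain ⟨k, hk1, hk2⟩ := (hv'.and hfin).exists
  have hlt' : ∀ j, a s j < a (ts k) j := fun j =>
    (hδ' s hsT₀ j).trans_le (hT3δ _ (hts k) j)
  have hD : ∀ j, Dl f (a s j) (a (ts k) j) = L j := by
    intro j
    have hne' : f (a s j) ≠ f (a (ts k) j) := hne _ _ (hlt' j).ne
    apply le_antisymm
    · by_contra hcon
      have h1 : f (a s j) (L j) = f (a (ts k) j) (L j) :=
        apply_eq_of_lt_firstDiff (not_le.1 hcon)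
      have h2 := hk2 j
      omega
    · by_contra hcon
      rw [not_le] at hcon
      have h1 : f (a s j) (Dl f (a s j) (a (ts k) j)) ≠
          f (a (ts k) j) (Dl f (a s j) (a (ts k) j)) := apply_firstDiff_ne hne'
      apply h1
      have h2 := hk₁ j ⟨_, hcon⟩
      have h3 := hk1 j ⟨_, hcon⟩
      have h4 := hs j _ (hcon.trans (hB j))
      rw [h4]
      exact h2.trans h3.symm
  refine ⟨s, hT2T s (hT₀T hsT₀), ts k, hT2T _ (hT32 _ (hts k)), ?_, fun j => ⟨hlt' j, ?_, ?_⟩⟩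
  · intro h
    obtain ⟨j⟩ := hJ
    have h1 := hlt' j
    rw [← h] at h1
    exact lt_irrefl _ h1
  · rw [hD, hT3E _ (hts k) j _ (hδ' s hsT₀ j)]
    have h2 := hk2 j
    omega
  · rw [hD]
    exact (le_max_right _ _).trans (hLm j)

end Pool.Agent.Helper454.Biorth
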