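import Pool.Agent.Helper454.BiorthTod1
import Pool.Agent.BP245.Functional

/-!
# The locally compact scattered space
-/

namespace Pool.Agent.Helper454.Biorth

open Set Filter Topology Cardinal PiNat

/-- Data for the construction: an increasing unbounded sequence of functions and a coherent
sequence of injections. -/
structure TodData where
  f : W → ℕ → ℕ
  e : W → W → ℕ
  lt : ∀ b a : W, b < a → ∀ᶠ n in atTop, f b n < f a n
  unb : ¬ ∃ g : ℕ → ℕ, ∀ a, ∀ᶠ n in atTop, f a n ≤ g n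
  inj : ∀ a, Set.InjOn (e a) (Iio a)
  coh : ∀ d : W, (Set.range fun a : {a : W // d ≤ a} => (fun ξ : Iio d => e a.1 ξ.1)).Countable

theorem exists_todData (hb : bounding ≤ Cardinal.aleph 1) : Nonempty TodData := by
  obtain ⟨f, hf1, hf2⟩ := exists_unbounded_increasing hb
  obtain ⟨e, he1, he2⟩ := Pool.Agent.Helper539.Auer.exists_coherent_injections countable_Iio_W
  exact ⟨⟨f, e, hf1, hf2, he1, he2⟩⟩

namespace TodData

variable (D : TodData)

theorem ne {a b : W} (hab : a ≠ b) : D.f a ≠ D.f b := by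
  have key : ∀ a b : W, a < b → D.f a ≠ D.f b := by
    intro a b hab h
    obtain ⟨n, hn⟩ := (D.lt a b hab).exists
    rw [h] at hn
    exact lt_irrefl _ hn
  rcases lt_or_gt_of_ne hab with h | h
  · exact key a b h
  · exact (key b a h).symm

/-- The underlying space, a copy of `W`. -/
def Sp (_ : TodData) : Type := W

/-- The point of `W`. -/
def toW (a : D.Sp) : W := a

/-- The point of the space. -/
def ofW (a : W) : D.Sp := a

/-- The basic neighbourhoods. -/
def U (a : D.Sp) (n : ℕ) : Set D.Sp := {c | Reach D.f D.e n a c}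

theorem mem_U_self (a : D.Sp) (n : ℕ) : a ∈ D.U a n := Reach.refl n a

theorem U_mono (a : D.Sp) {m n : ℕ} (h : m ≤ n) : D.U a n ⊆ D.U a m := fun _ hc => hc.mono h

theorem U_sub (a : D.Sp) (n : ℕ) (c : D.Sp) (hc : c ∈ D.U a n) :
    D.toW c = D.toW a ∨ (D.toW c < D.toW a ∧ n ≤ Dl D.f (D.toW c) (D.toW a)) :=
  hc.lt_or_eq fun _ _ h => D.ne h

instance : TopologicalSpace D.Sp where
  IsOpen O := ∀ a ∈ O, ∃ n, D.U a n ⊆ O
  isOpen_univ := fun _ _ => ⟨0, subset_univ _⟩
  isOpen_inter := by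
    intro O O' hO hO' a ha
    obtain ⟨n, hn⟩ := hO a ha.1
    obtain ⟨n', hn'⟩ := hO' a ha.2
    exact ⟨max n n', subset_inter ((D.U_mono a (le_max_left _ _)).trans hn)
      ((D.U_mono a (le_max_right _ _)).trans hn')⟩
  isOpen_sUnion := by
    intro c hc a ha
    obtain ⟨O, hO, haO⟩ := ha
    obtain ⟨n, hn⟩ := hc O hO a haO
    exact ⟨n, hn.trans (subset_sUnion_of_mem hO)⟩

theorem isOpen_iff (O : Set D.Sp) : IsOpen O ↔ ∀ a ∈ O, ∃ n, D.U a n ⊆ O := Iff.rfl

theorem isOpen_U (a : D.Sp) (n : ℕ) : IsOpen (D.U a n) := by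
  rw [isOpen_iff]
  intro b hb
  obtain ⟨m, hm⟩ := Reach.exists_trans hb
  exact ⟨m, fun c hc => hm c hc⟩

theorem disjoint_U {a b : D.Sp} (hab : a ≠ b) :
    Disjoint (D.U a (Dl D.f (D.toW a) (D.toW b) + 1)) (D.U b (Dl D.f (D.toW a) (D.toW b) + 1)) := by
  rw [Set.disjoint_left]
  intro c hca hcb
  have h1 : D.f (D.toW c) (Dl D.f (D.toW a) (D.toW b)) =
      D.f (D.toW a) (Dl D.f (D.toW a) (D.toW b)) := by
    rcases D.U_sub a _ c hca with h | ⟨-, h⟩
    · rw [h]
    · exact apply_eq_of_lt_firstDiff (Nat.lt_of_succ_le h)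
  have h2 : D.f (D.toW c) (Dl D.f (D.toW a) (D.toW b)) =
      D.f (D.toW b) (Dl D.f (D.toW a) (D.toW b)) := by
    rcases D.U_sub b _ c hcb with h | ⟨-, h⟩
    · rw [h]
    · exact apply_eq_of_lt_firstDiff (Nat.lt_of_succ_le h)
  exact apply_firstDiff_ne (D.ne hab) (h1.symm.trans h2)

instance : T2Space D.Sp := by
  refine ⟨fun a b hab => ?_⟩
  exact ⟨_, _, D.isOpen_U a _, D.isOpen_U b _, D.mem_U_self a _, D.mem_U_self b _,
    D.disjoint_U hab⟩

theorem finite_level (a : W) (m : ℕ) :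
    {b : W | b < a ∧ D.e a b ≤ D.f a (Dl D.f b a) ∧ Dl D.f b a < m}.Finite := by
  have h1 : {b : W | b < a ∧ D.e a b ≤ D.f a (Dl D.f b a) ∧ Dl D.f b a < m} ⊆
      {b : W | b < a ∧ D.e a b ≤ (Finset.range m).sup (D.f a)} := by
    rintro b ⟨h1, h2, h3⟩
    exact ⟨h1, h2.trans (Finset.le_sup (f := D.f a) (Finset.mem_range.2 h3))⟩
  refine Set.Finite.subset ?_ h1
  refine Set.Finite.of_finite_image (f := D.e a) ?_ ?_
  · refine (Set.finite_Iic ((Finset.range m).sup (D.f a))).subset ?_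
    rintro _ ⟨b, hb, rfl⟩
    exact hb.2
  · intro b hb c hc h
    exact D.inj a hb.1 hc.1 h

theorem isCompact_U (a : D.Sp) : ∀ n, IsCompact (D.U a n) := by
  classical
  have key : ∀ a : W, ∀ n, IsCompact (D.U a n) := by
    intro a
    induction a using WellFoundedLT.induction with
    | ind a ih =>
      intro n
      apply isCompact_of_finite_subcover
      intro ι V hV hcov
      obtain ⟨i₀, hi₀⟩ := mem_iUnion.1 (hcov (D.mem_U_self a n))
      obtain ⟨m, hm⟩ := (D.isOpen_iff _).1 (hV i₀) a hi₀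
      let Fi : Set W := {b : W | b < a ∧ D.e a b ≤ D.f a (Dl D.f b a) ∧ Dl D.f b a < m}
      have hFi : Fi.Finite := D.finite_level a m
      let K' : Set D.Sp := ⋃ b ∈ {b ∈ Fi | n ≤ Dl D.f b a}, D.U b (Dl D.f b a + 1)
      have hK' : IsCompact K' := (hFi.subset fun b hb => hb.1).isCompact_biUnion
        fun b hb => ih b hb.1.1 _
      have hK'sub : K' ⊆ D.U a n := by
        intro c hc
        obtain ⟨b, hb, hcb⟩ := mem_iUnion₂.1 hc
        exact Reach.step hb.1.1 hb.1.2.1 hb.2 hcb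
      obtain ⟨t, ht⟩ := hK'.elim_finite_subcover V hV (hK'sub.trans hcov)
      refine ⟨insert i₀ t, fun c hc => ?_⟩
      cases hc with
      | refl => exact mem_biUnion (Finset.mem_insert_self _ _) hi₀
      | step h1 h2 h3 h4 =>
        rename_i b
        by_cases h5 : Dl D.f b a < m
        · have h6 : c ∈ K' := mem_biUnion (show b ∈ {b ∈ Fi | n ≤ Dl D.f b a} from
            ⟨⟨h1, h2, h5⟩, h3⟩) h4
          obtain ⟨i, hi, hci⟩ := mem_iUnion₂.1 (ht h6)
          exact mem_biUnion (Finset.mem_insert_of_mem hi) hci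
        · exact mem_biUnion (Finset.mem_insert_self _ _)
            (hm (Reach.step h1 h2 (not_lt.1 h5) h4))
  exact key a

instance : WeaklyLocallyCompactSpace D.Sp :=
  ⟨fun a => ⟨D.U a 0, D.isCompact_U a 0, (D.isOpen_U a 0).mem_nhds (D.mem_U_self a 0)⟩⟩

theorem countable_U (a : D.Sp) (n : ℕ) : (D.U a n).Countable := by
  have h0 : ((Iic (D.toW a) : Set W)).Countable := by
    rw [← Iio_insert]
    exact (countable_Iio_W (D.toW a)).insert _
  have h1 : ((D.ofW) '' (Iic (D.toW a) : Set W)).Countable := h0.image _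
  refine h1.mono ?_
  intro c hc
  refine ⟨D.toW c, ?_, rfl⟩
  rcases D.U_sub a n c hc with h | h
  · exact h.le
  · exact h.1.le

theorem countable_of_isCompact (K : Set D.Sp) (hK : IsCompact K) : K.Countable := by
  obtain ⟨t, ht⟩ := hK.elim_finite_subcover (fun a : D.Sp => D.U a 0) (fun a => D.isOpen_U a 0)
    (fun a _ => mem_iUnion.2 ⟨a, D.mem_U_self a 0⟩)
  exact (t.countable_toSet.biUnion fun a _ => D.countable_U a 0).mono ht

/-- The compact space. -/
abbrev Kc (D : TodData) : Type := OnePoint D.Sp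

theorem scattered_Kc : Pool.Agent.BP245.Scattered D.Kc := by
  intro A hA
  by_cases h : ∃ a : W, (D.ofW a : D.Kc) ∈ A
  · obtain ⟨a, ha, hmin⟩ : ∃ a : W, (D.ofW a : D.Kc) ∈ A ∧ ∀ b < a, (D.ofW b : D.Kc) ∉ A := by
      have hwf : WellFounded ((· < ·) : W → W → Prop) := wellFounded_lt
      refine ⟨hwf.min {a : W | (D.ofW a : D.Kc) ∈ A} h, hwf.min_mem _ h, fun b hb hbA => ?_⟩
      exact hwf.not_lt_min _ (show b ∈ {a : W | (D.ofW a : D.Kc) ∈ A} from hbA) hb
    refine ⟨(D.ofW a : D.Kc), ha, (fun c : D.Sp => (c : D.Kc)) '' (D.U (D.ofW a) 0), ?_, ?_⟩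
    · exact (OnePoint.isOpenEmbedding_coe.isOpenMap) _ (D.isOpen_U _ 0)
    · ext x
      constructor
      · rintro ⟨⟨c, hc, rfl⟩, hcA⟩
        rcases D.U_sub (D.ofW a) 0 c hc with h1 | ⟨h1, -⟩
        · rw [mem_singleton_iff]
          exact congrArg (fun c : D.Sp => (c : D.Kc)) h1
        · exact absurd hcA (hmin c h1)
      · rintro rfl
        exact ⟨⟨_, D.mem_U_self a 0, rfl⟩, ha⟩
  · push Not at h
    obtain ⟨x, hx⟩ := hA
    refine ⟨x, hx, Set.univ, isOpen_univ, ?_⟩
    rw [univ_inter]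
    ext y
    constructor
    · intro hy
      induction y using OnePoint.rec with
      | infty =>
        induction x using OnePoint.rec with
        | infty => rfl
        | coe x => exact absurd hx (h x)
      | coe y => exact absurd hy (h y)
    · rintro rfl
      exact hx

end TodData

end Pool.Agent.Helper454.Biorth
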