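import Pool.Agent.Helper454.BiorthTod2

/-!
# The space of continuous functions has no uncountable biorthogonal system
-/

namespace Pool.Agent.Helper454.Biorth

open Set Filter Topology Cardinal

/-- Indexed Delta-system lemma. -/
theorem exists_delta {Ξ K : Type*} [DecidableEq K] (n : ℕ) : ∀ (Φ : Ξ → Finset K) (T : Set Ξ),
    ¬ T.Countable → (∀ t ∈ T, (Φ t).card ≤ n) → ∃ T' : Set Ξ, T' ⊆ T ∧ ¬ T'.Countable ∧
      ∃ R : Finset K, (∀ s ∈ T', R ⊆ Φ s) ∧ ∀ s ∈ T', ∀ t ∈ T', s ≠ t → Φ s ∩ Φ t = R := by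
  classical
  induction n with
  | zero =>
    intro Φ T hT hΦ
    refine ⟨T, Subset.rfl, hT, ∅, fun s _ => Finset.empty_subset _, fun s hs t _ _ => ?_⟩
    rw [Finset.card_eq_zero.1 (Nat.le_zero.1 (hΦ s hs)), Finset.empty_inter]
  | succ n ih =>
    intro Φ T hT hΦ
    by_cases h : ∃ x, ¬ {t ∈ T | x ∈ Φ t}.Countable
    · obtain ⟨x, hx⟩ := h
      obtain ⟨T', hT'1, hT'2, R, hR1, hR2⟩ := ih (fun t => (Φ t).erase x) _ hx (by
        intro t ht
        rw [Finset.card_erase_of_mem ht.2]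
        have := hΦ t ht.1
        omega)
      refine ⟨T', fun t ht => (hT'1 ht).1, hT'2, insert x R, ?_, ?_⟩
      · intro s hs
        rw [Finset.insert_subset_iff]
        exact ⟨(hT'1 hs).2, (hR1 s hs).trans (Finset.erase_subset _ _)⟩
      · intro s hs t ht hst
        rw [← hR2 s hs t ht hst]
        ext y
        simp only [Finset.mem_inter, Finset.mem_insert, Finset.mem_erase]
        by_cases hy : y = x
        · subst hy
          simp [(hT'1 hs).2, (hT'1 ht).2]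
        · simp [hy]
    · push Not at h
      obtain ⟨M, hM⟩ : ∃ M, Maximal (· ∈ {M : Set Ξ | M ⊆ T ∧
          ∀ s ∈ M, ∀ t ∈ M, s ≠ t → Φ s ∩ Φ t = ∅}) M := by
        apply zorn_subset
        intro c hc hchain
        refine ⟨⋃₀ c, ⟨sUnion_subset fun M hM => (hc hM).1, ?_⟩,
          fun s hs => subset_sUnion_of_mem hs⟩
        rintro s ⟨M, hM, hs⟩ t ⟨N, hN, ht⟩ hst
        rcases hchain.total hM hN with h | h
        · exact (hc hN).2 s (h hs) t ht hst
        · exact (hc hM).2 s hs t (h ht) hst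
      obtain ⟨⟨hMT, hMd⟩, hmax⟩ := hM
      by_cases hMc : M.Countable
      · exfalso
        apply hT
        have h1 : T ⊆ M ∪ ⋃ m ∈ M, ⋃ x ∈ (Φ m : Set K), {t ∈ T | x ∈ Φ t} := by
          intro t ht
          by_cases htM : t ∈ M
          · exact Or.inl htM
          right
          by_contra hcon
          have h2 : ∀ m ∈ M, Φ m ∩ Φ t = ∅ := by
            intro m hm
            by_contra hne
            obtain ⟨x, hx⟩ := Finset.nonempty_iff_ne_empty.2 hne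
            rw [Finset.mem_inter] at hx
            exact hcon (mem_biUnion hm (mem_biUnion (Finset.mem_coe.2 hx.1) ⟨ht, hx.2⟩))
          have h3 : insert t M ∈ {M : Set Ξ | M ⊆ T ∧
              ∀ s ∈ M, ∀ t ∈ M, s ≠ t → Φ s ∩ Φ t = ∅} := by
            refine ⟨insert_subset ht hMT, ?_⟩
            rintro s (rfl | hs) u (rfl | hu) hsu
            · exact absurd rfl hsu
            · rw [Finset.inter_comm]
              exact h2 u hu
            · exact h2 s hs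
            · exact hMd s hs u hu hsu
          exact htM (hmax h3 (subset_insert t M) (mem_insert t M))
        refine Set.Countable.mono h1 (hMc.union (hMc.biUnion fun m _ =>
          (Φ m).countable_toSet.biUnion fun x _ => h x))
      · exact ⟨M, hMT, hMc, ∅, fun s _ => Finset.empty_subset _, hMd⟩

section Functional

variable {K : Type} [TopologicalSpace K] [CompactSpace K] [T2Space K]

theorem real_functional_small (hK : Pool.Agent.BP245.Scattered K) (μ : C(K, ℝ) →L[ℝ] ℝ)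
    (ε : ℝ) (hε : 0 < ε) : ∃ Φ : Finset K, ∃ η : ℝ, 0 < η ∧ ∀ u : C(K, ℝ), ‖u‖ ≤ 1 →
      (∀ t ∈ Φ, |u t| ≤ η) → |μ u| ≤ ε := by
  obtain ⟨Φ, hΦ⟩ := Pool.Agent.BP245.functional_small hK μ (ε / 2) (by positivity)
  have hμ : 0 < ‖μ‖ + 1 := by positivity
  refine ⟨Φ, ε / (2 * (‖μ‖ + 1)), by positivity, fun u hu hut => ?_⟩
  set η := ε / (2 * (‖μ‖ + 1)) with hη
  have hη0 : 0 < η := by positivity
  let v : C(K, ℝ) := ⟨fun t => max (-η) (min η (u t)), by fun_prop⟩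
  have hv : ∀ t, v t = max (-η) (min η (u t)) := fun t => rfl
  have hvn : ‖v‖ ≤ η := by
    rw [ContinuousMap.norm_le _ hη0.le]
    intro t
    rw [hv, Real.norm_eq_abs, abs_le]
    constructor
    · exact le_max_left _ _
    · exact max_le (by linarith) (min_le_left _ _)
  have h1 : |μ (u - v)| ≤ ε / 2 := by
    apply hΦ
    · rw [ContinuousMap.norm_le _ zero_le_one]
      intro t
      have h2 : |u t| ≤ 1 := (u.norm_coe_le_norm t).trans hu
      rw [ContinuousMap.sub_apply, hv, Real.norm_eq_abs]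
      rw [abs_le] at h2 ⊢
      rcases le_total (u t) η with h3 | h3
      · rw [min_eq_right h3]
        rcases le_total (-η) (u t) with h4 | h4
        · rw [max_eq_right h4]
          constructor <;> linarith
        · rw [max_eq_left h4]
          constructor <;> linarith
      · rw [min_eq_left h3, max_eq_right (by linarith)]
        constructor <;> linarith
    · intro t ht
      have h2 := hut t ht
      rw [abs_le] at h2
      rw [ContinuousMap.sub_apply, hv, min_eq_right h2.2, max_eq_right h2.1, sub_self]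
  have h2 : |μ v| ≤ ε / 2 := by
    have h3 : |μ v| ≤ ‖μ‖ * η := by
      calc |μ v| ≤ ‖μ‖ * ‖v‖ := μ.le_opNorm v
        _ ≤ ‖μ‖ * η := mul_le_mul_of_nonneg_left hvn (norm_nonneg μ)
    have h4 : ‖μ‖ * η ≤ (‖μ‖ + 1) * η := by nlinarith
    have h5 : (‖μ‖ + 1) * η = ε / 2 := by
      rw [hη]
      field_simp
    linarith
  have h3 : μ u = μ (u - v) + μ v := by
    rw [← map_add, sub_add_cancel]
  rw [h3]
  exact (abs_add_le _ _).trans (by linarith)

theorem norm_I_le_one {𝕜 : Type*} [RCLike 𝕜] : ‖(RCLike.I : 𝕜)‖ ≤ 1 := by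
  by_cases h : (RCLike.I : 𝕜) = 0
  · rw [h]; simp
  · exact (RCLike.norm_I_of_ne_zero h).le

theorem norm_le_abs_re_add_abs_im' {𝕜 : Type*} [RCLike 𝕜] (z : 𝕜) :
    ‖z‖ ≤ |RCLike.re z| + |RCLike.im z| := by
  conv_lhs => rw [← RCLike.re_add_im z]
  refine (norm_add_le _ _).trans ?_
  rw [norm_mul, RCLike.norm_ofReal, RCLike.norm_ofReal]
  have h := mul_le_mul_of_nonneg_left (norm_I_le_one (𝕜 := 𝕜)) (abs_nonneg (RCLike.im z))
  rw [mul_one] at h
  linarith

/-- For scattered `K` every functional on `C(K, 𝕜)` is almost determined by finitely many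
values. -/
theorem functional_small' {𝕜 : Type*} [RCLike 𝕜] (hK : Pool.Agent.BP245.Scattered K)
    (h : C(K, 𝕜) →L[𝕜] 𝕜) (M ε : ℝ) (hM : 0 < M) (hε : 0 < ε) : ∃ Φ : Finset K, ∃ η : ℝ, 0 < η ∧
      ∀ x : C(K, 𝕜), ‖x‖ ≤ M → (∀ t ∈ Φ, ‖x t‖ ≤ η) → ‖h x‖ ≤ ε := by
  classical
  let J : C(K, ℝ) →L[ℝ] C(K, 𝕜) := (RCLike.ofRealCLM : ℝ →L[ℝ] 𝕜).compLeftContinuous ℝ K
  let Re : C(K, 𝕜) →L[ℝ] C(K, ℝ) := (RCLike.reCLM : 𝕜 →L[ℝ] ℝ).compLeftContinuous ℝ K
  let Im : C(K, 𝕜) →L[ℝ] C(K, ℝ) := (RCLike.imCLM : 𝕜 →L[ℝ] ℝ).compLeftContinuous ℝ K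
  let h' : C(K, 𝕜) →L[ℝ] 𝕜 := h.restrictScalars ℝ
  let μ₁ : C(K, ℝ) →L[ℝ] ℝ := (RCLike.reCLM.comp h').comp J
  let μ₂ : C(K, ℝ) →L[ℝ] ℝ := (RCLike.imCLM.comp h').comp J
  obtain ⟨Φ₁, η₁, hη₁, h₁⟩ := real_functional_small hK μ₁ (ε / (4 * M)) (by positivity)
  obtain ⟨Φ₂, η₂, hη₂, h₂⟩ := real_functional_small hK μ₂ (ε / (4 * M)) (by positivity)
  have hJ : ∀ u, ‖h (J u)‖ ≤ |μ₁ u| + |μ₂ u| := fun u => norm_le_abs_re_add_abs_im' (h (J u))
  refine ⟨Φ₁ ∪ Φ₂, M * min η₁ η₂, by positivity, fun x hx hxt => ?_⟩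
  have key : ∀ u : C(K, ℝ), ‖u‖ ≤ M → (∀ t ∈ Φ₁ ∪ Φ₂, |u t| ≤ M * min η₁ η₂) →
      ‖h (J u)‖ ≤ ε / 2 := by
    intro u hu hut
    have e1 : u = M • (M⁻¹ • u) := by rw [smul_smul, mul_inv_cancel₀ hM.ne', one_smul]
    have e2 : ‖M⁻¹ • u‖ ≤ 1 := by
      rw [norm_smul, norm_inv, Real.norm_of_nonneg hM.le, inv_mul_le_iff₀ hM, mul_one]
      exact hu
    have e3 : ∀ t ∈ Φ₁ ∪ Φ₂, |(M⁻¹ • u) t| ≤ min η₁ η₂ := by
      intro t ht
      rw [ContinuousMap.smul_apply, smul_eq_mul, abs_mul, abs_inv, abs_of_pos hM,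
        inv_mul_le_iff₀ hM]
      exact hut t ht
    have e4 := h₁ _ e2 fun t ht => (e3 t (Finset.mem_union_left _ ht)).trans (min_le_left _ _)
    have e5 := h₂ _ e2 fun t ht => (e3 t (Finset.mem_union_right _ ht)).trans (min_le_right _ _)
    have e6 : μ₁ u = M * μ₁ (M⁻¹ • u) := by
      conv_lhs => rw [e1]
      rw [map_smul, smul_eq_mul]
    have e7 : μ₂ u = M * μ₂ (M⁻¹ • u) := by
      conv_lhs => rw [e1]
      rw [map_smul, smul_eq_mul]
    have e8 : |μ₁ u| ≤ ε / 4 := by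
      rw [e6, abs_mul, abs_of_pos hM]
      calc M * |μ₁ (M⁻¹ • u)| ≤ M * (ε / (4 * M)) := mul_le_mul_of_nonneg_left e4 hM.le
        _ = ε / 4 := by field_simp
    have e9 : |μ₂ u| ≤ ε / 4 := by
      rw [e7, abs_mul, abs_of_pos hM]
      calc M * |μ₂ (M⁻¹ • u)| ≤ M * (ε / (4 * M)) := mul_le_mul_of_nonneg_left e5 hM.le
        _ = ε / 4 := by field_simp
    linarith [hJ u]
  have hdec : x = J (Re x) + (RCLike.I : 𝕜) • J (Im x) := by
    ext t
    have h3 : (J (Re x) + (RCLike.I : 𝕜) • J (Im x)) t =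
        ((RCLike.re (x t) : ℝ) : 𝕜) + RCLike.I * ((RCLike.im (x t) : ℝ) : 𝕜) := rfl
    rw [h3, mul_comm]
    exact (RCLike.re_add_im (x t)).symm
  have hRe : ‖Re x‖ ≤ M := by
    rw [ContinuousMap.norm_le _ hM.le]
    intro t
    exact ((RCLike.abs_re_le_norm (x t)).trans (x.norm_coe_le_norm t)).trans hx
  have hIm : ‖Im x‖ ≤ M := by
    rw [ContinuousMap.norm_le _ hM.le]
    intro t
    exact ((RCLike.abs_im_le_norm (x t)).trans (x.norm_coe_le_norm t)).trans hx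
  have h3 := key (Re x) hRe fun t ht => (RCLike.abs_re_le_norm (x t)).trans (hxt t ht)
  have h4 := key (Im x) hIm fun t ht => (RCLike.abs_im_le_norm (x t)).trans (hxt t ht)
  have h5 : h x = h (J (Re x)) + RCLike.I * h (J (Im x)) := by
    conv_lhs => rw [hdec]
    rw [map_add, map_smul, smul_eq_mul]
  rw [h5]
  refine (norm_add_le _ _).trans ?_
  rw [norm_mul]
  have h6 : ‖(RCLike.I : 𝕜)‖ ≤ 1 := norm_I_le_one
  have h7 : ‖(RCLike.I : 𝕜)‖ * ‖h (J (Im x))‖ ≤ 1 * ‖h (J (Im x))‖ :=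
    mul_le_mul_of_nonneg_right h6 (norm_nonneg _)
  linarith

end Functional

end Pool.Agent.Helper454.Biorth
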