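import Pool.Agent.Helper454.BiorthTod3
import Pool.Agent.Helper454.BiorthAsplund

/-!
# A nonseparable Asplund space without uncountable biorthogonal systems, if `𝔟 ≤ ℵ₁`
-/

namespace Pool.Agent.Helper454.Biorth

open Set Filter Topology Cardinal

namespace TodData

variable (D : TodData)

/-- The tuple property, for the basic neighbourhoods. -/
theorem exists_tuple_U {Ξ J : Type*} [Finite J] (T : Set Ξ) (hT : ¬ T.Countable) (a : Ξ → J → W)
    (hdisj : ∀ s ∈ T, ∀ t ∈ T, s ≠ t → ∀ i j, a s i ≠ a t j) (n₀ : ℕ) :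
    ∃ s ∈ T, ∃ t ∈ T, s ≠ t ∧ ∀ j, D.ofW (a s j) ∈ D.U (D.ofW (a t j)) n₀ := by
  obtain ⟨s, hs, t, ht, hst, h⟩ := exists_tuple D.lt D.unb D.coh T hT a hdisj n₀
  refine ⟨s, hs, t, ht, hst, fun j => ?_⟩
  obtain ⟨h1, h2, h3⟩ := h j
  exact Reach.step h1 h2 h3 (Reach.refl _ _)

/-- Values of a continuous function at nearby points. -/
theorem exists_near {𝕜 : Type*} [RCLike 𝕜] (x : C(D.Kc, 𝕜)) (a : W) (η : ℝ) (hη : 0 < η) :
    ∃ n, ∀ c ∈ D.U (D.ofW a) n, ‖x (c : D.Kc) - x (D.ofW a : D.Kc)‖ < η := by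
  have hc : Continuous fun c : D.Sp => x (c : D.Kc) :=
    x.continuous.comp OnePoint.continuous_coe
  have ho : IsOpen ((fun c : D.Sp => x (c : D.Kc)) ⁻¹' Metric.ball (x (D.ofW a : D.Kc)) η) :=
    Metric.isOpen_ball.preimage hc
  obtain ⟨n, hn⟩ := (D.isOpen_iff _).1 ho (D.ofW a) (Metric.mem_ball_self hη)
  exact ⟨n, fun c hc' => by simpa [dist_eq_norm] using hn hc'⟩

theorem no_biorthogonal (𝕜 : Type) [RCLike 𝕜] :
    ¬ HasUncountableBiorthogonalSystem 𝕜 C(D.Kc, 𝕜) := by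
  classical
  rintro ⟨B, hBc, hB1, hB2⟩
  -- bounded norms
  obtain ⟨C, hC⟩ := exists_uncountable_fiber B hBc (fun p => ⌈‖p.1‖⌉₊)
  set B1 := {p ∈ B | ⌈‖p.1‖⌉₊ = C} with hB1def
  have hB1C : ∀ p ∈ B1, ‖p.1‖ ≤ C := by
    intro p hp
    rw [← hp.2]
    exact Nat.le_ceil _
  have hM : (0 : ℝ) < 2 * C + 1 := by positivity
  -- finite sets
  have hΦ : ∀ p : C(D.Kc, 𝕜) × (C(D.Kc, 𝕜) →L[𝕜] 𝕜), ∃ (Φ : Finset D.Kc) (N : ℕ),
      ∀ x : C(D.Kc, 𝕜), ‖x‖ ≤ 2 * C + 1 → (∀ t ∈ Φ, ‖x t‖ ≤ 1 / ((N : ℝ) + 1)) →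
      ‖p.2 x‖ ≤ 1 / 2 := by
    intro p
    obtain ⟨Φ, η, hη, h⟩ := functional_small' D.scattered_Kc p.2 (2 * C + 1) (1 / 2) hM
      (by norm_num)
    obtain ⟨N, hN⟩ := exists_nat_one_div_lt hη
    exact ⟨Φ, N, fun x hx hxt => h x hx fun t ht => (hxt t ht).trans hN.le⟩
  choose Φ₀ N₀ hΦ₀ using hΦ
  obtain ⟨N, hN⟩ := exists_uncountable_fiber B1 hC N₀
  set B2 := {p ∈ B1 | N₀ p = N} with hB2def
  let Φ : C(D.Kc, 𝕜) × (C(D.Kc, 𝕜) →L[𝕜] 𝕜) → Finset D.Kc := fun p => insert OnePoint.infty (Φ₀ p)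
  set η : ℝ := 1 / ((N : ℝ) + 1) with hη
  have hη0 : 0 < η := by positivity
  have hΦs : ∀ p ∈ B2, ∀ x : C(D.Kc, 𝕜), ‖x‖ ≤ 2 * C + 1 → (∀ t ∈ Φ p, ‖x t‖ ≤ η) →
      ‖p.2 x‖ ≤ 1 / 2 := by
    intro p hp x hx hxt
    apply hΦ₀ p x hx
    intro t ht
    rw [hp.2]
    exact hxt t (Finset.mem_insert_of_mem ht)
  -- the Delta-system
  obtain ⟨k, hk⟩ := exists_uncountable_fiber B2 hN (fun p => (Φ p).card)
  obtain ⟨B3, hB3sub, hB3c, R, hR1, hR2⟩ := exists_delta k Φ _ hk (fun p hp => hp.2.le)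
  have hB32 : ∀ p ∈ B3, p ∈ B2 := fun p hp => (hB3sub hp).1
  have hcard : ∀ p ∈ B3, (Φ p \ R).card = k - R.card := by
    intro p hp
    rw [Finset.card_sdiff_of_subset (hR1 p hp), (hB3sub hp).2]
  have hinf : OnePoint.infty ∈ R := by
    obtain ⟨p, hp, q, hq, hpq⟩ : ∃ p ∈ B3, ∃ q ∈ B3, p ≠ q := by
      by_contra hcon
      push Not at hcon
      exact hB3c (Set.Subsingleton.countable fun s hs t ht => hcon s hs t ht)
    rw [← hR2 p hp q hq hpq]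
    exact Finset.mem_inter.2 ⟨Finset.mem_insert_self _ _, Finset.mem_insert_self _ _⟩
  -- enumeration
  have hW : Nonempty W := by
    rw [← Cardinal.mk_ne_zero_iff, mk_W]
    exact (Cardinal.aleph_pos 1).ne'
  have henum : ∀ p : C(D.Kc, 𝕜) × (C(D.Kc, 𝕜) →L[𝕜] 𝕜), ∃ a : Fin (k - R.card) → W, p ∈ B3 →
      (∀ j, (D.ofW (a j) : D.Kc) ∈ Φ p \ R) ∧
      ∀ t ∈ Φ p, t ∈ R ∨ ∃ j, t = (D.ofW (a j) : D.Kc) := by
    intro p
    by_cases hp : p ∈ B3
    · let E := Finset.equivFinOfCardEq (hcard p hp)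
      have h1 : ∀ j : Fin (k - R.card), ∃ b : W, ((E.symm j : D.Kc)) = (D.ofW b : D.Kc) := by
        intro j
        have h2 := (E.symm j).2
        rw [Finset.mem_sdiff] at h2
        have h3 : (E.symm j : D.Kc) ≠ OnePoint.infty := by
          intro h
          rw [h] at h2
          exact h2.2 hinf
        obtain ⟨b, hb⟩ := OnePoint.ne_infty_iff_exists.1 h3
        exact ⟨b, hb.symm⟩
      choose a ha using h1
      refine ⟨a, fun _ => ⟨fun j => ?_, fun t ht => ?_⟩⟩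
      · rw [← ha]
        exact (E.symm j).2
      · by_cases htR : t ∈ R
        · exact Or.inl htR
        · right
          refine ⟨E ⟨t, Finset.mem_sdiff.2 ⟨ht, htR⟩⟩, ?_⟩
          rw [← ha, Equiv.symm_apply_apply]
    · exact ⟨fun _ => Classical.arbitrary W, fun h => absurd h hp⟩
  choose a ha using henum
  have hdisj : ∀ s ∈ B3, ∀ t ∈ B3, s ≠ t → ∀ i j, a s i ≠ a t j := by
    intro s hs t ht hst i j hij
    have h1 := (ha s hs).1 i
    have h2 := (ha t ht).1 j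
    rw [← hij] at h2
    rw [Finset.mem_sdiff] at h1 h2
    apply h1.2
    rw [← hR2 s hs t ht hst]
    exact Finset.mem_inter.2 ⟨h1.1, h2.1⟩
  -- values
  let V : C(D.Kc, 𝕜) × (C(D.Kc, 𝕜) →L[𝕜] 𝕜) → (Fin (k - R.card) → 𝕜) × (R → 𝕜) := fun p =>
    (fun j => p.1 (D.ofW (a p j) : D.Kc), fun r => p.1 r)
  obtain ⟨Dn, hDc, hDd⟩ := TopologicalSpace.exists_countable_dense
    ((Fin (k - R.card) → 𝕜) × (R → 𝕜))
  have hnear : ∀ p, ∃ d ∈ Dn, dist (V p) d < η / 4 := fun p =>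
    hDd.exists_dist_lt (V p) (by positivity)
  choose d hdD hdd using hnear
  have := hDc.to_subtype
  obtain ⟨d₀, hd₀⟩ := exists_uncountable_fiber B3 hB3c (fun p => (⟨d p, hdD p⟩ : Dn))
  set B4 := {p ∈ B3 | (⟨d p, hdD p⟩ : Dn) = d₀} with hB4def
  have hV : ∀ p ∈ B4, ∀ q ∈ B4, dist (V p) (V q) < η / 2 := by
    intro p hp q hq
    have h1 : d p = d₀ := congrArg Subtype.val hp.2
    have h2 : d q = d₀ := congrArg Subtype.val hq.2
    have h3 := hdd p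
    have h4 := hdd q
    rw [h1] at h3
    rw [h2] at h4
    have h5 := dist_triangle_right (V p) (V q) d₀.1
    linarith
  -- continuity
  have hcont : ∀ p : C(D.Kc, 𝕜) × (C(D.Kc, 𝕜) →L[𝕜] 𝕜), ∃ n, ∀ j, ∀ c ∈ D.U (D.ofW (a p j)) n,
      ‖p.1 (c : D.Kc) - p.1 (D.ofW (a p j) : D.Kc)‖ < η / 2 := by
    intro p
    have h1 := fun j => D.exists_near p.1 (a p j) (η / 2) (by positivity)
    choose n hn using h1
    obtain ⟨M, hM⟩ := (Set.finite_range n).bddAbove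
    exact ⟨M, fun j c hc => hn j c (D.U_mono _ (hM (mem_range_self j)) hc)⟩
  choose n hn using hcont
  obtain ⟨n₀, hn₀⟩ := exists_uncountable_fiber B4 hd₀ n
  set B5 := {p ∈ B4 | n p = n₀} with hB5def
  have hB53 : ∀ p ∈ B5, p ∈ B3 := fun p hp => hp.1.1
  obtain ⟨s, hs, t, ht, hst, hU⟩ := D.exists_tuple_U B5 hn₀ a
    (fun s hs t ht => hdisj s (hB53 s hs) t (hB53 t ht)) n₀
  -- the contradiction
  have hsB : s ∈ B := (hB32 s (hB53 s hs)).1.1
  have htB : t ∈ B := (hB32 t (hB53 t ht)).1.1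
  have hval : s.2 (s.1 - t.1) = 1 := by
    rw [map_sub, hB1 s hsB, hB2 s hsB t htB hst, sub_zero]
  have hsmall : ‖s.2 (s.1 - t.1)‖ ≤ 1 / 2 := by
    apply hΦs s (hB32 s (hB53 s hs))
    · have h1 := hB1C s (hB32 s (hB53 s hs)).1
      have h2 := hB1C t (hB32 t (hB53 t ht)).1
      have h3 := norm_sub_le s.1 t.1
      linarith
    · have hVst := hV s hs.1 t ht.1
      rw [Prod.dist_eq, max_lt_iff] at hVst
      intro u hu
      rcases (ha s (hB53 s hs)).2 u hu with huR | ⟨j, rfl⟩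
      · have h1 := (dist_pi_lt_iff (by positivity)).1 hVst.2 ⟨u, huR⟩
        rw [dist_eq_norm] at h1
        have h2 : ‖(s.1 - t.1) u‖ < η / 2 := h1
        linarith
      · have h1 := (dist_pi_lt_iff (by positivity)).1 hVst.1 j
        rw [dist_eq_norm] at h1
        have h1' : ‖s.1 (D.ofW (a s j) : D.Kc) - t.1 (D.ofW (a t j) : D.Kc)‖ < η / 2 := h1
        have h2 := hn t j (D.ofW (a s j)) (by rw [ht.2]; exact hU j)
        have h3 : (s.1 - t.1) (D.ofW (a s j) : D.Kc) =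
            (s.1 (D.ofW (a s j) : D.Kc) - t.1 (D.ofW (a t j) : D.Kc)) -
            (t.1 (D.ofW (a s j) : D.Kc) - t.1 (D.ofW (a t j) : D.Kc)) := by
          rw [ContinuousMap.sub_apply]
          ring
        rw [h3]
        have h4 := norm_sub_le (s.1 (D.ofW (a s j) : D.Kc) - t.1 (D.ofW (a t j) : D.Kc))
          (t.1 (D.ofW (a s j) : D.Kc) - t.1 (D.ofW (a t j) : D.Kc))
        linarith
  rw [hval, norm_one] at hsmall
  norm_num at hsmall

/-- A sequence of continuous functions is constant near infinity, uniformly. -/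
theorem exists_const (𝕜 : Type*) [RCLike 𝕜] (y : ℕ → C(D.Kc, 𝕜)) :
    ∃ δ : W, ∀ a ≥ δ, ∀ n, y n (D.ofW a : D.Kc) = y n OnePoint.infty := by
  have h1 : ∀ n m : ℕ, {a : W | 1 / ((m : ℝ) + 1) ≤
      ‖y n (D.ofW a : D.Kc) - y n OnePoint.infty‖}.Countable := by
    intro n m
    have hcl : IsClosed {t : D.Kc | 1 / ((m : ℝ) + 1) ≤ ‖y n t - y n OnePoint.infty‖} :=
      isClosed_le continuous_const (((y n).continuous.sub continuous_const).norm)
    have h2 : OnePoint.infty ∉ {t : D.Kc | 1 / ((m : ℝ) + 1) ≤ ‖y n t - y n OnePoint.infty‖} := by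
      simp only [mem_ofPred_eq, sub_self, norm_zero, not_le]
      positivity
    have h3 : IsCompact ((fun c : D.Sp => (c : D.Kc)) ⁻¹'
        {t : D.Kc | 1 / ((m : ℝ) + 1) ≤ ‖y n t - y n OnePoint.infty‖}) := by
      have h4 := (OnePoint.isOpen_iff_of_mem' (s := {t : D.Kc | 1 / ((m : ℝ) + 1) ≤
        ‖y n t - y n OnePoint.infty‖}ᶜ) h2).1 hcl.isOpen_compl
      have h5 := h4.1
      rwa [← preimage_compl, compl_compl] at h5
    exact D.countable_of_isCompact _ h3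
  obtain ⟨δ, hδ⟩ := exists_gt_W _ (countable_iUnion fun n => countable_iUnion fun m => h1 n m)
  refine ⟨δ, fun a ha n => ?_⟩
  by_contra hne
  have h2 : 0 < ‖y n (D.ofW a : D.Kc) - y n OnePoint.infty‖ := by
    rw [norm_pos_iff, sub_ne_zero]
    exact hne
  obtain ⟨m, hm⟩ := exists_nat_one_div_lt h2
  exact absurd (hδ a (mem_iUnion.2 ⟨n, mem_iUnion.2 ⟨m, hm.le⟩⟩)) (not_lt.2 ha)

theorem nonseparable (𝕜 : Type) [RCLike 𝕜] :
    ¬ TopologicalSpace.SeparableSpace C(D.Kc, 𝕜) := by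
  intro hsep
  obtain ⟨y, hy⟩ := TopologicalSpace.exists_dense_seq C(D.Kc, 𝕜)
  obtain ⟨δ, hδ⟩ := D.exists_const 𝕜 y
  -- a function separating two points
  have hne : (D.ofW δ : D.Kc) ≠ OnePoint.infty := OnePoint.coe_ne_infty _
  obtain ⟨u, hu0, hu1, -⟩ := exists_continuous_zero_one_of_isClosed
    (isClosed_singleton (x := (D.ofW δ : D.Kc))) (isClosed_singleton (x := (OnePoint.infty : D.Kc)))
    (by simpa using hne)
  let v : C(D.Kc, 𝕜) := ⟨fun t => ((u t : ℝ) : 𝕜), by fun_prop⟩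
  obtain ⟨n, hn⟩ := hy.exists_dist_lt v (show (0 : ℝ) < 1 / 2 by norm_num)
  have h1 : dist (v (D.ofW δ : D.Kc)) (y n (D.ofW δ : D.Kc)) < 1 / 2 :=
    lt_of_le_of_lt (ContinuousMap.dist_apply_le_dist _) hn
  have h2 : dist (v OnePoint.infty) (y n OnePoint.infty) < 1 / 2 :=
    lt_of_le_of_lt (ContinuousMap.dist_apply_le_dist _) hn
  rw [hδ δ le_rfl n] at h1
  have h3 : v (D.ofW δ : D.Kc) = 0 := by
    change ((u (D.ofW δ : D.Kc) : ℝ) : 𝕜) = 0
    rw [hu0 rfl]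
    simp
  have h4 : v OnePoint.infty = 1 := by
    change ((u OnePoint.infty : ℝ) : 𝕜) = 1
    rw [hu1 rfl]
    simp
  rw [h3] at h1
  rw [h4] at h2
  have h5 := dist_triangle_right (0 : 𝕜) 1 (y n OnePoint.infty)
  rw [dist_eq_norm, zero_sub, norm_neg, norm_one] at h5
  linarith

end TodData

end Pool.Agent.Helper454.Biorth
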