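import Pool.Agent.Helper454.BiorthBasic

/-!
# Sequentially compact spaces with a sequentially sigma-closed off-diagonal
-/

namespace Pool.Agent.Helper454.Biorth

open Set Filter Topology Cardinal

/-- If convergence of sequences is coordinatewise convergence for at most `ℵ₁ < 𝔟` maps to metric
spaces, then the set of limits of sequences from a given set is sequentially closed. -/
theorem isSeqClosed_seqClosure {Y ι M : Type*} [TopologicalSpace Y] [PseudoMetricSpace M]
    (e : Y → ι → M)
    (hcoord : ∀ (y : ℕ → Y) (q : Y), Tendsto y atTop (𝓝 q) ↔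
      ∀ i, Tendsto (fun n => e (y n) i) atTop (𝓝 (e q i)))
    (hbd : ∀ φ : ι → ℕ → ℕ, ∃ g : ℕ → ℕ, ∀ i, ∀ᶠ n in atTop, φ i n ≤ g n)
    (A : Set Y) : IsSeqClosed (seqClosure A) := by
  intro x p hx hp
  choose a ha hax using hx
  have h1 : ∀ i n, ∃ k : ℕ, ∀ k' ≥ k, dist (e (a n k') i) (e (x n) i) < 1 / ((n : ℝ) + 1) := by
    intro i n
    exact (Metric.tendsto_atTop.1 ((hcoord _ _).1 (hax n) i)) (1 / ((n : ℝ) + 1)) (by positivity)
  choose φ hφ using h1
  obtain ⟨g, hg⟩ := hbd φ
  refine ⟨fun n => a n (g n), fun n => ha n _, (hcoord _ _).2 fun i => ?_⟩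
  have h2 : Tendsto (fun n => dist (e (a n (g n)) i) (e (x n) i) + dist (e (x n) i) (e p i)) atTop
      (𝓝 (0 + 0)) := by
    apply Tendsto.add
    · apply squeeze_zero' (g := fun n : ℕ => 1 / ((n : ℝ) + 1))
        (Eventually.of_forall fun n => dist_nonneg)
      · filter_upwards [hg i] with n hn
        exact (hφ i n (g n) hn).le
      · exact tendsto_one_div_add_atTop_nhds_zero_nat
    · exact tendsto_iff_dist_tendsto_zero.1 ((hcoord _ _).1 hp i)
  rw [tendsto_iff_dist_tendsto_zero]
  rw [add_zero] at h2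
  exact squeeze_zero (fun n => dist_nonneg) (fun n => dist_triangle _ _ _) h2

/-- A countable family of sequentially closed sets in a sequentially compact space, all of whose
finite subfamilies have a common point, has a common point. -/
theorem exists_mem_iInter_nat {Z : Type*} [TopologicalSpace Z] [SeqCompactSpace Z]
    (C : ℕ → Set Z) (hC : ∀ n, IsSeqClosed (C n)) (h : ∀ n, ∃ z, ∀ k ≤ n, z ∈ C k) :
    ∃ z, ∀ k, z ∈ C k := by
  choose z hz using h
  obtain ⟨p, -, φ, hφ, hp⟩ := (isSeqCompact_univ (X := Z)) (fun n => mem_univ (z n))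
  refine ⟨p, fun k => ?_⟩
  have h1 : Tendsto (fun n => z (φ (n + k))) atTop (𝓝 p) := hp.comp (tendsto_add_atTop_nat k)
  exact hC k (fun n => hz _ k ((Nat.le_add_left k n).trans (hφ.id_le _))) h1

/-- **Main topological lemma.**  Let `Z` be a sequentially compact space, and let the complement
of the diagonal of `Z` be a countable union of sequentially closed relations `Q m`.  Then every
family of sequentially closed sets with the finite intersection property has a common point. -/
theorem exists_mem_sInter_of_seqClosed {Z : Type*} [TopologicalSpace Z] [SeqCompactSpace Z]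
    [T2Space Z]
    (Q : ℕ → Set (Z × Z)) (hQ : ∀ m, IsSeqClosed (Q m))
    (hQd : ∀ m z, (z, z) ∉ Q m) (hQu : ∀ z z', z ≠ z' → ∃ m, (z, z') ∈ Q m)
    (F₀ : Set (Set Z)) (hF₀ : ∀ C ∈ F₀, IsSeqClosed C)
    (hfip : ∀ s : Finset (Set Z), (s : Set (Set Z)) ⊆ F₀ → (⋂₀ (s : Set (Set Z))).Nonempty) :
    (⋂₀ F₀).Nonempty := by
  classical
  -- maximal family
  let 𝔄 : Set (Set (Set Z)) := {G | (∀ C ∈ G, IsSeqClosed C) ∧
    ∀ s : Finset (Set Z), (s : Set (Set Z)) ⊆ G → (⋂₀ (s : Set (Set Z))).Nonempty}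
  obtain ⟨ℱ, hsub, hmax⟩ : ∃ ℱ, F₀ ⊆ ℱ ∧ Maximal (· ∈ 𝔄) ℱ := by
    apply zorn_subset_nonempty 𝔄
    · intro c hc hchain hne
      refine ⟨⋃₀ c, ⟨?_, ?_⟩, fun s hs => subset_sUnion_of_mem hs⟩
      · rintro C ⟨G, hG, hCG⟩
        exact (hc hG).1 C hCG
      · intro s hs
        obtain ⟨G, hG, hsG⟩ : ∃ G ∈ c, (s : Set (Set Z)) ⊆ G :=
          DirectedOn.exists_mem_subset_of_finset_subset_biUnion hne (hchain.directedOn) (by
            simpa [sUnion_eq_biUnion] using hs)
        exact (hc hG).2 s hsG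
    · exact ⟨hF₀, hfip⟩
  obtain ⟨hℱ, hmax⟩ := hmax
  have hcl : ∀ C ∈ ℱ, IsSeqClosed C := hℱ.1
  have hfipF := hℱ.2
  -- (a) maximality
  have hA : ∀ C : Set Z, IsSeqClosed C →
      (∀ s : Finset (Set Z), (s : Set (Set Z)) ⊆ ℱ → (C ∩ ⋂₀ (s : Set (Set Z))).Nonempty) → C ∈ ℱ := by
    intro C hC hCm
    have h1 : insert C ℱ ∈ 𝔄 := by
      refine ⟨?_, ?_⟩
      · rintro C' (rfl | h)
        · exact hC
        · exact hcl _ h
      · intro s hs
        have h2 : ((s.erase C : Finset (Set Z)) : Set (Set Z)) ⊆ ℱ := by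
          intro C' hC'
          rw [Finset.mem_coe, Finset.mem_erase] at hC'
          rcases hs (Finset.mem_coe.2 hC'.2) with h | h
          · exact absurd h hC'.1
          · exact h
        obtain ⟨z, hz1, hz2⟩ := hCm _ h2
        refine ⟨z, ?_⟩
        intro C' hC'
        by_cases h : C' = C
        · rw [h]; exact hz1
        · exact hz2 C' (by
            rw [Finset.mem_coe, Finset.mem_erase]
            exact ⟨h, hC'⟩)
    exact hmax h1 (subset_insert C ℱ) (mem_insert C ℱ)
  -- finite intersections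
  have hInter2 : ∀ C ∈ ℱ, ∀ D ∈ ℱ, C ∩ D ∈ ℱ := by
    intro C hC D hD
    apply hA
    · intro x p hx hp
      exact ⟨hcl C hC (fun n => (hx n).1) hp, hcl D hD (fun n => (hx n).2) hp⟩
    · intro s hs
      obtain ⟨z, hz⟩ := hfipF (insert C (insert D s)) (by
        intro E hE
        rw [Finset.mem_coe, Finset.mem_insert, Finset.mem_insert] at hE
        rcases hE with rfl | rfl | hE
        · exact hC
        · exact hD
        · exact hs hE)
      refine ⟨z, ⟨hz C (by simp), hz D (by simp)⟩, fun E hE => hz E ?_⟩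
      rw [Finset.mem_coe] at hE ⊢
      simp [hE]
  have huniv : (Set.univ : Set Z) ∈ ℱ := by
    apply hA _ (fun _ _ _ _ => mem_univ _)
    intro s hs
    simpa using hfipF s hs
  have hne : ∀ C ∈ ℱ, C.Nonempty := by
    intro C hC
    simpa using hfipF {C} (by simpa using hC)
  -- simplified (a)
  have hfin : ∀ s : Finset (Set Z), (s : Set (Set Z)) ⊆ ℱ → (⋂₀ (s : Set (Set Z))) ∈ ℱ := by
    intro s
    induction s using Finset.induction_on with
    | empty => intro _; simpa using huniv
    | insert C s _ ih =>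
      intro hs
      have h1 : (⋂₀ (s : Set (Set Z))) ∈ ℱ := ih (fun D hD => hs (by
        rw [Finset.mem_coe] at hD ⊢
        exact Finset.mem_insert_of_mem hD))
      have h2 : C ∈ ℱ := hs (by simp)
      simpa using hInter2 C h2 _ h1
  have hA' : ∀ C : Set Z, IsSeqClosed C → (∀ D ∈ ℱ, (C ∩ D).Nonempty) → C ∈ ℱ := by
    intro C hC h
    exact hA C hC fun s hs => h _ (hfin s hs)
  -- (b) countable intersections
  have hB : ∀ C : ℕ → Set Z, (∀ n, C n ∈ ℱ) → (⋂ n, C n) ∈ ℱ := by
    intro C hC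
    apply hA'
    · intro x p hx hp
      rw [mem_iInter]
      intro n
      exact hcl _ (hC n) (fun k => mem_iInter.1 (hx k) n) hp
    · intro D hD
      have hpart : ∀ n, (⋂ k ∈ Finset.range (n + 1), C k) ∈ ℱ := by
        intro n
        induction n with
        | zero => simpa using hC 0
        | succ n ih =>
          have : (⋂ k ∈ Finset.range (n + 1 + 1), C k) =
              (⋂ k ∈ Finset.range (n + 1), C k) ∩ C (n + 1) := by
            ext z
            simp only [mem_iInter, Finset.mem_range, mem_inter_iff]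
            constructor
            · intro h
              exact ⟨fun k hk => h k (by omega), h _ (by omega)⟩
            · rintro ⟨h1, h2⟩ k hk
              rcases Nat.lt_succ_iff_lt_or_eq.1 hk with h | h
              · exact h1 k h
              · rw [h]; exact h2
          rw [this]
          exact hInter2 _ ih _ (hC _)
      obtain ⟨z, hz⟩ := exists_mem_iInter_nat (fun n => C n ∩ D)
        (fun n => hcl _ (hInter2 _ (hC n) _ hD)) (by
          intro n
          obtain ⟨z, hz⟩ := hne _ (hInter2 _ (hpart n) _ hD)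
          refine ⟨z, fun k hk => ⟨?_, hz.2⟩⟩
          have := hz.1
          simp only [mem_iInter, Finset.mem_range] at this
          exact this k (by omega))
      exact ⟨z, mem_iInter.2 fun n => (hz n).1, (hz 0).2⟩
  by_contra hempty
  -- (c) every point is missed by some member
  have hC : ∀ z : Z, ∃ C ∈ ℱ, z ∉ C := by
    intro z
    by_contra hcon
    push Not at hcon
    exact hempty ⟨z, fun C hC => hcon C (hsub hC)⟩
  -- sections of the relations
  have hsec : ∀ m z, IsSeqClosed {z' | (z, z') ∈ Q m} := by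
    intro m z x p hx hp
    exact hQ m (x := fun n => (z, x n)) hx (tendsto_const_nhds.prodMk_nhds hp)
  have hsec' : ∀ m z, IsSeqClosed {z' | (z', z) ∈ Q m} := by
    intro m z x p hx hp
    exact hQ m (x := fun n => (x n, z)) hx (hp.prodMk_nhds tendsto_const_nhds)
  -- (d)
  have hD : ∀ z : Z, ∃ m, {z' | (z, z') ∈ Q m} ∈ ℱ := by
    intro z
    by_contra hcon
    push Not at hcon
    have h1 : ∀ m, ∃ D ∈ ℱ, ¬ ({z' | (z, z') ∈ Q m} ∩ D).Nonempty := by
      intro m
      by_contra h2
      push Not at h2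
      exact hcon m (hA' _ (hsec m z) h2)
    choose D hDF hD using h1
    obtain ⟨C, hCF, hzC⟩ := hC z
    obtain ⟨z', hz'⟩ := hne _ (hInter2 _ hCF _ (hB D hDF))
    have hne' : z ≠ z' := by
      rintro rfl
      exact hzC hz'.1
    obtain ⟨m, hm⟩ := hQu z z' hne'
    exact hD m ⟨z', hm, mem_iInter.1 hz'.2 m⟩
  -- (e)
  obtain ⟨m, hm⟩ : ∃ m, ∀ D ∈ ℱ, ({z | {z' | (z, z') ∈ Q m} ∈ ℱ} ∩ D).Nonempty := by
    by_contra hcon
    push Not at hcon
    choose D hDF hD' using hcon
    obtain ⟨z, hz⟩ := hne _ (hB D hDF)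
    obtain ⟨m, hm⟩ := hD z
    have : z ∈ ({z | {z' | (z, z') ∈ Q m} ∈ ℱ} ∩ D m) := ⟨hm, mem_iInter.1 hz m⟩
    rw [hD' m] at this
    exact this
  -- (f) choose a sequence
  obtain ⟨zs, hzs1, hzs2⟩ : ∃ zs : ℕ → Z, (∀ k, {z' | (zs k, z') ∈ Q m} ∈ ℱ) ∧
      ∀ j k, j < k → (zs j, zs k) ∈ Q m := by
    let P : Set (Z × Z) := Q m
    -- states: members of ℱ
    let next : ℱ → Z := fun D => (hm D.1 D.2).some
    have hnext : ∀ D : ℱ, next D ∈ ({z | {z' | (z, z') ∈ Q m} ∈ ℱ} ∩ D.1) :=
      fun D => (hm D.1 D.2).some_mem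
    let st : ℕ → ℱ := fun n => Nat.rec (⟨Set.univ, huniv⟩ : ℱ)
      (fun _ D => ⟨D.1 ∩ {z' | (next D, z') ∈ Q m}, hInter2 _ D.2 _ (hnext D).1⟩) n
    have hst : ∀ n, (st (n + 1)).1 = (st n).1 ∩ {z' | (next (st n), z') ∈ Q m} := fun n => rfl
    have hanti : ∀ j k, j ≤ k → (st k).1 ⊆ (st j).1 := by
      intro j k hjk
      induction k, hjk using Nat.le_induction with
      | base => exact Subset.rfl
      | succ k _ ih =>
        rw [hst]
        exact inter_subset_left.trans ih
    refine ⟨fun n => next (st n), fun k => (hnext (st k)).1, ?_⟩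
    intro j k hjk
    have h1 : next (st k) ∈ (st k).1 := (hnext (st k)).2
    have h2 := hanti (j + 1) k hjk h1
    rw [hst] at h2
    exact h2.2
  -- (g)
  obtain ⟨p, -, φ, hφ, hp⟩ := (isSeqCompact_univ (X := Z)) (fun n => mem_univ (zs n))
  have h1 : ∀ j, (zs j, p) ∈ Q m := by
    intro j
    have h2 : Tendsto (fun n => zs (φ (n + (j + 1)))) atTop (𝓝 p) :=
      hp.comp (tendsto_add_atTop_nat (j + 1))
    exact hsec m (zs j) (fun n => hzs2 _ _ (lt_of_lt_of_le (show j < n + (j + 1) by omega) (hφ.id_le _))) h2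
  exact hQd m p (hsec' m p (fun n => h1 (φ n)) hp)

theorem seqCompactSpace_prod {X Y : Type*} [TopologicalSpace X] [TopologicalSpace Y]
    [SeqCompactSpace X] [SeqCompactSpace Y] : SeqCompactSpace (X × Y) := by
  refine ⟨fun z _ => ?_⟩
  obtain ⟨a, φ, hφ, ha⟩ := SeqCompactSpace.tendsto_subseq (fun n => (z n).1)
  obtain ⟨b, ψ, hψ, hb⟩ := SeqCompactSpace.tendsto_subseq (fun n => (z (φ n)).2)
  refine ⟨(a, b), mem_univ _, φ ∘ ψ, hφ.comp hψ, ?_⟩
  exact (ha.comp hψ.tendsto_atTop).prodMk_nhds hb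

/-- Let `K` be a sequentially compact set of functions on an index set of size less than the
bounding number.  If the pairs of different members of `K` are split into countably many parts
none of which contains a sequence of pairs whose distances tend to zero coordinatewise, then
countably many coordinates separate the points of `K`. -/
theorem exists_countable_separating {ι M : Type*} [MetricSpace M]
    (hbd : ∀ φ : ι → ℕ → ℕ, ∃ g : ℕ → ℕ, ∀ i, ∀ᶠ n in atTop, φ i n ≤ g n)
    (K : Set (ι → M)) (hK : IsSeqCompact K)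
    (P : ℕ → Set ((ι → M) × (ι → M)))
    (hPu : ∀ u ∈ K, ∀ v ∈ K, u ≠ v → ∃ n, (u, v) ∈ P n)
    (hPn : ∀ n, ∀ p : ℕ → (ι → M) × (ι → M), (∀ k, p k ∈ P n) →
      (∀ k, (p k).1 ∈ K ∧ (p k).2 ∈ K) →
      ¬ ∀ i, Tendsto (fun k => dist ((p k).1 i) ((p k).2 i)) atTop (𝓝 0)) :
    ∃ J : Set ι, J.Countable ∧ ∀ u ∈ K, ∀ v ∈ K, (∀ i ∈ J, u i = v i) → u = v := by
  classical
  by_contra hcon
  push Not at hcon
  have hKc : SeqCompactSpace K := isSeqCompact_iff_seqCompactSpace.1 hK
  have : SeqCompactSpace (K × K) := seqCompactSpace_prod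
  have hc1 : ∀ i, Continuous (fun (z : K × K) => z.1.1 i) := fun i =>
    (continuous_apply i).comp (continuous_subtype_val.comp continuous_fst)
  have hc2 : ∀ i, Continuous (fun (z : K × K) => z.2.1 i) := fun i =>
    (continuous_apply i).comp (continuous_subtype_val.comp continuous_snd)
  let R : ℕ → Set (K × K) := fun n => seqClosure {z | (z.1.1, z.2.1) ∈ P n}
  have hRc : ∀ n, IsSeqClosed (R n) := by
    intro n
    apply isSeqClosed_seqClosure (fun (z : K × K) (i : ι) => (z.1.1 i, z.2.1 i)) _ hbd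
    intro y q
    constructor
    · intro h i
      have h1 : Continuous (fun (z : K × K) => (z.1.1 i, z.2.1 i)) := (hc1 i).prodMk (hc2 i)
      exact (h1.tendsto q).comp h
    · intro h
      have h1 : Tendsto (fun n => (y n).1) atTop (𝓝 q.1) := by
        rw [tendsto_subtype_rng, tendsto_pi_nhds]
        intro i
        exact (continuous_fst.tendsto _).comp (h i)
      have h2 : Tendsto (fun n => (y n).2) atTop (𝓝 q.2) := by
        rw [tendsto_subtype_rng, tendsto_pi_nhds]
        intro i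
        exact (continuous_snd.tendsto _).comp (h i)
      exact h1.prodMk_nhds h2
  have hRd : ∀ n (u : K), (u, u) ∉ R n := by
    rintro n u ⟨z, hz, hzu⟩
    refine hPn n (fun k => ((z k).1.1, (z k).2.1)) hz (fun k => ⟨(z k).1.2, (z k).2.2⟩) ?_
    intro i
    have h1 : Continuous (fun (z : K × K) => dist (z.1.1 i) (z.2.1 i)) := (hc1 i).dist (hc2 i)
    have h2 := (h1.tendsto (u, u)).comp hzu
    rw [dist_self] at h2
    exact h2
  have hRu : ∀ u v : K, u ≠ v → ∃ n, (u, v) ∈ R n := by
    intro u v huv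
    obtain ⟨n, hn⟩ := hPu u.1 u.2 v.1 v.2 (fun h => huv (Subtype.ext h))
    exact ⟨n, subset_seqClosure hn⟩
  -- one index works for all countable sets
  obtain ⟨n, hn⟩ : ∃ n, ∀ J : Set ι, J.Countable → ∃ z ∈ R n, ∀ i ∈ J, z.1.1 i = z.2.1 i := by
    by_contra h
    push Not at h
    choose J hJc hJ using h
    obtain ⟨u, hu, v, hv, huv, hne⟩ := hcon (⋃ n, J n) (countable_iUnion hJc)
    obtain ⟨n, hn⟩ := hRu ⟨u, hu⟩ ⟨v, hv⟩ (fun h => hne (congrArg Subtype.val h))
    obtain ⟨i, hi, hi'⟩ := hJ n _ hn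
    exact hi' (huv i (mem_iUnion.2 ⟨n, hi⟩))
  let F : Set ι → Set (K × K) := fun J => {z | z ∈ R n ∧ ∀ i ∈ J, z.1.1 i = z.2.1 i}
  have hFc : ∀ J, IsSeqClosed (F J) := by
    intro J x p hx hp
    refine ⟨hRc n (fun k => (hx k).1) hp, fun i hi => ?_⟩
    refine tendsto_nhds_unique (((hc1 i).tendsto p).comp hp)
      ((((hc2 i).tendsto p).comp hp).congr ?_)
    intro k
    exact ((hx k).2 i hi).symm
  let Q : ℕ → Set ((K × K) × (K × K)) := fun m =>
    {w | (w.1.1, w.2.1) ∈ R m ∨ (w.1.2, w.2.2) ∈ R m}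
  obtain ⟨z, hz⟩ := exists_mem_sInter_of_seqClosed Q (by
      intro m x p hx hp
      -- one of the alternatives holds infinitely often
      have h1 : Continuous (fun (w : (K × K) × (K × K)) => (w.1.1, w.2.1)) := by fun_prop
      have h2 : Continuous (fun (w : (K × K) × (K × K)) => (w.1.2, w.2.2)) := by fun_prop
      by_cases hinf : ∃ᶠ k in atTop, ((x k).1.1, (x k).2.1) ∈ R m
      · left
        obtain ⟨φ, hφ, hφx⟩ := extraction_of_frequently_atTop hinf
        exact hRc m hφx (((h1.tendsto p).comp hp).comp hφ.tendsto_atTop)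
      · right
        rw [not_frequently] at hinf
        obtain ⟨N, hN⟩ := eventually_atTop.1 hinf
        have h3 : ∀ k, ((x (k + N)).1.2, (x (k + N)).2.2) ∈ R m := fun k =>
          (hx (k + N)).resolve_left (hN _ (Nat.le_add_left N k))
        exact hRc m h3 (((h2.tendsto p).comp hp).comp (tendsto_add_atTop_nat N)))
    (by
      rintro m z (h | h)
      · exact hRd m _ h
      · exact hRd m _ h)
    (by
      intro z z' hzz
      by_cases h : z.1 = z'.1
      · have h' : z.2 ≠ z'.2 := fun h' => hzz (Prod.ext h h')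
        obtain ⟨m, hm⟩ := hRu _ _ h'
        exact ⟨m, Or.inr hm⟩
      · obtain ⟨m, hm⟩ := hRu _ _ h
        exact ⟨m, Or.inl hm⟩)
    {C | ∃ J : Set ι, J.Countable ∧ C = F J}
    (by
      rintro C ⟨J, -, rfl⟩
      exact hFc J)
    (by
      intro s hs
      have h1 : ∀ C ∈ s, ∃ J : Set ι, J.Countable ∧ C = F J := fun C hC => hs hC
      choose! J hJ using h1
      obtain ⟨z, hz, hz'⟩ := hn (⋃ C ∈ (s : Set (Set (K × K))), J C)
        (s.finite_toSet.countable.biUnion fun C hC => (hJ C hC).1)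
      refine ⟨z, fun C hC => ?_⟩
      rw [(hJ C hC).2]
      exact ⟨hz, fun i hi => hz' i (mem_biUnion hC hi)⟩)
  have h1 : ∀ J : Set ι, J.Countable → z ∈ F J := fun J hJ => hz _ ⟨J, hJ, rfl⟩
  have h2 : z.1 = z.2 := by
    apply Subtype.ext
    funext i
    exact (h1 {i} (countable_singleton i)).2 i rfl
  have h3 : z ∈ R n := (h1 ∅ countable_empty).1
  apply hRd n z.1
  have h4 : (z.1, z.1) = z := Prod.ext rfl h2
  rw [h4]
  exact h3

end Pool.Agent.Helper454.Biorth
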