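import Mathlib

open MeasureTheory Set Filter Topology Cardinal
open scoped ENNReal

namespace Pool.Agent.Helper454.Haus

/-- Gauge functions `f : [0,∞) → [0,∞)` (values of `f` at negative reals are irrelevant). -/
structure IsGauge (f : ℝ → ℝ) : Prop where
  zero : f 0 = 0
  pos : ∀ t, 0 < t → 0 < f t
  mono : ∀ s t, 0 ≤ s → s ≤ t → f s ≤ f t
  rightCts : ∀ t, 0 ≤ t → ContinuousWithinAt f (Ici t) t

/-- The size-`δ` approximation `H^f_δ(A)`. -/
noncomputable def hdelta (f : ℝ → ℝ) (δ : ℝ) (A : Set ℝ) : ℝ≥0∞ :=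
  ⨅ (U : ℕ → Set ℝ) (_ : A ⊆ ⋃ i, U i) (_ : ∀ i, Metric.ediam (U i) ≤ ENNReal.ofReal δ),
    ∑' i, ENNReal.ofReal (f (Metric.diam (U i)))

/-- The Hausdorff (outer) measure `H^f(A) = lim_{δ → 0+} H^f_δ(A) = sup_{δ > 0} H^f_δ(A)`. -/
noncomputable def haus (f : ℝ → ℝ) (A : Set ℝ) : ℝ≥0∞ :=
  ⨆ (δ : ℝ) (_ : 0 < δ), hdelta f δ A

/-- The gauge as a function on `[0,∞]`, for comparison with Mathlib. -/
noncomputable def gm (f : ℝ → ℝ) (d : ℝ≥0∞) : ℝ≥0∞ := ENNReal.ofReal (f d.toReal)

theorem haus_eq (f : ℝ → ℝ) (h0 : f 0 = 0) (A : Set ℝ) :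
    haus f A = Measure.mkMetric (gm f) A := by
  rw [Measure.mkMetric_apply]
  have key : ∀ t : Set ℝ, (⨆ _ : t.Nonempty, gm f (Metric.ediam t)) =
      ENNReal.ofReal (f (Metric.diam t)) := by
    intro t
    rcases t.eq_empty_or_nonempty with rfl | ht
    · simp [h0]
    · simp [ht, gm, Metric.diam]
  simp only [key]
  apply le_antisymm
  · refine iSup₂_le fun δ hδ => ?_
    exact le_iSup₂_of_le (ENNReal.ofReal δ) (ENNReal.ofReal_pos.2 hδ) le_rfl
  · refine iSup₂_le fun ρ hρ => ?_
    have hm : 0 < (min ρ 1).toReal := by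
      apply ENNReal.toReal_pos
      · exact (lt_min hρ one_pos).ne'
      · exact (lt_of_le_of_lt (min_le_right _ _) ENNReal.one_lt_top).ne
    refine le_iSup₂_of_le (min ρ 1).toReal hm ?_
    unfold hdelta
    refine le_iInf fun U => le_iInf fun hU => le_iInf fun hd => ?_
    refine iInf_le_of_le U (iInf_le_of_le hU (iInf_le_of_le ?_ le_rfl))
    intro i
    refine (hd i).trans ?_
    rw [ENNReal.ofReal_toReal (lt_of_le_of_lt (min_le_right _ _) ENNReal.one_lt_top).ne]
    exact min_le_left _ _

/-- The Cantor space. -/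
abbrev C := ℕ → Bool

/-- Basic clopen sets (nodes). -/
def cyl (c : C) (n : ℕ) : Set C := {x | ∀ i < n, x i = c i}

theorem mem_cyl_self (c : C) (n : ℕ) : c ∈ cyl c n := fun _ _ => rfl

theorem cyl_anti (c : C) {m n : ℕ} (h : m ≤ n) : cyl c n ⊆ cyl c m :=
  fun _ hx i hi => hx i (lt_of_lt_of_le hi h)

theorem cyl_eq_of_mem {c x : C} {n : ℕ} (h : x ∈ cyl c n) : cyl x n = cyl c n := by
  ext y
  constructor
  · intro hy i hi; rw [hy i hi, h i hi]
  · intro hy i hi; rw [hy i hi, h i hi]

theorem cyl_eq_iInter (c : C) (n : ℕ) : cyl c n = ⋂ i ∈ Finset.range n, (fun x : C => x i) ⁻¹' {c i} := by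
  ext x; simp [cyl]

theorem isClopen_cyl (c : C) (n : ℕ) : IsClopen (cyl c n) := by
  rw [cyl_eq_iInter]
  exact isClopen_biInter_finset fun i _ =>
    (isClopen_discrete ({c i} : Set Bool)).preimage (continuous_apply i)

theorem measurableSet_cyl (c : C) (n : ℕ) : MeasurableSet (cyl c n) :=
  (isClopen_cyl c n).isClosed.measurableSet

noncomputable def iotaTerm (x : C) (n : ℕ) : ℝ := if x n then 2 / 3 * (1 / 3) ^ n else 0

noncomputable def iota (x : C) : ℝ := ∑' n, iotaTerm x n

theorem iotaTerm_nonneg (x : C) (n : ℕ) : 0 ≤ iotaTerm x n := by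
  unfold iotaTerm; split_ifs <;> positivity

theorem iotaTerm_le (x : C) (n : ℕ) : iotaTerm x n ≤ 2 / 3 * (1 / 3) ^ n := by
  unfold iotaTerm; split_ifs
  · exact le_rfl
  · positivity

theorem summable_geo : Summable (fun n : ℕ => (2 / 3 : ℝ) * (1 / 3) ^ n) :=
  (summable_geometric_of_lt_one (by norm_num) (by norm_num)).mul_left _

theorem summable_iota (x : C) : Summable (iotaTerm x) :=
  Summable.of_nonneg_of_le (iotaTerm_nonneg x) (iotaTerm_le x) summable_geo

theorem iota_nonneg (x : C) : 0 ≤ iota x := tsum_nonneg (iotaTerm_nonneg x)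

theorem iota_le_one (x : C) : iota x ≤ 1 := by
  have h := (summable_iota x).tsum_le_tsum (iotaTerm_le x) summable_geo
  have h2 : ∑' n : ℕ, (2 / 3 : ℝ) * (1 / 3) ^ n = 1 := by
    rw [tsum_mul_left, tsum_geometric_of_lt_one (by norm_num) (by norm_num)]; norm_num
  unfold iota
  linarith

theorem iota_shift (x : C) :
    iota x = (if x 0 then 2 / 3 else 0) + 1 / 3 * iota (fun i => x (i + 1)) := by
  unfold iota
  rw [(summable_iota x).tsum_eq_zero_add, ← tsum_mul_left]
  congr 1
  · unfold iotaTerm; simp
  · apply tsum_congr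
    intro n
    unfold iotaTerm
    split_ifs <;> ring

theorem iota_upper : ∀ (m : ℕ) (x y : C), (∀ i < m, x i = y i) → |iota x - iota y| ≤ (1 / 3) ^ m
  | 0, x, y, _ => by
      have := iota_nonneg x; have := iota_nonneg y
      have := iota_le_one x; have := iota_le_one y
      rw [pow_zero, abs_le]; constructor <;> linarith
  | m + 1, x, y, h => by
      have h0 : x 0 = y 0 := h 0 (by omega)
      have ih := iota_upper m (fun i => x (i + 1)) (fun i => y (i + 1))
        (fun i hi => h (i + 1) (by omega))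
      rw [iota_shift x, iota_shift y, h0]
      have : (if y 0 = true then (2:ℝ) / 3 else 0) + 1 / 3 * iota (fun i => x (i + 1)) -
          ((if y 0 = true then (2:ℝ) / 3 else 0) + 1 / 3 * iota (fun i => y (i + 1))) =
          1 / 3 * (iota (fun i => x (i + 1)) - iota (fun i => y (i + 1))) := by ring
      rw [this, abs_mul, pow_succ, abs_of_nonneg (by norm_num : (0:ℝ) ≤ 1 / 3)]
      linarith

theorem iota_lower : ∀ (m : ℕ) (x y : C), (¬ ∀ i < m, x i = y i) →
    (1 / 3) ^ m ≤ |iota x - iota y|
  | 0, x, y, h => by exact absurd (fun i hi => absurd hi (Nat.not_lt_zero i)) h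
  | m + 1, x, y, h => by
      by_cases h0 : x 0 = y 0
      · have ih := iota_lower m (fun i => x (i + 1)) (fun i => y (i + 1)) (by
          intro h'
          apply h
          intro i hi
          rcases i with _ | i
          · exact h0
          · exact h' i (by omega))
        rw [iota_shift x, iota_shift y, h0]
        have : (if y 0 = true then (2:ℝ) / 3 else 0) + 1 / 3 * iota (fun i => x (i + 1)) -
            ((if y 0 = true then (2:ℝ) / 3 else 0) + 1 / 3 * iota (fun i => y (i + 1))) =
            1 / 3 * (iota (fun i => x (i + 1)) - iota (fun i => y (i + 1))) := by ring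
        rw [this, abs_mul, pow_succ, abs_of_nonneg (by norm_num : (0:ℝ) ≤ 1 / 3)]
        linarith
      · have h3 : ((1:ℝ) / 3) ^ (m + 1) ≤ 1 / 3 := by
          rw [pow_succ]
          have : ((1:ℝ) / 3) ^ m ≤ 1 := pow_le_one₀ (by norm_num) (by norm_num)
          linarith
        refine h3.trans ?_
        have e1 := iota_shift x
        have e2 := iota_shift y
        have := iota_nonneg (fun i => x (i + 1)); have := iota_nonneg (fun i => y (i + 1))
        have := iota_le_one (fun i => x (i + 1)); have := iota_le_one (fun i => y (i + 1))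
        rcases hx : x 0 with _ | _ <;> rcases hy : y 0 with _ | _
        · exact absurd (hx.trans hy.symm) h0
        · rw [hx] at e1; rw [hy] at e2
          simp only [Bool.false_eq_true, if_false, if_true] at e1 e2
          rw [le_abs]; right; linarith
        · rw [hx] at e1; rw [hy] at e2
          simp only [Bool.false_eq_true, if_false, if_true] at e1 e2
          rw [le_abs]; left; linarith
        · exact absurd (hx.trans hy.symm) h0

theorem iota_injective : Function.Injective iota := by
  intro x y h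
  by_contra hne
  have : ∃ i, x i ≠ y i := by
    by_contra hc; push Not at hc; exact hne (funext hc)
  obtain ⟨i, hi⟩ := this
  have := iota_lower (i + 1) x y (fun h' => hi (h' i (by omega)))
  rw [h, sub_self, abs_zero] at this
  have h2 : (0:ℝ) < (1 / 3) ^ (i + 1) := by positivity
  linarith

theorem iota_continuous : Continuous iota := by
  unfold iota
  refine continuous_tsum (u := fun n : ℕ => (2 / 3 : ℝ) * (1 / 3) ^ n) ?_ summable_geo ?_
  · intro n
    have : (fun x : C => iotaTerm x n) =
        (fun b : Bool => if b then (2 / 3 : ℝ) * (1 / 3) ^ n else 0) ∘ (fun x : C => x n) := by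
      ext x; simp [iotaTerm]
    rw [this]
    exact continuous_of_discreteTopology.comp (continuous_apply n)
  · intro n x
    rw [Real.norm_eq_abs, abs_of_nonneg (iotaTerm_nonneg x n)]
    exact iotaTerm_le x n

theorem iota_measEmb : MeasurableEmbedding iota :=
  (iota_continuous.isClosedEmbedding iota_injective).measurableEmbedding

end Pool.Agent.Helper454.Haus
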