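import Pool.Agent.Helper454.HausT3

open MeasureTheory Set Filter Topology Cardinal
open scoped ENNReal

namespace Pool.Agent.Helper454.Haus

theorem measurable_res (h : ℕ) : Measurable (res h) :=
  measurable_pi_lambda _ fun _ => measurable_pi_apply _

theorem res_preimage_singleton {h : ℕ} (w : Fin h → Bool) :
    res h ⁻¹' {w} = cyl (ext0 w) h := by
  ext y
  constructor
  · intro hy i hi
    have hy' : res h y = w := hy
    have := congrFun hy' ⟨i, hi⟩
    simp only [ext0, hi, dif_pos]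
    exact this
  · intro hy
    exact res_of_mem hy

theorem indep (h k m : ℕ) (hk : h ≤ k) (S : Finset (Fin h → Bool)) :
    lam (res h ⁻¹' S ∩ Z k m) = lam (res h ⁻¹' S) * 2⁻¹ ^ (m + 1) := by
  have hms : ∀ w ∈ S, MeasurableSet (res h ⁻¹' {w}) := fun w _ =>
    measurable_res h (measurableSet_singleton w)
  rw [← Measure.restrict_apply (measurable_res h (Finset.measurableSet S)),
    ← sum_measure_preimage_singleton S hms, ← sum_measure_preimage_singleton S hms,
    Finset.sum_mul]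
  refine Finset.sum_congr rfl fun w _ => ?_
  rw [Measure.restrict_apply (measurable_res h (measurableSet_singleton w)),
    res_preimage_singleton, lam_cyl, ← pow_add]
  have hc : (Finset.range h ∪ Finset.Icc k (k + m)).card = h + (m + 1) := by
    rw [Finset.card_union_of_disjoint]
    · simp; omega
    · rw [Finset.disjoint_left]
      intro a ha hb
      rw [Finset.mem_range] at ha
      rw [Finset.mem_Icc] at hb
      omega
  rw [← hc, ← lam_box _ (fun i => if i < h then ext0 w i else false)]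
  congr 1
  ext x
  simp only [mem_inter_iff, Finset.mem_union, Finset.mem_range, Finset.mem_Icc, mem_ofPred_eq]
  constructor
  · rintro ⟨h1, h2⟩ i hi
    rcases hi with hi | hi
    · rw [if_pos hi]; exact h1 i hi
    · rw [if_neg (by omega)]; exact h2 i hi.1 hi.2
  · intro h1
    constructor
    · intro i hi
      have := h1 i (Or.inl hi)
      rwa [if_pos hi] at this
    · intro i h2 h3
      have := h1 i (Or.inr ⟨h2, h3⟩)
      rwa [if_neg (by omega)] at this

theorem block_pos (K : Set C) (hK : IsClosed K) (hpos : lam K ≠ 0) (m : ℕ) :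
    ∀ᶠ k in atTop, lam (K ∩ Z k m) ≠ 0 := by
  classical
  set Kh : ℕ → Set C := fun h => res h ⁻¹' (Finset.univ.filter (fun w => w ∈ res h '' K) :
    Finset (Fin h → Bool)) with hKh
  have hmem : ∀ h y, y ∈ Kh h ↔ ∃ z ∈ K, z ∈ cyl y h := by
    intro h y
    simp only [hKh, Finset.coe_filter, Finset.mem_univ, true_and, mem_preimage, mem_ofPred_eq,
      mem_image]
    constructor
    · rintro ⟨z, hz, hzy⟩
      exact ⟨z, hz, fun i hi => congrFun hzy ⟨i, hi⟩⟩
    · rintro ⟨z, hz, hzy⟩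
      exact ⟨z, hz, by ext i; exact hzy i i.2⟩
  have hanti : Antitone Kh := by
    intro a b hab y hy
    rw [hmem] at hy ⊢
    obtain ⟨z, hz, hzy⟩ := hy
    exact ⟨z, hz, cyl_anti y hab hzy⟩
  have hmeas : ∀ h, MeasurableSet (Kh h) := fun h =>
    measurable_res h (Finset.measurableSet _)
  have hinter : ⋂ h, Kh h = K := by
    ext y
    constructor
    · intro hy
      rw [mem_iInter] at hy
      rw [← hK.closure_eq, mem_closure_iff]
      intro o ho hyo
      rw [isOpen_pi_iff] at ho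
      obtain ⟨I, u, hu1, hu2⟩ := ho y hyo
      obtain ⟨z, hz, hzy⟩ := (hmem (I.sup id + 1) y).1 (hy _)
      refine ⟨z, hu2 ?_, hz⟩
      intro i hi
      have : i ≤ I.sup id := Finset.le_sup (f := id) hi
      rw [hzy i (by omega)]
      exact (hu1 i hi).2
    · intro hy
      rw [mem_iInter]
      intro h
      rw [hmem]
      exact ⟨y, hy, mem_cyl_self _ _⟩
  have hsub : ∀ h, K ⊆ Kh h := fun h y hy => (hmem h y).2 ⟨y, hy, mem_cyl_self _ _⟩
  have hlim : Tendsto (fun h => lam (Kh h)) atTop (𝓝 (lam K)) := by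
    rw [← hinter]
    exact tendsto_measure_iInter_atTop (fun h => (hmeas h).nullMeasurableSet) hanti
      ⟨0, measure_ne_top _ _⟩
  have hKfin : lam K ≠ ⊤ := measure_ne_top _ _
  have hε : lam K * 2⁻¹ ^ (m + 1) ≠ 0 := by
    apply mul_ne_zero hpos; simp
  obtain ⟨h, hh⟩ := (hlim.eventually (gt_mem_nhds (ENNReal.lt_add_right hKfin hε))).exists
  filter_upwards [eventually_ge_atTop h] with k hk h0
  have e1 : lam (Kh h) = lam K + lam (Kh h \ K) := by
    rw [measure_sdiff (hsub h) hK.measurableSet.nullMeasurableSet hKfin,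
      add_tsub_cancel_of_le (measure_mono (hsub h))]
  rw [e1] at hh
  have e2 : lam (Kh h \ K) < lam K * 2⁻¹ ^ (m + 1) := (ENNReal.add_lt_add_iff_left hKfin).1 hh
  have e3 : lam (Kh h ∩ Z k m) = lam (Kh h) * 2⁻¹ ^ (m + 1) := indep h k m hk _
  have e4 : lam (Kh h ∩ Z k m) ≤ lam (K ∩ Z k m) + lam (Kh h \ K) := by
    refine le_trans (measure_mono ?_) (measure_union_le _ _)
    rintro x ⟨h1, h2⟩
    by_cases hx : x ∈ K
    · exact Or.inl ⟨hx, h2⟩
    · exact Or.inr ⟨h1, hx⟩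
  rw [h0, zero_add, e3] at e4
  have e5 : lam K * 2⁻¹ ^ (m + 1) ≤ lam (Kh h) * 2⁻¹ ^ (m + 1) := by
    gcongr
    exact hsub h
  exact absurd (e5.trans e4) (not_le.2 e2)

theorem hstar (K : Set C) (hK : IsClosed K) : ∃ h : ℕ → ℕ, ∀ m u k, h m ≤ k →
    lam (K ∩ cyl u m) ≠ 0 → lam (K ∩ cyl u m ∩ Z k m) ≠ 0 := by
  have key : ∀ m, ∃ h, ∀ k, h ≤ k → ∀ w : Fin m → Bool, lam (K ∩ cyl (ext0 w) m) ≠ 0 →
      lam (K ∩ cyl (ext0 w) m ∩ Z k m) ≠ 0 := by
    intro m
    have : ∀ᶠ k in atTop, ∀ w : Fin m → Bool, lam (K ∩ cyl (ext0 w) m) ≠ 0 →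
      lam (K ∩ cyl (ext0 w) m ∩ Z k m) ≠ 0 := by
      rw [eventually_all]
      intro w
      by_cases hw : lam (K ∩ cyl (ext0 w) m) = 0
      · exact Eventually.of_forall fun k h => absurd hw h
      · exact (block_pos _ (hK.inter (isClopen_cyl _ _).isClosed) hw m).mono fun k hk _ => hk
    obtain ⟨h, hh⟩ := eventually_atTop.1 this
    exact ⟨h, hh⟩
  choose h hh using key
  refine ⟨h, fun m u k hk hu => ?_⟩
  have e : cyl (ext0 (res m u)) m = cyl u m := (cyl_eq_of_mem (mem_cyl_ext u)).symm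
  have := hh m k hk (res m u)
  rw [e] at this
  exact this hu

theorem exists_piece (Q : Set C) (hQ : lam Q ≠ 0) (L : ℕ) :
    ∃ u ∈ Q, lam (Q ∩ cyl u L) ≠ 0 := by
  by_contra hc
  push Not at hc
  apply hQ
  have hsub : Q ⊆ ⋃ w : Fin L → Bool, Q ∩ cyl (ext0 w) L := by
    intro x hx
    exact mem_iUnion.2 ⟨res L x, hx, mem_cyl_ext x⟩
  refine le_antisymm ((measure_mono hsub).trans ?_) bot_le
  rw [nonpos_iff_eq_zero, measure_iUnion_null_iff]
  intro w
  rcases (Q ∩ cyl (ext0 w) L).eq_empty_or_nonempty with he | ⟨x, hx1, hx2⟩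
  · rw [he]; simp
  · rw [← cyl_eq_of_mem hx2]
    exact hc x hx1

theorem meets_all (K : Set C) (hK : IsClosed K) (hpos : lam K ≠ 0) (h : ℕ → ℕ)
    (hh : ∀ m u k, h m ≤ k → lam (K ∩ cyl u m) ≠ 0 → lam (K ∩ cyl u m ∩ Z k m) ≠ 0)
    (w : ℕ → ℕ) (hw0 : h 0 ≤ w 0) (hw1 : ∀ n, h (w n + n + 1) ≤ w (n + 1))
    (hw2 : ∀ n, w n + n + 1 ≤ w (n + 1)) : (K ∩ ⋂ n, Z (w n) n).Nonempty := by
  set L : ℕ → ℕ := fun n => match n with
    | 0 => 0
    | n + 1 => w n + n + 1 with hL
  have hL0 : L 0 = 0 := rfl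
  have hL1 : ∀ n, L (n + 1) = w n + n + 1 := fun n => rfl
  have hwL : ∀ n, L n ≤ w n := by
    intro n; rcases n with _ | n
    · rw [hL0]; exact Nat.zero_le _
    · rw [hL1]; exact hw2 n
  have hhL : ∀ n, h (L n) ≤ w n := by
    intro n; rcases n with _ | n
    · exact hw0
    · rw [hL1]; exact hw1 n
  have hnL : ∀ n, n ≤ L n := by
    intro n; rcases n with _ | n
    · exact Nat.zero_le _
    · rw [hL1]; omega
  have step : ∀ n (u : {u : C // lam (K ∩ cyl u (L n)) ≠ 0}),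
      ∃ u' : {u : C // lam (K ∩ cyl u (L (n + 1))) ≠ 0},
        (u' : C) ∈ cyl u (L n) ∧ (u' : C) ∈ Z (w n) n := by
    rintro n ⟨u, hu⟩
    have h1 := hh (L n) u (w n) (hhL n) hu
    obtain ⟨u', hu', hp⟩ := exists_piece _ h1 (L (n + 1))
    refine ⟨⟨u', ?_⟩, hu'.1.2, ?_⟩
    · intro h0
      apply hp
      refine le_antisymm ((measure_mono ?_).trans h0.le) bot_le
      exact inter_subset_inter_left _ (fun x hx => hx.1.1)
    · intro i h2 h3
      exact hu'.2 i h2 (h3.trans (by have := hnL n; omega))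
  choose nxt hn1 hn2 using step
  have h00 : lam (K ∩ cyl (fun _ => false) (L 0)) ≠ 0 := by
    rw [hL0]
    have : cyl (fun _ => false) 0 = Set.univ := by ext x; simp [cyl]
    rwa [this, inter_univ]
  let u : (n : ℕ) → {u : C // lam (K ∩ cyl u (L n)) ≠ 0} := fun n =>
    Nat.rec (motive := fun n => {u : C // lam (K ∩ cyl u (L n)) ≠ 0}) ⟨_, h00⟩ nxt n
  have hu : ∀ n, u (n + 1) = nxt n (u n) := fun n => rfl
  have hne := IsCompact.nonempty_iInter_of_sequence_nonempty_isCompact_isClosed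
    (fun n => K ∩ cyl (u n : C) (L n))
    (by
      rintro n x ⟨hx1, hx2⟩
      refine ⟨hx1, fun i hi => ?_⟩
      have h1 : i < L (n + 1) := by have := hwL n; rw [hL1]; omega
      rw [hx2 i h1, hu n]
      exact hn1 n (u n) i hi)
    (by
      intro n
      by_contra hc
      rw [not_nonempty_iff_eq_empty] at hc
      exact (u n).2 (by rw [hc]; simp))
    (hK.inter (isClopen_cyl _ _).isClosed).isCompact
    (fun n => hK.inter (isClopen_cyl _ _).isClosed)
  obtain ⟨x, hx⟩ := hne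
  rw [mem_iInter] at hx
  refine ⟨x, (hx 0).1, ?_⟩
  rw [mem_iInter]
  intro n i h1 h2
  have h3 := (hx (n + 1)).2 i (by rw [hL1]; omega)
  rw [h3, hu n]
  exact hn2 n (u n) i h1 h2

theorem meets_freq (K : Set C) (hK : IsClosed K) (hpos : lam K ≠ 0) (h : ℕ → ℕ)
    (hh : ∀ m u k, h m ≤ k → lam (K ∩ cyl u m) ≠ 0 → lam (K ∩ cyl u m ∩ Z k m) ≠ 0)
    (w : ℕ → ℕ) (hw : ¬ LeStar w h) : (K ∩ {x | ∃ᶠ n in atTop, x ∈ Z (w n) n}).Nonempty := by
  have hfr : ∃ᶠ n in atTop, h n < w n := by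
    intro hc
    apply hw
    filter_upwards [hc] with n hn
    exact not_lt.1 hn
  have step : ∀ p : {p : C × ℕ // lam (K ∩ cyl p.1 p.2) ≠ 0},
      ∃ q : {p : C × ℕ // lam (K ∩ cyl p.1 p.2) ≠ 0},
        cyl q.1.1 q.1.2 ⊆ cyl p.1.1 p.1.2 ∧ p.1.2 < q.1.2 ∧
        ∃ n ≥ p.1.2, cyl q.1.1 q.1.2 ⊆ Z (w n) n := by
    rintro ⟨⟨u, L⟩, hu⟩
    obtain ⟨n, hn, hwn⟩ := frequently_atTop.1 hfr L
    obtain ⟨u', hu', hp'⟩ := exists_piece _ hu n
    have hu1 : u' ∈ cyl u L := hu'.2
    have h1 : lam (K ∩ cyl u' n) ≠ 0 := by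
      intro h0
      apply hp'
      refine le_antisymm ((measure_mono ?_).trans h0.le) bot_le
      exact inter_subset_inter_left _ (fun x hx => hx.1)
    have h2 := hh n u' (w n) hwn.le h1
    obtain ⟨v, hv, hp⟩ := exists_piece _ h2 (w n + n + 1 + L)
    refine ⟨⟨⟨v, w n + n + 1 + L⟩, ?_⟩, ?_, ?_, n, hn, ?_⟩
    · intro h0
      apply hp
      refine le_antisymm ((measure_mono ?_).trans h0.le) bot_le
      exact inter_subset_inter_left _ (fun x hx => hx.1.1)
    · intro x hx i hi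
      have hi' : i < L := hi
      have e1 : x i = v i := hx i (by show i < w n + n + 1 + L; omega)
      have e2 : v i = u' i := hv.1.2 i (by omega)
      rw [e1, e2]
      exact hu1 i hi
    · show L < w n + n + 1 + L
      omega
    · intro x hx i h3 h4
      have e1 : x i = v i := hx i (by show i < w n + n + 1 + L; omega)
      rw [e1]
      exact hv.2 i h3 h4
  choose nxt hn1 hn2 hn3 using step
  have h00 : lam (K ∩ cyl (fun _ => false) 0) ≠ 0 := by
    have : cyl (fun _ => false) 0 = Set.univ := by ext x; simp [cyl]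
    rwa [this, inter_univ]
  let p : ℕ → {p : C × ℕ // lam (K ∩ cyl p.1 p.2) ≠ 0} := fun n =>
    Nat.rec (motive := fun _ => {p : C × ℕ // lam (K ∩ cyl p.1 p.2) ≠ 0})
      ⟨(_, 0), h00⟩ (fun _ q => nxt q) n
  have hp : ∀ n, p (n + 1) = nxt (p n) := fun n => rfl
  have hge : ∀ n, n ≤ (p n).1.2 := by
    intro n
    induction n with
    | zero => exact Nat.zero_le _
    | succ n ih => rw [hp n]; have := hn2 (p n); omega
  have hne := IsCompact.nonempty_iInter_of_sequence_nonempty_isCompact_isClosed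
    (fun n => K ∩ cyl (p n).1.1 (p n).1.2)
    (by
      rintro n x ⟨hx1, hx2⟩
      rw [hp n] at hx2
      exact ⟨hx1, hn1 (p n) hx2⟩)
    (by
      intro n
      by_contra hc
      rw [not_nonempty_iff_eq_empty] at hc
      exact (p n).2 (by rw [hc]; simp))
    (hK.inter (isClopen_cyl _ _).isClosed).isCompact
    (fun n => hK.inter (isClopen_cyl _ _).isClosed)
  obtain ⟨x, hx⟩ := hne
  rw [mem_iInter] at hx
  refine ⟨x, (hx 0).1, ?_⟩
  show ∃ᶠ n in atTop, x ∈ Z (w n) n
  rw [frequently_atTop]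
  intro N
  obtain ⟨n, hn, hsub⟩ := hn3 (p N)
  refine ⟨n, (hge N).trans hn, hsub ?_⟩
  rw [← hp N]
  exact (hx (N + 1)).2

end Pool.Agent.Helper454.Haus
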