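import Pool.Agent.Helper454.HausSharp

open MeasureTheory Set Filter Topology Cardinal
open scoped ENNReal

namespace Pool.Agent.Helper454.Haus

theorem hdelta_Icc_le (f : ℝ → ℝ) (hf : IsGauge f) (K : ℝ)
    (hK : ∃ᶠ t in 𝓝[>] (0:ℝ), f t / t < K) (n : ℝ) (δ : ℝ) (hδ : 0 < δ) :
    hdelta f δ (Icc n (n + 1)) ≤ ENNReal.ofReal (2 * K) := by
  have hev : ∀ᶠ t in 𝓝[>] (0:ℝ), t < min δ 1 :=
    mem_nhdsWithin_of_mem_nhds (gt_mem_nhds (lt_min hδ one_pos))
  obtain ⟨t, ht1, ht2, ht3⟩ := (hK.and_eventually (hev.and self_mem_nhdsWithin)).exists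
  have ht0 : 0 < t := ht3
  have htδ : t < δ := ht2.trans_le (min_le_left _ _)
  have ht1' : t < 1 := ht2.trans_le (min_le_right _ _)
  have hft : f t < K * t := by rwa [div_lt_iff₀ ht0] at ht1
  have hfp := hf.pos t ht0
  set N : ℕ := ⌊1 / t⌋₊ + 1 with hN
  set U : ℕ → Set ℝ := fun i => if i < N then Icc (n + i * t) (n + i * t + t) else ∅ with hU
  have hdiam : ∀ i < N, Metric.diam (U i) = t := by
    intro i hi
    simp only [hU, hi, if_true]
    rw [Real.diam_Icc (by linarith)]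
    ring
  have hcov : Icc n (n + 1) ⊆ ⋃ i, U i := by
    rintro x ⟨hx1, hx2⟩
    have h0 : 0 ≤ (x - n) / t := div_nonneg (by linarith) ht0.le
    have hi : ⌊(x - n) / t⌋₊ < N := by
      apply Nat.lt_succ_of_le
      apply Nat.floor_le_floor
      gcongr
      linarith
    refine mem_iUnion.2 ⟨⌊(x - n) / t⌋₊, ?_⟩
    simp only [hU, hi, if_true]
    have h1 := Nat.floor_le h0
    have h2 := Nat.lt_floor_add_one ((x - n) / t)
    rw [le_div_iff₀ ht0] at h1
    rw [div_lt_iff₀ ht0] at h2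
    constructor <;> nlinarith
  have hsmall : ∀ i, Metric.ediam (U i) ≤ ENNReal.ofReal δ := by
    intro i
    by_cases hi : i < N
    · simp only [hU, hi, if_true]
      rw [Real.ediam_Icc]
      apply ENNReal.ofReal_le_ofReal
      linarith
    · simp [hU, hi]
  unfold hdelta
  refine iInf_le_of_le U (iInf_le_of_le hcov (iInf_le_of_le hsmall ?_))
  have hz : ∀ i ∉ Finset.range N, ENNReal.ofReal (f (Metric.diam (U i))) = 0 := by
    intro i hi
    have : ¬ i < N := fun h => hi (Finset.mem_range.2 h)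
    simp [hU, this, hf.zero]
  rw [tsum_eq_sum hz]
  have hc : ∀ i ∈ Finset.range N, ENNReal.ofReal (f (Metric.diam (U i))) = ENNReal.ofReal (f t) := by
    intro i hi
    rw [hdiam i (Finset.mem_range.1 hi)]
  rw [Finset.sum_congr rfl hc, Finset.sum_const, Finset.card_range, nsmul_eq_mul,
    ← ENNReal.ofReal_natCast, ← ENNReal.ofReal_mul (by positivity)]
  apply ENNReal.ofReal_le_ofReal
  have hN2 : (N : ℝ) ≤ 1 / t + 1 := by
    rw [hN]; push_cast
    have := Nat.floor_le (a := 1 / t) (by positivity)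
    linarith
  have hK0 : 0 < K := by
    by_contra hc
    push Not at hc
    nlinarith
  calc (N : ℝ) * f t ≤ (1 / t + 1) * (K * t) := by
        apply mul_le_mul hN2 hft.le hfp.le (by positivity)
    _ = K + K * t := by field_simp
    _ ≤ 2 * K := by nlinarith

/-- If `f t / t` does not tend to `∞`, then `(∗)` holds for `f`. -/
theorem finPos_of_not_tendsto (f : ℝ → ℝ) (hf : IsGauge f)
    (hlim : ¬ Tendsto (fun t => f t / t) (𝓝[>] 0) atTop) (A : Set ℝ) (hA : 0 < haus f A) :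
    ∃ A₀ ⊆ A, 0 < haus f A₀ ∧ haus f A₀ < ⊤ := by
  rw [tendsto_atTop] at hlim
  push Not at hlim
  obtain ⟨K, hK⟩ := hlim
  have hK' : ∃ᶠ t in 𝓝[>] (0:ℝ), f t / t < K := hK
  have hfin : ∀ n : ℤ, haus f (Icc (n:ℝ) (n + 1)) ≤ ENNReal.ofReal (2 * K) := fun n =>
    iSup₂_le fun δ hδ => hdelta_Icc_le f hf K hK' n δ hδ
  have hpos : ∃ n : ℤ, haus f (A ∩ Icc (n:ℝ) (n + 1)) ≠ 0 := by
    by_contra hc
    push Not at hc
    have hcov : A ⊆ ⋃ n : ℤ, A ∩ Icc (n:ℝ) (n + 1) := fun x hx =>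
      mem_iUnion.2 ⟨⌊x⌋, hx, Int.floor_le x, (Int.lt_floor_add_one x).le⟩
    rw [haus_eq f hf.zero] at hA
    have : Measure.mkMetric (gm f) A = 0 := by
      refine le_antisymm ((measure_mono hcov).trans ((measure_iUnion_le _).trans ?_)) bot_le
      simp only [haus_eq f hf.zero] at hc
      simp [hc]
    exact absurd this hA.ne'
  obtain ⟨n, hn⟩ := hpos
  refine ⟨A ∩ Icc (n:ℝ) (n + 1), inter_subset_left, pos_iff_ne_zero.2 hn, ?_⟩
  refine lt_of_le_of_lt ?_ ((hfin n).trans_lt ENNReal.ofReal_lt_top)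
  rw [haus_eq f hf.zero, haus_eq f hf.zero]
  exact measure_mono inter_subset_right

theorem sqrt_isGauge : IsGauge Real.sqrt where
  zero := Real.sqrt_zero
  pos := fun _ ht => Real.sqrt_pos.2 ht
  mono := fun _ _ _ h => Real.sqrt_le_sqrt h
  rightCts := fun _ _ => Real.continuous_sqrt.continuousWithinAt

theorem sqrt_tendsto : Tendsto (fun t => Real.sqrt t / t) (𝓝[>] 0) atTop := by
  have h1 : Tendsto (fun t : ℝ => (Real.sqrt t)⁻¹) (𝓝[>] 0) atTop := by
    apply tendsto_inv_nhdsGT_zero.comp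
    rw [tendsto_nhdsWithin_iff]
    constructor
    · have := (Real.continuous_sqrt.tendsto 0).mono_left (nhdsWithin_le_nhds (s := Ioi 0))
      rwa [Real.sqrt_zero] at this
    · filter_upwards [self_mem_nhdsWithin] with t ht
      exact Real.sqrt_pos.2 ht
  refine h1.congr' ?_
  filter_upwards [self_mem_nhdsWithin] with t ht
  rw [Real.sqrt_div_self', one_div]

end Pool.Agent.Helper454.Haus
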