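import Pool.Agent.Helper454.HausUN

open MeasureTheory Set Filter Topology Cardinal
open scoped ENNReal

namespace Pool.Agent.Helper454.Haus

/-! ### Binary expansions -/

noncomputable def bterm (x : C) (n : ℕ) : ℝ := if x n then 1 / 2 * (1 / 2) ^ n else 0

noncomputable def bb (x : C) : ℝ := ∑' n, bterm x n

theorem bterm_nonneg (x : C) (n : ℕ) : 0 ≤ bterm x n := by
  unfold bterm; split_ifs <;> positivity

theorem bterm_le (x : C) (n : ℕ) : bterm x n ≤ 1 / 2 * (1 / 2) ^ n := by
  unfold bterm; split_ifs
  · exact le_rfl
  · positivity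

theorem summable_half : Summable (fun n : ℕ => (1 / 2 : ℝ) * (1 / 2) ^ n) :=
  (summable_geometric_of_lt_one (by norm_num) (by norm_num)).mul_left _

theorem summable_bb (x : C) : Summable (bterm x) :=
  Summable.of_nonneg_of_le (bterm_nonneg x) (bterm_le x) summable_half

theorem bb_nonneg (x : C) : 0 ≤ bb x := tsum_nonneg (bterm_nonneg x)

theorem bb_le_one (x : C) : bb x ≤ 1 := by
  have h := (summable_bb x).tsum_le_tsum (bterm_le x) summable_half
  have h2 : ∑' n : ℕ, (1 / 2 : ℝ) * (1 / 2) ^ n = 1 := by
    rw [tsum_mul_left, tsum_geometric_of_lt_one (by norm_num) (by norm_num)]; norm_num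
  unfold bb
  linarith

theorem bb_shift (x : C) :
    bb x = (if x 0 then 1 / 2 else 0) + 1 / 2 * bb (fun i => x (i + 1)) := by
  unfold bb
  rw [(summable_bb x).tsum_eq_zero_add, ← tsum_mul_left]
  congr 1
  · unfold bterm; simp
  · apply tsum_congr
    intro n
    unfold bterm
    split_ifs <;> ring

theorem bb_lt_one : ∀ (n : ℕ) (x : C), x n = false → bb x < 1
  | 0, x, h => by
      rw [bb_shift, h]
      have := bb_le_one (fun i => x (i + 1))
      simp only [Bool.false_eq_true, if_false]
      linarith
  | n + 1, x, h => by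
      have ih := bb_lt_one n (fun i => x (i + 1)) h
      rw [bb_shift]
      split_ifs <;> linarith

theorem dig_bb : ∀ (i : ℕ) (x : C), (∀ n, ∃ j ≥ n, x j = false) → dig (bb x) i = x i
  | 0, x, h => by
      obtain ⟨j, hj, hj2⟩ := h 1
      have h1 : bb (fun i => x (i + 1)) < 1 := bb_lt_one (j - 1) _ (by
        show x (j - 1 + 1) = false
        rw [Nat.sub_add_cancel hj]; exact hj2)
      have h2 := bb_nonneg (fun i => x (i + 1))
      have hf : ⌊bb (fun i => x (i + 1))⌋ = 0 := by
        rw [Int.floor_eq_iff]; constructor <;> push_cast <;> linarith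
      unfold dig
      rw [bb_shift]
      rcases hx : x 0 with _ | _
      · have : (2:ℝ) ^ (0 + 1) * ((if false = true then 1 / 2 else 0) +
            1 / 2 * bb (fun i => x (i + 1))) = bb (fun i => x (i + 1)) := by
          simp
        rw [this, hf]; simp
      · have : (2:ℝ) ^ (0 + 1) * ((if true = true then 1 / 2 else 0) +
            1 / 2 * bb (fun i => x (i + 1))) = bb (fun i => x (i + 1)) + 1 := by
          simp; ring
        rw [this, Int.floor_add_one, hf]; simp
  | i + 1, x, h => by
      have ih := dig_bb i (fun i => x (i + 1)) (by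
        intro n
        obtain ⟨j, hj, hj2⟩ := h (n + 1)
        refine ⟨j - 1, by omega, ?_⟩
        show x (j - 1 + 1) = false
        rw [Nat.sub_add_cancel (by omega)]; exact hj2)
      show dig (bb x) (i + 1) = x (i + 1)
      rw [← ih]
      unfold dig
      rw [bb_shift x]
      rcases hx : x 0 with _ | _
      · have : (2:ℝ) ^ (i + 1 + 1) * ((if false = true then 1 / 2 else 0) +
            1 / 2 * bb (fun i => x (i + 1))) = 2 ^ (i + 1) * bb (fun i => x (i + 1)) := by
          simp; ring
        rw [this]
      · have : (2:ℝ) ^ (i + 1 + 1) * ((if true = true then 1 / 2 else 0) +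
            1 / 2 * bb (fun i => x (i + 1))) =
            2 ^ (i + 1) * bb (fun i => x (i + 1)) + ((2 ^ (i + 1) : ℤ) : ℝ) := by
          simp; ring
        rw [this, Int.floor_add_intCast, decide_eq_decide]
        have h3 : (2:ℤ) ^ (i + 1) = 2 * 2 ^ i := by ring
        rw [h3]
        omega

theorem measurable_dig : Measurable dig := by
  refine measurable_pi_lambda _ fun i => ?_
  have h1 : Measurable (fun x : ℝ => ⌊2 ^ (i + 1) * x⌋) :=
    Int.measurable_floor.comp (measurable_const_mul _)
  have h2 : Measurable (fun k : ℤ => decide (k % 2 = 1)) := measurable_from_top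
  exact h2.comp h1

/-- Equal floors at level `m` give equal digits below `m`. -/
theorem dig_of_floor (x y : ℝ) : ∀ m : ℕ, ⌊2 ^ m * x⌋ = ⌊2 ^ m * y⌋ → ∀ i < m, dig x i = dig y i
  | 0, _, i, hi => absurd hi (Nat.not_lt_zero _)
  | m + 1, h, i, hi => by
      rcases Nat.lt_succ_iff_lt_or_eq.1 hi with h1 | h1
      · have key : ∀ z : ℝ, 2 * ⌊2 ^ m * z⌋ ≤ ⌊2 ^ (m + 1) * z⌋ ∧
            ⌊2 ^ (m + 1) * z⌋ ≤ 2 * ⌊2 ^ m * z⌋ + 1 := by
          intro z
          have h1 := Int.floor_le ((2:ℝ) ^ m * z)
          have h2 := Int.lt_floor_add_one ((2:ℝ) ^ m * z)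
          have h3 : (2:ℝ) ^ (m + 1) * z = 2 * (2 ^ m * z) := by ring
          constructor
          · rw [Int.le_floor]; push_cast; rw [h3]; linarith
          · rw [← Int.lt_add_one_iff, Int.floor_lt]; push_cast; rw [h3]; linarith
        have k1 := key x
        have k2 := key y
        rw [h] at k1
        exact dig_of_floor x y m (by omega) i h1
      · subst h1
        unfold dig
        rw [h]

/-! ### Insertion of sparse digits -/

open Classical in
noncomputable def cnt (P : ℕ → ℕ) : ℕ → ℕ
  | 0 => 0
  | m + 1 => cnt P m + (if m ∈ range P then 1 else 0)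

open Classical in
noncomputable def gg (P : ℕ → ℕ) : ℕ → ℕ
  | 0 => 0
  | m + 1 => gg P m + (if m ∈ range P then 0 else 1)

theorem cnt_add_gg (P : ℕ → ℕ) : ∀ m, cnt P m + gg P m = m
  | 0 => rfl
  | m + 1 => by
      have ih := cnt_add_gg P m
      unfold cnt gg
      split_ifs <;> omega

theorem cnt_iff (P : ℕ → ℕ) (hP : StrictMono P) : ∀ m k, P k < m ↔ k < cnt P m
  | 0, k => by simp [cnt]
  | m + 1, k => by
      have ih := cnt_iff P hP m
      unfold cnt
      split_ifs with hm
      · obtain ⟨l, rfl⟩ := hm
        have h1 : cnt P (P l) = l := by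
          apply le_antisymm
          · by_contra hc
            push Not at hc
            exact lt_irrefl _ ((ih l).2 hc)
          · by_contra hc
            push Not at hc
            have := (ih (cnt P (P l))).1 (hP hc)
            exact lt_irrefl _ this
        rw [h1]
        constructor
        · intro h
          have : P k ≤ P l := by omega
          have := hP.le_iff_le.1 this
          omega
        · intro h
          have : P k ≤ P l := hP.monotone (by omega)
          omega
      · have hne : P k ≠ m := fun h => hm ⟨k, h⟩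
        rw [add_zero, ← ih k]
        omega

open Classical in
noncomputable def ins (P : ℕ → ℕ) (y z : C) : C :=
  fun i => if h : ∃ k, P k = i then z h.choose else y (gg P i)

theorem ins_P (P : ℕ → ℕ) (hP : StrictMono P) (y z : C) (k : ℕ) : ins P y z (P k) = z k := by
  unfold ins
  have h : ∃ k', P k' = P k := ⟨k, rfl⟩
  rw [dif_pos h, hP.injective h.choose_spec]

theorem ins_agree (P : ℕ → ℕ) (y z y' z' : C) : ∀ m, (∀ i < m, ins P y z i = ins P y' z' i) →
    ∀ j < gg P m, y j = y' j
  | 0, _, j, hj => absurd hj (Nat.not_lt_zero _)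
  | m + 1, h, j, hj => by
      have ih := ins_agree P y z y' z' m (fun i hi => h i (by omega))
      unfold gg at hj
      split_ifs at hj with hm
      · exact ih j (by omega)
      · rcases Nat.lt_succ_iff_lt_or_eq.1 hj with h1 | h1
        · exact ih j h1
        · have h2 := h m (Nat.lt_succ_self m)
          unfold ins at h2
          have hm' : ¬ ∃ k, P k = m := hm
          rw [dif_neg hm', dif_neg hm'] at h2
          rw [h1]; exact h2

/-- doubling with zeros, to force infinitely many zero digits. -/
def dbl (z : C) : C := fun k => if k % 2 = 0 then z (k / 2) else false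

theorem dbl_even (z : C) (k : ℕ) : dbl z (2 * k) = z k := by
  have h1 : (2 * k) % 2 = 0 := by omega
  have h2 : (2 * k) / 2 = k := by omega
  simp [dbl]

theorem dbl_odd (z : C) (k : ℕ) : dbl z (2 * k + 1) = false := by
  have h1 : ¬ (2 * k + 1) % 2 = 0 := by omega
  simp only [dbl, h1, if_false]

theorem ins_zeros (P : ℕ → ℕ) (hP : StrictMono P) (y z : C) (n : ℕ) :
    ∃ j ≥ n, ins P y (dbl z) j = false := by
  refine ⟨P (2 * n + 1), ?_, ?_⟩
  · have := hP.id_le (2 * n + 1)
    simp only [id] at this
    omega
  · rw [ins_P P hP, dbl_odd]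

end Pool.Agent.Helper454.Haus
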