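import Pool.Agent.Helper454.HausT2

open MeasureTheory Set Filter Topology Cardinal
open scoped ENNReal

namespace Pool.Agent.Helper454.Haus

/-- The fair coin on `Bool`. -/
noncomputable def coin : Measure Bool := (PMF.uniformOfFintype Bool).toMeasure

noncomputable instance : IsProbabilityMeasure coin := by unfold coin; infer_instance

theorem coin_singleton (b : Bool) : coin {b} = 2⁻¹ := by
  unfold coin
  rw [PMF.toMeasure_apply_singleton _ _ (measurableSet_singleton b)]
  simp

/-- The fair-coin measure on the Cantor space. -/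
noncomputable def lam : Measure C := Measure.infinitePi (fun _ : ℕ => coin)

noncomputable instance : IsProbabilityMeasure lam := by unfold lam; infer_instance

theorem lam_box (s : Finset ℕ) (c : C) :
    lam {x | ∀ i ∈ s, x i = c i} = 2⁻¹ ^ s.card := by
  have : {x : C | ∀ i ∈ s, x i = c i} = Set.pi (s : Set ℕ) (fun i => ({c i} : Set Bool)) := by
    ext x; simp
  unfold lam
  rw [this, Measure.infinitePi_pi _ (fun i _ => measurableSet_singleton _)]
  simp [coin_singleton]

theorem lam_cyl (c : C) (n : ℕ) : lam (cyl c n) = 2⁻¹ ^ n := by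
  have h := lam_box (Finset.range n) c
  rw [Finset.card_range] at h
  rw [← h]
  congr 1
  ext x; simp [cyl]

/-- Zero block on `[k, k + n]`. -/
def Z (k n : ℕ) : Set C := {x | ∀ i, k ≤ i → i ≤ k + n → x i = false}

theorem lam_Z (k n : ℕ) : lam (Z k n) = 2⁻¹ ^ (n + 1) := by
  have h := lam_box (Finset.Icc k (k + n)) (fun _ => false)
  have h2 : (Finset.Icc k (k + n)).card = n + 1 := by simp; omega
  rw [h2] at h
  rw [← h]
  congr 1
  ext x; simp [Z]

theorem measurableSet_Z (k n : ℕ) : MeasurableSet (Z k n) := by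
  have : Z k n = ⋂ i ∈ Icc k (k + n), (fun x : C => x i) ⁻¹' {false} := by
    ext x; simp [Z]
  rw [this]
  exact MeasurableSet.biInter (to_countable _) fun a _ =>
    (measurable_pi_apply _) (measurableSet_singleton _)

def res (N : ℕ) (x : C) : Fin N → Bool := fun i => x i

def ext0 {N : ℕ} (s : Fin N → Bool) : C := fun i => if h : i < N then s ⟨i, h⟩ else false

theorem mem_cyl_ext {N : ℕ} (x : C) : x ∈ cyl (ext0 (res N x)) N := by
  intro i hi; simp [ext0, res, hi]

theorem res_of_mem {N : ℕ} {x : C} {s : Fin N → Bool} (h : x ∈ cyl (ext0 s) N) : res N x = s := by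
  ext i
  have := h i i.2
  simp only [ext0, i.2, dif_pos] at this
  exact this

/-- A set determined by the first `N` coordinates is covered efficiently by words of length `N`. -/
theorem words (Q : Set C) (N : ℕ) (hQ : ∀ x ∈ Q, cyl x N ⊆ Q) :
    ∃ (J : Type) (_ : Countable J) (c : J → C), (∀ x ∈ Q, ∃ j, x ∈ cyl (c j) N) ∧
      (∑' _ : J, (2⁻¹ : ℝ≥0∞) ^ N ≤ lam Q) ∧ ∀ j, c j ∈ Q := by
  refine ⟨{s : Fin N → Bool // ext0 s ∈ Q}, inferInstance, fun s => ext0 s.1, ?_, ?_, fun s => s.2⟩
  · intro x hx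
    have h1 : ext0 (res N x) ∈ Q := hQ x hx (by
      intro i hi; simp [ext0, res, hi])
    exact ⟨⟨res N x, h1⟩, mem_cyl_ext x⟩
  · have h1 : ∀ s : {s : Fin N → Bool // ext0 s ∈ Q}, (2⁻¹ : ℝ≥0∞) ^ N = lam (cyl (ext0 s.1) N) :=
      fun s => (lam_cyl _ _).symm
    rw [tsum_congr h1, ← measure_iUnion]
    · apply measure_mono
      apply iUnion_subset
      intro s
      exact hQ _ s.2
    · intro s t hst
      rw [Function.onFun, Set.disjoint_left]
      intro x hx hx2
      apply hst
      apply Subtype.ext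
      rw [← res_of_mem hx, ← res_of_mem hx2]
    · intro s; exact measurableSet_cyl _ _

theorem nu_id_le_lam (Q : Set C) (l : ℕ) (hQ : ∀ x ∈ Q, cyl x l ⊆ Q) : nu id Q ≤ lam Q := by
  apply nu_le strictMono_id
  intro N
  obtain ⟨J, hJ, c, h1, h2, -⟩ := words Q (max N l)
    (fun x hx => (cyl_anti x (le_max_right _ _)).trans (hQ x hx))
  exact ⟨J, hJ, c, fun _ => max N l, fun _ => le_max_left _ _, h1, h2⟩

theorem nu_id_cyl (c : C) (l : ℕ) : nu id (cyl c l) ≤ 2⁻¹ ^ l := by
  rw [← lam_cyl c l]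
  exact nu_id_le_lam _ l (fun x hx => (cyl_eq_of_mem hx).subset)

theorem nu_id_Z (k n : ℕ) : nu id (Z k n) ≤ 2⁻¹ ^ (n + 1) := by
  rw [← lam_Z k n]
  refine nu_id_le_lam _ (k + n + 1) (fun x hx y hy i h1 h2 => ?_)
  rw [hy i (by omega)]
  exact hx i h1 h2

theorem nu_singleton {r : ℕ → ℕ} (hr : StrictMono r) (x : C) : nu r {x} = 0 := by
  rw [nu_eq_haus hr, image_singleton]
  exact haus_singleton (fr_isGauge hr) _

end Pool.Agent.Helper454.Haus
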