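import Pool.Agent.Helper454.HausBlock

open MeasureTheory Set Filter Topology Cardinal
open scoped ENNReal

namespace Pool.Agent.Helper454.Haus

/-- Failure of `(∗)`, spelled out. -/
theorem failure_of_not (h : ¬ FinPos) : ∃ f : ℝ → ℝ, IsGauge f ∧ ∃ A : Set ℝ, 0 < haus f A ∧
    ∀ A₀ ⊆ A, haus f A₀ = 0 ∨ haus f A₀ = ⊤ := by
  unfold FinPos at h
  push Not at h
  obtain ⟨f, hf, A, hA, h2⟩ := h
  refine ⟨f, hf, A, hA, fun A₀ hA₀ => ?_⟩
  by_cases h0 : haus f A₀ = 0
  · exact Or.inl h0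
  · exact Or.inr (top_le_iff.1 (h2 A₀ hA₀ (pos_iff_ne_zero.2 h0)))

/-- Null sets have closed complements of positive fair-coin measure avoiding them. -/
theorem exists_closed_of_null (B : Set C) (hB : nu id B = 0) :
    ∃ K : Set C, IsClosed K ∧ lam K ≠ 0 ∧ Disjoint K B := by
  obtain ⟨c, n, -, hc, hs⟩ := nu_cover strictMono_id B 0 (ε := 2⁻¹) (by simp) (by rw [hB]; simp)
  rw [hB, mul_zero, zero_add] at hs
  set V : Set C := ⋃ j, cyl (c j) (n j) with hV
  have hVo : IsOpen V := isOpen_iUnion fun j => (isClopen_cyl _ _).isOpen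
  have hVl : lam V ≤ 2⁻¹ := by
    refine (measure_iUnion_le _).trans ?_
    simp only [lam_cyl]
    exact hs
  refine ⟨Vᶜ, hVo.isClosed_compl, ?_, ?_⟩
  · intro h0
    have h1 : lam V + lam Vᶜ = 1 := by
      rw [measure_add_measure_compl hVo.measurableSet]; exact measure_univ
    rw [h0, add_zero] at h1
    rw [h1] at hVl
    exact absurd hVl (not_le.2 (by norm_num))
  · rw [Set.disjoint_left]
    intro x hx hx2
    obtain ⟨j, hj⟩ := hc x hx2
    exact hx (mem_iUnion.2 ⟨j, hj⟩)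

def wrec (h g : ℕ → ℕ) : ℕ → ℕ
  | 0 => max (h 0) (g 0 + 1)
  | n + 1 => max (h (n + 1)) (g (wrec h g n + n + 1) + (wrec h g n + n + 1))

theorem le_wrec (h g : ℕ → ℕ) (n : ℕ) : h n ≤ wrec h g n := by
  rcases n with _ | n
  · exact le_max_left _ _
  · exact le_max_left _ _

theorem wrec_zero (h g : ℕ → ℕ) : g 0 + 1 ≤ wrec h g 0 := le_max_right _ _

theorem wrec_succ (h g : ℕ → ℕ) (n : ℕ) :
    g (wrec h g n + n + 1) + (wrec h g n + n + 1) ≤ wrec h g (n + 1) := le_max_right _ _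

/-- A well-ordered everywhere dominating family. -/
theorem exists_domFamily : ∃ (I : Type) (s : I → I → Prop) (_ : IsWellOrder I s) (g : I → ℕ → ℕ),
    (∀ f : ℕ → ℕ, ∃ i, ∀ n, f n ≤ g i n) ∧ ∀ j, #{i // s i j} < dNum := by
  obtain ⟨F, hF, hd⟩ := exists_dominating
  obtain ⟨s, wo, hs⟩ := Cardinal.exists_ord_eq (F × ℕ)
  have hcard : #(F × ℕ) = dNum := by
    rw [mk_prod, lift_uzero, lift_uzero, mk_nat, hF]
    exact mul_aleph0_eq (aleph0_lt_bNum.le.trans bNum_le_dNum)
  refine ⟨F × ℕ, s, wo, fun p n => max (p.1.1 n) p.2, ?_, ?_⟩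
  · intro f
    obtain ⟨g, hg, hfg⟩ := hd f
    obtain ⟨N, hN⟩ := eventually_atTop.1 hfg
    refine ⟨(⟨g, hg⟩, (Finset.range N).sup f), fun n => ?_⟩
    by_cases hn : N ≤ n
    · exact (hN n hn).trans (le_max_left _ _)
    · exact (Finset.le_sup (Finset.mem_range.2 (not_le.1 hn))).trans (le_max_right _ _)
  · intro j
    have := Ordinal.typein_lt_type s j
    rw [← hs] at this
    have h2 := Cardinal.lt_ord.1 this
    rw [← hcard]
    exact h2

/-- Under `(∗)`, `𝔡 ≤ non(N)` is impossible. -/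
theorem not_dNum_le_nonNull (H : FinPos) : ¬ dNum ≤ nonNull := by
  intro hle
  obtain ⟨I, s, wo, g, hdom, hseg⟩ := exists_domFamily
  have hh : ∀ i : I, ∃ h : ℕ → ℕ, ∀ j : {j // s j i}, ¬ LeStar h (g j) := fun i =>
    not_dominating_of_lt (fun j : {j // s j i} => g j) (hseg i)
  choose h hh using hh
  set w : I → ℕ → ℕ := fun i => wrec (h i) (g i) with hw
  have hsmall : ∀ f : ℕ → ℕ, #(range fun i : {i // ∀ n, w i n ≤ f n} => code (w i)) < nonNull := by
    intro f
    obtain ⟨j, hj⟩ := hdom f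
    refine lt_of_le_of_lt mk_range_le (lt_of_le_of_lt ?_ ((hseg j).trans_le hle))
    have hsj : ∀ i : {i // ∀ n, w i n ≤ f n}, s i j := by
      rintro ⟨i, hi⟩
      rcases trichotomous_of s i j with h1 | h1 | h1
      · exact h1
      · exfalso
        subst h1
        have h2 := wrec_zero (h i) (g i)
        have h3 := hi 0
        have h4 := hj 0
        simp only [hw] at h3
        omega
      · exfalso
        apply hh i ⟨j, h1⟩
        exact LeStar.of_le fun n => (le_wrec (h i) (g i) n).trans ((hi n).trans (hj n))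
    exact mk_le_of_injective (f := fun i : {i // ∀ n, w i n ≤ f n} =>
      (⟨i.1, hsj i⟩ : {i // s i j})) (fun a b hab => Subtype.ext (by
        have := congrArg Subtype.val hab
        exact this))
  have hnull := family_null H I (fun i => ⋂ n, Z (w i n) n) w (fun f => by
    set r := rlev f with hr
    have hrm : StrictMono r := rlev_strictMono f
    have hWn := nu_zero_of_lt H hrm _ (hsmall f)
    have hfr : ∀ n, f n + n + 1 ≤ r n := by
      intro n
      have h1 := pair_lt_rlev f n (f n) le_rfl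
      have h2 := Nat.left_le_pair n (f n)
      have h3 := Nat.right_le_pair n (f n)
      rw [hr]
      omega
    apply nu_zero strictMono_two
    intro M
    obtain ⟨t, n, -, ht, hsum⟩ := nu_cover hrm _ 0 (ε := 2⁻¹ ^ M) (by simp) (by rw [hWn]; simp)
    rw [hWn, mul_zero, zero_add] at hsum
    -- the decoded value
    have hdec : ∀ j, ∃ e ≤ f (n j), ∀ i, (∀ m, w i m ≤ f m) → code (w i) ∈ cyl (t j) (r (n j)) →
        w i (n j) = e := by
      intro j
      by_cases hex : ∃ i, (∀ m, w i m ≤ f m) ∧ code (w i) ∈ cyl (t j) (r (n j))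
      · obtain ⟨i₀, h1, h2⟩ := hex
        refine ⟨w i₀ (n j), h1 _, fun i h3 h4 => ?_⟩
        have h5 := pair_lt_rlev f (n j) (w i₀ (n j)) (h1 _)
        rw [← hr] at h5
        have h6 : code (w i) (Nat.pair (n j) (w i₀ (n j))) =
            code (w i₀) (Nat.pair (n j) (w i₀ (n j))) := by
          rw [h4 _ (by omega), h2 _ (by omega)]
        have h7 : code (w i₀) (Nat.pair (n j) (w i₀ (n j))) = true := by rw [code_pair]
        rw [h7, code_pair] at h6
        exact h6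
      · exact ⟨0, Nat.zero_le _, fun i h3 h4 => absurd ⟨i, h3, h4⟩ hex⟩
    choose e he1 he2 using hdec
    have hwords : ∀ j, ∃ (J : Type) (_ : Countable J) (c : J → C),
        (∀ x ∈ Z (e j) (n j), ∃ a, x ∈ cyl (c a) (r (n j))) ∧
        ∑' _ : J, (2⁻¹ : ℝ≥0∞) ^ (r (n j)) ≤ 2⁻¹ ^ (n j) := by
      intro j
      obtain ⟨J, hJ, c, h1, h2, -⟩ := words (Z (e j) (n j)) (r (n j)) (by
        intro x hx y hy i h3 h4
        have h5 := he1 j
        have h6 := hfr (n j)
        rw [hy i (by omega)]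
        exact hx i h3 h4)
      refine ⟨J, hJ, c, h1, h2.trans ?_⟩
      rw [lam_Z]
      exact pow_le_pow_of_le_one (by simp) (by norm_num) (by omega)
    choose J hJ c hc1 hc2 using hwords
    refine ⟨Σ j, J j, inferInstance, fun p => mix (c p.1 p.2) (t p.1), fun p => r (n p.1), ?_, ?_⟩
    · rintro x ⟨i, y, hy, rfl, hi⟩
      obtain ⟨j, hj⟩ := ht (code (w i)) ⟨⟨i, hi⟩, rfl⟩
      have h1 := he2 j i hi hj
      have h2 : y ∈ Z (e j) (n j) := by
        rw [← h1]; exact mem_iInter.1 hy (n j)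
      obtain ⟨a, ha⟩ := hc1 j y h2
      refine ⟨⟨j, a⟩, ?_⟩
      apply mem_cyl_mix
      · rw [ev_mix]; exact ha
      · rw [od_mix]; exact hj
    · refine (ENNReal.tsum_sigma (fun j (_ : J j) => (2⁻¹ : ℝ≥0∞) ^ (r (n j)))).le.trans ?_
      exact (ENNReal.tsum_le_tsum fun j => hc2 j).trans hsum)
  obtain ⟨K, hK, hKp, hdis⟩ := exists_closed_of_null _ hnull
  obtain ⟨hs, hhs⟩ := hstar K hK
  obtain ⟨i, hi⟩ := hdom hs
  obtain ⟨x, hx1, hx2⟩ := meets_all K hK hKp hs hhs (w i)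
    (by have h1 := wrec_zero (h i) (g i); have h2 := hi 0; simp only [hw]; omega)
    (by
      intro n
      have h1 := wrec_succ (h i) (g i) n
      have h2 := hi (w i n + n + 1)
      simp only [hw] at h2 ⊢
      omega)
    (by
      intro n
      have h1 := wrec_succ (h i) (g i) n
      simp only [hw]
      omega)
  exact (Set.disjoint_left.1 hdis hx1) (mem_iUnion.2 ⟨i, hx2⟩)

theorem freq_null (w : ℕ → ℕ) : nu id {x | ∃ᶠ n in atTop, x ∈ Z (w n) n} = 0 := by
  apply measure_setOfPred_frequently_eq_zero (p := fun n x => x ∈ Z (w n) n)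
  refine ne_top_of_le_ne_top ?_ (ENNReal.tsum_le_tsum fun n => nu_id_Z (w n) n)
  have : ∑' n : ℕ, (2⁻¹ : ℝ≥0∞) ^ (n + 1) = 1 := ENNReal.tsum_geometric_add_one _ |>.trans (by
    rw [ENNReal.one_sub_inv_two, inv_inv]
    exact ENNReal.inv_mul_cancel (by norm_num) (by norm_num))
  rw [this]
  exact ENNReal.one_ne_top

theorem mix_null (G : Set C) (z : C) (hG : nu id G = 0) :
    nu (fun n => 2 * n) ((fun y => mix y z) '' G) = 0 := by
  apply nu_zero strictMono_two
  intro M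
  obtain ⟨c, n, -, hc, hs⟩ := nu_cover strictMono_id G 0 (ε := 2⁻¹ ^ M) (by simp)
    (by rw [hG]; simp)
  rw [hG, mul_zero, zero_add] at hs
  refine ⟨ℕ, inferInstance, fun j => mix (c j) z, n, ?_, hs⟩
  rintro _ ⟨y, hy, rfl⟩
  obtain ⟨j, hj⟩ := hc y hy
  refine ⟨j, mem_cyl_mix ?_ ?_⟩
  · rw [ev_mix]; exact hj
  · rw [od_mix]; exact mem_cyl_self _ _

/-- Under `(∗)`, `𝔟 = ℵ₁` is impossible. -/
theorem bNum_ne_aleph1 (H : FinPos) : bNum ≠ ℵ₁ := by
  intro heq
  obtain ⟨I, s, wo, w, hI, hub, hsc, hlt⟩ := exists_scale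
  have hnull := family_null H I (fun i => {x | ∃ᶠ n in atTop, x ∈ Z (w i n) n}) w (fun f => by
    obtain ⟨j, hj⟩ := hsc f
    have hcount : {i | s i j}.Countable := by
      rw [← Cardinal.le_aleph0_iff_set_countable, ← Order.lt_succ_iff, Cardinal.succ_aleph0, ← heq]
      exact hlt j
    refine le_antisymm ((measure_mono (t := ⋃ i ∈ {i | s i j},
      (fun y => mix y (code (w i))) '' {x | ∃ᶠ n in atTop, x ∈ Z (w i n) n}) ?_).trans ?_) bot_le
    · rintro x ⟨i, y, hy, rfl, hi⟩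
      exact mem_biUnion (hj i hi) ⟨y, hy, rfl⟩
    · rw [nonpos_iff_eq_zero, measure_biUnion_null_iff hcount]
      intro i _
      exact mix_null _ _ (freq_null _))
  obtain ⟨K, hK, hKp, hdis⟩ := exists_closed_of_null _ hnull
  obtain ⟨hs, hhs⟩ := hstar K hK
  obtain ⟨i, hi⟩ := hub hs
  obtain ⟨x, hx1, hx2⟩ := meets_freq K hK hKp hs hhs (w i) hi
  exact (Set.disjoint_left.1 hdis hx1) (mem_iUnion.2 ⟨i, hx2⟩)

theorem main (H : FinPos) : ℵ₁ < bNum ∧ bNum < nonNull ∧ nonNull < dNum := by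
  refine ⟨?_, ?_, not_le.1 (not_dNum_le_nonNull H)⟩
  · refine lt_of_le_of_ne ?_ (bNum_ne_aleph1 H).symm
    rw [← Cardinal.succ_aleph0, Order.succ_le_iff]
    exact aleph0_lt_bNum
  · exact lt_of_le_of_ne (not_lt.1 (not_nonNull_lt_bNum H)) (nonNull_ne_bNum H).symm

end Pool.Agent.Helper454.Haus
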