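import Pool.Agent.Helper454.HausT1

open MeasureTheory Set Filter Topology Cardinal
open scoped ENNReal

namespace Pool.Agent.Helper454.Haus

/-! ### Interleaving -/

def ev (x : C) : C := fun i => x (2 * i)
def od (x : C) : C := fun i => x (2 * i + 1)
def mix (y z : C) : C := fun k => if k % 2 = 0 then y (k / 2) else z (k / 2)

@[simp] theorem ev_mix (y z : C) : ev (mix y z) = y := by
  ext i
  have h1 : (2 * i) % 2 = 0 := by omega
  have h2 : (2 * i) / 2 = i := by omega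
  simp [ev, mix]

@[simp] theorem od_mix (y z : C) : od (mix y z) = z := by
  ext i
  have h1 : ¬ (2 * i + 1) % 2 = 0 := by omega
  have h2 : (2 * i + 1) / 2 = i := by omega
  simp only [od, mix, h1, if_false, h2]

theorem ev_cyl {x c : C} {n k : ℕ} (h : x ∈ cyl c k) (hk : 2 * n ≤ k) : ev x ∈ cyl (ev c) n :=
  fun i hi => h (2 * i) (by omega)

theorem od_cyl {x c : C} {n k : ℕ} (h : x ∈ cyl c k) (hk : 2 * n ≤ k) : od x ∈ cyl (od c) n :=
  fun i hi => h (2 * i + 1) (by omega)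

theorem mem_cyl_mix {x y z : C} {n : ℕ} (h1 : ev x ∈ cyl y n) (h2 : od x ∈ cyl z n) :
    x ∈ cyl (mix y z) (2 * n) := by
  intro k hk
  unfold mix
  split_ifs with h
  · have := h1 (k / 2) (by omega)
    unfold ev at this
    rw [← this]; congr 1; omega
  · have := h2 (k / 2) (by omega)
    unfold od at this
    rw [← this]; congr 1; omega

/-! ### Coding of functions -/

def code (w : ℕ → ℕ) : C := fun k => decide (w (Nat.unpair k).1 = (Nat.unpair k).2)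

theorem code_pair (w : ℕ → ℕ) (n a : ℕ) : code w (Nat.pair n a) = true ↔ w n = a := by
  simp [code]

def EE (n m : ℕ) : Set C := {x | ∃ a ≤ m, od x (Nat.pair n a) = true}

theorem mem_EE {y : C} {w : ℕ → ℕ} {n m : ℕ} : mix y (code w) ∈ EE n m ↔ w n ≤ m := by
  simp only [EE, mem_ofPred_eq, od_mix, code_pair]
  constructor
  · rintro ⟨a, ha, rfl⟩; exact ha
  · intro h; exact ⟨_, h, rfl⟩

theorem measurableSet_EE (n m : ℕ) : MeasurableSet (EE n m) := by
  have : EE n m = ⋃ a ∈ Iic m, (fun x : C => x (2 * (Nat.pair n a) + 1)) ⁻¹' {true} := by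
    ext x; simp [EE, od]
  rw [this]
  exact MeasurableSet.biUnion (to_countable _) fun a _ =>
    (measurable_pi_apply _) (measurableSet_singleton _)

theorem EE_mono (n : ℕ) : Monotone (EE n) := by
  rintro m m' h x ⟨a, ha, hx⟩
  exact ⟨a, ha.trans h, hx⟩

theorem EE_cover (A : Set C) (hA : ∀ x ∈ A, ∃ y w, x = mix y (code w)) (n : ℕ) :
    A ⊆ ⋃ m, EE n m := by
  intro x hx
  obtain ⟨y, w, rfl⟩ := hA x hx
  exact mem_iUnion.2 ⟨w n, mem_EE.2 le_rfl⟩

variable {r : ℕ → ℕ}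

theorem proj_null (hr : StrictMono r) (h2 : ∀ n, 2 * n ≤ r n) (A : Set C) (hA : nu r A = 0) :
    nu id (ev '' A) = 0 := by
  apply nu_zero strictMono_id
  intro M
  have hε : (2⁻¹ : ℝ≥0∞) ^ M ≠ 0 := by simp
  obtain ⟨c, n, -, hc, hs⟩ := nu_cover hr A 0 hε (by rw [hA]; simp)
  refine ⟨ℕ, inferInstance, fun j => ev (c j), n, ?_, ?_⟩
  · rintro _ ⟨x, hx, rfl⟩
    obtain ⟨j, hj⟩ := hc x hx
    exact ⟨j, ev_cyl hj (h2 _)⟩
  · rw [hA, mul_zero, zero_add] at hs; exact hs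

/-! ### Pulling back a nonnull set -/

noncomputable def dig (x : ℝ) : C := fun i => decide (⌊2 ^ (i + 1) * x⌋ % 2 = 1)

theorem floor_dig (x y : ℝ) (h0 : ⌊x⌋ = ⌊y⌋) : ∀ m : ℕ, (∀ i < m, dig x i = dig y i) →
    ⌊2 ^ m * x⌋ = ⌊2 ^ m * y⌋
  | 0, _ => by simpa using h0
  | m + 1, h => by
      have ih := floor_dig x y h0 m (fun i hi => h i (by omega))
      have hm := h m (by omega)
      unfold dig at hm
      rw [decide_eq_decide] at hm
      have key : ∀ z : ℝ, 2 * ⌊2 ^ m * z⌋ ≤ ⌊2 ^ (m + 1) * z⌋ ∧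
          ⌊2 ^ (m + 1) * z⌋ ≤ 2 * ⌊2 ^ m * z⌋ + 1 := by
        intro z
        have h1 := Int.floor_le ((2:ℝ) ^ m * z)
        have h2 := Int.lt_floor_add_one ((2:ℝ) ^ m * z)
        have h3 : (2:ℝ) ^ (m + 1) * z = 2 * (2 ^ m * z) := by ring
        constructor
        · rw [Int.le_floor]; push_cast; rw [h3]; linarith
        · rw [← Int.lt_add_one_iff, Int.floor_lt]; push_cast; rw [h3]; linarith
      have k1 := key x
      have k2 := key y
      rw [ih] at k1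
      omega

theorem dist_dig (x y : ℝ) (h0 : ⌊x⌋ = ⌊y⌋) (m : ℕ) (h : ∀ i < m, dig x i = dig y i) :
    |x - y| ≤ (1 / 2) ^ m := by
  have h1 := floor_dig x y h0 m h
  have h2 := Int.abs_sub_lt_one_of_floor_eq_floor h1
  rw [← mul_sub, abs_mul, abs_of_nonneg (by positivity)] at h2
  have h3 : (1 / 2 : ℝ) ^ m * 2 ^ m = 1 := by rw [← mul_pow]; norm_num
  have h4 : (0:ℝ) < (1 / 2) ^ m := by positivity
  calc |x - y| = (1 / 2) ^ m * (2 ^ m * |x - y|) := by rw [← mul_assoc, h3, one_mul]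
    _ ≤ (1 / 2) ^ m * 1 := by gcongr
    _ = (1 / 2) ^ m := mul_one _

theorem volume_zero_of_dig (X : Set ℝ) (h : nu id (dig '' X) = 0) : volume X = 0 := by
  have hk : ∀ k : ℤ, volume (X ∩ {x | ⌊x⌋ = k}) = 0 := by
    intro k
    refine le_antisymm ?_ bot_le
    refine ENNReal.le_of_forall_pos_le_add fun ε hε _ => ?_
    rw [zero_add]
    have hε' : (ε : ℝ≥0∞) ≠ 0 := by exact_mod_cast hε.ne'
    obtain ⟨c, n, -, hc, hs⟩ := nu_cover strictMono_id (dig '' X) 0 hε' (by rw [h]; simp)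
    rw [h, mul_zero, zero_add] at hs
    have hcov : X ∩ {x | ⌊x⌋ = k} ⊆ ⋃ j, {x | ⌊x⌋ = k ∧ dig x ∈ cyl (c j) (n j)} := by
      rintro x ⟨hx, hxk⟩
      obtain ⟨j, hj⟩ := hc _ ⟨x, hx, rfl⟩
      exact mem_iUnion.2 ⟨j, hxk, hj⟩
    refine (measure_mono hcov).trans ((measure_iUnion_le _).trans ?_)
    refine le_trans (ENNReal.tsum_le_tsum fun j => ?_) hs
    refine (Real.volume_le_diam _).trans ?_
    refine Metric.ediam_le ?_
    rintro x ⟨hx1, hx2⟩ y ⟨hy1, hy2⟩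
    rw [edist_dist, Real.dist_eq, ← ofReal_half_pow]
    apply ENNReal.ofReal_le_ofReal
    exact dist_dig x y (hx1.trans hy1.symm) _ (fun i hi => (hx2 i hi).trans (hy2 i hi).symm)
  have hcov : X ⊆ ⋃ k : ℤ, X ∩ {x | ⌊x⌋ = k} := fun x hx => mem_iUnion.2 ⟨⌊x⌋, hx, rfl⟩
  refine le_antisymm ((measure_mono hcov).trans ((measure_iUnion_le _).trans ?_)) bot_le
  simp [hk]

theorem exists_Y : ∃ Y : Set C, #Y ≤ nonNull ∧ nu id Y ≠ 0 := by
  obtain ⟨X, hX, hv⟩ := exists_nonNull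
  exact ⟨dig '' X, hX ▸ mk_image_le, fun h => hv (volume_zero_of_dig X h)⟩

/-! ### Cardinal characteristics -/

/-- Domination modulo finite sets. -/
def LeStar (f g : ℕ → ℕ) : Prop := ∀ᶠ n in atTop, f n ≤ g n

/-- `𝔟`, the bounding number. -/
noncomputable def bNum : Cardinal.{0} :=
  sInf {c | ∃ F : Set (ℕ → ℕ), #F = c ∧ ∀ g, ∃ f ∈ F, ¬ LeStar f g}

/-- `𝔡`, the dominating number. -/
noncomputable def dNum : Cardinal.{0} :=
  sInf {c | ∃ F : Set (ℕ → ℕ), #F = c ∧ ∀ g, ∃ f ∈ F, LeStar g f}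

theorem LeStar.trans {f g h : ℕ → ℕ} (h1 : LeStar f g) (h2 : LeStar g h) : LeStar f h := by
  filter_upwards [h1, h2] with n a b using a.trans b

theorem LeStar.of_le {f g : ℕ → ℕ} (h : ∀ n, f n ≤ g n) : LeStar f g := Eventually.of_forall h

theorem not_succ_leStar (g : ℕ → ℕ) : ¬ LeStar (fun n => g n + 1) g := by
  intro h
  obtain ⟨n, hn⟩ := h.exists
  exact absurd hn (Nat.not_succ_le_self (g n))

theorem exists_unbounded : ∃ F : Set (ℕ → ℕ), #F = bNum ∧ ∀ g, ∃ f ∈ F, ¬ LeStar f g := by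
  have hne : {c : Cardinal.{0} | ∃ F : Set (ℕ → ℕ), #F = c ∧ ∀ g, ∃ f ∈ F,
      ¬ LeStar f g}.Nonempty :=
    ⟨#(univ : Set (ℕ → ℕ)), univ, rfl, fun g => ⟨_, mem_univ _, not_succ_leStar g⟩⟩
  exact csInf_mem hne

theorem exists_dominating : ∃ F : Set (ℕ → ℕ), #F = dNum ∧ ∀ g, ∃ f ∈ F, LeStar g f := by
  have hne : {c : Cardinal.{0} | ∃ F : Set (ℕ → ℕ), #F = c ∧ ∀ g, ∃ f ∈ F,
      LeStar g f}.Nonempty :=
    ⟨#(univ : Set (ℕ → ℕ)), univ, rfl, fun g => ⟨g, mem_univ _, LeStar.of_le fun _ => le_rfl⟩⟩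
  exact csInf_mem hne

theorem bounded_of_lt {ι : Type} (φ : ι → ℕ → ℕ) (h : #ι < bNum) :
    ∃ g, ∀ i, LeStar (φ i) g := by
  by_contra hc
  push Not at hc
  have : bNum ≤ #(range φ) := by
    refine csInf_le' ⟨range φ, rfl, fun g => ?_⟩
    obtain ⟨i, hi⟩ := hc g
    exact ⟨φ i, ⟨i, rfl⟩, hi⟩
  exact absurd (this.trans mk_range_le) (not_le.2 h)

theorem not_dominating_of_lt {ι : Type} (φ : ι → ℕ → ℕ) (h : #ι < dNum) :
    ∃ g, ∀ i, ¬ LeStar g (φ i) := by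
  by_contra hc
  push Not at hc
  have : dNum ≤ #(range φ) := by
    refine csInf_le' ⟨range φ, rfl, fun g => ?_⟩
    obtain ⟨i, hi⟩ := hc g
    exact ⟨φ i, ⟨i, rfl⟩, hi⟩
  exact absurd (this.trans mk_range_le) (not_le.2 h)

theorem aleph0_lt_bNum : ℵ₀ < bNum := by
  by_contra hc
  push Not at hc
  obtain ⟨F, hF, hub⟩ := exists_unbounded
  rw [← hF, Cardinal.le_aleph0_iff_set_countable] at hc
  have hne : F.Nonempty := by obtain ⟨f, hf, _⟩ := hub (fun _ => 0); exact ⟨f, hf⟩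
  obtain ⟨e, he⟩ := hc.exists_eq_range hne
  obtain ⟨f, hf, hnot⟩ := hub (fun n => (Finset.range (n + 1)).sup (fun k => e k n))
  rw [he] at hf
  obtain ⟨k, rfl⟩ := hf
  apply hnot
  filter_upwards [eventually_ge_atTop k] with n hn
  exact Finset.le_sup (f := fun k => e k n) (Finset.mem_range.2 (by omega))

theorem bNum_le_dNum : bNum ≤ dNum := by
  obtain ⟨F, hF, hd⟩ := exists_dominating
  refine csInf_le' ⟨F, hF, fun g => ?_⟩
  obtain ⟨f, hf, hgf⟩ := hd (fun n => g n + 1)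
  exact ⟨f, hf, fun h => not_succ_leStar g (hgf.trans h)⟩

theorem dNum_le_continuum : dNum ≤ 𝔠 := by
  obtain ⟨F, hF, hd⟩ := exists_dominating
  rw [← hF]
  refine (mk_set_le F).trans ?_
  simp

/-- A well-ordered unbounded family. -/
theorem exists_scale : ∃ (I : Type) (s : I → I → Prop) (_ : IsWellOrder I s) (w : I → ℕ → ℕ),
    #I = bNum ∧ (∀ g, ∃ j, ¬ LeStar (w j) g) ∧
    (∀ g : ℕ → ℕ, ∃ j, ∀ i, (∀ n, w i n ≤ g n) → s i j) ∧ ∀ j, #{i // s i j} < bNum := by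
  obtain ⟨F, hF, hub⟩ := exists_unbounded
  obtain ⟨s, wo, hs⟩ := Cardinal.exists_ord_eq F
  have hlt : ∀ j : F, #{i // s i j} < bNum := by
    intro j
    have := Ordinal.typein_lt_type s j
    rw [← hs] at this
    have h2 := Cardinal.lt_ord.1 this
    rw [← hF]
    exact h2
  have hb : ∀ i : F, ∃ b : ℕ → ℕ, ∀ j : {j // s j i}, LeStar (j.1 : ℕ → ℕ) b := fun i =>
    bounded_of_lt (fun j : {j // s j i} => (j.1 : ℕ → ℕ)) (hlt i)
  choose b hb using hb
  refine ⟨F, s, wo, fun i n => max (b i n) (i.1 n), hF, ?_, ?_, hlt⟩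
  · intro g
    obtain ⟨f, hf, hfg⟩ := hub g
    refine ⟨⟨f, hf⟩, fun h => hfg ?_⟩
    exact (LeStar.of_le fun n => le_max_right _ _).trans h
  · intro g
    obtain ⟨f, hf, hfg⟩ := hub g
    refine ⟨⟨f, hf⟩, fun i hi => ?_⟩
    rcases trichotomous_of s i ⟨f, hf⟩ with h | h | h
    · exact h
    · exfalso
      subst h
      exact hfg (LeStar.of_le fun n => (le_max_right _ _).trans (hi n))
    · exfalso
      apply hfg
      refine LeStar.trans (hb i ⟨⟨f, hf⟩, h⟩) (LeStar.of_le fun n => (le_max_left _ _).trans (hi n))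

end Pool.Agent.Helper454.Haus
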