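import Pool.Agent.Helper454.HausBasic

open MeasureTheory Set Filter Topology Cardinal
open scoped ENNReal

namespace Pool.Agent.Helper454.Haus

noncomputable def lev (r : ℕ → ℕ) (t : ℝ) : ℕ := sInf {n | (1 / 3 : ℝ) ^ (r n) ≤ t}

noncomputable def fr (r : ℕ → ℕ) (t : ℝ) : ℝ := if 0 < t then (1 / 2) ^ (lev r t) else 0

variable {r : ℕ → ℕ}

theorem lev_exists (hr : StrictMono r) {t : ℝ} (ht : 0 < t) :
    {n | (1 / 3 : ℝ) ^ (r n) ≤ t}.Nonempty := by
  obtain ⟨n, hn⟩ := exists_pow_lt_of_lt_one ht (by norm_num : (1 / 3 : ℝ) < 1)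
  refine ⟨n, ?_⟩
  have : (1 / 3 : ℝ) ^ (r n) ≤ (1 / 3) ^ n :=
    pow_le_pow_of_le_one (by norm_num) (by norm_num) (hr.id_le n)
  exact this.trans hn.le

theorem lev_spec (hr : StrictMono r) {t : ℝ} (ht : 0 < t) : (1 / 3 : ℝ) ^ (r (lev r t)) ≤ t :=
  Nat.sInf_mem (lev_exists hr ht)

theorem lev_lt {t : ℝ} {n : ℕ} (h : n < lev r t) : t < (1 / 3 : ℝ) ^ (r n) := by
  by_contra hc
  exact Nat.notMem_of_lt_sInf h (not_lt.1 hc)

theorem lt_lev (hr : StrictMono r) {t : ℝ} (ht : 0 < t) {n : ℕ} (h : t < (1 / 3 : ℝ) ^ (r n)) :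
    n < lev r t := by
  by_contra hc
  push Not at hc
  have h1 := lev_spec hr ht
  have h2 : (1 / 3 : ℝ) ^ (r n) ≤ (1 / 3) ^ (r (lev r t)) :=
    pow_le_pow_of_le_one (by norm_num) (by norm_num) (hr.monotone hc)
  linarith

theorem lev_le {t : ℝ} {n : ℕ} (h : (1 / 3 : ℝ) ^ (r n) ≤ t) : lev r t ≤ n := Nat.sInf_le h

theorem lev_anti (hr : StrictMono r) {s t : ℝ} (hs : 0 < s) (h : s ≤ t) : lev r t ≤ lev r s :=
  lev_le ((lev_spec hr hs).trans h)

theorem le_lev (hr : StrictMono r) {t : ℝ} (ht : 0 < t) {n : ℕ} (h : t ≤ (1 / 3 : ℝ) ^ (r n)) :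
    n ≤ lev r t := by
  by_contra hc
  push Not at hc
  have h1 := lev_spec hr ht
  have h2 : (1 / 3 : ℝ) ^ (r n) < (1 / 3) ^ (r (lev r t)) :=
    pow_lt_pow_right_of_lt_one₀ (by norm_num) (by norm_num) (hr hc)
  linarith

theorem fr_le (hr : StrictMono r) {t : ℝ} {n : ℕ} (h : t ≤ (1 / 3 : ℝ) ^ (r n)) :
    fr r t ≤ (1 / 2) ^ n := by
  unfold fr
  split_ifs with ht
  · exact pow_le_pow_of_le_one (by norm_num) (by norm_num) (le_lev hr ht h)
  · positivity

theorem fr_isGauge (hr : StrictMono r) : IsGauge (fr r) where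
  zero := by simp [fr]
  pos := by
    intro t ht
    unfold fr; rw [if_pos ht]; positivity
  mono := by
    intro s t hs hst
    unfold fr
    split_ifs with h1 h2 h2
    · exact pow_le_pow_of_le_one (by norm_num) (by norm_num) (lev_anti hr h1 hst)
    · exact absurd (h1.trans_le hst) h2
    · positivity
    · exact le_rfl
  rightCts := by
    intro t ht
    rcases ht.eq_or_lt with rfl | ht
    · rw [Metric.continuousWithinAt_iff]
      intro ε hε
      obtain ⟨n, hn⟩ := exists_pow_lt_of_lt_one hε (by norm_num : (1 / 2 : ℝ) < 1)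
      refine ⟨(1 / 3) ^ (r n), by positivity, ?_⟩
      intro x hx hd
      have hx0 : (0:ℝ) ≤ x := hx
      rw [Real.dist_eq, sub_zero, abs_of_nonneg hx0] at hd
      have h1 := fr_le hr hd.le
      have h2 : 0 ≤ fr r x := by unfold fr; split_ifs <;> positivity
      have h3 : fr r 0 = 0 := by simp [fr]
      rw [h3, Real.dist_eq, sub_zero, abs_of_nonneg h2]
      linarith
    · have hev : ∀ᶠ s in 𝓝[Ici t] t, fr r s = fr r t := by
        have h1 : ∀ᶠ s in 𝓝 t, ∀ m ∈ Finset.range (lev r t), s < (1 / 3 : ℝ) ^ (r m) := by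
          rw [Filter.eventually_all_finset]
          intro m hm
          exact gt_mem_nhds (lev_lt (Finset.mem_range.1 hm))
        filter_upwards [mem_nhdsWithin_of_mem_nhds h1, self_mem_nhdsWithin] with s hs hs2
        have hst : t ≤ s := hs2
        have hs0 : 0 < s := ht.trans_le hst
        have : lev r s = lev r t := by
          apply le_antisymm (lev_anti hr ht hst)
          by_contra hc
          push Not at hc
          have h2 := hs (lev r s) (Finset.mem_range.2 hc)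
          have h3 := lev_spec hr hs0
          linarith
        unfold fr
        rw [if_pos ht, if_pos hs0, this]
      exact (continuousWithinAt_const (b := fr r t)).congr_of_eventuallyEq hev rfl

/-- The Hausdorff measure of gauge `fr r`, transported to the Cantor space. -/
noncomputable def nu (r : ℕ → ℕ) : Measure C := (Measure.mkMetric (gm (fr r))).comap iota

theorem nu_apply (r : ℕ → ℕ) (E : Set C) :
    nu r E = Measure.mkMetric (gm (fr r)) (iota '' E) :=
  iota_measEmb.comap_apply _ _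

theorem nu_eq_haus (hr : StrictMono r) (E : Set C) : nu r E = haus (fr r) (iota '' E) := by
  rw [nu_apply, haus_eq _ (fr_isGauge hr).zero]

theorem ofReal_half_pow (n : ℕ) : ENNReal.ofReal ((1 / 2 : ℝ) ^ n) = (2⁻¹ : ℝ≥0∞) ^ n := by
  rw [ENNReal.ofReal_pow (by norm_num)]
  congr 1
  rw [one_div, ENNReal.ofReal_inv_of_pos (by norm_num)]
  norm_num

theorem ediam_image_cyl (c : C) (n : ℕ) :
    Metric.ediam (iota '' cyl c n) ≤ ENNReal.ofReal ((1 / 3) ^ n) := by
  refine Metric.ediam_le ?_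
  rintro _ ⟨x, hx, rfl⟩ _ ⟨y, hy, rfl⟩
  rw [edist_dist, Real.dist_eq]
  apply ENNReal.ofReal_le_ofReal
  exact iota_upper n x y (fun i hi => (hx i hi).trans (hy i hi).symm)

/-- Upper bounds by covers. -/
theorem nu_le (hr : StrictMono r) (E : Set C) (a : ℝ≥0∞)
    (h : ∀ N : ℕ, ∃ (J : Type) (_ : Countable J) (c : J → C) (n : J → ℕ), (∀ j, N ≤ n j) ∧
      (∀ x ∈ E, ∃ j, x ∈ cyl (c j) (r (n j))) ∧ ∑' j, (2⁻¹ : ℝ≥0∞) ^ (n j) ≤ a) :
    nu r E ≤ a := by
  choose J hJ c n h1 h2 h3 using h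
  rw [nu_apply]
  have hlim : Tendsto (fun N : ℕ => ENNReal.ofReal ((1 / 3 : ℝ) ^ N)) atTop (𝓝 0) := by
    rw [← ENNReal.ofReal_zero]
    exact ENNReal.tendsto_ofReal
      (tendsto_pow_atTop_nhds_zero_of_lt_one (by norm_num) (by norm_num))
  refine (Measure.mkMetric_le_liminf_tsum (ι := J) (iota '' E) _ hlim
    (fun N j => iota '' (cyl (c N j) (r (n N j)))) ?_ ?_ _).trans ?_
  · refine Eventually.of_forall fun N j => (ediam_image_cyl _ _).trans ?_
    apply ENNReal.ofReal_le_ofReal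
    apply pow_le_pow_of_le_one (by norm_num) (by norm_num)
    exact (h1 N j).trans (hr.id_le _)
  · refine Eventually.of_forall fun N => ?_
    rintro _ ⟨x, hx, rfl⟩
    obtain ⟨j, hj⟩ := h2 N x hx
    exact mem_iUnion.2 ⟨j, x, hj, rfl⟩
  · have hle : ∀ N, ∑' j, gm (fr r) (Metric.ediam (iota '' (cyl (c N j) (r (n N j))))) ≤ a := by
      intro N
      refine le_trans (ENNReal.tsum_le_tsum fun j => ?_) (h3 N)
      rw [← ofReal_half_pow]
      unfold gm
      apply ENNReal.ofReal_le_ofReal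
      apply fr_le hr
      apply ENNReal.toReal_le_of_le_ofReal (by positivity)
      exact ediam_image_cyl _ _
    calc _ ≤ liminf (fun _ : ℕ => a) atTop := liminf_le_liminf (Eventually.of_forall hle)
      _ = a := liminf_const a

theorem le_of_half_pow_le {m n : ℕ} (h : (2⁻¹ : ℝ≥0∞) ^ m ≤ 2⁻¹ ^ n) : n ≤ m := by
  by_contra hc
  push Not at hc
  rw [← ofReal_half_pow, ← ofReal_half_pow, ENNReal.ofReal_le_ofReal_iff (by positivity)] at h
  have := pow_lt_pow_right_of_lt_one₀ (by norm_num : (0:ℝ) < 1 / 2) (by norm_num) hc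
  linarith

theorem nu_zero (hr : StrictMono r) (E : Set C)
    (h : ∀ M : ℕ, ∃ (J : Type) (_ : Countable J) (c : J → C) (n : J → ℕ),
      (∀ x ∈ E, ∃ j, x ∈ cyl (c j) (r (n j))) ∧ ∑' j, (2⁻¹ : ℝ≥0∞) ^ (n j) ≤ 2⁻¹ ^ M) :
    nu r E = 0 := by
  have key : ∀ M : ℕ, nu r E ≤ 2⁻¹ ^ M := by
    intro M
    apply nu_le hr
    intro N
    obtain ⟨J, hJ, c, n, h1, h2⟩ := h (max M N)
    refine ⟨J, hJ, c, n, ?_, h1, h2.trans ?_⟩
    · intro j
      have h3 := (ENNReal.le_tsum j).trans h2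
      exact (le_max_right M N).trans (le_of_half_pow_le h3)
    · exact pow_le_pow_of_le_one (by simp) (by norm_num) (le_max_left _ _)
  have hlim : Tendsto (fun M : ℕ => (2⁻¹ : ℝ≥0∞) ^ M) atTop (𝓝 0) :=
    ENNReal.tendsto_pow_atTop_nhds_zero_of_lt_one (by norm_num)
  exact le_antisymm (ge_of_tendsto' hlim key) bot_le

/-- Covers from the measure. -/
theorem nu_cover (hr : StrictMono r) (E : Set C) (N : ℕ) {ε : ℝ≥0∞} (hε : ε ≠ 0)
    (hfin : nu r E ≠ ⊤) : ∃ (c : ℕ → C) (n : ℕ → ℕ), (∀ j, N ≤ n j) ∧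
      (∀ x ∈ E, ∃ j, x ∈ cyl (c j) (r (n j))) ∧
      ∑' j, (2⁻¹ : ℝ≥0∞) ^ (n j) ≤ 2 * nu r E + ε := by
  have hε4 : ε / 4 ≠ 0 := by simp [hε]
  have hδ : 0 < ((1 / 3 : ℝ) ^ (r N) / 2) := by positivity
  have h1 := nu_apply r E
  rw [Measure.mkMetric_apply] at h1
  have h2 : (⨅ (t : ℕ → Set ℝ) (_ : iota '' E ⊆ iUnion t)
      (_ : ∀ n, Metric.ediam (t n) ≤ ENNReal.ofReal ((1 / 3 : ℝ) ^ (r N) / 2)),
      ∑' n, ⨆ _ : (t n).Nonempty, gm (fr r) (Metric.ediam (t n))) < nu r E + ε / 4 := by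
    refine lt_of_le_of_lt ?_ (ENNReal.lt_add_right hfin hε4)
    rw [h1]
    exact le_iSup₂_of_le (ENNReal.ofReal ((1 / 3 : ℝ) ^ (r N) / 2)) (ENNReal.ofReal_pos.2 hδ) le_rfl
  simp only [iInf_lt_iff] at h2
  obtain ⟨t, ht1, ht2, ht3⟩ := h2
  -- small tail
  obtain ⟨M, hM⟩ : ∃ M : ℕ, (2⁻¹ : ℝ≥0∞) ^ M < ε / 4 := by
    have hlim : Tendsto (fun M : ℕ => (2⁻¹ : ℝ≥0∞) ^ M) atTop (𝓝 0) :=
      ENNReal.tendsto_pow_atTop_nhds_zero_of_lt_one (by norm_num)
    exact (hlim.eventually (gt_mem_nhds (pos_iff_ne_zero.2 hε4))).exists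
  classical
  set d : ℕ → ℝ := fun j => (Metric.ediam (t j)).toReal with hd
  have hdle : ∀ j, d j ≤ (1 / 3 : ℝ) ^ (r N) / 2 := fun j =>
    ENNReal.toReal_le_of_le_ofReal hδ.le (ht2 j)
  set n : ℕ → ℕ := fun j => if 0 < d j then lev r (d j) - 1 else N + M + j with hn
  set c : ℕ → C := fun j => if h : ∃ x ∈ E, iota x ∈ t j then h.choose else fun _ => false with hc
  have hlevpos : ∀ j, 0 < d j → N < lev r (d j) := by
    intro j hj
    apply lt_lev hr hj
    have := hdle j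
    have h3 : (0:ℝ) < (1 / 3) ^ (r N) := by positivity
    linarith
  have hdn : ∀ j, d j < (1 / 3 : ℝ) ^ (r (n j)) := by
    intro j
    by_cases hj : 0 < d j
    · have : n j = lev r (d j) - 1 := by simp [hn, hj]
      rw [this]
      apply lev_lt
      have := hlevpos j hj
      omega
    · have h3 : d j ≤ 0 := not_lt.1 hj
      exact h3.trans_lt (by positivity)
  refine ⟨c, n, ?_, ?_, ?_⟩
  · intro j
    by_cases hj : 0 < d j
    · have h3 : n j = lev r (d j) - 1 := by simp [hn, hj]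
      have := hlevpos j hj
      omega
    · have h3 : n j = N + M + j := by simp [hn, hj]
      omega
  · intro x hx
    obtain ⟨j, hj⟩ := mem_iUnion.1 (ht1 ⟨x, hx, rfl⟩)
    refine ⟨j, ?_⟩
    have hex : ∃ x ∈ E, iota x ∈ t j := ⟨x, hx, hj⟩
    have hcj : c j = hex.choose := by simp only [hc]; rw [dif_pos hex]
    have hcs := hex.choose_spec.2
    rw [← hcj] at hcs
    by_contra hcon
    have h3 := iota_lower (r (n j)) x (c j) hcon
    have h4 : |iota x - iota (c j)| ≤ d j := by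
      rw [← Real.dist_eq, dist_edist]
      apply ENNReal.toReal_mono
      · exact ne_top_of_le_ne_top ENNReal.ofReal_ne_top (ht2 j)
      · exact Metric.edist_le_ediam_of_mem hj hcs
    have := hdn j
    linarith
  · have hterm : ∀ j, (2⁻¹ : ℝ≥0∞) ^ (n j) ≤
        2 * (⨆ _ : (t j).Nonempty, gm (fr r) (Metric.ediam (t j))) + 2⁻¹ ^ (M + j) := by
      intro j
      by_cases hj : 0 < d j
      · refine le_add_right ?_
        have hne : (t j).Nonempty := by
          rw [nonempty_iff_ne_empty]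
          rintro he
          have : d j = 0 := by simp [hd, he]
          linarith
        have h3 : (⨆ _ : (t j).Nonempty, gm (fr r) (Metric.ediam (t j))) =
            gm (fr r) (Metric.ediam (t j)) := by simp [hne]
        rw [h3]
        have h4 : gm (fr r) (Metric.ediam (t j)) = (2⁻¹ : ℝ≥0∞) ^ (lev r (d j)) := by
          unfold gm fr
          rw [if_pos hj, ofReal_half_pow]
        have h5 : n j = lev r (d j) - 1 := by simp [hn, hj]
        have h6 : lev r (d j) = (lev r (d j) - 1) + 1 := by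
          have := hlevpos j hj; omega
        rw [h4, h5]
        conv_rhs => rw [h6]
        rw [pow_succ, mul_comm _ (2⁻¹ : ℝ≥0∞), ← mul_assoc,
          ENNReal.mul_inv_cancel (by norm_num) (by norm_num), one_mul]
      · refine le_add_left ?_
        have h3 : n j = N + M + j := by simp [hn, hj]
        rw [h3]
        exact pow_le_pow_of_le_one (by simp) (by norm_num) (by omega)
    calc ∑' j, (2⁻¹ : ℝ≥0∞) ^ (n j)
        ≤ ∑' j, (2 * (⨆ _ : (t j).Nonempty, gm (fr r) (Metric.ediam (t j))) + 2⁻¹ ^ (M + j)) :=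
          ENNReal.tsum_le_tsum hterm
      _ = 2 * (∑' j, ⨆ _ : (t j).Nonempty, gm (fr r) (Metric.ediam (t j))) +
          2⁻¹ ^ M * ∑' j : ℕ, 2⁻¹ ^ j := by
          rw [ENNReal.tsum_add, ENNReal.tsum_mul_left]
          congr 1
          rw [← ENNReal.tsum_mul_left]
          exact tsum_congr fun j => by rw [pow_add]
      _ ≤ 2 * (nu r E + ε / 4) + ε / 4 * 2 := by
          gcongr
          rw [ENNReal.tsum_geometric, ENNReal.one_sub_inv_two, inv_inv]
      _ = 2 * nu r E + ε := by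
          rw [mul_add, add_assoc]
          congr 1
          rw [mul_comm (ε / 4) 2, ← two_mul, ← mul_assoc]
          norm_num
          rw [ENNReal.mul_div_cancel (by norm_num) (by norm_num)]

end Pool.Agent.Helper454.Haus
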