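import Pool.Agent.Helper454.HausIns

open MeasureTheory Set Filter Topology Cardinal
open scoped ENNReal

namespace Pool.Agent.Helper454.Haus

theorem exists_positions (f : ℝ → ℝ)
    (hlim : Tendsto (fun t => f t / t) (𝓝[>] 0) atTop) :
    ∃ P : ℕ → ℕ, StrictMono P ∧ ∀ k t, 0 < t → t ≤ (1 / 2) ^ (P k) → 2 ^ (k + 1) * t ≤ f t := by
  have h1 : ∀ k : ℕ, ∃ m : ℕ, ∀ t : ℝ, 0 < t → t ≤ (1 / 2) ^ m → 2 ^ (k + 1) * t ≤ f t := by
    intro k
    have h2 := (tendsto_atTop.1 hlim) (2 ^ (k + 1))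
    rw [eventually_nhdsWithin_iff, Metric.eventually_nhds_iff] at h2
    obtain ⟨δ, hδ, h3⟩ := h2
    obtain ⟨m, hm⟩ := exists_pow_lt_of_lt_one hδ (by norm_num : (1 / 2 : ℝ) < 1)
    refine ⟨m, fun t ht htm => ?_⟩
    have h4 := h3 (y := t) (by
      rw [Real.dist_eq, sub_zero, abs_of_pos ht]; exact htm.trans_lt hm) ht
    rwa [le_div_iff₀ ht] at h4
  choose Q hQ using h1
  refine ⟨fun k => ∑ j ∈ Finset.range (k + 1), (Q j + 1), ?_, ?_⟩
  · apply strictMono_nat_of_lt_succ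
    intro n
    rw [Finset.sum_range_succ _ (n + 1)]
    omega
  · intro k t ht htk
    apply hQ k t ht
    refine htk.trans ?_
    apply pow_le_pow_of_le_one (by norm_num) (by norm_num)
    have := Finset.single_le_sum (f := fun j => Q j + 1) (s := Finset.range (k + 1))
      (fun i _ => Nat.zero_le _) (Finset.mem_range.2 (Nat.lt_succ_self k))
    show Q k ≤ ∑ j ∈ Finset.range (k + 1), (Q j + 1)
    omega

theorem half_pow_split (c g m : ℕ) (h : c + g = m) :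
    ((1:ℝ) / 2) ^ g = (1 / 2) ^ m * 2 ^ c := by
  subst h
  rw [pow_add, mul_comm ((1 / 2 : ℝ) ^ c), mul_assoc, ← mul_pow]
  norm_num

theorem volume_piece (P : ℕ → ℕ) (Y : Set ℝ) (k : ℤ) (hk : ∀ y ∈ Y, ⌊y⌋ = k) (z : Y → C)
    (a : Y → ℝ) (ha : ∀ y : Y, dig (a y) = ins P (dig y) (z y)) (U : Set ℝ) (m : ℕ)
    (hU : ∀ p ∈ U, ∀ q ∈ U, |p - q| < (1 / 2) ^ m) :
    volume {x : ℝ | ∃ h : x ∈ Y, a ⟨x, h⟩ ∈ U} ≤ 2 * ENNReal.ofReal ((1 / 2) ^ (gg P m)) := by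
  set W : Set ℝ := {x : ℝ | ∃ h : x ∈ Y, a ⟨x, h⟩ ∈ U} with hW
  have hfl : ∀ p ∈ U, ∀ q ∈ U, ⌊2 ^ m * p⌋ ≤ ⌊2 ^ m * q⌋ + 1 := by
    intro p hp q hq
    have h1 := hU p hp q hq
    have h2 : (2:ℝ) ^ m * (1 / 2) ^ m = 1 := by rw [← mul_pow]; norm_num
    have h3 : (0:ℝ) < 2 ^ m := by positivity
    have h4 : 2 ^ m * p < 2 ^ m * q + 1 := by
      have h5 : p - q < (1 / 2) ^ m := lt_of_le_of_lt (le_abs_self _) h1
      have h6 : 2 ^ m * (p - q) < 2 ^ m * (1 / 2) ^ m := by gcongr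
      rw [h2] at h6
      linarith
    have h5 := Int.floor_le ((2:ℝ) ^ m * p)
    have h6 := Int.lt_floor_add_one ((2:ℝ) ^ m * q)
    have h7 : (⌊2 ^ m * p⌋ : ℝ) < ⌊2 ^ m * q⌋ + 1 + 1 := by linarith
    have h8 : ⌊2 ^ m * p⌋ < ⌊2 ^ m * q⌋ + 1 + 1 := by exact_mod_cast h7
    omega
  have hK : ∃ K : ℤ, ∀ p ∈ U, ⌊2 ^ m * p⌋ = K ∨ ⌊2 ^ m * p⌋ = K + 1 := by
    rcases U.eq_empty_or_nonempty with he | ⟨p0, hp0⟩
    · exact ⟨0, fun p hp => by rw [he] at hp; exact absurd hp (notMem_empty p)⟩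
    · by_cases hall : ∀ p ∈ U, ⌊2 ^ m * p0⌋ ≤ ⌊2 ^ m * p⌋
      · refine ⟨⌊2 ^ m * p0⌋, fun p hp => ?_⟩
        have h1 := hall p hp
        have h2 := hfl p hp p0 hp0
        omega
      · push Not at hall
        obtain ⟨p1, hp1, h1⟩ := hall
        refine ⟨⌊2 ^ m * p1⌋, fun p hp => ?_⟩
        have h2 := hfl p hp p1 hp1
        have h3 := hfl p0 hp0 p hp
        omega
  obtain ⟨K, hK⟩ := hK
  have hpiece : ∀ K' : ℤ, volume {x : ℝ | ∃ h : x ∈ Y, a ⟨x, h⟩ ∈ U ∧ ⌊2 ^ m * a ⟨x, h⟩⌋ = K'} ≤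
      ENNReal.ofReal ((1 / 2) ^ (gg P m)) := by
    intro K'
    refine (Real.volume_le_diam _).trans (Metric.ediam_le ?_)
    rintro x ⟨hx, -, hx2⟩ y ⟨hy, -, hy2⟩
    rw [edist_dist, Real.dist_eq]
    apply ENNReal.ofReal_le_ofReal
    apply dist_dig x y ((hk x hx).trans (hk y hy).symm)
    have h1 := dig_of_floor (a ⟨x, hx⟩) (a ⟨y, hy⟩) m (hx2.trans hy2.symm)
    rw [ha, ha] at h1
    exact ins_agree P _ _ _ _ m h1
  have hsub : W ⊆ {x : ℝ | ∃ h : x ∈ Y, a ⟨x, h⟩ ∈ U ∧ ⌊2 ^ m * a ⟨x, h⟩⌋ = K} ∪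
      {x : ℝ | ∃ h : x ∈ Y, a ⟨x, h⟩ ∈ U ∧ ⌊2 ^ m * a ⟨x, h⟩⌋ = K + 1} := by
    rintro x ⟨hx, hx2⟩
    rcases hK _ hx2 with h | h
    · exact Or.inl ⟨hx, hx2, h⟩
    · exact Or.inr ⟨hx, hx2, h⟩
  refine (measure_mono hsub).trans ((measure_union_le _ _).trans ?_)
  rw [two_mul]
  exact add_le_add (hpiece _) (hpiece _)

theorem haus_pos_of_decode (f : ℝ → ℝ) (hf : IsGauge f) (P : ℕ → ℕ) (hP : StrictMono P)
    (hPf : ∀ k t, 0 < t → t ≤ (1 / 2) ^ (P k) → 2 ^ (k + 1) * t ≤ f t)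
    (Y : Set ℝ) (hY : volume Y ≠ 0) (k : ℤ) (hk : ∀ y ∈ Y, ⌊y⌋ = k) (z : Y → C)
    (a : Y → ℝ) (ha : ∀ y : Y, dig (a y) = ins P (dig y) (z y)) :
    haus f (range a) ≠ 0 := by
  intro h0
  apply hY
  set δ : ℝ := (1 / 2) ^ (P 0 + 2) with hδ
  have hδ0 : 0 < δ := by positivity
  have h1 : hdelta f δ (range a) ≤ 0 := by
    rw [← h0]
    exact le_iSup₂_of_le (f := fun (δ : ℝ) (_ : 0 < δ) => hdelta f δ (range a)) δ hδ0 le_rfl
  refine le_antisymm ?_ bot_le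
  refine ENNReal.le_of_forall_pos_le_add fun ε hε _ => ?_
  rw [zero_add]
  have hε8 : (ε / 8 : ℝ≥0∞) ≠ 0 := by
    rw [ne_eq, ENNReal.div_eq_zero_iff]
    push Not
    exact ⟨by exact_mod_cast hε.ne', by norm_num⟩
  have h2 := lt_of_le_of_lt h1 (pos_iff_ne_zero.2 hε8)
  unfold hdelta at h2
  simp only [iInf_lt_iff] at h2
  obtain ⟨U, hU1, hU2, hU3⟩ := h2
  obtain ⟨η, hη, hηs⟩ := ENNReal.exists_pos_sum_of_countable hε8 ℕ
  set W : ℕ → Set ℝ := fun i => {x : ℝ | ∃ h : x ∈ Y, a ⟨x, h⟩ ∈ U i} with hW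
  have hcov : Y ⊆ ⋃ i, W i := by
    intro y hy
    obtain ⟨i, hi⟩ := mem_iUnion.1 (hU1 ⟨⟨y, hy⟩, rfl⟩)
    exact mem_iUnion.2 ⟨i, hy, hi⟩
  have hbound : ∀ i, volume (W i) ≤ 4 * (ENNReal.ofReal (f (Metric.diam (U i))) + η i) := by
    intro i
    set d := Metric.diam (U i) with hd
    have hd0 : 0 ≤ d := Metric.diam_nonneg
    have hdδ : d ≤ δ := ENNReal.toReal_le_of_le_ofReal hδ0.le (hU2 i)
    -- choose t slightly bigger than d
    have hη0 : (0:ℝ) < η i := by exact_mod_cast hη i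
    have hev1 : ∀ᶠ t in 𝓝[>] d, f t < f d + η i := by
      have := (hf.rightCts d hd0).mono (Ioi_subset_Ici_self)
      exact this.eventually (gt_mem_nhds (by linarith))
    have hev2 : ∀ᶠ t in 𝓝[>] d, t < 2 * δ :=
      mem_nhdsWithin_of_mem_nhds (gt_mem_nhds (by linarith))
    obtain ⟨t, ⟨ht1, ht2⟩, ht3⟩ := ((hev1.and hev2).and self_mem_nhdsWithin).exists
    have ht3' : d < t := ht3
    have ht0 : 0 < t := hd0.trans_lt ht3'
    have h2δ : 2 * δ = (1 / 2) ^ (P 0 + 1) := by rw [hδ, pow_succ _ (P 0 + 1)]; ring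
    have ht1' : t ≤ 1 := by
      rw [h2δ] at ht2
      exact ht2.le.trans (pow_le_one₀ (by norm_num) (by norm_num))
    obtain ⟨m, hm1, hm2⟩ := exists_nat_pow_near_of_lt_one ht0 ht1'
      (by norm_num : (0:ℝ) < 1 / 2) (by norm_num)
    have hPm : P 0 < m := by
      by_contra hc
      push Not at hc
      have : ((1:ℝ) / 2) ^ (P 0 + 1) ≤ (1 / 2) ^ (m + 1) :=
        pow_le_pow_of_le_one (by norm_num) (by norm_num) (by omega)
      rw [h2δ] at ht2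
      linarith
    have hc0 := (cnt_iff P hP m 0).1 hPm
    have hPc : P (cnt P m - 1) < m := (cnt_iff P hP m _).2 (by omega)
    have hf1 := hPf (cnt P m - 1) t ht0 (hm2.trans
      (pow_le_pow_of_le_one (by norm_num) (by norm_num) hPc.le))
    rw [Nat.sub_add_cancel (by omega)] at hf1
    have hvol := volume_piece P Y k hk z a ha (U i) m (by
      intro p hp q hq
      have hne : Metric.ediam (U i) ≠ ⊤ := ne_top_of_le_ne_top ENNReal.ofReal_ne_top (hU2 i)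
      have h3 : |p - q| ≤ d := by
        rw [← Real.dist_eq]
        exact Metric.dist_le_diam_of_mem' hne hp hq
      exact h3.trans_lt (ht3'.trans_le hm2))
    refine hvol.trans ?_
    have hgc : ((1:ℝ) / 2) ^ (gg P m) ≤ 2 * f t := by
      have h4 := cnt_add_gg P m
      have h5 : ((1:ℝ) / 2) ^ (gg P m) = (1 / 2) ^ m * 2 ^ (cnt P m) :=
        half_pow_split _ _ _ h4
      have h6 : ((1:ℝ) / 2) ^ m ≤ 2 * t := by
        rw [pow_succ] at hm1; linarith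
      rw [h5]
      calc ((1:ℝ) / 2) ^ m * 2 ^ (cnt P m) ≤ 2 * t * 2 ^ (cnt P m) := by gcongr
        _ = 2 * (2 ^ (cnt P m) * t) := by ring
        _ ≤ 2 * f t := by gcongr
    have hfd : 0 ≤ f d := by
      rcases hd0.eq_or_lt with h | h
      · rw [← h, hf.zero]
      · exact (hf.pos d h).le
    calc 2 * ENNReal.ofReal ((1 / 2) ^ (gg P m)) ≤ 2 * ENNReal.ofReal (2 * (f d + η i)) := by
          gcongr
          exact hgc.trans (by linarith)
      _ = 4 * (ENNReal.ofReal (f d) + η i) := by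
          rw [ENNReal.ofReal_mul (by norm_num), ENNReal.ofReal_add hfd hη0.le, ← mul_assoc]
          congr 1
          · norm_num
          · rw [ENNReal.ofReal_coe_nnreal]
  calc volume Y ≤ volume (⋃ i, W i) := measure_mono hcov
    _ ≤ ∑' i, volume (W i) := measure_iUnion_le _
    _ ≤ ∑' i, 4 * (ENNReal.ofReal (f (Metric.diam (U i))) + η i) := ENNReal.tsum_le_tsum hbound
    _ = 4 * (∑' i, ENNReal.ofReal (f (Metric.diam (U i))) + ∑' i, (η i : ℝ≥0∞)) := by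
        rw [ENNReal.tsum_mul_left, ENNReal.tsum_add]
    _ ≤ 4 * (ε / 8 + ε / 8) := by gcongr
    _ = ε := by
        rw [← two_mul, ← mul_assoc]
        norm_num
        rw [ENNReal.mul_div_cancel (by norm_num) (by norm_num)]

/-- For a gauge with `f t / t → ∞` there is a universally null set of positive `H^f`-measure. -/
theorem exists_unull_pos (f : ℝ → ℝ) (hf : IsGauge f)
    (hlim : Tendsto (fun t => f t / t) (𝓝[>] 0) atTop) :
    ∃ A : Set ℝ, A ⊆ Icc 0 1 ∧ UNull A ∧ haus f A ≠ 0 := by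
  obtain ⟨P, hP, hPf⟩ := exists_positions f hlim
  obtain ⟨X, hX, hXv⟩ := exists_nonNull
  obtain ⟨k, hkv⟩ : ∃ k : ℤ, volume (X ∩ {x | ⌊x⌋ = k}) ≠ 0 := by
    by_contra hc
    push Not at hc
    apply hXv
    have hcov : X ⊆ ⋃ k : ℤ, X ∩ {x | ⌊x⌋ = k} := fun x hx => mem_iUnion.2 ⟨⌊x⌋, hx, rfl⟩
    refine le_antisymm ((measure_mono hcov).trans ((measure_iUnion_le _).trans ?_)) bot_le
    simp [hc]
  set Y : Set ℝ := X ∩ {x | ⌊x⌋ = k} with hY
  have hYc : #Y ≤ nonNull := hX ▸ mk_le_mk_of_subset inter_subset_left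
  obtain ⟨s, wo, hs⟩ := Cardinal.exists_ord_eq Y
  have hseg : ∀ β : Y, #{α // s α β} < nonNull := by
    intro β
    have := Ordinal.typein_lt_type s β
    rw [← hs] at this
    exact lt_of_lt_of_le (Cardinal.lt_ord.1 this) hYc
  obtain ⟨R, hR, hR0, hRc⟩ := exists_code
  have hz : ∀ α : Y, ∃ z : C, ∀ β : Y, s β α → (z, (β : ℝ)) ∈ R := by
    intro α
    have hc : #(range fun β : {β // s β α} => ((β : Y) : ℝ)) < nonNull :=
      lt_of_le_of_lt mk_range_le (hseg α)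
    obtain ⟨z, hz⟩ := hRc _ (volume_zero_of_lt hc)
    exact ⟨z, fun β hβ => hz ⟨⟨β, hβ⟩, rfl⟩⟩
  choose z hz using hz
  set a : Y → ℝ := fun α => bb (ins P (dig α) (dbl (z α))) with ha
  have hdig : ∀ α : Y, dig (a α) = ins P (dig α) (dbl (z α)) := by
    intro α
    ext i
    exact dig_bb i _ (ins_zeros P hP _ _)
  refine ⟨range a, ?_, ?_, ?_⟩
  · rintro _ ⟨α, rfl⟩
    exact ⟨bb_nonneg _, bb_le_one _⟩
  · apply unull_of_decode Y hkv s hseg R hR hR0 a (fun x j => dig x (P (2 * j)))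
    · exact measurable_pi_lambda _ fun j => (measurable_pi_apply _).comp measurable_dig
    · intro α β hβ
      have h1 : (fun j => dig (a α) (P (2 * j))) = z α := by
        ext j
        rw [hdig, ins_P P hP, dbl_even]
      rw [h1]
      exact hz α β hβ
  · exact haus_pos_of_decode f hf P hP hPf Y hkv k (fun y hy => hy.2) (fun α => dbl (z α)) a hdig

end Pool.Agent.Helper454.Haus
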