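import Pool.Agent.Helper454.HausNu

open MeasureTheory Set Filter Topology Cardinal
open scoped ENNReal

namespace Pool.Agent.Helper454.Haus

/-- The statement `(∗)`. -/
def FinPos : Prop := ∀ f : ℝ → ℝ, IsGauge f → ∀ A : Set ℝ, 0 < haus f A →
  ∃ A₀ ⊆ A, 0 < haus f A₀ ∧ haus f A₀ < ⊤

/-- `non(N)`: the least cardinality of a set of reals that is not Lebesgue null. -/
noncomputable def nonNull : Cardinal.{0} :=
  sInf {c | ∃ X : Set ℝ, #X = c ∧ volume X ≠ 0}

theorem volume_zero_of_lt {X : Set ℝ} (h : #X < nonNull) : volume X = 0 := by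
  by_contra hc
  have : nonNull ≤ #X := csInf_le' ⟨X, rfl, hc⟩
  exact absurd h (not_lt.2 this)

theorem exists_nonNull : ∃ X : Set ℝ, #X = nonNull ∧ volume X ≠ 0 := by
  have hne : {c : Cardinal.{0} | ∃ X : Set ℝ, #X = c ∧ volume X ≠ 0}.Nonempty :=
    ⟨#(univ : Set ℝ), univ, rfl, by simp⟩
  exact csInf_mem hne

theorem measure_le_ediam (θ : Measure ℝ) [IsFiniteMeasure θ] [NullSingletonClass θ] (S t : Set ℝ)
    (h : ∀ x ∈ S, (θ (Iic x)).toReal ∈ t) : θ S ≤ Metric.ediam t := by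
  set hull : Set ℝ := {z | ∃ x ∈ S, ∃ y ∈ S, x ≤ z ∧ z ≤ y} with hhull
  have hSh : S ⊆ hull := fun x hx => ⟨x, hx, x, hx, le_rfl, le_rfl⟩
  have hoc : OrdConnected hull := by
    constructor
    rintro a ⟨x, hx, _, _, hxa, _⟩ b ⟨_, _, y, hy, _, hby⟩ z ⟨haz, hzb⟩
    exact ⟨x, hx, y, hy, hxa.trans haz, hzb.trans hby⟩
  refine (measure_mono hSh).trans ?_
  rw [hoc.measurableSet.measure_eq_iSup_isCompact]
  refine iSup_le fun K => iSup_le fun hK => iSup_le fun hKc => ?_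
  rcases K.eq_empty_or_nonempty with rfl | hne
  · simp
  · obtain ⟨x, hx, _, _, hxa, _⟩ := hK (hKc.sInf_mem hne)
    obtain ⟨_, _, y, hy, _, hby⟩ := hK (hKc.sSup_mem hne)
    have hKI : K ⊆ Icc x y := fun z hz =>
      ⟨hxa.trans (csInf_le hKc.bddBelow hz), (le_csSup hKc.bddAbove hz).trans hby⟩
    refine (measure_mono hKI).trans ?_
    have hxy : x ≤ y := (hKI (hKc.sInf_mem hne)).1.trans (hKI (hKc.sInf_mem hne)).2
    have e1 : θ (Icc x y) = θ (Ioc x y) := measure_congr Ioc_ae_eq_Icc.symm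
    have e2 : θ (Iic y) = θ (Iic x) + θ (Ioc x y) := by
      rw [← Iic_union_Ioc_eq_Iic hxy]
      exact measure_union (by
        rw [Set.disjoint_left]; intro z hz hz2; exact absurd hz2.1 (not_lt.2 hz)) measurableSet_Ioc
    have e3 : θ (Ioc x y) = ENNReal.ofReal ((θ (Iic y)).toReal - (θ (Iic x)).toReal) := by
      rw [e2, ENNReal.toReal_add (measure_ne_top _ _) (measure_ne_top _ _), add_sub_cancel_left,
        ENNReal.ofReal_toReal (measure_ne_top _ _)]
    rw [e1, e3]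
    refine le_trans ?_ (Metric.edist_le_ediam_of_mem (h y hy) (h x hx))
    rw [edist_dist, Real.dist_eq]
    exact ENNReal.ofReal_le_ofReal (le_abs_self _)

theorem measure_zero_of_cdf (θ : Measure ℝ) [IsFiniteMeasure θ] [NullSingletonClass θ] (X : Set ℝ)
    (h : volume ((fun x => (θ (Iic x)).toReal) '' X) = 0) : θ X = 0 := by
  set F : ℝ → ℝ := fun x => (θ (Iic x)).toReal with hF
  rw [← hausdorffMeasure_real, Measure.hausdorffMeasure_apply] at h
  have h1 : (⨅ (t : ℕ → Set ℝ) (_ : F '' X ⊆ ⋃ n, t n) (_ : ∀ n, Metric.ediam (t n) ≤ 1),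
          ∑' n, ⨆ _ : (t n).Nonempty, Metric.ediam (t n) ^ (1:ℝ)) ≤ 0 := by
    rw [← h]
    exact le_iSup₂_of_le (1 : ℝ≥0∞) one_pos le_rfl
  refine le_antisymm ?_ bot_le
  refine ENNReal.le_of_forall_pos_le_add fun ε hε _ => ?_
  rw [zero_add]
  have hε' : (0 : ℝ≥0∞) < ε := by exact_mod_cast hε
  have h2 := lt_of_le_of_lt h1 hε'
  simp only [iInf_lt_iff] at h2
  obtain ⟨t, ht1, -, ht3⟩ := h2
  have hcov : X ⊆ ⋃ n, X ∩ F ⁻¹' (t n) := by
    intro x hx
    obtain ⟨n, hn⟩ := mem_iUnion.1 (ht1 ⟨x, hx, rfl⟩)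
    exact mem_iUnion.2 ⟨n, hx, hn⟩
  calc θ X ≤ θ (⋃ n, X ∩ F ⁻¹' (t n)) := measure_mono hcov
    _ ≤ ∑' n, θ (X ∩ F ⁻¹' (t n)) := measure_iUnion_le _
    _ ≤ ∑' n, ⨆ _ : (t n).Nonempty, Metric.ediam (t n) ^ (1:ℝ) := by
        refine ENNReal.tsum_le_tsum fun n => ?_
        rcases (X ∩ F ⁻¹' (t n)).eq_empty_or_nonempty with he | ⟨x, hx⟩
        · rw [he]; simp
        · have hne : (t n).Nonempty := ⟨F x, hx.2⟩
          simp only [hne, iSup_pos, ENNReal.rpow_one]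
          exact measure_le_ediam θ _ _ (fun x hx => hx.2)
    _ ≤ ε := ht3.le

theorem haus_singleton {f : ℝ → ℝ} (hf : IsGauge f) (x : ℝ) : haus f {x} = 0 := by
  refine le_antisymm ?_ bot_le
  refine iSup₂_le fun δ hδ => ?_
  unfold hdelta
  refine iInf_le_of_le (fun _ => {x}) (iInf_le_of_le ?_ (iInf_le_of_le ?_ ?_))
  · intro y hy; exact mem_iUnion.2 ⟨0, hy⟩
  · intro i; simp
  · simp [hf.zero]

/-- Under `(∗)`, sets of size `< non(N)` are null for every gauge. -/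
theorem haus_zero_of_lt (H : FinPos) {f : ℝ → ℝ} (hf : IsGauge f) (X : Set ℝ)
    (hX : #X < nonNull) : haus f X = 0 := by
  by_contra hc
  obtain ⟨A₀, hA, hpos, hfin⟩ := H f hf X (pos_iff_ne_zero.2 hc)
  rw [haus_eq f hf.zero] at hpos hfin
  set μ : Measure ℝ := Measure.mkMetric (gm f) with hμ
  set θ := μ.restrict A₀ with hθ
  have : IsFiniteMeasure θ := ⟨by rw [hθ, Measure.restrict_apply_univ]; exact hfin⟩
  have : NullSingletonClass θ := ⟨fun x => by
    refine le_antisymm ?_ bot_le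
    rw [hθ, Measure.restrict_apply (measurableSet_singleton x)]
    refine (measure_mono inter_subset_left).trans ?_
    rw [hμ, ← haus_eq f hf.zero, haus_singleton hf]⟩
  have h0 : θ A₀ = 0 := by
    apply measure_zero_of_cdf
    apply volume_zero_of_lt
    exact lt_of_le_of_lt (mk_image_le.trans (mk_le_mk_of_subset hA)) hX
  rw [hθ, Measure.restrict_apply_self] at h0
  exact absurd h0 hpos.ne'

variable {r : ℕ → ℕ}

theorem nu_zero_of_lt (H : FinPos) (hr : StrictMono r) (E : Set C) (hE : #E < nonNull) :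
    nu r E = 0 := by
  rw [nu_eq_haus hr]
  exact haus_zero_of_lt H (fr_isGauge hr) _ (lt_of_le_of_lt mk_image_le hE)

theorem nu_finPos (H : FinPos) (hr : StrictMono r) (A : Set C) (hA : nu r A ≠ 0) :
    ∃ A₀ ⊆ A, nu r A₀ ≠ 0 ∧ nu r A₀ ≠ ⊤ := by
  rw [nu_eq_haus hr] at hA
  obtain ⟨B, hB, hpos, hfin⟩ := H (fr r) (fr_isGauge hr) (iota '' A) (pos_iff_ne_zero.2 hA)
  have hB2 : iota '' (A ∩ iota ⁻¹' B) = B := by
    ext b
    constructor
    · rintro ⟨x, ⟨_, hx⟩, rfl⟩; exact hx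
    · intro hb
      obtain ⟨x, hx, rfl⟩ := hB hb
      exact ⟨x, ⟨hx, hb⟩, rfl⟩
  refine ⟨A ∩ iota ⁻¹' B, inter_subset_left, ?_, ?_⟩
  · rw [nu_eq_haus hr, hB2]; exact hpos.ne'
  · rw [nu_eq_haus hr, hB2]; exact hfin.ne

/-- Lemma L: if `A` is covered by increasing measurable sets `E n m` for each `n`, and all the
selections are null, then (under `(∗)`) `A` is null. -/
theorem lemmaL (H : FinPos) (hr : StrictMono r) (A : Set C) (E : ℕ → ℕ → Set C)
    (hE : ∀ n m, MeasurableSet (E n m)) (hmono : ∀ n, Monotone (E n))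
    (hcov : ∀ n, A ⊆ ⋃ m, E n m) (h : ∀ g : ℕ → ℕ, nu r (A ∩ ⋂ n, E n (g n)) = 0) :
    nu r A = 0 := by
  by_contra hA
  obtain ⟨A₀, hA₀, hpos, hfin⟩ := nu_finPos H hr A hA
  set θ := (nu r).restrict A₀ with hθ
  have : IsFiniteMeasure θ :=
    ⟨by rw [hθ, Measure.restrict_apply_univ]; exact lt_top_iff_ne_top.2 hfin⟩
  obtain ⟨ε, hε, hsum⟩ := ENNReal.exists_pos_sum_of_countable hpos ℕ
  have hg : ∀ n, ∃ m, θ (E n m)ᶜ < ε n := by
    intro n
    have ht : Tendsto (fun m => θ (E n m)ᶜ) atTop (𝓝 (θ (⋂ m, (E n m)ᶜ))) := by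
      apply tendsto_measure_iInter_atTop
      · intro m; exact (hE n m).compl.nullMeasurableSet
      · intro a b hab; exact compl_subset_compl.2 (hmono n hab)
      · exact ⟨0, measure_ne_top _ _⟩
    have h0 : θ (⋂ m, (E n m)ᶜ) = 0 := by
      rw [hθ, Measure.restrict_apply (MeasurableSet.iInter fun m => (hE n m).compl)]
      have : (⋂ m, (E n m)ᶜ) ∩ A₀ = ∅ := by
        rw [← compl_iUnion]
        ext x
        simp only [mem_inter_iff, mem_compl_iff, mem_empty_iff_false, iff_false, not_and]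
        intro hx hx2
        exact hx (hcov n (hA₀ hx2))
      rw [this, measure_empty]
    rw [h0] at ht
    exact (ht.eventually (gt_mem_nhds (by exact_mod_cast hε n))).exists
  choose g hg using hg
  have h1 : θ (⋃ n, (E n (g n))ᶜ) < nu r A₀ :=
    lt_of_le_of_lt ((measure_iUnion_le _).trans (ENNReal.tsum_le_tsum fun n => (hg n).le)) hsum
  have h2 : nu r A₀ ≤ θ (⋃ n, (E n (g n))ᶜ) + nu r (A ∩ ⋂ n, E n (g n)) := by
    rw [hθ, Measure.restrict_apply (MeasurableSet.iUnion fun n => (hE n (g n)).compl)]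
    refine le_trans (measure_mono ?_) (measure_union_le _ _)
    intro x hx
    by_cases hx2 : x ∈ ⋂ n, E n (g n)
    · right; exact ⟨hA₀ hx, hx2⟩
    · left
      refine ⟨?_, hx⟩
      rw [← compl_iInter]; exact hx2
  rw [h g, add_zero] at h2
  exact absurd h1 (not_lt.2 h2)

end Pool.Agent.Helper454.Haus
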