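import Pool.Agent.Helper454.HausMix

open MeasureTheory Set Filter Topology Cardinal
open scoped ENNReal

namespace Pool.Agent.Helper454.Haus

theorem strictMono_two : StrictMono (fun n : ℕ => 2 * n) := fun a b h => by
  show 2 * a < 2 * b
  omega

/-- General consequence of Lemma L for families `A = ⋃ B_i × {code w_i}`. -/
theorem family_null (H : FinPos) (I : Type) (B : I → Set C) (w : I → ℕ → ℕ)
    (h : ∀ g : ℕ → ℕ, nu (fun n => 2 * n)
      {x | ∃ i, ∃ y ∈ B i, x = mix y (code (w i)) ∧ ∀ n, w i n ≤ g n} = 0) :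
    nu id (⋃ i, B i) = 0 := by
  set A : Set C := {x | ∃ i, ∃ y ∈ B i, x = mix y (code (w i))} with hA
  have hAn : nu (fun n => 2 * n) A = 0 := by
    apply lemmaL H strictMono_two A EE measurableSet_EE EE_mono
    · apply EE_cover
      rintro x ⟨i, y, _, rfl⟩
      exact ⟨y, w i, rfl⟩
    · intro g
      refine le_antisymm ((measure_mono ?_).trans (h g).le) bot_le
      rintro x ⟨⟨i, y, hy, rfl⟩, hx⟩
      refine ⟨i, y, hy, rfl, fun n => ?_⟩
      exact mem_EE.1 (mem_iInter.1 hx n)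
  have h2 := proj_null strictMono_two (fun n => le_rfl) A hAn
  refine le_antisymm ((measure_mono ?_).trans h2.le) bot_le
  intro y hy
  obtain ⟨i, hi⟩ := mem_iUnion.1 hy
  exact ⟨mix y (code (w i)), ⟨i, y, hi, rfl⟩, ev_mix _ _⟩

/-- Under `(∗)`, `non(N) ≠ 𝔟`. -/
theorem nonNull_ne_bNum (H : FinPos) : nonNull ≠ bNum := by
  intro heq
  obtain ⟨I, s, wo, w, hI, -, hsc, hlt⟩ := exists_scale
  obtain ⟨Y, hY, hYn⟩ := exists_Y
  rw [heq, ← hI] at hY
  obtain ⟨φ⟩ := hY
  set y : I → C := Function.extend φ Subtype.val (fun _ _ => false) with hy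
  apply hYn
  have h0 := family_null H I (fun i => {y i}) w (fun g => by
    obtain ⟨j, hj⟩ := hsc g
    apply nu_zero_of_lt H strictMono_two
    refine lt_of_le_of_lt ?_ (heq ▸ hlt j)
    refine le_trans (mk_le_mk_of_subset (t := range fun i : {i // s i j} =>
      mix (y i) (code (w i))) ?_) mk_range_le
    rintro x ⟨i, y', hy', rfl, hg⟩
    rw [mem_singleton_iff] at hy'
    exact ⟨⟨i, hj i hg⟩, by rw [hy']⟩)
  refine le_antisymm ((measure_mono ?_).trans h0.le) bot_le
  intro z hz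
  refine mem_iUnion.2 ⟨φ ⟨z, hz⟩, ?_⟩
  rw [mem_singleton_iff, hy, φ.injective.extend_apply]

end Pool.Agent.Helper454.Haus
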