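import Pool.Agent.Helper454.HausLam

open MeasureTheory Set Filter Topology Cardinal
open scoped ENNReal

namespace Pool.Agent.Helper454.Haus

variable {r : ℕ → ℕ}

theorem low_density_null (hr : StrictMono r) (A₀ : Set C) (hfin : nu r A₀ ≠ ⊤) :
    nu r {x ∈ A₀ | ∀ᶠ n in atTop, nu r (A₀ ∩ cyl x (r n)) < 2⁻¹ ^ n / 4} = 0 := by
  set EN : ℕ → Set C := fun N => {x ∈ A₀ | ∀ n ≥ N, nu r (A₀ ∩ cyl x (r n)) < 2⁻¹ ^ n / 4} with hEN
  have hcov : {x ∈ A₀ | ∀ᶠ n in atTop, nu r (A₀ ∩ cyl x (r n)) < 2⁻¹ ^ n / 4} ⊆ ⋃ N, EN N := by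
    rintro x ⟨hx, hx2⟩
    obtain ⟨N, hN⟩ := eventually_atTop.1 hx2
    exact mem_iUnion.2 ⟨N, hx, hN⟩
  refine le_antisymm ((measure_mono hcov).trans ((measure_iUnion_le _).trans ?_)) bot_le
  have hz : ∀ N, nu r (EN N) = 0 := by
    intro N
    by_contra hne
    set m := nu r (EN N) with hm
    have hmfin : m ≠ ⊤ := ne_top_of_le_ne_top hfin (measure_mono fun x hx => hx.1)
    obtain ⟨c, n, hn, hc, hs⟩ := nu_cover hr (EN N) N hne hmfin
    have h1 : m ≤ ∑' j, 2⁻¹ ^ (n j) / 4 := by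
      have hsub : EN N ⊆ ⋃ j, EN N ∩ cyl (c j) (r (n j)) := by
        intro x hx
        obtain ⟨j, hj⟩ := hc x hx
        exact mem_iUnion.2 ⟨j, hx, hj⟩
      refine (measure_mono hsub).trans ((measure_iUnion_le _).trans ?_)
      refine ENNReal.tsum_le_tsum fun j => ?_
      rcases (EN N ∩ cyl (c j) (r (n j))).eq_empty_or_nonempty with he | ⟨x, hx1, hx2⟩
      · rw [he]; simp
      · refine le_trans (measure_mono ?_) (hx1.2 (n j) (hn j)).le
        rw [cyl_eq_of_mem hx2]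
        exact inter_subset_inter_left _ fun y hy => hy.1
    have h2 : ∑' j, (2⁻¹ : ℝ≥0∞) ^ (n j) / 4 ≤ (2 * m + m) / 4 := by
      simp only [div_eq_mul_inv]
      rw [ENNReal.tsum_mul_right]
      gcongr
    have h3 := h1.trans h2
    have h4 : m = ENNReal.ofReal m.toReal := (ENNReal.ofReal_toReal hmfin).symm
    have hpos : 0 < m.toReal := ENNReal.toReal_pos hne hmfin
    have h5 : ((2 * m + m) / 4).toReal = (2 * m.toReal + m.toReal) / 4 := by
      rw [ENNReal.toReal_div, ENNReal.toReal_add (by finiteness) hmfin, ENNReal.toReal_mul]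
      norm_num
    have h6 : m.toReal ≤ (2 * m.toReal + m.toReal) / 4 := by
      rw [← h5]
      apply ENNReal.toReal_mono _ h3
      apply ENNReal.div_ne_top _ (by norm_num)
      finiteness
    linarith
  simp [hz]

theorem nu_id_univ : nu id (univ : Set C) ≤ 1 := by
  have : (univ : Set C) = cyl (fun _ => false) 0 := by ext x; simp [cyl]
  rw [this]
  simpa using nu_id_cyl (fun _ => false) 0

/-- Small null sets have good sequences of clopen covers. -/
theorem lemmaG (Z : Set C) (hZ : nu id Z = 0) (hcard : #Z < bNum) :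
    ∃ U : ℕ → TopologicalSpace.Clopens C, (∀ n, nu id (U n : Set C) ≤ 8⁻¹ ^ n) ∧
      ∀ z ∈ Z, ∀ᶠ n in atTop, z ∈ U n := by
  have h1 : ∀ n : ℕ, ∃ (c : ℕ → C) (l : ℕ → ℕ), (∀ x ∈ Z, ∃ j, x ∈ cyl (c j) (l j)) ∧
      ∑' j, (2⁻¹ : ℝ≥0∞) ^ (l j) ≤ 8⁻¹ ^ n := by
    intro n
    have hε : (8⁻¹ : ℝ≥0∞) ^ n ≠ 0 := by simp
    obtain ⟨c, l, -, hc, hs⟩ := nu_cover strictMono_id Z 0 hε (by rw [hZ]; simp)
    rw [hZ, mul_zero, zero_add] at hs
    exact ⟨c, l, hc, hs⟩
  choose c l hc hs using h1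
  choose! j hj using hc
  obtain ⟨g, hg⟩ := bounded_of_lt (fun (z : Z) n => j n z) hcard
  refine ⟨fun n => ⟨⋃ k ∈ Finset.range (g n + 1), cyl (c n k) (l n k),
    isClopen_biUnion_finset fun k _ => isClopen_cyl _ _⟩, ?_, ?_⟩
  · intro n
    refine (measure_biUnion_finset_le _ _).trans ?_
    refine (Finset.sum_le_sum fun k _ => nu_id_cyl _ _).trans ?_
    exact (ENNReal.sum_le_tsum _).trans (hs n)
  · intro z hz
    filter_upwards [hg ⟨z, hz⟩] with n hn
    show z ∈ ⋃ k ∈ Finset.range (g n + 1), cyl (c n k) (l n k)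
    simp only [Finset.mem_range, mem_iUnion]
    exact ⟨j n z, Nat.lt_succ_of_le hn, hj n z hz⟩

/-- a level function adapted to `p`. -/
def qlev (p : ℕ → ℕ) (k : ℕ) : ℕ := 2 * k + ∑ a ∈ Finset.range (p k + 1), (2 * Nat.pair k a + 2)

def rlev (p : ℕ → ℕ) (n : ℕ) : ℕ := n + ∑ k ∈ Finset.range (n + 1), qlev p k

theorem rlev_strictMono (p : ℕ → ℕ) : StrictMono (rlev p) := by
  apply strictMono_nat_of_lt_succ
  intro n
  unfold rlev
  rw [Finset.sum_range_succ _ (n + 1)]
  omega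

theorem qlev_le_rlev (p : ℕ → ℕ) (n : ℕ) : qlev p n ≤ rlev p n := by
  unfold rlev
  have := Finset.single_le_sum (f := qlev p) (s := Finset.range (n + 1))
    (fun i _ => Nat.zero_le _) (Finset.mem_range.2 (Nat.lt_succ_self n))
  omega

theorem two_mul_le_rlev (p : ℕ → ℕ) (n : ℕ) : 2 * n ≤ rlev p n := by
  have := qlev_le_rlev p n
  unfold qlev at this
  omega

theorem pair_lt_rlev (p : ℕ → ℕ) (n a : ℕ) (h : a ≤ p n) : 2 * Nat.pair n a + 1 < rlev p n := by
  have h1 := qlev_le_rlev p n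
  unfold qlev at h1
  have h2 := Finset.single_le_sum (f := fun a => 2 * Nat.pair n a + 2)
    (s := Finset.range (p n + 1)) (fun i _ => Nat.zero_le _) (Finset.mem_range.2 (Nat.lt_succ_of_le h))
  omega

/-- Under `(∗)`, `non(N) < 𝔟` is impossible. -/
theorem not_nonNull_lt_bNum (H : FinPos) : ¬ nonNull < bNum := by
  intro hlt
  obtain ⟨Y, hY, hYn⟩ := exists_Y
  obtain ⟨s, wo, hs⟩ := Cardinal.exists_ord_eq Y
  have hseg : ∀ β : Y, #{α // s α β} < nonNull := by
    intro β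
    have := Ordinal.typein_lt_type s β
    rw [← hs] at this
    exact lt_of_lt_of_le (Cardinal.lt_ord.1 this) hY
  -- initial segments as sets of points
  have hG : ∀ α : Y, ∃ U : ℕ → TopologicalSpace.Clopens C,
      (∀ n, nu id (U n : Set C) ≤ 8⁻¹ ^ n) ∧
      ∀ β : Y, s β α → ∀ᶠ n in atTop, (β : C) ∈ U n := by
    intro α
    have hc : #(range fun β : {β // s β α} => ((β : Y) : C)) < nonNull :=
      lt_of_le_of_lt mk_range_le (hseg α)
    obtain ⟨U, h1, h2⟩ := lemmaG _ (nu_zero_of_lt H strictMono_id _ hc) (hc.trans hlt)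
    exact ⟨U, h1, fun β hβ => h2 β ⟨⟨β, hβ⟩, rfl⟩⟩
  choose U hU1 hU2 using hG
  have hcount : Countable (TopologicalSpace.Clopens C) :=
    (TopologicalSpace.Clopens.countable_iff_secondCountable).2 inferInstance
  obtain ⟨enc, henc⟩ := hcount
  set E : Y → ℕ → ℕ := fun α n => enc (U α n) with hE
  obtain ⟨p, hp⟩ := bounded_of_lt E (lt_of_le_of_lt hY hlt)
  set r := rlev p with hr
  have hrm : StrictMono r := rlev_strictMono p
  set X : Y → C := fun α => mix α (code (E α)) with hX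
  set A : Set C := range X with hA
  have hAn : nu r A ≠ 0 := by
    intro h0
    apply hYn
    have := proj_null hrm (two_mul_le_rlev p) A h0
    refine le_antisymm ((measure_mono ?_).trans this.le) bot_le
    intro y hy
    exact ⟨X ⟨y, hy⟩, ⟨_, rfl⟩, by simp [hX]⟩
  obtain ⟨A₀, hA₀, hpos, hfin⟩ := nu_finPos H hrm A hAn
  set M := nu r A₀ with hM
  have hlow := low_density_null hrm A₀ hfin
  -- unboundedness
  have hunb : ∀ β : Y, ∃ α : Y, s β α ∧ ∃ᶠ n in atTop, 2⁻¹ ^ n / 4 ≤ nu r (A₀ ∩ cyl (X α) (r n)) := by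
    intro β
    by_contra hcon
    push Not at hcon
    apply hpos
    have hsub : A₀ ⊆ {x ∈ A₀ | ∀ᶠ n in atTop, nu r (A₀ ∩ cyl x (r n)) < 2⁻¹ ^ n / 4} ∪
        ((range fun α : {α // s α β} => X α) ∪ {X β}) := by
      intro x hx
      obtain ⟨α, rfl⟩ := hA₀ hx
      rcases trichotomous_of s α β with h | h | h
      · right; left; exact ⟨⟨α, h⟩, rfl⟩
      · right; right; rw [h]; rfl
      · left
        exact ⟨hx, hcon α h⟩
    refine le_antisymm ((measure_mono hsub).trans ((measure_union_le _ _).trans ?_)) bot_le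
    rw [hlow, zero_add]
    refine (measure_union_le _ _).trans ?_
    rw [nu_singleton hrm, add_zero]
    exact (nu_zero_of_lt H hrm _ (lt_of_le_of_lt mk_range_le (hseg β))).le
  -- the trap
  set T : ℕ → Set C := fun n => {y | ∃ α : Y, E α n ≤ p n ∧
    2⁻¹ ^ n / 4 ≤ nu r (A₀ ∩ cyl (X α) (r n)) ∧ y ∈ U α n} with hT
  have hTm : ∀ n, nu id (T n) ≤ 4 * M * 4⁻¹ ^ n := by
    intro n
    classical
    set W : Finset (Fin (r n) → Bool) := Finset.univ.filter (fun w => ∃ α : Y, E α n ≤ p n ∧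
      2⁻¹ ^ n / 4 ≤ nu r (A₀ ∩ cyl (X α) (r n)) ∧ res (r n) (X α) = w) with hW
    have hch : ∀ w : Fin (r n) → Bool, ∃ V : Set C, nu id V ≤ 8⁻¹ ^ n ∧
        ∀ α : Y, E α n ≤ p n → res (r n) (X α) = w → (U α n : Set C) ⊆ V := by
      intro w
      by_cases hw : ∃ α : Y, E α n ≤ p n ∧ res (r n) (X α) = w
      · obtain ⟨α₀, h1, h2⟩ := hw
        refine ⟨U α₀ n, hU1 _ _, fun α h3 h4 => ?_⟩
        have h5 : U α n = U α₀ n := by
          apply henc
          have h6 : X α (2 * Nat.pair n (E α₀ n) + 1) = X α₀ (2 * Nat.pair n (E α₀ n) + 1) := by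
            have := congrFun (h4.trans h2.symm) ⟨_, pair_lt_rlev p n _ h1⟩
            exact this
          have h7 : od (X α₀) (Nat.pair n (E α₀ n)) = true := by
            simp only [hX, od_mix, code_pair]
          have h8 : od (X α) (Nat.pair n (E α₀ n)) = true := by
            rw [← h7]; exact h6
          simp only [hX, od_mix, code_pair] at h8
          exact h8
        rw [h5]
      · exact ⟨∅, by simp, fun α h3 h4 => absurd ⟨α, h3, h4⟩ hw⟩
    choose V hV1 hV2 using hch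
    have hTsub : T n ⊆ ⋃ w ∈ W, V w := by
      rintro y ⟨α, h1, h2, h3⟩
      simp only [mem_iUnion]
      exact ⟨res (r n) (X α), Finset.mem_filter.2 ⟨Finset.mem_univ _, α, h1, h2, rfl⟩,
        hV2 _ α h1 rfl h3⟩
    have hcardW : (W.card : ℝ≥0∞) * (2⁻¹ ^ n / 4) ≤ M := by
      have h1 : ∀ w ∈ W, 2⁻¹ ^ n / 4 ≤ ((nu r).restrict A₀) (res (r n) ⁻¹' {w}) := by
        intro w hw
        obtain ⟨α, -, h2, h3⟩ := (Finset.mem_filter.1 hw).2
        have h4 : res (r n) ⁻¹' {w} = cyl (X α) (r n) := by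
          ext y
          constructor
          · intro hy i hi
            have hy' : res (r n) y = w := hy
            exact congrFun (hy'.trans h3.symm) ⟨i, hi⟩
          · intro hy
            rw [mem_preimage, mem_singleton_iff, ← h3]
            ext i
            exact hy i i.2
        rw [h4, Measure.restrict_apply (measurableSet_cyl _ _), inter_comm]
        exact h2
      have h2 : ∑ w ∈ W, ((nu r).restrict A₀) (res (r n) ⁻¹' {w}) ≤ M := by
        rw [sum_measure_preimage_singleton]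
        · refine (measure_mono (subset_univ _)).trans ?_
          rw [Measure.restrict_apply_univ]
        · intro w _
          have : Measurable (res (r n)) := measurable_pi_lambda _ fun i => measurable_pi_apply _
          exact this (measurableSet_singleton w)
      refine le_trans ?_ h2
      rw [← nsmul_eq_mul]
      exact Finset.card_nsmul_le_sum _ _ _ h1
    have h2n : (2⁻¹ : ℝ≥0∞) ^ n ≠ 0 := by simp
    have h2n' : (2⁻¹ : ℝ≥0∞) ^ n ≠ ⊤ := by finiteness
    calc nu id (T n) ≤ nu id (⋃ w ∈ W, V w) := measure_mono hTsub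
      _ ≤ ∑ w ∈ W, nu id (V w) := measure_biUnion_finset_le _ _
      _ ≤ ∑ _w ∈ W, 8⁻¹ ^ n := Finset.sum_le_sum fun w _ => hV1 w
      _ = (W.card : ℝ≥0∞) * 8⁻¹ ^ n := by rw [Finset.sum_const, nsmul_eq_mul]
      _ = 4 * ((W.card : ℝ≥0∞) * (2⁻¹ ^ n / 4)) * 4⁻¹ ^ n := by
          have h8 : (8⁻¹ : ℝ≥0∞) ^ n = 2⁻¹ ^ n * 4⁻¹ ^ n := by
            rw [← mul_pow, ← ENNReal.mul_inv (by norm_num) (by norm_num)]
            norm_num
          have h4 : (4 : ℝ≥0∞) * (2⁻¹ ^ n / 4) = 2⁻¹ ^ n :=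
            ENNReal.mul_div_cancel (by norm_num) (by norm_num)
          rw [h8]
          calc (W.card : ℝ≥0∞) * (2⁻¹ ^ n * 4⁻¹ ^ n) = W.card * (4 * (2⁻¹ ^ n / 4)) * 4⁻¹ ^ n := by
                rw [h4, mul_assoc]
            _ = _ := by ring
      _ ≤ 4 * M * 4⁻¹ ^ n := by gcongr
  apply hYn
  have hsum : ∑' n, nu id {y | y ∈ T n} ≠ ⊤ := by
    refine ne_top_of_le_ne_top ?_ (ENNReal.tsum_le_tsum hTm)
    rw [ENNReal.tsum_mul_left, ENNReal.tsum_geometric]
    apply ENNReal.mul_ne_top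
    · exact ENNReal.mul_ne_top (by norm_num) hfin
    · rw [ne_eq, ENNReal.inv_eq_top, tsub_eq_zero_iff_le, not_le]
      rw [ENNReal.inv_lt_one]
      norm_num
  have hlim := measure_setOfPred_frequently_eq_zero hsum
  refine le_antisymm ((measure_mono ?_).trans hlim.le) bot_le
  intro y hy
  obtain ⟨α, hα, hfreq⟩ := hunb ⟨y, hy⟩
  have h1 := hU2 α ⟨y, hy⟩ hα
  have h2 := hp α
  show ∃ᶠ n in atTop, y ∈ T n
  refine (hfreq.and_eventually (h1.and h2)).mono ?_
  rintro n ⟨a, b, c⟩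
  exact ⟨α, c, a, b⟩

end Pool.Agent.Helper454.Haus
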