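import Pool.Agent.Helper454.HausMix

open MeasureTheory Set Filter Topology Cardinal
open scoped ENNReal

namespace Pool.Agent.Helper454.Haus

/-- Universally null sets of reals. -/
def UNull (A : Set ℝ) : Prop :=
  ∀ μ : Measure ℝ, IsFiniteMeasure μ → (∀ x, μ {x} = 0) → μ A = 0

theorem unull_dichotomy {A : Set ℝ} (hA : UNull A) {g : ℝ → ℝ} (hg : IsGauge g) :
    ∀ A₀ ⊆ A, haus g A₀ = 0 ∨ haus g A₀ = ⊤ := by
  intro A₀ hA₀
  by_cases htop : haus g A₀ = ⊤
  · exact Or.inr htop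
  · left
    rw [haus_eq g hg.zero] at htop ⊢
    set μ : Measure ℝ := Measure.mkMetric (gm g) with hμ
    have h1 : IsFiniteMeasure (μ.restrict A₀) :=
      ⟨by rw [Measure.restrict_apply_univ]; exact lt_top_iff_ne_top.2 htop⟩
    have h2 : ∀ x, μ.restrict A₀ {x} = 0 := fun x => by
      refine le_antisymm ?_ bot_le
      rw [Measure.restrict_apply (measurableSet_singleton x)]
      refine (measure_mono inter_subset_left).trans ?_
      rw [hμ, ← haus_eq g hg.zero, haus_singleton hg]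
    have h3 := hA (μ.restrict A₀) h1 h2
    have h4 : μ.restrict A₀ A₀ = 0 := le_antisymm ((measure_mono hA₀).trans h3.le) bot_le
    rwa [Measure.restrict_apply_self] at h4

theorem null_of_small (θ : Measure ℝ) [IsFiniteMeasure θ] (hθ : ∀ x, θ {x} = 0) (X : Set ℝ)
    (hX : #X < nonNull) : θ X = 0 := by
  have : NullSingletonClass θ := ⟨hθ⟩
  exact measure_zero_of_cdf θ X (volume_zero_of_lt (lt_of_le_of_lt mk_image_le hX))

/-- A Borel set all of whose sections are null, and whose sections cover all null sets. -/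
theorem exists_code : ∃ R : Set (C × ℝ), MeasurableSet R ∧
    (∀ z, volume (Prod.mk z ⁻¹' R) = 0) ∧
    ∀ Z : Set ℝ, volume Z = 0 → ∃ z, Z ⊆ Prod.mk z ⁻¹' R := by
  classical
  obtain ⟨b, hbc, hbn, hb⟩ := TopologicalSpace.exists_countable_basis ℝ
  have hbne : b.Nonempty := by
    obtain ⟨t, ht, -⟩ := hb.exists_subset_of_mem_open (mem_univ (0:ℝ)) isOpen_univ
    exact ⟨t, ht⟩
  obtain ⟨B, rfl⟩ := hbc.exists_eq_range hbne
  set Q : ℕ → Set (C × ℝ) := fun m => {p | ∃ e, p.1 (Nat.pair m e) = true ∧ p.2 ∈ B e} with hQ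
  have hQm : ∀ m, MeasurableSet (Q m) := by
    intro m
    have : Q m = ⋃ e, ((fun p : C × ℝ => p.1 (Nat.pair m e)) ⁻¹' {true}) ∩
        ((fun p : C × ℝ => p.2) ⁻¹' (B e)) := by
      ext p; simp [hQ]
    rw [this]
    refine MeasurableSet.iUnion fun e => MeasurableSet.inter ?_ ?_
    · exact ((measurable_pi_apply _).comp measurable_fst) (measurableSet_singleton _)
    · exact measurable_snd (hb.isOpen ⟨e, rfl⟩).measurableSet
  refine ⟨⋂ m, {p : C × ℝ | volume (Prod.mk p.1 ⁻¹' Q m) ≤ 2⁻¹ ^ m} ∩ Q m, ?_, ?_, ?_⟩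
  · refine MeasurableSet.iInter fun m => MeasurableSet.inter ?_ (hQm m)
    have h1 : Measurable (fun z : C => volume (Prod.mk z ⁻¹' Q m)) :=
      measurable_measure_prodMk_left (hQm m)
    exact (h1.comp measurable_fst) measurableSet_Iic
  · intro z
    have h1 : ∀ m : ℕ, volume (Prod.mk z ⁻¹' (⋂ m, {p : C × ℝ |
        volume (Prod.mk p.1 ⁻¹' Q m) ≤ 2⁻¹ ^ m} ∩ Q m)) ≤ 2⁻¹ ^ m := by
      intro m
      by_cases hz : volume (Prod.mk z ⁻¹' Q m) ≤ 2⁻¹ ^ m
      · refine (measure_mono ?_).trans hz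
        intro y hy
        exact (mem_iInter.1 hy m).2
      · refine le_trans (le_of_eq ?_) bot_le
        have : Prod.mk z ⁻¹' (⋂ m, {p : C × ℝ |
          volume (Prod.mk p.1 ⁻¹' Q m) ≤ 2⁻¹ ^ m} ∩ Q m) = ∅ := by
          ext y
          simp only [mem_preimage, mem_empty_iff_false, iff_false]
          intro hy
          exact hz (mem_iInter.1 hy m).1
        rw [this]; simp
    have hlim : Tendsto (fun M : ℕ => (2⁻¹ : ℝ≥0∞) ^ M) atTop (𝓝 0) :=
      ENNReal.tendsto_pow_atTop_nhds_zero_of_lt_one (by norm_num)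
    exact le_antisymm (ge_of_tendsto' hlim h1) bot_le
  · intro Z hZ
    have h1 : ∀ m : ℕ, ∃ V, Z ⊆ V ∧ IsOpen V ∧ volume V ≤ 2⁻¹ ^ m := by
      intro m
      obtain ⟨V, hV1, hV2, hV3⟩ := Z.exists_isOpen_le_add volume
        (ε := 2⁻¹ ^ m) (by simp)
      exact ⟨V, hV1, hV2, by rwa [hZ, zero_add] at hV3⟩
    choose V hV1 hV2 hV3 using h1
    set z : C := fun k => decide (B (Nat.unpair k).2 ⊆ V (Nat.unpair k).1) with hz
    have hsec : ∀ m, Prod.mk z ⁻¹' Q m = V m := by
      intro m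
      ext y
      simp only [hQ, hz, mem_preimage, mem_ofPred_eq, Nat.unpair_pair, decide_eq_true_eq]
      constructor
      · rintro ⟨e, h1, h2⟩; exact h1 h2
      · intro hy
        obtain ⟨_, ⟨e, rfl⟩, h1, h2⟩ := hb.exists_subset_of_mem_open hy (hV2 m)
        exact ⟨e, h2, h1⟩
    refine ⟨z, fun y hy => ?_⟩
    rw [mem_preimage, mem_iInter]
    intro m
    refine ⟨?_, ?_⟩
    · show volume (Prod.mk z ⁻¹' Q m) ≤ 2⁻¹ ^ m
      rw [hsec]; exact hV3 m
    · have : y ∈ Prod.mk z ⁻¹' Q m := by rw [hsec]; exact hV1 m hy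
      exact this

/-- The Grzegorek-type argument: points `a y` from which a code of a null set containing all earlier
points can be decoded in a Borel way form a universally null set. -/
theorem unull_of_decode (Y : Set ℝ) (hYn : volume Y ≠ 0) (s : Y → Y → Prop) [IsWellOrder Y s]
    (hseg : ∀ β : Y, #{α // s α β} < nonNull) (R : Set (C × ℝ)) (hR : MeasurableSet R)
    (hR0 : ∀ z, volume (Prod.mk z ⁻¹' R) = 0) (a : Y → ℝ) (D : ℝ → C) (hD : Measurable D)
    (h : ∀ α β : Y, s β α → (D (a α), (β : ℝ)) ∈ R) : UNull (range a) := by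
  intro θ hθ1 hθ2
  set S : Set (ℝ × ℝ) := {p | (D p.2, p.1) ∈ R} with hS
  have hSm : MeasurableSet S :=
    ((hD.comp measurable_snd).prodMk measurable_fst) hR
  have h0 : (volume.prod θ) S = 0 := by
    rw [Measure.prod_apply_symm hSm]
    have : ∀ x, volume ((fun y : ℝ => (y, x)) ⁻¹' S) = 0 := fun x => hR0 (D x)
    simp [this]
  have h1 := Measure.measure_ae_null_of_prod_null h0
  have h2 : ∃ β : Y, θ (Prod.mk (β : ℝ) ⁻¹' S) = 0 := by
    by_contra hc
    push Not at hc
    apply hYn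
    refine measure_mono_null ?_ h1
    intro y hy
    exact hc ⟨y, hy⟩
  obtain ⟨β, hβ⟩ := h2
  have hsub : range a ⊆ (Prod.mk (β : ℝ) ⁻¹' S) ∪
      ((range fun α : {α // s α β} => a α) ∪ {a β}) := by
    rintro _ ⟨α, rfl⟩
    rcases trichotomous_of s α β with h3 | h3 | h3
    · right; left; exact ⟨⟨α, h3⟩, rfl⟩
    · right; right; rw [h3]; rfl
    · left; exact h α β h3
  refine le_antisymm ((measure_mono hsub).trans ((measure_union_le _ _).trans ?_)) bot_le
  rw [hβ, zero_add]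
  refine (measure_union_le _ _).trans ?_
  rw [hθ2, add_zero]
  exact (null_of_small θ hθ2 _ (lt_of_le_of_lt mk_range_le (hseg β))).le

end Pool.Agent.Helper454.Haus
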