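import Mathlib

open Set Filter Topology TopologicalSpace
open scoped Cardinal

universe u v

namespace Pool.Helper454.TP

/-- `X` is totally paracompact: every open base contains a locally finite subfamily
that covers `X`. -/
def TotallyParacompact (X : Type u) [TopologicalSpace X] : Prop :=
  ∀ 𝓑 : Set (Set X), IsTopologicalBasis 𝓑 →
    ∃ 𝓛 : Set (Set X), 𝓛 ⊆ 𝓑 ∧ ⋃₀ 𝓛 = univ ∧ LocallyFinite (fun B : 𝓛 => (B : Set X))

/-- `X` is Menger. -/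
def MengerSpace (X : Type u) [TopologicalSpace X] : Prop :=
  ∀ 𝓤 : ℕ → Set (Set X), (∀ n, (∀ U ∈ 𝓤 n, IsOpen U) ∧ ⋃₀ 𝓤 n = univ) →
    ∃ 𝓥 : ℕ → Set (Set X), (∀ n, 𝓥 n ⊆ 𝓤 n ∧ (𝓥 n).Finite) ∧ ⋃ n, ⋃₀ 𝓥 n = univ

/-- The bounding number. -/
noncomputable def bnum : Cardinal.{0} :=
  sInf {κ : Cardinal.{0} | ∃ F : Set (ℕ → ℕ), #F = κ ∧
    ¬ ∃ g : ℕ → ℕ, ∀ f ∈ F, ∀ᶠ n in atTop, f n ≤ g n}

/-- The cofinality of the countable subsets of `T`, ordered by inclusion. -/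
noncomputable def cofCtbl (T : Type u) : Cardinal.{u} :=
  sInf {κ : Cardinal.{u} | ∃ 𝓒 : Set (Set T), #𝓒 = κ ∧ (∀ c ∈ 𝓒, c.Countable) ∧
    ∀ a : Set T, a.Countable → ∃ c ∈ 𝓒, a ⊆ c}

/-- A subset `C` of `X` is *tagged* if there are countably many families `𝓐 n` of subsets of `X`
such that no `𝓐 n` contains an infinite locally finite family of open sets, and for every open
`O` meeting `C` there is an `n` such that for every increasing open cover `V 0 ⊆ V 1 ⊆ …` of `X`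
some `O ∩ V m` belongs to `𝓐 n`. -/
def Tagged {X : Type u} [TopologicalSpace X] (C : Set X) : Prop :=
  ∃ 𝓐 : ℕ → Set (Set X),
    (∀ n, ∀ 𝓛 : Set (Set X), 𝓛 ⊆ 𝓐 n → (∀ B ∈ 𝓛, IsOpen B) →
      LocallyFinite (fun B : 𝓛 => (B : Set X)) → 𝓛.Finite) ∧
    ∀ O : Set X, IsOpen O → (O ∩ C).Nonempty → ∃ n, ∀ V : ℕ → Set X,
      (∀ m, IsOpen (V m)) → Monotone V → ⋃ m, V m = univ → ∃ m, O ∩ V m ∈ 𝓐 n

section Core

variable {X : Type u} [TopologicalSpace X]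

theorem tagged_of_isCompact {K : Set X} (hK : IsCompact K) : Tagged K := by
  refine ⟨fun _ => {B | (B ∩ K).Nonempty}, ?_, ?_⟩
  · intro _ 𝓛 h𝓛 _ hlf
    have h := hlf.finite_nonempty_inter_compact hK
    have h2 : {B : 𝓛 | ((B : Set X) ∩ K).Nonempty} = univ := by
      refine eq_univ_of_forall (fun B => h𝓛 B.2)
    rw [h2] at h
    exact Set.finite_coe_iff.1 (Set.finite_univ_iff.1 h)
  · rintro O hO ⟨x, hxO, hxK⟩
    refine ⟨0, fun V _ _ hV => ?_⟩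
    have : x ∈ ⋃ m, V m := by rw [hV]; trivial
    obtain ⟨m, hm⟩ := mem_iUnion.1 this
    exact ⟨m, x, ⟨hxO, hm⟩, hxK⟩

/-- Countable unions, closures and subsets of tagged sets are tagged. -/
theorem tagged_closure_iUnion {C : ℕ → Set X} (hC : ∀ j, Tagged (C j)) :
    Tagged (closure (⋃ j, C j)) := by
  choose 𝓐 h1 h2 using hC
  refine ⟨fun n => 𝓐 (Nat.unpair n).1 (Nat.unpair n).2, fun n => h1 _ _, ?_⟩
  intro O hO hne
  obtain ⟨x, hxO, hx⟩ := hne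
  obtain ⟨y, hyO, hy⟩ := mem_closure_iff.1 hx O hO hxO
  obtain ⟨j, hj⟩ := mem_iUnion.1 hy
  obtain ⟨n, hn⟩ := h2 j O hO ⟨y, hyO, hj⟩
  refine ⟨Nat.pair j n, fun V hV1 hV2 hV3 => ?_⟩
  simpa using hn V hV1 hV2 hV3

theorem tagged_of_measure (μ : @MeasureTheory.Measure X (borel X))
    (hμ : μ univ < ⊤) {C : Set X}
    (hC : ∀ O : Set X, IsOpen O → (O ∩ C).Nonempty → 0 < μ O) : Tagged C := by
  letI : MeasurableSpace X := borel X
  haveI : BorelSpace X := ⟨rfl⟩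
  haveI : MeasureTheory.IsFiniteMeasure μ := ⟨hμ⟩
  refine ⟨fun n => {B | ((n : ENNReal) + 1)⁻¹ < μ B}, ?_, ?_⟩
  · intro n 𝓛 h𝓛 hop hlf
    by_contra hinf
    haveI : Infinite 𝓛 := Set.infinite_coe_iff.2 hinf
    let f : ℕ ↪ 𝓛 := Infinite.natEmbedding 𝓛
    let A : ℕ → Set X := fun k => ⋃ j ≥ k, (f j : Set X)
    have hAm : ∀ k, MeasurableSet (A k) := fun k =>
      (isOpen_biUnion (fun j _ => hop _ (f j).2)).measurableSet
    have hanti : Antitone A := by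
      intro k l hkl x hx
      simp only [A, mem_iUnion] at hx ⊢
      obtain ⟨j, hj, hx⟩ := hx
      exact ⟨j, le_trans hkl hj, hx⟩
    have hempty : ⋂ k, A k = ∅ := by
      refine eq_empty_of_forall_notMem (fun x hx => ?_)
      have hpf : {B : 𝓛 | x ∈ (B : Set X)}.Finite := hlf.point_finite x
      have hpf2 : {j : ℕ | x ∈ (f j : Set X)}.Finite :=
        hpf.preimage (f.injective.injOn)
      obtain ⟨N, hN⟩ := hpf2.bddAbove
      have h3 := mem_iInter.1 hx (N + 1)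
      simp only [A, mem_iUnion] at h3
      obtain ⟨j, hj, hxj⟩ := h3
      have h4 : j ≤ N := hN hxj
      omega
    have hlim : Tendsto (fun k => μ (A k)) atTop (𝓝 (μ (⋂ k, A k))) :=
      MeasureTheory.tendsto_measure_iInter_atTop (fun k => (hAm k).nullMeasurableSet) hanti
        ⟨0, MeasureTheory.measure_ne_top _ _⟩
    rw [hempty, MeasureTheory.measure_empty] at hlim
    have hpos : (0 : ENNReal) < ((n : ENNReal) + 1)⁻¹ := by
      rw [ENNReal.inv_pos]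
      exact ENNReal.add_ne_top.2 ⟨ENNReal.natCast_ne_top n, ENNReal.one_ne_top⟩
    obtain ⟨k, hk⟩ := (hlim.eventually (gt_mem_nhds hpos)).exists
    have h5 : ((n : ENNReal) + 1)⁻¹ < μ (f k : Set X) := h𝓛 (f k).2
    have h6 : μ (f k : Set X) ≤ μ (A k) := MeasureTheory.measure_mono (by
      intro x hx
      simp only [A, mem_iUnion]
      exact ⟨k, le_refl k, hx⟩)
    exact absurd (h5.trans_le h6) (not_lt.2 hk.le)
  · intro O hO hne
    have hpos := hC O hO hne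
    obtain ⟨n, hn⟩ := ENNReal.exists_inv_nat_lt hpos.ne'
    refine ⟨n, fun V hV1 hV2 hV3 => ?_⟩
    have h1 : μ (⋃ m, O ∩ V m) = ⨆ m, μ (O ∩ V m) := by
      refine Monotone.measure_iUnion ?_
      intro a b hab x hx
      exact ⟨hx.1, hV2 hab hx.2⟩
    have h2 : (⋃ m, O ∩ V m) = O := by rw [← inter_iUnion, hV3, inter_univ]
    rw [h2] at h1
    have h3 : ((n : ENNReal) + 1)⁻¹ < ⨆ m, μ (O ∩ V m) := by
      rw [← h1]
      refine lt_of_le_of_lt ?_ hn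
      exact ENNReal.inv_le_inv.2 le_self_add
    obtain ⟨m, hm⟩ := lt_iSup_iff.1 h3
    exact ⟨m, hm⟩

/-- Tagged sets can be covered by finite selections from countable covers. -/
theorem selection_of_tagged (hX : TotallyParacompact X) {C : Set X} (hC : Tagged C)
    (U : ℕ → ℕ → Set X) (hUo : ∀ n m, IsOpen (U n m)) (hU : ∀ n, ⋃ m, U n m = univ) :
    ∃ f : ℕ → ℕ, ∀ x ∈ C, ∃ n, ∃ m ≤ f n, x ∈ U n m := by
  classical
  obtain ⟨𝓐, hA1, hA2⟩ := hC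
  set C' : Set X := closure C with hC'
  have hCc : IsClosed C' := isClosed_closure
  let V : ℕ → ℕ → Set X := fun n m => ⋃ j ≤ m, U n j
  have hVo : ∀ n m, IsOpen (V n m) := fun n m => isOpen_biUnion (fun j _ => hUo n j)
  have hVm : ∀ n, Monotone (V n) := by
    intro n a b hab x hx
    simp only [V, mem_iUnion] at hx ⊢
    obtain ⟨j, hj, hx⟩ := hx
    exact ⟨j, hj.trans hab, hx⟩
  have hVU : ∀ n, ⋃ m, V n m = univ := by
    intro n
    refine eq_univ_of_forall (fun x => ?_)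
    have : x ∈ ⋃ m, U n m := by rw [hU n]; trivial
    obtain ⟨m, hm⟩ := mem_iUnion.1 this
    refine mem_iUnion.2 ⟨m, ?_⟩
    simp only [V, mem_iUnion]
    exact ⟨m, le_refl m, hm⟩
  let 𝓑 : Set (Set X) := {B | IsOpen B ∧ (B ∩ C' = ∅ ∨ ∃ n, B ∈ 𝓐 n ∧ ∃ m, B ⊆ V n m)}
  have hB : IsTopologicalBasis 𝓑 := by
    refine isTopologicalBasis_of_isOpen_of_nhds (fun B hB => hB.1) ?_
    intro x O hxO hO
    by_cases hx : x ∈ C'
    · have hne : (O ∩ C).Nonempty := mem_closure_iff.1 hx O hO hxO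
      obtain ⟨n, hn⟩ := hA2 O hO hne
      have hxu : x ∈ ⋃ m, V n m := by rw [hVU n]; trivial
      obtain ⟨m0, hm0⟩ := mem_iUnion.1 hxu
      obtain ⟨m, hm⟩ := hn (fun m => V n (m + m0)) (fun m => hVo n _)
        (fun a b hab => hVm n (by omega)) (by
          refine eq_univ_of_forall (fun y => ?_)
          have hy : y ∈ ⋃ m, V n m := by rw [hVU n]; trivial
          obtain ⟨m, hm⟩ := mem_iUnion.1 hy
          exact mem_iUnion.2 ⟨m, hVm n (by omega) hm⟩)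
      exact ⟨O ∩ V n (m + m0), ⟨hO.inter (hVo n _), Or.inr ⟨n, hm, m + m0, inter_subset_right⟩⟩,
        ⟨hxO, hVm n (by omega) hm0⟩, inter_subset_left⟩
    · refine ⟨O \ C', ⟨hO.sdiff hCc, Or.inl ?_⟩, ⟨hxO, hx⟩, sdiff_subset⟩
      ext y
      simp
  obtain ⟨𝓛, h𝓛𝓑, h𝓛cov, h𝓛lf⟩ := hX 𝓑 hB
  have hfin : ∀ n, {B : Set X | B ∈ 𝓛 ∧ B ∈ 𝓐 n}.Finite := by
    intro n
    refine hA1 n _ (fun B hB => hB.2) (fun B hB => (h𝓛𝓑 hB.1).1) ?_
    exact h𝓛lf.comp_injective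
      (g := fun B : {B : Set X | B ∈ 𝓛 ∧ B ∈ 𝓐 n} => (⟨B.1, B.2.1⟩ : 𝓛))
      (fun a b hab => Subtype.ext (congrArg (fun z : 𝓛 => (z : Set X)) hab))
  have hch : ∀ n (B : Set X), ∃ m, (∃ m', B ⊆ V n m') → B ⊆ V n m := by
    intro n B
    by_cases h : ∃ m', B ⊆ V n m'
    · obtain ⟨m', hm'⟩ := h
      exact ⟨m', fun _ => hm'⟩
    · exact ⟨0, fun h' => absurd h' h⟩
  choose M hM using hch
  have hf : ∀ n, ∃ N, ∀ B ∈ {B : Set X | B ∈ 𝓛 ∧ B ∈ 𝓐 n}, M n B ≤ N := by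
    intro n
    obtain ⟨N, hN⟩ := ((hfin n).image (M n)).bddAbove
    exact ⟨N, fun B hB => hN ⟨B, hB, rfl⟩⟩
  choose f hf using hf
  refine ⟨f, fun x hx => ?_⟩
  have hx' : x ∈ ⋃₀ 𝓛 := by rw [h𝓛cov]; trivial
  obtain ⟨B, hBL, hxB⟩ := hx'
  obtain ⟨_, hB0 | ⟨n, hn, m, hm⟩⟩ := h𝓛𝓑 hBL
  · exact absurd (show x ∈ B ∩ C' from ⟨hxB, subset_closure hx⟩) (by rw [hB0]; simp)
  · have h1 : x ∈ V n (M n B) := hM n B ⟨m, hm⟩ hxB
    simp only [V, mem_iUnion] at h1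
    obtain ⟨j, hj, hxj⟩ := h1
    exact ⟨n, j, hj.trans (hf n B ⟨hBL, hn⟩), hxj⟩

/-- The same, each point being covered infinitely often. -/
theorem selection_frequently (hX : TotallyParacompact X) {C : Set X} (hC : Tagged C)
    (U : ℕ → ℕ → Set X) (hUo : ∀ n m, IsOpen (U n m)) (hU : ∀ n, ⋃ m, U n m = univ) :
    ∃ f : ℕ → ℕ, ∀ x ∈ C, ∃ᶠ n in atTop, ∃ m ≤ f n, x ∈ U n m := by
  classical
  have h : ∀ k : ℕ, ∃ f : ℕ → ℕ, ∀ x ∈ C, ∃ n, ∃ m ≤ f n, x ∈ U (Nat.pair k n) m := fun k =>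
    selection_of_tagged hX hC (fun n => U (Nat.pair k n)) (fun n m => hUo _ m) (fun n => hU _)
  choose f h1 using h
  refine ⟨fun n => f (Nat.unpair n).1 (Nat.unpair n).2, ?_⟩
  intro x hx
  rw [Filter.frequently_atTop]
  intro k
  obtain ⟨j, m, hm, hj⟩ := h1 k x hx
  refine ⟨Nat.pair k j, Nat.left_le_pair k j, m, ?_, hj⟩
  simpa using hm

/-- A totally paracompact space with a dense Lindelöf subspace is Lindelöf. -/
theorem lindelof_of_dense (hX : TotallyParacompact X) (D : Set X) (hD : Dense D)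
    (hL : IsLindelof D) (𝓤 : Set (Set X)) (h𝓤 : (∀ U ∈ 𝓤, IsOpen U) ∧ ⋃₀ 𝓤 = univ) :
    ∃ 𝓦 : Set (Set X), 𝓦 ⊆ 𝓤 ∧ 𝓦.Countable ∧ ⋃₀ 𝓦 = univ := by
  classical
  let 𝓑 : Set (Set X) := {B | IsOpen B ∧ ∃ U ∈ 𝓤, B ⊆ U}
  have hB : IsTopologicalBasis 𝓑 := by
    refine isTopologicalBasis_of_isOpen_of_nhds (fun B hB => hB.1) ?_
    intro x O hxO hO
    have hxu : x ∈ ⋃₀ 𝓤 := by rw [h𝓤.2]; trivial
    obtain ⟨U, hU, hxU⟩ := hxu
    exact ⟨O ∩ U, ⟨hO.inter (h𝓤.1 U hU), U, hU, inter_subset_right⟩, ⟨hxO, hxU⟩,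
      inter_subset_left⟩
  obtain ⟨𝓛, h𝓛𝓑, h𝓛cov, h𝓛lf⟩ := hX 𝓑 hB
  have hV : ∀ x : X, ∃ V : Set X, IsOpen V ∧ x ∈ V ∧ {B : 𝓛 | ((B : Set X) ∩ V).Nonempty}.Finite := by
    intro x
    obtain ⟨V, hVx, hVf⟩ := h𝓛lf x
    obtain ⟨V', hV'V, hV'o, hxV'⟩ := mem_nhds_iff.1 hVx
    refine ⟨V', hV'o, hxV', hVf.subset ?_⟩
    rintro B ⟨y, hy1, hy2⟩
    exact ⟨y, hy1, hV'V hy2⟩
  choose V hVo hVx hVf using hV
  obtain ⟨t, htc, htD⟩ := hL.elim_countable_subcover V hVo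
    (fun x _ => mem_iUnion.2 ⟨x, hVx x⟩)
  have hcount : {B : 𝓛 | (B : Set X).Nonempty}.Countable := by
    have : {B : 𝓛 | (B : Set X).Nonempty} ⊆
        ⋃ x ∈ t, {B : 𝓛 | ((B : Set X) ∩ V x).Nonempty} := by
      intro B hBne
      have hBo : IsOpen (B : Set X) := (h𝓛𝓑 B.2).1
      obtain ⟨d, hdB, hdD⟩ := hD.inter_open_nonempty _ hBo hBne
      have := htD hdD
      simp only [mem_iUnion] at this
      obtain ⟨x, hxt, hdV⟩ := this
      simp only [mem_iUnion]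
      exact ⟨x, hxt, ⟨d, hdB, hdV⟩⟩
    exact (htc.biUnion (fun x _ => (hVf x).countable)).mono this
  have hch : ∀ B : 𝓛, ∃ U ∈ 𝓤, (B : Set X) ⊆ U := fun B => (h𝓛𝓑 B.2).2
  choose φ hφ1 hφ2 using hch
  refine ⟨φ '' {B : 𝓛 | (B : Set X).Nonempty}, ?_, hcount.image φ, ?_⟩
  · rintro _ ⟨B, _, rfl⟩
    exact hφ1 B
  · refine eq_univ_of_forall (fun x => ?_)
    have hx' : x ∈ ⋃₀ 𝓛 := by rw [h𝓛cov]; trivial
    obtain ⟨B, hBL, hxB⟩ := hx'
    exact ⟨φ ⟨B, hBL⟩, ⟨⟨B, hBL⟩, ⟨x, hxB⟩, rfl⟩, hφ2 ⟨B, hBL⟩ hxB⟩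

/-- Core theorem. -/
theorem menger_core (hX : TotallyParacompact X) (D : Set X) (hD : Dense D)
    (hL : IsLindelof D) {ι : Type v} (C : ι → Set X) (hC : ∀ i, Tagged (C i))
    (hcov : ∀ x : X, ∃ i, x ∈ C i)
    (hb : ∀ F : ι → ℕ → ℕ, ∃ g : ℕ → ℕ, ∀ i, ∀ᶠ n in atTop, F i n ≤ g n) :
    MengerSpace X := by
  classical
  intro 𝓤 h𝓤
  rcases isEmpty_or_nonempty X with hemp | hne
  · exact ⟨fun _ => ∅, fun n => ⟨empty_subset _, Set.finite_empty⟩,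
      eq_univ_of_forall (fun x => (hemp.false x).elim)⟩
  -- countable subcovers, enumerated
  have h1 : ∀ n, ∃ U : ℕ → Set X, (∀ m, U m ∈ 𝓤 n) ∧ ⋃ m, U m = univ := by
    intro n
    obtain ⟨𝓦, hW1, hW2, hW3⟩ := lindelof_of_dense hX D hD hL (𝓤 n) (h𝓤 n)
    have hWne : 𝓦.Nonempty := by
      by_contra hcon
      rw [not_nonempty_iff_eq_empty] at hcon
      obtain ⟨x⟩ := hne
      have : x ∈ ⋃₀ 𝓦 := by rw [hW3]; trivial
      rw [hcon] at this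
      simp at this
    obtain ⟨U, hU⟩ := hW2.exists_eq_range hWne
    refine ⟨U, fun m => hW1 (hU ▸ mem_range_self m), ?_⟩
    rw [← sUnion_range, ← hU, hW3]
  choose U hU1 hU2 using h1
  have h2 : ∀ i, ∃ f : ℕ → ℕ, ∀ x ∈ C i, ∃ᶠ n in atTop, ∃ m ≤ f n, x ∈ U n m := fun i =>
    selection_frequently hX (hC i) U (fun n m => (h𝓤 n).1 _ (hU1 n m)) hU2
  choose F hF using h2
  obtain ⟨g, hg⟩ := hb F
  refine ⟨fun n => (U n) '' {m | m ≤ g n}, ?_, ?_⟩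
  · intro n
    refine ⟨?_, (Set.finite_le_nat (g n)).image _⟩
    rintro _ ⟨m, _, rfl⟩
    exact hU1 n m
  · refine eq_univ_of_forall (fun x => ?_)
    obtain ⟨i, hi⟩ := hcov x
    obtain ⟨n, ⟨m, hm, hxm⟩, hn⟩ := ((hF i x hi).and_eventually (hg i)).exists
    exact mem_iUnion.2 ⟨n, U n m, ⟨m, hm.trans hn, rfl⟩, hxm⟩

end Core

end Pool.Helper454.TP
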