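import Pool.Agent.Helper454.TPBasic

open Set Filter Topology TopologicalSpace
open scoped Cardinal

universe u v

namespace Pool.Helper454.TP

theorem bounded_of_lt {ι : Type v} (h : Cardinal.lift.{0} #ι < Cardinal.lift.{v} bnum)
    (F : ι → ℕ → ℕ) : ∃ g : ℕ → ℕ, ∀ i, ∀ᶠ n in atTop, F i n ≤ g n := by
  have h1 : Cardinal.lift.{v} #(range F) ≤ Cardinal.lift.{0} #ι := Cardinal.mk_range_le_lift
  have h2 : #(range F) < bnum := Cardinal.lift_lt.1 (h1.trans_lt h)
  by_contra hcon
  refine notMem_of_lt_csInf' h2 ⟨range F, rfl, ?_⟩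
  rintro ⟨g, hg⟩
  exact hcon ⟨g, fun i => hg (F i) (mem_range_self i)⟩

theorem exists_cof (T : Type u) : ∃ 𝓒 : Set (Set T), #𝓒 = cofCtbl T ∧ (∀ c ∈ 𝓒, c.Countable) ∧
    ∀ a : Set T, a.Countable → ∃ c ∈ 𝓒, a ⊆ c := by
  have hne : {κ : Cardinal.{u} | ∃ 𝓒 : Set (Set T), #𝓒 = κ ∧ (∀ c ∈ 𝓒, c.Countable) ∧
    ∀ a : Set T, a.Countable → ∃ c ∈ 𝓒, a ⊆ c}.Nonempty :=
    ⟨_, {c | c.Countable}, rfl, fun c hc => hc, fun a ha => ⟨a, ha, Subset.rfl⟩⟩
  exact csInf_mem hne

theorem cofCtbl_le {T : Type u} (𝓒 : Set (Set T)) (h1 : ∀ c ∈ 𝓒, c.Countable)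
    (h2 : ∀ a : Set T, a.Countable → ∃ c ∈ 𝓒, a ⊆ c) : cofCtbl T ≤ #𝓒 :=
  csInf_le' ⟨𝓒, rfl, h1, h2⟩

theorem cofCtbl_congr_le {S T : Type u} (e : S ≃ T) : cofCtbl T ≤ cofCtbl S := by
  obtain ⟨𝓒, h0, h1, h2⟩ := exists_cof S
  rw [← h0]
  refine (cofCtbl_le ((fun c : Set S => e '' c) '' 𝓒) ?_ ?_).trans Cardinal.mk_image_le
  · rintro _ ⟨c, hc, rfl⟩
    exact (h1 c hc).image e
  · intro a ha
    obtain ⟨c, hc, hac⟩ := h2 (e ⁻¹' a) (ha.preimage e.injective)
    refine ⟨e '' c, ⟨c, hc, rfl⟩, ?_⟩
    intro t ht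
    exact ⟨e.symm t, hac (by simpa using ht), by simp⟩

/-- For a set of size below `ℵ_ω` the countable subsets have a cofinal family of the size of
the set. -/
theorem cofCtbl_le_max (n : ℕ) : ∀ T : Type u, #T ≤ ℵ_ n → cofCtbl T ≤ max ℵ₀ #T := by
  induction n with
  | zero =>
    intro T hT
    have hc : Countable T := by
      rw [← Cardinal.mk_le_aleph0_iff]
      simpa using hT
    refine (cofCtbl_le {univ} ?_ ?_).trans ?_
    · rintro c rfl
      exact countable_univ
    · exact fun a _ => ⟨univ, rfl, subset_univ _⟩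
    · simp only [Cardinal.mk_fintype, Fintype.card_unique, Nat.cast_one]
      exact (Cardinal.one_le_aleph0).trans (le_max_left _ _)
  | succ n ih =>
    intro T hT
    by_cases hle : #T ≤ ℵ_ n
    · exact ih T hle
    · have hlt : ℵ_ n < #T := not_le.1 hle
      obtain ⟨r, wo, hr⟩ := Cardinal.exists_ord_eq T
      have hseg : ∀ t : T, #{s // r s t} ≤ ℵ_ n := by
        intro t
        have h1 : #{s // r s t} < #T := by
          have := Cardinal.card_typein_lt t hr
          rwa [Ordinal.card_typein] at this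
        have h2 : #T ≤ Order.succ (ℵ_ n) := by
          refine hT.trans (le_of_eq ?_)
          rw [Cardinal.succ_aleph]
          norm_num
        exact Order.lt_succ_iff.1 (h1.trans_le h2)
      have hcseg : ∀ t : T, cofCtbl {s // r s t} ≤ ℵ_ n := fun t =>
        (ih _ (hseg t)).trans (max_le (Cardinal.aleph0_le_aleph _) (hseg t))
      choose 𝓒 hC0 hC1 hC2 using fun t : T => exists_cof {s // r s t}
      have hle' : cofCtbl T ≤ #(⋃ t : T, (fun c : Set {s // r s t} => Subtype.val '' c) '' 𝓒 t) := by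
        refine cofCtbl_le _ ?_ ?_
        · intro c hc
          obtain ⟨t, c', hc', rfl⟩ := mem_iUnion.1 hc
          exact (hC1 t c' hc').image _
        · intro a ha
          -- `a` is bounded
          have hbd : ∃ t : T, ∀ s ∈ a, r s t := by
            by_contra hcon
            push Not at hcon
            have hcov : (univ : Set T) ⊆ ⋃ s : a, ({x | r x s} ∪ {(s : T)}) := by
              intro t _
              obtain ⟨s, hs, hst⟩ := hcon t
              refine mem_iUnion.2 ⟨⟨s, hs⟩, ?_⟩
              rcases trichotomous_of r t s with h | h | h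
              · exact Or.inl h
              · exact Or.inr h
              · exact absurd h hst
            have h3 : #T ≤ ℵ_ n := by
              calc #T = #(univ : Set T) := Cardinal.mk_univ.symm
                _ ≤ #(⋃ s : a, ({x | r x s} ∪ {(s : T)}) : Set T) := Cardinal.mk_le_mk_of_subset hcov
                _ ≤ #a * ⨆ s : a, #({x | r x s} ∪ {(s : T)} : Set T) := Cardinal.mk_iUnion_le _
                _ ≤ ℵ₀ * ℵ_ n := by
                    refine mul_le_mul' (Cardinal.mk_le_aleph0_iff.2 ha.to_subtype) ?_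
                    refine ciSup_le' (fun s => ?_)
                    refine (Cardinal.mk_union_le _ _).trans ?_
                    have h1s : #({(s : T)} : Set T) ≤ ℵ_ n := by
                      rw [Cardinal.mk_singleton]
                      exact Cardinal.one_le_aleph0.trans (Cardinal.aleph0_le_aleph _)
                    refine (add_le_add (hseg s) h1s).trans ?_
                    exact (Cardinal.add_eq_self (Cardinal.aleph0_le_aleph _)).le
                _ ≤ ℵ_ n := by
                    rw [Cardinal.aleph0_mul_eq (Cardinal.aleph0_le_aleph _)]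
            exact absurd h3 hle
          obtain ⟨t, ht⟩ := hbd
          obtain ⟨c, hc, hac⟩ := hC2 t (Subtype.val ⁻¹' a) (ha.preimage Subtype.val_injective)
          refine ⟨Subtype.val '' c, mem_iUnion.2 ⟨t, c, hc, rfl⟩, ?_⟩
          intro s hs
          exact ⟨⟨s, ht s hs⟩, hac hs, rfl⟩
      refine hle'.trans ((Cardinal.mk_iUnion_le _).trans ?_)
      refine le_trans (mul_le_mul' le_rfl (ciSup_le' (a := ℵ_ n) (fun t => ?_))) ?_
      · exact Cardinal.mk_image_le.trans ((hC0 t).le.trans (hcseg t))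
      · refine le_trans (mul_le_mul' le_rfl hlt.le) ?_
        have h0 : ℵ₀ ≤ #T := (Cardinal.aleph0_le_aleph _).trans hlt.le
        rw [Cardinal.mul_eq_self h0]
        exact le_max_right _ _

end Pool.Helper454.TP
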