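import Pool.Agent.Helper454.TPBasic

open Set Filter Topology TopologicalSpace

universe u' u v w

namespace Pool.Helper454.TP

/-- `X` is a GO-space (generalized ordered space): order rays are open, and the open convex sets
form a base. -/
def IsGOSpace (X : Type u) [LinearOrder X] [TopologicalSpace X] : Prop :=
  (∀ a : X, IsOpen (Iio a) ∧ IsOpen (Ioi a)) ∧
  ∀ (x : X) (O : Set X), IsOpen O → x ∈ O → ∃ V : Set X, IsOpen V ∧ V.OrdConnected ∧ x ∈ V ∧ V ⊆ O

theorem isLindelof_univ_of_dense {X : Type u} [TopologicalSpace X] (hX : TotallyParacompact X)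
    (D : Set X) (hD : Dense D) (hL : IsLindelof D) : IsLindelof (univ : Set X) := by
  classical
  rw [isLindelof_iff_countable_subcover]
  intro ι U hUo hcov
  obtain ⟨𝓦, hW1, hW2, hW3⟩ := lindelof_of_dense hX D hD hL (range U)
    ⟨by rintro _ ⟨i, rfl⟩; exact hUo i, by
      rw [sUnion_range]; exact eq_univ_of_forall (fun x => hcov (mem_univ x))⟩
  have hch : ∀ W : 𝓦, ∃ i, U i = W := fun W => hW1 W.2
  choose φ hφ using hch
  have : Countable 𝓦 := hW2.to_subtype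
  refine ⟨range φ, countable_range φ, ?_⟩
  intro x _
  have hx : x ∈ ⋃₀ 𝓦 := by rw [hW3]; trivial
  obtain ⟨W, hW, hxW⟩ := hx
  simp only [mem_iUnion]
  exact ⟨φ ⟨W, hW⟩, ⟨⟨W, hW⟩, rfl⟩, by rw [hφ]; exact hxW⟩

theorem tagged_of_countable {X : Type u} [TopologicalSpace X] {C : Set X} (hC : C.Countable) :
    Tagged (closure C) := by
  rcases C.eq_empty_or_nonempty with h | h
  · have hT := tagged_closure_iUnion (X := X) (C := fun _ => ∅)
      (fun _ => tagged_of_isCompact isCompact_empty)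
    rw [h]
    simpa using hT
  · obtain ⟨e, he⟩ := hC.exists_eq_range h
    have hT := tagged_closure_iUnion (X := X) (C := fun n => {e n})
      (fun n => tagged_of_isCompact isCompact_singleton)
    rw [he]
    simpa using hT

section GO

variable {X : Type u} [LinearOrder X] [TopologicalSpace X]

/-- The upper cut of an open convex set is witnessed by a countable set. -/
theorem upper_cut (hgo : ∀ a : X, IsOpen (Iio a) ∧ IsOpen (Ioi a))
    (hL : IsLindelof (univ : Set X)) (P : Set X) (hP : P.OrdConnected) :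
    ∃ C : Set X, C.Countable ∧ ∀ a ∈ P, ∀ b, b ∉ P → a < b → (C ∩ Icc a b).Nonempty := by
  classical
  let Q : Set X := {y | ∀ p ∈ P, p < y}
  have hQ : ∀ a ∈ P, ∀ b, b ∉ P → a < b → b ∈ Q := by
    intro a ha b hb hab p hp
    by_contra hcon
    exact hb (hP.out ha hp ⟨hab.le, not_lt.1 hcon⟩)
  by_cases hmin : ∃ q ∈ Q, ∀ y ∈ Q, q ≤ y
  · obtain ⟨q, hq, hq'⟩ := hmin
    refine ⟨{q}, countable_singleton q, fun a ha b hb hab => ⟨q, rfl, (hq a ha).le, ?_⟩⟩
    exact hq' b (hQ a ha b hb hab)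
  by_cases hmax : ∃ p ∈ P, ∀ y ∈ P, y ≤ p
  · obtain ⟨p, hp, hp'⟩ := hmax
    exact ⟨{p}, countable_singleton p, fun a ha b hb hab =>
      ⟨p, rfl, hp' a ha, (hQ a ha b hb hab p hp).le⟩⟩
  push Not at hmin hmax
  have hQo : IsOpen Q := by
    have : Q = ⋃ q ∈ Q, Ioi q := by
      ext y
      simp only [mem_iUnion, mem_Ioi]
      constructor
      · intro hy
        obtain ⟨q, hq, hqy⟩ := hmin y hy
        exact ⟨q, hq, hqy⟩
      · rintro ⟨q, hq, hqy⟩ p hp
        exact (hq p hp).trans hqy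
    rw [this]
    exact isOpen_biUnion (fun q _ => (hgo q).2)
  obtain ⟨t, htc, ht⟩ := hL.elim_countable_subcover
    (fun o : Option P => o.elim Q (fun p => Iio (p : X)))
    (by
      rintro (_ | p)
      · exact hQo
      · exact (hgo _).1)
    (by
      intro x _
      by_cases hx : x ∈ Q
      · exact mem_iUnion.2 ⟨none, hx⟩
      · have : ∃ p ∈ P, x ≤ p := by
          by_contra hcon
          push Not at hcon
          exact hx hcon
        obtain ⟨p, hp, hxp⟩ := this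
        obtain ⟨p', hp', hpp'⟩ := hmax p hp
        exact mem_iUnion.2 ⟨some ⟨p', hp'⟩, lt_of_le_of_lt hxp hpp'⟩)
  refine ⟨(fun p : P => (p : X)) '' {p : P | some p ∈ t}, ?_, ?_⟩
  · exact (htc.preimage (Option.some_injective P)).image _
  · intro a ha b hb hab
    have hbQ := hQ a ha b hb hab
    have h1 := ht (mem_univ a)
    simp only [mem_iUnion] at h1
    obtain ⟨o, hot, ho⟩ := h1
    rcases o with _ | p
    · exact absurd (ho a ha) (lt_irrefl a)
    · have hap : a < (p : X) := ho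
      exact ⟨p, ⟨p, hot, rfl⟩, hap.le, (hbQ p p.2).le⟩

/-- The lower cut of an open convex set is witnessed by a countable set. -/
theorem lower_cut (hgo : ∀ a : X, IsOpen (Iio a) ∧ IsOpen (Ioi a))
    (hL : IsLindelof (univ : Set X)) (P : Set X) (hP : P.OrdConnected) :
    ∃ C : Set X, C.Countable ∧ ∀ a ∈ P, ∀ b, b ∉ P → b < a → (C ∩ Icc b a).Nonempty := by
  have hP' : (OrderDual.ofDual ⁻¹' P).OrdConnected := hP.dual
  obtain ⟨C, hC1, hC2⟩ := upper_cut (X := Xᵒᵈ) (fun a => ⟨(hgo (OrderDual.ofDual a)).2,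
    (hgo (OrderDual.ofDual a)).1⟩) hL (OrderDual.ofDual ⁻¹' P) hP'
  refine ⟨OrderDual.toDual ⁻¹' C, hC1, fun a ha b hb hba => ?_⟩
  obtain ⟨c, hc, h1, h2⟩ := hC2 (OrderDual.toDual a) ha (OrderDual.toDual b) hb hba
  exact ⟨OrderDual.ofDual c, hc, h2, h1⟩

end GO

/-- Selections on a continuous image of a Lindelöf GO-space. -/
theorem selection_of_GO {X : Type u} [LinearOrder X] [TopologicalSpace X] {Y : Type v}
    [TopologicalSpace Y] {Z : Type w} [TopologicalSpace Z] (hgo : IsGOSpace X)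
    (hL : IsLindelof (univ : Set X)) (f : X → Y) (hfc : Continuous f)
    (p : Z → Y) (hpc : Continuous p) (hpcl : IsClosedMap p)
    (hps : Function.Surjective p) (hpk : ∀ y, IsCompact (p ⁻¹' {y}))
    (hZ : TotallyParacompact Z) (V : ℕ → ℕ → Set Y) (hVo : ∀ n m, IsOpen (V n m))
    (hVcov : ∀ n, ⋃ m, V n m = univ) :
    ∃ h : ℕ → ℕ, ∀ x : X, ∃ n, ∃ m ≤ h n, f x ∈ V n m := by
  classical
  rcases isEmpty_or_nonempty X with hemp | hneX
  · exact ⟨fun _ => 0, fun x => (hemp.false x).elim⟩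
  -- convex refinements
  have h1 : ∀ n, ∃ P : ℕ → Set X, ∃ φ : ℕ → ℕ, (∀ m, IsOpen (P m)) ∧
      (∀ m, (P m).OrdConnected) ∧ (∀ m, P m ⊆ f ⁻¹' (V n (φ m))) ∧ ⋃ m, P m = univ := by
    intro n
    have hx : ∀ x : X, ∃ P : Set X, ∃ k : ℕ, IsOpen P ∧ P.OrdConnected ∧ x ∈ P ∧
        P ⊆ f ⁻¹' (V n k) := by
      intro x
      have hfx : f x ∈ ⋃ m, V n m := by rw [hVcov n]; trivial
      obtain ⟨k, hk⟩ := mem_iUnion.1 hfx
      obtain ⟨P, h1, h2, h3, h4⟩ := hgo.2 x _ ((hVo n k).preimage hfc) hk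
      exact ⟨P, k, h1, h2, h3, h4⟩
    choose P k hP1 hP2 hP3 hP4 using hx
    obtain ⟨t, htc, ht⟩ := hL.elim_countable_subcover P hP1
      (fun x _ => mem_iUnion.2 ⟨x, hP3 x⟩)
    have htne : t.Nonempty := by
      obtain ⟨x⟩ := hneX
      have := ht (mem_univ x)
      simp only [mem_iUnion] at this
      obtain ⟨i, hi, _⟩ := this
      exact ⟨i, hi⟩
    obtain ⟨e, he⟩ := htc.exists_eq_range htne
    refine ⟨fun m => P (e m), fun m => k (e m), fun m => hP1 _,
      fun m => hP2 _, fun m => hP4 _, eq_univ_of_forall (fun x => ?_)⟩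
    have := ht (mem_univ x)
    simp only [mem_iUnion] at this
    obtain ⟨i, hi, hxi⟩ := this
    rw [he] at hi
    obtain ⟨m, rfl⟩ := hi
    exact mem_iUnion.2 ⟨m, hxi⟩
  choose P φ hPo hPc hPV hPcov using h1
  choose Cu hCu1 hCu2 using fun n m => upper_cut hgo.1 hL (P n m) (hPc n m)
  choose Cl hCl1 hCl2 using fun n m => lower_cut hgo.1 hL (P n m) (hPc n m)
  let C : Set X := ⋃ n, ⋃ m, (Cu n m ∪ Cl n m)
  have hCc : C.Countable :=
    countable_iUnion (fun n => countable_iUnion (fun m => (hCu1 n m).union (hCl1 n m)))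
  have hCu : ∀ n m, Cu n m ⊆ C := fun n m y hy =>
    mem_iUnion.2 ⟨n, mem_iUnion.2 ⟨m, Or.inl hy⟩⟩
  have hCl : ∀ n m, Cl n m ⊆ C := fun n m y hy =>
    mem_iUnion.2 ⟨n, mem_iUnion.2 ⟨m, Or.inr hy⟩⟩
  -- the closure of the preimage of `f '' C` in `Z`
  let E : Set Z := closure (p ⁻¹' (f '' C))
  have hEtag : Tagged E := by
    rcases C.eq_empty_or_nonempty with h | h
    · have hT := tagged_closure_iUnion (X := Z) (C := fun _ => ∅)
        (fun _ => tagged_of_isCompact isCompact_empty)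
      have hE : E = closure (⋃ _ : ℕ, (∅ : Set Z)) := by simp [E, h]
      rw [hE]
      exact hT
    · obtain ⟨e, he⟩ := hCc.exists_eq_range h
      have hT := tagged_closure_iUnion (X := Z) (C := fun n => p ⁻¹' {f (e n)})
        (fun n => tagged_of_isCompact (hpk _))
      have hE : p ⁻¹' (f '' C) = ⋃ n, p ⁻¹' {f (e n)} := by
        rw [he]
        ext z
        simp only [mem_preimage, mem_image, mem_range, mem_iUnion, mem_singleton_iff]
        constructor
        · rintro ⟨_, ⟨n, rfl⟩, h⟩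
          exact ⟨n, h.symm⟩
        · rintro ⟨n, h⟩
          exact ⟨_, ⟨n, rfl⟩, h.symm⟩
      show Tagged (closure (p ⁻¹' (f '' C)))
      rw [hE]
      exact hT
  have hVcov' : ∀ n, ⋃ m, p ⁻¹' (V n m) = univ := by
    intro n
    rw [← preimage_iUnion, hVcov n, preimage_univ]
  obtain ⟨g, hg⟩ := selection_of_tagged hZ hEtag (fun n m => p ⁻¹' (V (2 * n) m))
    (fun n m => (hVo _ m).preimage hpc) (fun n => hVcov' _)
  let W : Set Y := ⋃ n, ⋃ m ∈ {m | m ≤ g n}, V (2 * n) m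
  have hWo : IsOpen W := isOpen_iUnion (fun n => isOpen_biUnion (fun m _ => hVo _ m))
  have hWC : ∀ x ∈ closure C, f x ∈ W := by
    intro x hx
    have h2 : f x ∈ closure (f '' C) := by
      exact (image_closure_subset_closure_image hfc) ⟨x, hx, rfl⟩
    have h3 : closure (f '' C) ⊆ p '' E := by
      refine closure_minimal ?_ (hpcl _ isClosed_closure)
      intro y hy
      obtain ⟨z, rfl⟩ := hps y
      exact ⟨z, subset_closure hy, rfl⟩
    obtain ⟨z, hzE, hz⟩ := h3 h2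
    obtain ⟨n, m, hm, hzm⟩ := hg z hzE
    simp only [W, mem_iUnion]
    rw [mem_preimage, hz] at hzm
    exact ⟨n, m, hm, hzm⟩
  -- the other points
  have h2 : ∀ x : X, ∃ O : Set X, IsOpen O ∧ x ∈ O ∧ (O = f ⁻¹' W ∨ ∀ n, ∃ m, O ⊆ P n m) := by
    intro x
    by_cases hx : f x ∈ W
    · exact ⟨f ⁻¹' W, hWo.preimage hfc, hx, Or.inl rfl⟩
    · have hxC : x ∈ (closure C)ᶜ := fun h => hx (hWC x h)
      obtain ⟨O, hO1, hO2, hO3, hO4⟩ := hgo.2 x _ isClosed_closure.isOpen_compl hxC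
      refine ⟨O, hO1, hO3, Or.inr (fun n => ?_)⟩
      have hxm : x ∈ ⋃ m, P n m := by rw [hPcov n]; trivial
      obtain ⟨m, hm⟩ := mem_iUnion.1 hxm
      refine ⟨m, fun y hy => ?_⟩
      by_contra hyP
      have hno : ∀ c ∈ C, c ∉ O := fun c hc hcO => hO4 hcO (subset_closure hc)
      rcases lt_trichotomy x y with h | h | h
      · obtain ⟨c, hc, hcI⟩ := hCu2 n m x hm y hyP h
        exact hno c (hCu n m hc) (hO2.out hO3 hy hcI)
      · exact hyP (h ▸ hm)
      · obtain ⟨c, hc, hcI⟩ := hCl2 n m x hm y hyP h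
        exact hno c (hCl n m hc) (hO2.out hy hO3 hcI)
  choose O hO1 hO2 hO3 using h2
  obtain ⟨t, htc, ht⟩ := hL.elim_countable_subcover O hO1 (fun x _ => mem_iUnion.2 ⟨x, hO2 x⟩)
  have htne : t.Nonempty := by
    obtain ⟨x⟩ := hneX
    have := ht (mem_univ x)
    simp only [mem_iUnion] at this
    obtain ⟨i, hi, _⟩ := this
    exact ⟨i, hi⟩
  obtain ⟨e, he⟩ := htc.exists_eq_range htne
  have h3 : ∀ n k, ∃ m, (∀ k, ∃ m, O (e n) ⊆ P k m) → O (e n) ⊆ P k m := by
    intro n k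
    by_cases h : ∃ m, O (e n) ⊆ P k m
    · obtain ⟨m, hm⟩ := h
      exact ⟨m, fun _ => hm⟩
    · exact ⟨0, fun h' => absurd (h' k) h⟩
  choose M hM using h3
  refine ⟨fun k => if k % 2 = 0 then g (k / 2) else φ k (M (k / 2) k), fun x => ?_⟩
  have := ht (mem_univ x)
  simp only [mem_iUnion] at this
  obtain ⟨i, hi, hxi⟩ := this
  rw [he] at hi
  obtain ⟨n, rfl⟩ := hi
  rcases hO3 (e n) with h | h
  · rw [h, mem_preimage] at hxi
    simp only [W, mem_iUnion] at hxi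
    obtain ⟨n, m, hm, hzm⟩ := hxi
    have hk : 2 * n % 2 = 0 := by omega
    have hk2 : 2 * n / 2 = n := by omega
    refine ⟨2 * n, m, ?_, hzm⟩
    simp only [hk, if_true, hk2]
    exact hm
  · have hk : ¬ (2 * n + 1) % 2 = 0 := by omega
    have hk2 : (2 * n + 1) / 2 = n := by omega
    refine ⟨2 * n + 1, φ (2 * n + 1) (M n (2 * n + 1)), ?_, hPV _ _ (hM n (2 * n + 1) h hxi)⟩
    simp only [hk, if_false, hk2]
    exact le_rfl

/-- Totally paracompact spaces `Z` with a dense Lindelöf subspace and a perfect map onto a space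
covered by fewer than `𝔟` continuous images of Lindelöf GO-spaces are Menger. -/
theorem menger_of_GO {ι : Type u'} {X : ι → Type u} [∀ i, LinearOrder (X i)]
    [∀ i, TopologicalSpace (X i)] {Y : Type v} [TopologicalSpace Y] {Z : Type w}
    [TopologicalSpace Z] (hgo : ∀ i, IsGOSpace (X i)) (hL : ∀ i, IsLindelof (univ : Set (X i)))
    (f : ∀ i, X i → Y) (hfc : ∀ i, Continuous (f i)) (hfs : ∀ y, ∃ i, y ∈ range (f i))
    (p : Z → Y) (hpc : Continuous p) (hpcl : IsClosedMap p)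
    (hps : Function.Surjective p) (hpk : ∀ y, IsCompact (p ⁻¹' {y}))
    (hZ : TotallyParacompact Z) (D : Set Z) (hD : Dense D) (hLD : IsLindelof D)
    (hb : ∀ F : ι → ℕ → ℕ, ∃ g : ℕ → ℕ, ∀ i, ∀ᶠ n in atTop, F i n ≤ g n) :
    MengerSpace Z := by
  classical
  intro 𝓤 h𝓤
  rcases isEmpty_or_nonempty Z with hemp | hne
  · exact ⟨fun _ => ∅, fun n => ⟨empty_subset _, Set.finite_empty⟩,
      eq_univ_of_forall (fun x => (hemp.false x).elim)⟩
  have hLZ : IsLindelof (univ : Set Z) := isLindelof_univ_of_dense hZ D hD hLD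
  -- refinements in `Y`
  have h1 : ∀ n, ∃ V : ℕ → Set Y, ∃ 𝓕 : ℕ → Set (Set Z), (∀ m, IsOpen (V m)) ∧
      (∀ m, 𝓕 m ⊆ 𝓤 n) ∧ (∀ m, (𝓕 m).Finite) ∧ (∀ m, p ⁻¹' (V m) ⊆ ⋃₀ (𝓕 m)) ∧
      ⋃ m, V m = univ := by
    intro n
    have hy : ∀ y : Y, ∃ V : Set Y, ∃ 𝓕 : Set (Set Z), IsOpen V ∧ y ∈ V ∧ 𝓕 ⊆ 𝓤 n ∧ 𝓕.Finite ∧
        p ⁻¹' V ⊆ ⋃₀ 𝓕 := by
      intro y
      obtain ⟨t, ht1, ht2, ht3⟩ := (hpk y).elim_finite_subcover_image
        (b := 𝓤 n) (c := fun U => U) (fun U hU => (h𝓤 n).1 U hU) (by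
          intro z _
          have hz : z ∈ ⋃₀ 𝓤 n := by rw [(h𝓤 n).2]; trivial
          rwa [sUnion_eq_biUnion] at hz)
      refine ⟨(p '' (⋃₀ t)ᶜ)ᶜ, t, ?_, ?_, ht1, ht2, ?_⟩
      · refine (hpcl _ ?_).isOpen_compl
        exact (isOpen_sUnion (fun U hU => (h𝓤 n).1 U (ht1 hU))).isClosed_compl
      · rintro ⟨z, hz, hzy⟩
        apply hz
        have := ht3 (show z ∈ p ⁻¹' {y} from hzy)
        rwa [sUnion_eq_biUnion]
      · intro z hz
        by_contra hcon
        exact hz ⟨z, hcon, rfl⟩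
    choose V' 𝓕' hV1 hV2 hV3 hV4 hV5 using hy
    obtain ⟨t, htc, ht⟩ := hLZ.elim_countable_subcover (fun y => p ⁻¹' (V' y))
      (fun y => (hV1 y).preimage hpc) (fun z _ => mem_iUnion.2 ⟨p z, hV2 (p z)⟩)
    have htne : t.Nonempty := by
      obtain ⟨z⟩ := hne
      have := ht (mem_univ z)
      simp only [mem_iUnion] at this
      obtain ⟨i, hi, _⟩ := this
      exact ⟨i, hi⟩
    obtain ⟨e, he⟩ := htc.exists_eq_range htne
    refine ⟨fun m => V' (e m), fun m => 𝓕' (e m), fun m => hV1 _, fun m => hV3 _, fun m => hV4 _,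
      fun m => hV5 _, eq_univ_of_forall (fun y => ?_)⟩
    obtain ⟨z, rfl⟩ := hps y
    have := ht (mem_univ z)
    simp only [mem_iUnion] at this
    obtain ⟨i, hi, hxi⟩ := this
    rw [he] at hi
    obtain ⟨m, rfl⟩ := hi
    exact mem_iUnion.2 ⟨m, hxi⟩
  choose V 𝓕 hVo h𝓕1 h𝓕2 h𝓕3 hVcov using h1
  -- selections, infinitely often
  have h2 : ∀ i, ∃ h : ℕ → ℕ, ∀ x : X i, ∃ᶠ n in atTop, ∃ m ≤ h n, f i x ∈ V n m := by
    intro i
    choose h hh using fun k : ℕ => selection_of_GO (hgo i) (hL i) (f i) (hfc i) p hpc hpcl hps hpk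
      hZ (fun n => V (Nat.pair k n)) (fun n m => hVo _ m) (fun n => hVcov _)
    refine ⟨fun n => h (Nat.unpair n).1 (Nat.unpair n).2, fun x => ?_⟩
    rw [Filter.frequently_atTop]
    intro k
    obtain ⟨j, m, hm, hj⟩ := hh k x
    refine ⟨Nat.pair k j, Nat.left_le_pair k j, m, ?_, hj⟩
    simpa using hm
  choose F hF using h2
  obtain ⟨g, hg⟩ := hb F
  refine ⟨fun n => ⋃ m ∈ {m | m ≤ g n}, 𝓕 n m, ?_, ?_⟩
  · intro n
    exact ⟨iUnion₂_subset (fun m _ => h𝓕1 n m),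
      (Set.finite_le_nat _).biUnion (fun m _ => h𝓕2 n m)⟩
  · refine eq_univ_of_forall (fun z => ?_)
    obtain ⟨i, x, hx⟩ := hfs (p z)
    obtain ⟨n, ⟨m, hm, hxm⟩, hn⟩ := ((hF i x).and_eventually (hg i)).exists
    rw [hx] at hxm
    obtain ⟨U, hU, hzU⟩ := h𝓕3 n m hxm
    refine mem_iUnion.2 ⟨n, U, ?_, hzU⟩
    simp only [mem_iUnion]
    exact ⟨m, hm.trans hn, hU⟩

end Pool.Helper454.TP
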