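import Pool.Agent.Helper454.TPCard

open Set Filter Topology TopologicalSpace
open scoped Cardinal

universe u v

namespace Pool.Helper454.TP

/-- `Y` is Hurewicz. -/
def HurewiczSpace (Y : Type u) [TopologicalSpace Y] : Prop :=
  ∀ 𝓤 : ℕ → Set (Set Y), (∀ n, (∀ U ∈ 𝓤 n, IsOpen U) ∧ ⋃₀ 𝓤 n = univ) →
    ∃ 𝓥 : ℕ → Set (Set Y), (∀ n, 𝓥 n ⊆ 𝓤 n ∧ (𝓥 n).Finite) ∧
      ∀ y, ∀ᶠ n in atTop, y ∈ ⋃₀ 𝓥 n

/-- A subspace which is Hurewicz is Lindelöf. -/
theorem HurewiczSpace.isLindelof {X : Type u} [TopologicalSpace X] {D : Set X}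
    (h : HurewiczSpace D) : IsLindelof D := by
  classical
  rw [isLindelof_iff_countable_subcover]
  intro ι U hUo hcov
  obtain ⟨𝓥, hV1, hV2⟩ := h (fun _ => range (fun i => (Subtype.val ⁻¹' (U i) : Set D)))
    (fun _ => ⟨by
      rintro _ ⟨i, rfl⟩
      exact (hUo i).preimage continuous_subtype_val, by
      refine eq_univ_of_forall (fun d => ?_)
      obtain ⟨i, hi⟩ := mem_iUnion.1 (hcov d.2)
      exact ⟨_, ⟨i, rfl⟩, hi⟩⟩)
  have hch : ∀ W : Set D, ∃ a : Set ι, a.Countable ∧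
      (W ∈ range (fun i => (Subtype.val ⁻¹' (U i) : Set D)) → ∃ i ∈ a, Subtype.val ⁻¹' (U i) = W) := by
    intro W
    by_cases hW : W ∈ range (fun i => (Subtype.val ⁻¹' (U i) : Set D))
    · obtain ⟨i, hi⟩ := hW
      exact ⟨{i}, countable_singleton i, fun _ => ⟨i, rfl, hi⟩⟩
    · exact ⟨∅, countable_empty, fun h' => absurd h' hW⟩
  choose a ha1 ha2 using hch
  refine ⟨⋃ n, ⋃ W ∈ 𝓥 n, a W, ?_, ?_⟩
  · exact countable_iUnion (fun n => (hV1 n).2.countable.biUnion (fun W _ => ha1 W))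
  · intro d hd
    obtain ⟨n, W, hW, hdW⟩ := (hV2 ⟨d, hd⟩).exists
    obtain ⟨i, hi, hiW⟩ := ha2 W ((hV1 n).1 hW)
    simp only [mem_iUnion]
    refine ⟨i, ⟨n, W, hW, hi⟩, ?_⟩
    rw [← hiW] at hdW
    exact hdW

theorem menger_of_tagged {X : Type u} [TopologicalSpace X] (hX : TotallyParacompact X)
    (D : Set X) (hD : Dense D) (hL : IsLindelof D) (ι : Type v) (C : ι → Set X)
    (hC : ∀ i, Tagged (C i)) (hcov : ∀ x : X, ∃ i, x ∈ C i)
    (hι : Cardinal.lift.{0} #ι < Cardinal.lift.{v} bnum) : MengerSpace X :=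
  menger_core hX D hD hL C hC hcov (bounded_of_lt hι)

theorem menger_of_cof {X : Type u} [TopologicalSpace X] (hX : TotallyParacompact X)
    (D : Set X) (hD : Dense D) (hL : IsLindelof D) (𝓚 : Set (Set X))
    (h𝓚 : ∀ K ∈ 𝓚, Tagged K)
    (hcov : ∀ x : X, ∃ 𝓐 : Set (Set X), 𝓐 ⊆ 𝓚 ∧ 𝓐.Countable ∧ x ∈ closure (⋃₀ 𝓐))
    (hcof : Cardinal.lift.{0} (cofCtbl 𝓚) < Cardinal.lift.{u} bnum) : MengerSpace X := by
  classical
  obtain ⟨𝓒, h0, h1, h2⟩ := exists_cof 𝓚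
  rw [← h0] at hcof
  refine menger_of_tagged hX D hD hL 𝓒 (fun c => closure (⋃ K ∈ (c : Set 𝓚), (K : Set X))) ?_ ?_ hcof
  · intro c
    rcases (c : Set 𝓚).eq_empty_or_nonempty with hc | hc
    · have hT := tagged_closure_iUnion (X := X) (C := fun _ => ∅)
        (fun _ => tagged_of_isCompact isCompact_empty)
      rw [hc]
      simpa using hT
    · obtain ⟨f, hf⟩ := (h1 c c.2).exists_eq_range hc
      have hT := tagged_closure_iUnion (X := X) (C := fun n => ((f n : 𝓚) : Set X))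
        (fun n => h𝓚 _ (f n).2)
      have he : (⋃ K ∈ (c : Set 𝓚), (K : Set X)) = ⋃ n, ((f n : 𝓚) : Set X) := by
        rw [hf, biUnion_range]
      rw [he]
      exact hT
  · intro x
    obtain ⟨𝓐, hA1, hA2, hA3⟩ := hcov x
    obtain ⟨c, hc, hac⟩ := h2 (Subtype.val ⁻¹' 𝓐) (hA2.preimage Subtype.val_injective)
    refine ⟨⟨c, hc⟩, closure_mono ?_ hA3⟩
    rintro y ⟨K, hK, hyK⟩
    simp only [mem_iUnion]
    exact ⟨⟨K, hA1 hK⟩, hac hK, hyK⟩

theorem exists_le_aleph {κ : Cardinal.{u}} (h : κ < ℵ_ Ordinal.omega0) : ∃ n : ℕ, κ ≤ ℵ_ n := by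
  rcases lt_or_ge κ ℵ₀ with h0 | h0
  · exact ⟨0, by simpa using h0.le⟩
  · obtain ⟨o, ho⟩ := Cardinal.mem_range_aleph_iff.2 h0
    rw [← ho, Cardinal.aleph_lt_aleph] at h
    obtain ⟨n, hn⟩ := Ordinal.lt_omega0.1 h
    exact ⟨n, by rw [← ho, hn]⟩

theorem aleph0_lt_bnum : ℵ₀ < bnum := by
  classical
  by_contra hcon
  have hle : bnum ≤ ℵ₀ := not_lt.1 hcon
  have hne : {κ : Cardinal.{0} | ∃ F : Set (ℕ → ℕ), #F = κ ∧
    ¬ ∃ g : ℕ → ℕ, ∀ f ∈ F, ∀ᶠ n in atTop, f n ≤ g n}.Nonempty := by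
    refine ⟨_, univ, rfl, ?_⟩
    rintro ⟨g, hg⟩
    obtain ⟨n, hn⟩ := (hg (fun n => g n + 1) trivial).exists
    simp at hn
  obtain ⟨F, hF, hunb⟩ := csInf_mem hne
  have hF' : #F = bnum := hF
  have hc : F.Countable := by
    rw [← hF'] at hle
    exact Cardinal.le_aleph0_iff_set_countable.1 hle
  refine hunb ?_
  rcases F.eq_empty_or_nonempty with h | h
  · exact ⟨fun _ => 0, fun f hf => by rw [h] at hf; exact hf.elim⟩
  · obtain ⟨e, he⟩ := hc.exists_eq_range h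
    refine ⟨fun n => ∑ i ∈ Finset.range (n + 1), e i n, ?_⟩
    intro f hf
    rw [he] at hf
    obtain ⟨i, rfl⟩ := hf
    filter_upwards [eventually_ge_atTop i] with n hn
    exact Finset.single_le_sum (f := fun i => e i n) (fun _ _ => Nat.zero_le _)
      (Finset.mem_range.2 (by omega))

/-- The countably tight case of the second question. -/
theorem menger_of_countablyTight {X : Type u} [TopologicalSpace X] (hX : TotallyParacompact X)
    (D : Set X) (hD : Dense D) (hL : IsLindelof D) (E : Set X)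
    (ht : ∀ x : X, ∃ A : Set X, A ⊆ E ∧ A.Countable ∧ x ∈ closure A)
    (h1 : #E < ℵ_ Ordinal.omega0)
    (h2 : Cardinal.lift.{0} #E < Cardinal.lift.{u} bnum) : MengerSpace X := by
  classical
  have hb0 : ℵ₀ < Cardinal.lift.{u} bnum := by
    rw [← Cardinal.lift_aleph0.{u, 0}, Cardinal.lift_lt]
    exact aleph0_lt_bnum
  refine menger_of_cof hX D hD hL ((fun x : X => ({x} : Set X)) '' E) ?_ ?_ ?_
  · rintro _ ⟨x, _, rfl⟩
    exact tagged_of_isCompact isCompact_singleton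
  · intro x
    obtain ⟨A, hA1, hA2, hA3⟩ := ht x
    refine ⟨(fun x : X => ({x} : Set X)) '' A, image_mono hA1, hA2.image _, ?_⟩
    rw [sUnion_image]
    simpa using hA3
  · have h3 : #((fun x : X => ({x} : Set X)) '' E : Set (Set X)) ≤ #E := Cardinal.mk_image_le
    obtain ⟨n, hn⟩ := exists_le_aleph h1
    have h4 := cofCtbl_le_max n _ (h3.trans hn)
    have h5 : cofCtbl ((fun x : X => ({x} : Set X)) '' E : Set (Set X)) ≤ max ℵ₀ #E :=
      h4.trans (max_le_max le_rfl h3)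
    refine lt_of_le_of_lt (Cardinal.lift_le.2 h5) ?_
    rw [Cardinal.lift_max]
    refine max_lt ?_ h2
    simpa using hb0

end Pool.Helper454.TP
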